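import Mathlib

/-!
# Product intersection sets

Common definitions and the main construction for the problems on product intersection sets of
families of subsets of a semigroup.
-/

set_option autoImplicit false

open Pointwise

namespace Pool.Agent.V11180.ProdInter

universe u v

/-- The `h`-fold product set `A ^ h = {a₁ a₂ ⋯ a_h : a_i ∈ A}` of a subset of a semigroup, for
`h ≥ 1`.  (The value at `h = 0` is a dummy value which is never used.) -/
def hfold {S : Type v} [Semigroup S] (A : Set S) : ℕ → Set S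
  | 0 => ∅
  | 1 => A
  | n + 2 => hfold A (n + 1) * A

/-- The product intersection set `H(A_q) = {h ≥ 1 : (⋂ q, A_q) ^ h = ⋂ q, (A_q) ^ h}`. -/
def interSet {Q : Type u} {S : Type v} [Semigroup S] (A : Q → Set S) : Set ℕ :=
  {h | 1 ≤ h ∧ hfold (⋂ q, A q) h = ⋂ q, hfold (A q) h}

/-- A sequence of sets is asymptotically strictly decreasing if it is decreasing and
`A_q ≠ A_{q+1}` for infinitely many `q`. -/
def AsympStrictDecreasing {S : Type v} (A : ℕ → Set S) : Prop :=
  (∀ q, A (q + 1) ⊆ A q) ∧ {q | A q ≠ A (q + 1)}.Infinite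

/-- `X ∈ 𝐇_Q`: the set `X` is the product intersection set of a family `(A_q)_{q ∈ Q}` of subsets
of some semigroup for which the set of sets `{A_q : q ∈ Q}` is infinite. -/
def HQ (Q : Type u) : Set (Set ℕ) :=
  {X | ∃ (S : Type v) (_ : Semigroup S) (A : Q → Set S), (Set.range A).Infinite ∧ interSet A = X}

/-- `X ∈ 𝐇*_ℕ`: the set `X` is the product intersection set of an asymptotically strictly
decreasing sequence of subsets of some semigroup. -/
def HstarN : Set (Set ℕ) :=
  {X | ∃ (S : Type v) (_ : Semigroup S) (A : ℕ → Set S), AsympStrictDecreasing A ∧ interSet A = X}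

lemma hfold_one {S : Type v} [Semigroup S] (A : Set S) : hfold A 1 = A := rfl

lemma hfold_succ {S : Type v} [Semigroup S] (A : Set S) (n : ℕ) :
    hfold A (n + 2) = hfold A (n + 1) * A := rfl

lemma one_mem_interSet {Q : Type u} {S : Type v} [Semigroup S] (A : Q → Set S) :
    1 ∈ interSet A := ⟨le_refl _, rfl⟩

/-- the underlying set of the semigroup -/
inductive Elt : Type v
  | zero : Elt
  | mk : ℕ → ℕ → ℕ → Elt

namespace Elt

/-- the multiplication: `mk n i j` is the `(j + 1)`-st power of the `i`-th generator of level `n`;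
the `n`-th powers of all generators of level `n` coincide -/
def mul : Elt.{v} → Elt.{v} → Elt.{v}
  | mk n i j, mk n' i' j' =>
      if n = n' ∧ i = i' ∧ j + j' + 2 ≤ n then mk n (if j + j' + 2 = n then 0 else i) (j + j' + 1)
      else zero
  | mk _ _ _, zero => zero
  | zero, _ => zero

instance : Mul Elt.{v} := ⟨mul⟩

lemma zero_mul' (a : Elt.{v}) : zero * a = zero := by
  show mul zero a = zero
  rfl

lemma mul_zero' (a : Elt.{v}) : a * zero = zero := by
  show mul a zero = zero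
  cases a <;> rfl

lemma mk_mul_mk (n i j n' i' j' : ℕ) : (mk n i j : Elt.{v}) * mk n' i' j' =
    if n = n' ∧ i = i' ∧ j + j' + 2 ≤ n then mk n (if j + j' + 2 = n then 0 else i) (j + j' + 1)
      else zero := rfl

lemma mk_mul_pos {n i j j' : ℕ} (h : j + j' + 2 ≤ n) : (mk n i j : Elt.{v}) * mk n i j' =
    mk n (if j + j' + 2 = n then 0 else i) (j + j' + 1) := by
  rw [mk_mul_mk]
  exact if_pos ⟨rfl, rfl, h⟩

lemma mk_mul_neg {n i j n' i' j' : ℕ} (h : ¬ (n = n' ∧ i = i' ∧ j + j' + 2 ≤ n)) :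
    (mk n i j : Elt.{v}) * mk n' i' j' = zero := by
  rw [mk_mul_mk]
  exact if_neg h

lemma mul_assoc' (a b c : Elt.{v}) : a * b * c = a * (b * c) := by
  rcases a with _ | ⟨n, i, j⟩
  · simp [zero_mul']
  rcases b with _ | ⟨n', i', j'⟩
  · simp [zero_mul', mul_zero']
  rcases c with _ | ⟨n'', i'', j''⟩
  · simp [mul_zero']
  by_cases h3 : n = n' ∧ n' = n'' ∧ i = i' ∧ i' = i'' ∧ j + j' + j'' + 3 ≤ n
  · obtain ⟨rfl, rfl, rfl, rfl, h3⟩ := h3
    rw [mk_mul_pos (by omega), mk_mul_pos (by omega), if_neg (by omega), if_neg (by omega),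
      mk_mul_pos (by omega), mk_mul_pos (by omega)]
    have e1 : j + j' + 1 + j'' + 2 = n ↔ j + (j' + j'' + 1) + 2 = n := by omega
    have e2 : j + j' + 1 + j'' + 1 = j + (j' + j'' + 1) + 1 := by omega
    simp only [e1, e2]
  · have hl : (mk n i j : Elt.{v}) * mk n' i' j' * mk n'' i'' j'' = zero := by
      by_cases h : n = n' ∧ i = i' ∧ j + j' + 2 ≤ n
      · obtain ⟨rfl, rfl, h⟩ := h
        rw [mk_mul_pos h]
        apply mk_mul_neg
        rintro ⟨k0, k1, k2⟩
        rw [if_neg (by omega)] at k1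
        exact h3 ⟨rfl, k0, rfl, k1, by omega⟩
      · rw [mk_mul_neg h, zero_mul']
    have hr : (mk n i j : Elt.{v}) * (mk n' i' j' * mk n'' i'' j'') = zero := by
      by_cases h : n' = n'' ∧ i' = i'' ∧ j' + j'' + 2 ≤ n'
      · obtain ⟨rfl, rfl, h⟩ := h
        rw [mk_mul_pos h]
        apply mk_mul_neg
        rintro ⟨k0, k1, k2⟩
        rw [if_neg (by omega)] at k1
        exact h3 ⟨k0, rfl, k1, rfl, by omega⟩
      · rw [mk_mul_neg h, mul_zero']
    rw [hl, hr]

lemma mul_comm' (a b : Elt.{v}) : a * b = b * a := by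
  rcases a with _ | ⟨n, i, j⟩
  · simp [zero_mul', mul_zero']
  rcases b with _ | ⟨n', i', j'⟩
  · simp [zero_mul', mul_zero']
  by_cases h : n = n' ∧ i = i' ∧ j + j' + 2 ≤ n
  · obtain ⟨rfl, rfl, h⟩ := h
    rw [mk_mul_pos h, mk_mul_pos (by omega), add_comm j j']
  · rw [mk_mul_neg h, mk_mul_neg]
    rintro ⟨rfl, rfl, h'⟩
    exact h ⟨rfl, rfl, by omega⟩

instance : Semigroup Elt.{v} := { (inferInstance : Mul Elt.{v}) with mul_assoc := mul_assoc' }

end Elt

open Elt

/-- the decreasing sequence of sets realising `X` -/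
def seqSet (X : Set ℕ) (q : ℕ) : Set Elt.{v} :=
  {x | x = zero ∨ ∃ n i, (n = 0 ∨ (2 ≤ n ∧ n ∉ X)) ∧ q ≤ i ∧ x = mk n i 0}

lemma mem_hfold_seqSet (X : Set ℕ) (q : ℕ) (h : ℕ) (x : Elt.{v}) :
    x ∈ hfold (seqSet X q) (h + 2) ↔
      (x = zero ∨ ∃ n i, 2 ≤ n ∧ n ∉ X ∧ q ≤ i ∧ h + 2 ≤ n ∧
        x = mk n (if h + 2 = n then 0 else i) (h + 1)) := by
  induction h generalizing x with
  | zero =>
    rw [hfold_succ]
    rw [hfold_one, Set.mem_mul]
    constructor
    · rintro ⟨a, ha, b, hb, rfl⟩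
      rcases ha with rfl | ⟨n, i, hn, hi, rfl⟩
      · left; exact zero_mul' _
      rcases hb with rfl | ⟨n', i', hn', hi', rfl⟩
      · left; exact mul_zero' _
      rw [mk_mul_mk]
      by_cases hc : n = n' ∧ i = i' ∧ 0 + 0 + 2 ≤ n
      · rw [if_pos hc]
        right
        rcases hn with hn | hn
        · omega
        · exact ⟨n, i, hn.1, hn.2, hi, by omega, by norm_num⟩
      · left; rw [if_neg hc]
    · rintro (rfl | ⟨n, i, h2, hX, hi, hn, rfl⟩)
      · exact ⟨zero, Or.inl rfl, zero, Or.inl rfl, zero_mul' _⟩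
      · refine ⟨mk n i 0, Or.inr ⟨n, i, Or.inr ⟨h2, hX⟩, hi, rfl⟩, mk n i 0,
          Or.inr ⟨n, i, Or.inr ⟨h2, hX⟩, hi, rfl⟩, ?_⟩
        rw [mk_mul_mk, if_pos ⟨rfl, rfl, by omega⟩]
  | succ h ih =>
    rw [hfold_succ, Set.mem_mul]
    constructor
    · rintro ⟨a, ha, b, hb, rfl⟩
      rcases (ih a).1 ha with rfl | ⟨n, i, h2, hX, hi, hn, rfl⟩
      · left; exact zero_mul' _
      rcases hb with rfl | ⟨n', i', hn', hi', rfl⟩
      · left; exact mul_zero' _
      rw [mk_mul_mk]
      by_cases hc : n = n' ∧ (if h + 2 = n then 0 else i) = i' ∧ h + 1 + 0 + 2 ≤ n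
      · rw [if_pos hc]
        right
        refine ⟨n, i, h2, hX, hi, by omega, ?_⟩
        rw [if_neg (c := h + 2 = n) (by omega)]
      · left; rw [if_neg hc]
    · rintro (rfl | ⟨n, i, h2, hX, hi, hn, rfl⟩)
      · exact ⟨zero, (ih _).2 (Or.inl rfl), zero, Or.inl rfl, zero_mul' _⟩
      · refine ⟨mk n i (h + 1), (ih _).2 (Or.inr ⟨n, i, h2, hX, hi, by omega, ?_⟩), mk n i 0,
          Or.inr ⟨n, i, Or.inr ⟨h2, hX⟩, hi, rfl⟩, ?_⟩
        · rw [if_neg (by omega)]
        · rw [mk_mul_mk, if_pos ⟨rfl, rfl, by omega⟩]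

lemma iInter_seqSet (X : Set ℕ) : (⋂ q, (seqSet X q : Set Elt.{v})) = {zero} := by
  ext x
  rw [Set.mem_iInter, Set.mem_singleton_iff]
  constructor
  · intro h
    rcases h 0 with h0 | ⟨n, i, hn, hi, rfl⟩
    · exact h0
    · rcases h (i + 1) with h1 | ⟨n', i', hn', hi', he⟩
      · exact h1
      · injection he with e1 e2
        omega
  · rintro rfl q
    exact Or.inl rfl

lemma hfold_zero_singleton (h : ℕ) : hfold ({zero} : Set Elt.{v}) (h + 1) = {zero} := by
  induction h with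
  | zero => rfl
  | succ h ih =>
    show hfold ({zero} : Set Elt.{v}) (h + 1) * {zero} = {zero}
    rw [ih, Set.singleton_mul_singleton, zero_mul']

lemma iInter_hfold (X : Set ℕ) (h : ℕ) : (⋂ q, hfold (seqSet.{v} X q) (h + 2)) =
    {x | x = zero ∨ (h + 2 ∉ X ∧ x = mk (h + 2) 0 (h + 1))} := by
  ext x
  rw [Set.mem_iInter]
  constructor
  · intro hx
    rcases (mem_hfold_seqSet X 0 h x).1 (hx 0) with h0 | ⟨n, i, h2, hX, hi, hn, rfl⟩
    · exact Or.inl h0
    · by_cases hn' : h + 2 = n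
      · subst hn'
        right
        exact ⟨hX, by simp⟩
      · rcases (mem_hfold_seqSet X (i + 1) h _).1 (hx (i + 1)) with h1 | ⟨n', i', _, _, hi', _, he⟩
        · exact Or.inl h1
        · rw [if_neg hn'] at he
          injection he with e1 e2
          subst e1
          rw [if_neg hn'] at e2
          omega
  · rintro (rfl | ⟨hX, rfl⟩) q
    · exact (mem_hfold_seqSet X q h _).2 (Or.inl rfl)
    · refine (mem_hfold_seqSet X q h _).2 (Or.inr ⟨h + 2, q, by omega, hX, le_refl _, le_refl _, ?_⟩)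
      simp

lemma interSet_seqSet (X : Set ℕ) (h1 : 1 ∈ X) (h0 : ∀ h ∈ X, 1 ≤ h) :
    interSet (seqSet.{v} X) = X := by
  ext h
  constructor
  · rintro ⟨hh, he⟩
    rcases h with _ | _ | h
    · omega
    · exact h1
    · by_contra hX
      rw [iInter_seqSet, iInter_hfold, show h + 1 + 1 = (h + 1) + 1 from rfl,
        hfold_zero_singleton] at he
      have : (mk (h + 2) 0 (h + 1) : Elt.{v}) ∈ ({zero} : Set Elt.{v}) := by
        rw [he]
        exact Or.inr ⟨hX, rfl⟩
      cases this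
  · intro hX
    refine ⟨h0 h hX, ?_⟩
    rcases h with _ | _ | h
    · have := h0 0 hX
      omega
    · rfl
    · rw [iInter_seqSet, iInter_hfold, show h + 1 + 1 = (h + 1) + 1 from rfl,
        hfold_zero_singleton]
      ext x
      constructor
      · intro hx
        exact Or.inl hx
      · rintro (hx | ⟨hx, -⟩)
        · exact hx
        · exact absurd hX hx

lemma seqSet_succ_subset (X : Set ℕ) (q : ℕ) : seqSet.{v} X (q + 1) ⊆ seqSet X q := by
  rintro x (rfl | ⟨n, i, hn, hi, rfl⟩)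
  · exact Or.inl rfl
  · exact Or.inr ⟨n, i, hn, by omega, rfl⟩

lemma seqSet_mono (X : Set ℕ) {p q : ℕ} (h : p ≤ q) : seqSet.{v} X q ⊆ seqSet X p := by
  rintro x (rfl | ⟨n, i, hn, hi, rfl⟩)
  · exact Or.inl rfl
  · exact Or.inr ⟨n, i, hn, by omega, rfl⟩

lemma mem_seqSet_self (X : Set ℕ) (q : ℕ) : (mk 0 q 0 : Elt.{v}) ∈ seqSet X q :=
  Or.inr ⟨0, q, Or.inl rfl, le_refl _, rfl⟩

lemma not_mem_seqSet (X : Set ℕ) {p q : ℕ} (h : p < q) : (mk 0 p 0 : Elt.{v}) ∉ seqSet X q := by
  rintro (h' | ⟨n, i, hn, hi, he⟩)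
  · cases h'
  · injection he with e1 e2
    omega

lemma seqSet_injective (X : Set ℕ) : Function.Injective (seqSet.{v} X) := by
  intro p q h
  rcases lt_trichotomy p q with hpq | hpq | hpq
  · exact absurd (h ▸ mem_seqSet_self X p) (not_mem_seqSet X hpq)
  · exact hpq
  · exact absurd (h ▸ mem_seqSet_self X q) (not_mem_seqSet X hpq)

lemma asymp (X : Set ℕ) : AsympStrictDecreasing (seqSet.{v} X) := by
  refine ⟨seqSet_succ_subset X, ?_⟩
  have : {q | seqSet.{v} X q ≠ seqSet X (q + 1)} = Set.univ := by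
    apply Set.eq_univ_of_forall
    intro q hq
    have := seqSet_injective X hq
    omega
  rw [this]
  exact Set.infinite_univ

/-- every set of positive integers containing `1` is the product intersection set of an
asymptotically strictly decreasing sequence -/
theorem mem_HstarN_iff (X : Set ℕ) : X ∈ HstarN.{v} ↔ 1 ∈ X ∧ ∀ h ∈ X, 1 ≤ h := by
  constructor
  · rintro ⟨S, _, A, -, rfl⟩
    exact ⟨one_mem_interSet A, fun h hh => hh.1⟩
  · rintro ⟨h1, h0⟩
    exact ⟨Elt, inferInstance, seqSet X, asymp X, interSet_seqSet X h1 h0⟩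

lemma interSet_comp {Q : Type u} {S : Type v} [Semigroup S] (A : ℕ → Set S) (f : Q → ℕ)
    (hf : Function.Surjective f) : interSet (fun q => A (f q)) = interSet A := by
  unfold interSet
  have e : ∀ B : ℕ → Set S, (⋂ q, B (f q)) = ⋂ n, B n := fun B => hf.iInter_comp B
  rw [e A]
  ext h
  simp only [Set.mem_ofPred_eq]
  rw [e (fun n => hfold (A n) h)]

/-- for every infinite index set, every set of positive integers containing `1` is a product
intersection set -/
theorem mem_HQ_iff (Q : Type u) [Infinite Q] (X : Set ℕ) :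
    X ∈ HQ.{u, v} Q ↔ 1 ∈ X ∧ ∀ h ∈ X, 1 ≤ h := by
  constructor
  · rintro ⟨S, _, A, -, rfl⟩
    exact ⟨one_mem_interSet A, fun h hh => hh.1⟩
  · rintro ⟨h1, h0⟩
    obtain ⟨f, hf⟩ : ∃ f : Q → ℕ, Function.Surjective f := by
      obtain ⟨g⟩ : Nonempty (ℕ ↪ Q) := ⟨Infinite.natEmbedding Q⟩
      exact ⟨Function.invFun g, Function.invFun_surjective g.injective⟩
    refine ⟨Elt, inferInstance, fun q => seqSet X (f q), ?_, ?_⟩
    · have : Set.range (fun q => seqSet.{v} X (f q)) = Set.range (seqSet.{v} X) := by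
        rw [show (fun q => seqSet.{v} X (f q)) = seqSet.{v} X ∘ f from rfl, hf.range_comp]
      rw [this]
      exact Set.infinite_range_of_injective (seqSet_injective X)
    · rw [interSet_comp _ f hf, interSet_seqSet X h1 h0]

end Pool.Agent.V11180.ProdInter
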