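import Mathlib

/-!
# Iterated majorities

The combinatorial part of the counterexample for Bohr sets in `B + c + A_i`. Elements of the group
`F_2^(ω)` are represented by their supports, finite subsets of `ℕ`; addition is the symmetric
difference.
-/

set_option autoImplicit false

open Finset
open scoped symmDiff

namespace Pool.Agent.V11180.BohrPart

lemma empty_sd (w : Finset ℕ) : (∅ : Finset ℕ) ∆ w = w := by
  ext j
  simp [mem_symmDiff]

lemma sd_empty (w : Finset ℕ) : w ∆ (∅ : Finset ℕ) = w := by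
  ext j
  simp [mem_symmDiff]

/-- the block of new coordinates attached to the old coordinate `b < L` -/
def J (L n b : ℕ) : Finset ℕ := (range (2 * n)).image (fun q => b + L * (q + 1))

lemma mem_J {L n b j : ℕ} : j ∈ J L n b ↔ ∃ q < 2 * n, b + L * (q + 1) = j := by
  simp [J]

lemma J_card {L n b : ℕ} (hL : 0 < L) : (J L n b).card = 2 * n := by
  rw [J, card_image_of_injective, card_range]
  intro q q' h
  simp only at h
  have h1 : L * (q + 1) = L * (q' + 1) := by omega
  have h2 := Nat.eq_of_mul_eq_mul_left hL h1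
  omega

lemma J_disj {L n b b' j : ℕ} (hb : b < L) (hb' : b' < L) (h : j ∈ J L n b)
    (h' : j ∈ J L n b') : b = b' := by
  rw [mem_J] at h h'
  obtain ⟨q, -, rfl⟩ := h
  obtain ⟨q', -, h'⟩ := h'
  have h1 := congrArg (· % L) h'
  simp only [Nat.add_mul_mod_self_left, Nat.mod_eq_of_lt hb, Nat.mod_eq_of_lt hb'] at h1
  exact h1.symm

lemma J_ge {L n b j : ℕ} (h : j ∈ J L n b) : L ≤ j := by
  rw [mem_J] at h
  obtain ⟨q, -, rfl⟩ := h
  have : L * 1 ≤ L * (q + 1) := Nat.mul_le_mul_left _ (by omega)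
  omega

lemma J_lt {L n b j : ℕ} (hb : b < L) (h : j ∈ J L n b) : j < L * (2 * n + 1) := by
  rw [mem_J] at h
  obtain ⟨q, hq, rfl⟩ := h
  have h1 : L * (q + 1) ≤ L * (2 * n) := Nat.mul_le_mul_left _ (by omega)
  have h2 : L * (2 * n + 1) = L * (2 * n) + L := by ring
  omega

/-- the old coordinates whose block has a clear majority of ones -/
def M (L n r : ℕ) (x : Finset ℕ) : Finset ℕ :=
  (range L).filter (fun b => n + r ≤ (x ∩ J L n b).card)

/-- the projection to the old coordinates -/
def Psi (L n r : ℕ) (x : Finset ℕ) : Finset ℕ := (x ∩ range L) ∆ M L n r x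

/-- all blocks are decisive -/
def Good (L n r : ℕ) (x : Finset ℕ) : Prop :=
  ∀ b < L, (x ∩ J L n b).card + r ≤ n ∨ n + r ≤ (x ∩ J L n b).card

/-- all blocks are nearly constant -/
def Adm (L n r : ℕ) (s : Finset ℕ) : Prop :=
  ∀ b < L, (s ∩ J L n b).card < r ∨ 2 * n < (s ∩ J L n b).card + r

instance (L n r : ℕ) (x : Finset ℕ) : Decidable (Good L n r x) := by
  unfold Good; infer_instance

lemma inter_symm (x s T : Finset ℕ) : (x ∆ s) ∩ T = (x ∩ T) ∆ (s ∩ T) := by
  ext j
  simp only [mem_inter, mem_symmDiff]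
  tauto

lemma card_facts {x s T : Finset ℕ} (hx : x ⊆ T) (hs : s ⊆ T) :
    s.card ≤ x.card + (x ∆ s).card ∧ (x ∆ s).card ≤ x.card + s.card ∧
      x.card ≤ s.card + (x ∆ s).card ∧ s.card + x.card + (x ∆ s).card ≤ 2 * T.card := by
  refine ⟨?_, ?_, ?_, ?_⟩
  · refine (card_le_card ?_).trans (card_union_le x (x ∆ s))
    intro j hj
    rw [mem_union, mem_symmDiff]
    tauto
  · refine (card_le_card ?_).trans (card_union_le x s)
    intro j hj
    rw [mem_symmDiff] at hj
    rw [mem_union]
    tauto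
  · refine (card_le_card ?_).trans (card_union_le s (x ∆ s))
    intro j hj
    rw [mem_union, mem_symmDiff]
    tauto
  · have h1 := card_union_add_card_inter s x
    have h2 : (s ∩ x).card + (x ∆ s).card ≤ T.card := by
      rw [← card_union_of_disjoint]
      · apply card_le_card
        intro j hj
        rw [mem_union, mem_inter, mem_symmDiff] at hj
        rcases hj with h | h | h
        · exact hs h.1
        · exact hx h.1
        · exact hs h.1
      · rw [disjoint_left]
        intro j h3 h4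
        rw [mem_inter] at h3
        rw [mem_symmDiff] at h4
        tauto
    have h3 : (s ∪ x).card ≤ T.card := card_le_card (union_subset hs hx)
    omega

lemma adm_good {L n r : ℕ} (hn : 3 * r ≤ n) {s : Finset ℕ} (h : Adm L n (2 * r) s) :
    Good L n r s := by
  intro b hb
  rcases h b hb with h | h <;> omega

lemma adm_mono {L n r r' : ℕ} (hr : r ≤ r') {s : Finset ℕ} (h : Adm L n r s) : Adm L n r' s := by
  intro b hb
  rcases h b hb with h | h <;> omega

/-- additivity of the majorities -/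
lemma M_add {L n r : ℕ} (hL : 0 < L) (hn : 3 * r ≤ n) (hr : 0 < r) {x s : Finset ℕ}
    (hx : Good L n r x) (hs : Adm L n (2 * r) s) (hxs : Good L n r (x ∆ s)) :
    M L n r (x ∆ s) = M L n r x ∆ M L n r s := by
  ext b
  rw [mem_symmDiff]
  simp only [M, mem_filter, mem_range]
  by_cases hb : b < L
  · have h1 := hx b hb
    have h2 := hs b hb
    have h3 := hxs b hb
    rw [inter_symm] at h3 ⊢
    obtain ⟨c1, c2, c3, c4⟩ := card_facts (x := x ∩ J L n b) (s := s ∩ J L n b)
      (T := J L n b) inter_subset_right inter_subset_right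
    rw [J_card hL] at c4
    constructor
    · rintro ⟨-, h⟩
      by_cases h4 : n + r ≤ (x ∩ J L n b).card
      · left
        refine ⟨⟨hb, h4⟩, ?_⟩
        rintro ⟨-, h5⟩
        omega
      · right
        refine ⟨⟨hb, ?_⟩, fun h5 => h4 h5.2⟩
        omega
    · rintro (⟨⟨-, h4⟩, h5⟩ | ⟨⟨-, h4⟩, h5⟩)
      · refine ⟨hb, ?_⟩
        have h6 : ¬ n + r ≤ (s ∩ J L n b).card := fun h => h5 ⟨hb, h⟩
        omega
      · refine ⟨hb, ?_⟩
        have h6 : ¬ n + r ≤ (x ∩ J L n b).card := fun h => h5 ⟨hb, h⟩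
        omega
  · tauto

lemma Psi_add {L n r : ℕ} (hL : 0 < L) (hn : 3 * r ≤ n) (hr : 0 < r) {x s : Finset ℕ}
    (hx : Good L n r x) (hs : Adm L n (2 * r) s) (hxs : Good L n r (x ∆ s)) :
    Psi L n r (x ∆ s) = Psi L n r x ∆ Psi L n r s := by
  rw [Psi, Psi, Psi, M_add hL hn hr hx hs hxs, inter_symm, symmDiff_symmDiff_symmDiff_comm]

/-- sets of old coordinates have empty blocks -/
lemma old_inter {L n b : ℕ} {w : Finset ℕ} (hw : w ⊆ range L) : w ∩ J L n b = ∅ := by
  rw [eq_empty_iff_forall_notMem]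
  intro j hj
  rw [mem_inter] at hj
  have h1 := mem_range.1 (hw hj.1)
  have h2 := J_ge hj.2
  omega

lemma old_adm {L n r : ℕ} (hr : 0 < r) {w : Finset ℕ} (hw : w ⊆ range L) : Adm L n r w := by
  intro b _
  rw [old_inter hw, card_empty]
  exact Or.inl hr

lemma old_M {L n r : ℕ} (hr : 0 < r) {w : Finset ℕ} (hw : w ⊆ range L) : M L n r w = ∅ := by
  rw [M, filter_eq_empty_iff]
  intro b _
  rw [old_inter hw, card_empty]
  omega

lemma old_Psi {L n r : ℕ} (hr : 0 < r) {w : Finset ℕ} (hw : w ⊆ range L) : Psi L n r w = w := by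
  rw [Psi, old_M hr hw, inter_eq_left.2 hw]
  simp

lemma add_old_inter {L n b : ℕ} {w x : Finset ℕ} (hw : w ⊆ range L) :
    (x ∆ w) ∩ J L n b = x ∩ J L n b := by
  rw [inter_symm, old_inter hw]
  simp

lemma add_old_good {L n r : ℕ} {w x : Finset ℕ} (hw : w ⊆ range L) :
    Good L n r (x ∆ w) ↔ Good L n r x := by
  unfold Good
  simp only [add_old_inter hw]

lemma add_old_adm {L n r : ℕ} {w x : Finset ℕ} (hw : w ⊆ range L) :
    Adm L n r (x ∆ w) ↔ Adm L n r x := by
  unfold Adm
  simp only [add_old_inter hw]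

lemma add_old_Psi {L n r : ℕ} {w x : Finset ℕ} (hw : w ⊆ range L) :
    Psi L n r (x ∆ w) = Psi L n r x ∆ w := by
  have h1 : M L n r (x ∆ w) = M L n r x := by
    unfold M
    simp only [add_old_inter hw]
  rw [Psi, Psi, h1, inter_symm, inter_eq_left.2 hw]
  rw [symmDiff_assoc, symmDiff_assoc, symmDiff_comm w]

/-- adding `s` never leads from the set to its translate by the coordinate `0` -/
def P (B : Finset (Finset ℕ)) (s : Finset ℕ) : Prop := ∀ x ∈ B, (x ∆ s) ∆ {0} ∉ B

/-- the next family -/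
def newB (L n r : ℕ) (B : Finset (Finset ℕ)) : Finset (Finset ℕ) :=
  (range (L * (2 * n + 1))).powerset.filter (fun x => Good L n r x ∧ Psi L n r x ∈ B)

lemma P_step {L n r : ℕ} (hL : 0 < L) (hn : 3 * r ≤ n) (hr : 0 < r) {B : Finset (Finset ℕ)}
    {s : Finset ℕ} (hs : Adm L n (2 * r) s) (h : P B (Psi L n r s)) : P (newB L n r B) s := by
  intro x hx hy
  rw [newB, mem_filter] at hx hy
  have h0 : ({0} : Finset ℕ) ⊆ range L := by
    intro j hj
    rw [mem_singleton] at hj
    rw [hj, mem_range]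
    exact hL
  have h1 := hy.2.1
  rw [add_old_good h0] at h1
  have h2 := hy.2.2
  rw [add_old_Psi h0, Psi_add hL hn hr hx.2.1 hs h1] at h2
  exact h _ hx.2.2 h2

/-! ### Counting -/

lemma centralBinom_sq (n : ℕ) : (Nat.centralBinom n) ^ 2 * (2 * n + 1) ≤ 16 ^ n := by
  induction n with
  | zero => simp
  | succ n ih =>
    have h1 := Nat.succ_mul_centralBinom_succ n
    have h2 : (n + 1) ^ 2 * ((Nat.centralBinom (n + 1)) ^ 2 * (2 * (n + 1) + 1)) ≤
        (n + 1) ^ 2 * 16 ^ (n + 1) := by
      calc (n + 1) ^ 2 * ((Nat.centralBinom (n + 1)) ^ 2 * (2 * (n + 1) + 1))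
          = ((n + 1) * Nat.centralBinom (n + 1)) ^ 2 * (2 * n + 3) := by ring
        _ = (2 * (2 * n + 1) * Nat.centralBinom n) ^ 2 * (2 * n + 3) := by rw [h1]
        _ = (4 * ((2 * n + 1) * (2 * n + 3))) * ((Nat.centralBinom n) ^ 2 * (2 * n + 1)) := by ring
        _ ≤ (4 * ((2 * n + 1) * (2 * n + 3))) * 16 ^ n := Nat.mul_le_mul_left _ ih
        _ ≤ (16 * (n + 1) ^ 2) * 16 ^ n := by
            apply Nat.mul_le_mul_right
            nlinarith
        _ = (n + 1) ^ 2 * 16 ^ (n + 1) := by ring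
    exact Nat.le_of_mul_le_mul_left h2 (by positivity)

lemma exists_n (m L r : ℕ) : ∃ n, 3 * r ≤ n ∧
    L * (2 * r * Nat.centralBinom n) * 2 ^ (m + 3) ≤ 4 ^ n := by
  refine ⟨3 * r + (L * (2 * r) * 2 ^ (m + 3)) ^ 2, by omega, ?_⟩
  set n := 3 * r + (L * (2 * r) * 2 ^ (m + 3)) ^ 2 with hn
  have h1 := centralBinom_sq n
  have h2 : (L * (2 * r * Nat.centralBinom n) * 2 ^ (m + 3)) ^ 2 ≤ (4 ^ n) ^ 2 := by
    calc (L * (2 * r * Nat.centralBinom n) * 2 ^ (m + 3)) ^ 2
        = (Nat.centralBinom n) ^ 2 * (L * (2 * r) * 2 ^ (m + 3)) ^ 2 := by ring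
      _ ≤ (Nat.centralBinom n) ^ 2 * (2 * n + 1) := Nat.mul_le_mul_left _ (by omega)
      _ ≤ 16 ^ n := h1
      _ = (4 ^ n) ^ 2 := by
          rw [← pow_mul, mul_comm n 2, pow_mul]
          norm_num
  exact (Nat.pow_le_pow_iff_left (by norm_num)).1 h2

/-- undecided subsets of a block -/
lemma undecided_le {T : Finset ℕ} {n r : ℕ} (hT : T.card = 2 * n) (hrn : r ≤ n) :
    (T.powerset.filter (fun y => ¬ (y.card + r ≤ n ∨ n + r ≤ y.card))).card ≤
      2 * r * Nat.centralBinom n := by
  have h1 : T.powerset.filter (fun y => ¬ (y.card + r ≤ n ∨ n + r ≤ y.card)) ⊆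
      (Ico (n - r) (n + r)).biUnion (fun w => powersetCard w T) := by
    intro y hy
    rw [mem_filter, mem_powerset] at hy
    rw [mem_biUnion]
    refine ⟨y.card, ?_, mem_powersetCard.2 ⟨hy.1, rfl⟩⟩
    rw [mem_Ico]
    omega
  refine (card_le_card h1).trans (card_biUnion_le.trans ?_)
  have h2 : ∀ w ∈ Ico (n - r) (n + r), (powersetCard w T).card ≤ Nat.centralBinom n := by
    intro w _
    rw [card_powersetCard, hT]
    exact Nat.choose_le_centralBinom w n
  refine (sum_le_card_nsmul _ _ _ h2).trans ?_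
  rw [Nat.card_Ico, smul_eq_mul]
  apply Nat.mul_le_mul_right
  omega

lemma block_undecided {L n r b : ℕ} (hb : b < L) (hrn : r ≤ n) :
    ((range (L * (2 * n + 1))).powerset.filter (fun x =>
      ¬ ((x ∩ J L n b).card + r ≤ n ∨ n + r ≤ (x ∩ J L n b).card))).card ≤
      2 * r * Nat.centralBinom n * 2 ^ (L * (2 * n + 1) - 2 * n) := by
  classical
  have hL : 0 < L := by omega
  have hJ : J L n b ⊆ range (L * (2 * n + 1)) := by
    intro j hj
    rw [mem_range]
    exact J_lt hb hj
  have h1 : ((range (L * (2 * n + 1))).powerset.filter (fun x =>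
      ¬ ((x ∩ J L n b).card + r ≤ n ∨ n + r ≤ (x ∩ J L n b).card))).card ≤
      (((J L n b).powerset.filter (fun y => ¬ (y.card + r ≤ n ∨ n + r ≤ y.card))) ×ˢ
        (range (L * (2 * n + 1)) \ J L n b).powerset).card := by
    apply card_le_card_of_injOn (fun x => (x ∩ J L n b, x \ J L n b))
    · intro x hx
      rw [mem_coe, mem_filter, mem_powerset] at hx
      rw [mem_coe, mem_product, mem_filter, mem_powerset, mem_powerset]
      exact ⟨⟨inter_subset_right, hx.2⟩, sdiff_subset_sdiff hx.1 (Subset.refl _)⟩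
    · intro x _ y _ h
      simp only [Prod.mk.injEq] at h
      rw [← sdiff_union_inter x (J L n b), ← sdiff_union_inter y (J L n b), h.1, h.2]
  rw [card_product, card_powerset, card_sdiff_of_subset hJ, card_range, J_card hL] at h1
  exact h1.trans (Nat.mul_le_mul_right _ (undecided_le (J_card hL) hrn))

lemma newB_count {L n r : ℕ} (hrn : r ≤ n) {B : Finset (Finset ℕ)}
    (hB : B ⊆ (range L).powerset) :
    B.card * 2 ^ (L * (2 * n + 1) - L) ≤ (newB L n r B).card +
      L * (2 * r * Nat.centralBinom n * 2 ^ (L * (2 * n + 1) - 2 * n)) := by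
  classical
  set W := (range (L * (2 * n + 1))).powerset.filter (fun x => Psi L n r x ∈ B) with hW
  have hLL : L ≤ L * (2 * n + 1) := Nat.le_mul_of_pos_right _ (by omega)
  have h1 : B.card * 2 ^ (L * (2 * n + 1) - L) ≤ W.card := by
    have h2 : (B ×ˢ (Ico L (L * (2 * n + 1))).powerset).card ≤ W.card := by
      apply card_le_card_of_injOn (fun p => (p.1 ∆ M L n r p.2) ∆ p.2)
      · rintro ⟨a, v⟩ hp
        rw [mem_coe, mem_product, mem_powerset] at hp
        obtain ⟨ha, hv⟩ := hp
        simp only at ha hv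
        have ha' : a ⊆ range L := mem_powerset.1 (hB ha)
        have hM : M L n r v ⊆ range L := filter_subset _ _
        have haM : a ∆ M L n r v ⊆ range L := by
          intro j hj
          rw [mem_symmDiff] at hj
          rcases hj with h | h
          · exact ha' h.1
          · exact hM h.1
        rw [mem_coe, hW, mem_filter, mem_powerset]
        simp only
        constructor
        · intro j hj
          rw [mem_symmDiff] at hj
          rw [mem_range]
          rcases hj with h | h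
          · have := mem_range.1 (haM h.1)
            omega
          · exact (mem_Ico.1 (hv h.1)).2
        · rw [symmDiff_comm, add_old_Psi haM]
          have h3 : v ∩ range L = ∅ := by
            rw [eq_empty_iff_forall_notMem]
            intro j hj
            rw [mem_inter, mem_range] at hj
            have := (mem_Ico.1 (hv hj.1)).1
            omega
          have h4 : Psi L n r v = M L n r v := by
            rw [Psi, h3]
            simp
          rw [h4, symmDiff_comm a, symmDiff_symmDiff_cancel_left]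
          exact ha
      · rintro ⟨a, v⟩ hp ⟨a', v'⟩ hp' h
        rw [mem_coe, mem_product, mem_powerset] at hp hp'
        obtain ⟨ha, hv⟩ := hp
        obtain ⟨ha', hv'⟩ := hp'
        simp only at ha hv ha' hv' h
        have h5 : ∀ a v : Finset ℕ, a ∈ B → v ⊆ Ico L (L * (2 * n + 1)) →
            ((a ∆ M L n r v) ∆ v) ∩ Ico L (L * (2 * n + 1)) = v := by
          intro a v ha hv
          have ha' : a ⊆ range L := mem_powerset.1 (hB ha)
          ext j
          rw [mem_inter, mem_symmDiff, mem_symmDiff, mem_Ico]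
          simp only [M, mem_filter, mem_range]
          constructor
          · rintro ⟨h | h, h'⟩
            · exfalso
              rcases h.1 with h | h
              · have := mem_range.1 (ha' h.1)
                omega
              · omega
            · exact h.1
          · intro hj
            have h6 := mem_Ico.1 (hv hj)
            refine ⟨Or.inr ⟨hj, ?_⟩, h6⟩
            rintro (h | h)
            · have := mem_range.1 (ha' h.1)
              omega
            · omega
        have h6 : v = v' := by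
          rw [← h5 a v ha hv, ← h5 a' v' ha' hv', h]
        subst h6
        have h7 : a = a' := by
          have h8 := congrArg (fun x => (x ∆ v) ∆ M L n r v) h
          simpa only [symmDiff_symmDiff_cancel_right] using h8
        rw [h7]
    rwa [card_product, card_powerset, Nat.card_Ico] at h2
  have h2 : W ⊆ newB L n r B ∪ (range L).biUnion (fun b =>
      (range (L * (2 * n + 1))).powerset.filter (fun x =>
        ¬ ((x ∩ J L n b).card + r ≤ n ∨ n + r ≤ (x ∩ J L n b).card))) := by
    intro x hx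
    rw [hW, mem_filter] at hx
    rw [mem_union]
    by_cases hg : Good L n r x
    · left
      rw [newB, mem_filter]
      exact ⟨hx.1, hg, hx.2⟩
    · right
      unfold Good at hg
      push Not at hg
      obtain ⟨b, hb, h⟩ := hg
      rw [mem_biUnion]
      refine ⟨b, mem_range.2 hb, mem_filter.2 ⟨hx.1, ?_⟩⟩
      omega
  have h3 : ((range L).biUnion (fun b =>
      (range (L * (2 * n + 1))).powerset.filter (fun x =>
        ¬ ((x ∩ J L n b).card + r ≤ n ∨ n + r ≤ (x ∩ J L n b).card)))).card ≤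
      L * (2 * r * Nat.centralBinom n * 2 ^ (L * (2 * n + 1) - 2 * n)) := by
    have h4 := card_biUnion_le_card_mul (range L) (fun b =>
      (range (L * (2 * n + 1))).powerset.filter (fun x =>
        ¬ ((x ∩ J L n b).card + r ≤ n ∨ n + r ≤ (x ∩ J L n b).card)))
      (2 * r * Nat.centralBinom n * 2 ^ (L * (2 * n + 1) - 2 * n))
      (fun b hb => block_undecided (mem_range.1 hb) hrn)
    rwa [card_range] at h4
  have h4 := (card_le_card h2).trans (card_union_le _ _)
  omega

/-! ### The sequence -/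

/-- half the size of the blocks of step `m` over `L` coordinates -/
noncomputable def nn (m L : ℕ) : ℕ := (exists_n m L (m + 1)).choose

lemma nn_spec (m L : ℕ) : 3 * (m + 1) ≤ nn m L ∧
    L * (2 * (m + 1) * Nat.centralBinom (nn m L)) * 2 ^ (m + 3) ≤ 4 ^ (nn m L) :=
  (exists_n m L (m + 1)).choose_spec

/-- the number of coordinates used up to step `m` -/
noncomputable def LL : ℕ → ℕ
  | 0 => 1
  | m + 1 => LL m * (2 * nn m (LL m) + 1)

lemma LL_succ (m : ℕ) : LL (m + 1) = LL m * (2 * nn m (LL m) + 1) := rfl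

lemma LL_pos (m : ℕ) : 0 < LL m := by
  induction m with
  | zero => exact Nat.one_pos
  | succ m ih =>
    rw [LL_succ]
    exact Nat.mul_pos ih (by omega)

lemma LL_lt (m : ℕ) : LL m < LL (m + 1) := by
  rw [LL_succ]
  have h1 := (nn_spec m (LL m)).1
  have h2 := LL_pos m
  nlinarith

lemma LL_mono : Monotone LL := monotone_nat_of_le_succ (fun m => (LL_lt m).le)

lemma lt_LL (m : ℕ) : m < LL m := by
  induction m with
  | zero => exact LL_pos 0
  | succ m ih =>
    have := LL_lt m
    omega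

/-- the sets `B ∩ G_m` -/
noncomputable def BB : ℕ → Finset (Finset ℕ)
  | 0 => {∅}
  | m + 1 => newB (LL m) (nn m (LL m)) (m + 1) (BB m)

lemma BB_succ (m : ℕ) : BB (m + 1) = newB (LL m) (nn m (LL m)) (m + 1) (BB m) := rfl

lemma BB_subset (m : ℕ) : BB m ⊆ (range (LL m)).powerset := by
  cases m with
  | zero =>
    intro x hx
    have : x = ∅ := by simpa [BB] using hx
    rw [this]
    exact empty_mem_powerset _
  | succ m =>
    rw [BB_succ, newB, LL_succ]
    exact filter_subset _ _

lemma BB_mono_succ (m : ℕ) : BB m ⊆ BB (m + 1) := by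
  intro x hx
  have h1 := mem_powerset.1 (BB_subset m hx)
  rw [BB_succ, newB, mem_filter, mem_powerset]
  refine ⟨?_, ?_, ?_⟩
  · rw [← LL_succ]
    exact h1.trans (range_subset_range.2 (LL_lt m).le)
  · apply adm_good (nn_spec m (LL m)).1
    exact old_adm (by omega) h1
  · rw [old_Psi (by omega) h1]
    exact hx

lemma BB_mono : Monotone BB := monotone_nat_of_le_succ BB_mono_succ

/-- the family `Z_m` -/
def ZZ (m : ℕ) : Set (Finset ℕ) :=
  {z | z ⊆ range (LL (m + 1)) ∧ Adm (LL m) (nn m (LL m)) (m + 1) z ∧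
    Psi (LL m) (nn m (LL m)) (m + 1) z = ∅}

lemma P_mono_succ {m : ℕ} {s : Finset ℕ} (hs : s ⊆ range (LL m)) (h : P (BB m) s) :
    P (BB (m + 1)) s := by
  rw [BB_succ]
  apply P_step (LL_pos m) (nn_spec m (LL m)).1 (by omega) (old_adm (by omega) hs)
  rw [old_Psi (by omega) hs]
  exact h

lemma P_mono {m m' : ℕ} (hm : m ≤ m') {s : Finset ℕ} (hs : s ⊆ range (LL m)) (h : P (BB m) s) :
    P (BB m') s := by
  induction m', hm using Nat.le_induction with
  | base => exact h
  | succ k hk ih => exact P_mono_succ (hs.trans (range_subset_range.2 (LL_mono hk))) ih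

lemma P_empty (m : ℕ) : P (BB m) ∅ := by
  apply P_mono (Nat.zero_le m) (empty_subset _)
  intro x hx hy
  have h1 : x = ∅ := by simpa [BB] using hx
  subst h1
  simp [BB] at hy

lemma P_Z_old {m : ℕ} {z w : Finset ℕ} (hz : z ∈ ZZ m) (hw : w ⊆ range (LL m))
    (h : P (BB m) w) : P (BB (m + 1)) (z ∆ w) := by
  rw [BB_succ]
  apply P_step (LL_pos m) (nn_spec m (LL m)).1 (by omega)
  · rw [add_old_adm hw]
    exact adm_mono (by omega) hz.2.1
  · rw [add_old_Psi hw, hz.2.2, empty_sd]
    exact h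

lemma P_Z {m : ℕ} {z : Finset ℕ} (hz : z ∈ ZZ m) : P (BB (m + 1)) z := by
  have := P_Z_old hz (empty_subset _) (P_empty m)
  rwa [sd_empty] at this

lemma P_Z_Z {m : ℕ} {z w : Finset ℕ} (hz : z ∈ ZZ m) (hw : w ∈ ZZ m) :
    P (BB (m + 1)) (z ∆ w) := by
  have hn := (nn_spec m (LL m)).1
  have hadm : Adm (LL m) (nn m (LL m)) (2 * (m + 1)) (z ∆ w) := by
    intro b hb
    obtain ⟨c1, c2, c3, c4⟩ := card_facts (x := z ∩ J (LL m) (nn m (LL m)) b)
      (s := w ∩ J (LL m) (nn m (LL m)) b) (T := J (LL m) (nn m (LL m)) b)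
      inter_subset_right inter_subset_right
    rw [J_card (LL_pos m)] at c4
    rw [inter_symm]
    have h1 := hz.2.1 b hb
    have h2 := hw.2.1 b hb
    rcases h1 with h1 | h1 <;> rcases h2 with h2 | h2
    · left; omega
    · right; omega
    · right; omega
    · left; omega
  rw [BB_succ]
  apply P_step (LL_pos m) hn (by omega) hadm
  rw [Psi_add (LL_pos m) hn (by omega) (adm_good hn (adm_mono (by omega) hz.2.1))
    (adm_mono (by omega) hw.2.1) (adm_good hn hadm), hz.2.2, hw.2.2, sd_empty]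
  exact P_empty m

/-- all sums of two elements of the union of the `Z_m` are harmless -/
theorem P_all {m m' k : ℕ} {z w : Finset ℕ} (hz : z ∈ ZZ m) (hw : w ∈ ZZ m') (h1 : m < k)
    (h2 : m' < k) : P (BB k) (z ∆ w) := by
  have hsub : ∀ {m' k : ℕ} {w : Finset ℕ}, w ∈ ZZ m' → m' < k → w ⊆ range (LL k) := by
    intro m' k w hw h
    exact hw.1.trans (range_subset_range.2 (LL_mono h))
  have hsymm : ∀ {a b : Finset ℕ} {k : ℕ}, a ⊆ range (LL k) → b ⊆ range (LL k) →
      a ∆ b ⊆ range (LL k) := by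
    intro a b k ha hb j hj
    rw [mem_symmDiff] at hj
    rcases hj with h | h
    · exact ha h.1
    · exact hb h.1
  have key : ∀ {m m' k : ℕ} {z w : Finset ℕ}, z ∈ ZZ m → w ∈ ZZ m' → m' < m → m < k →
      P (BB k) (z ∆ w) := by
    intro m m' k z w hz hw h1 h2
    have h3 : P (BB m) w := P_mono h1 (hsub hw (Nat.lt_succ_self _)) (P_Z hw)
    have h4 := P_Z_old hz (hsub hw h1) h3
    exact P_mono h2 (hsymm (hsub hz (Nat.lt_succ_self _)) (hsub hw (by omega))) h4
  rcases lt_trichotomy m m' with h | h | h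
  · rw [symmDiff_comm]
    exact key hw hz h h2
  · subst h
    exact P_mono h1 (hsymm (hsub hz (Nat.lt_succ_self _)) (hsub hw (Nat.lt_succ_self _)))
      (P_Z_Z hz hw)
  · exact key hz hw h h1

/-- the density of the families -/
theorem BB_density (m : ℕ) : (1 / 4 : ℝ) + 1 / 2 ^ (m + 2) ≤ ((BB m).card : ℝ) / 2 ^ (LL m) := by
  induction m with
  | zero =>
    have h1 : (BB 0).card = 1 := by simp [BB]
    have h2 : LL 0 = 1 := rfl
    rw [h1, h2]
    norm_num
  | succ m ih =>
    set L := LL m with hL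
    set n := nn m L with hn
    obtain ⟨h1, h2⟩ := nn_spec m L
    rw [← hn] at h1 h2
    have hLpos : 0 < L := LL_pos m
    have h3 := newB_count (L := L) (n := n) (r := m + 1) (by omega) (BB_subset m)
    have hLL : L ≤ L * (2 * n + 1) := Nat.le_mul_of_pos_right _ (by omega)
    have hnL : 2 * n ≤ L * (2 * n + 1) := by nlinarith
    have hsucc : LL (m + 1) = L * (2 * n + 1) := rfl
    have hBs : BB (m + 1) = newB L n (m + 1) (BB m) := rfl
    rw [hBs, hsucc]
    set L' := L * (2 * n + 1) with hL'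
    have h4 : ((BB m).card : ℝ) * 2 ^ (L' - L) ≤ (newB L n (m + 1) (BB m)).card +
        L * (2 * (m + 1) * Nat.centralBinom n * 2 ^ (L' - 2 * n)) := by exact_mod_cast h3
    have h5 : (L : ℝ) * (2 * (m + 1) * Nat.centralBinom n) * 2 ^ (m + 3) ≤ 4 ^ n := by
      exact_mod_cast h2
    have e1 : (2 : ℝ) ^ L' = 2 ^ (L' - L) * 2 ^ L := by
      rw [← pow_add]
      congr 1
      omega
    have e2 : (2 : ℝ) ^ L' = 2 ^ (L' - 2 * n) * 4 ^ n := by
      rw [show (4 : ℝ) = 2 ^ 2 by norm_num, ← pow_mul, ← pow_add]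
      congr 1
      omega
    rw [le_div_iff₀ (by positivity)] at ih ⊢
    have h6 : ((1 / 4 : ℝ) + 1 / 2 ^ (m + 2)) * 2 ^ L' ≤ ((BB m).card : ℝ) * 2 ^ (L' - L) := by
      rw [e1]
      calc ((1 / 4 : ℝ) + 1 / 2 ^ (m + 2)) * (2 ^ (L' - L) * 2 ^ L)
          = (((1 / 4 : ℝ) + 1 / 2 ^ (m + 2)) * 2 ^ L) * 2 ^ (L' - L) := by ring
        _ ≤ ((BB m).card : ℝ) * 2 ^ (L' - L) :=
            mul_le_mul_of_nonneg_right ih (by positivity)
    have h7 : (L : ℝ) * (2 * (m + 1) * Nat.centralBinom n * 2 ^ (L' - 2 * n)) ≤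
        1 / 2 ^ (m + 3) * 2 ^ L' := by
      rw [e2, div_mul_eq_mul_div, le_div_iff₀ (by positivity)]
      calc (L : ℝ) * (2 * (m + 1) * Nat.centralBinom n * 2 ^ (L' - 2 * n)) * 2 ^ (m + 3)
          = ((L : ℝ) * (2 * (m + 1) * Nat.centralBinom n) * 2 ^ (m + 3)) * 2 ^ (L' - 2 * n) := by
            ring
        _ ≤ 4 ^ n * 2 ^ (L' - 2 * n) := mul_le_mul_of_nonneg_right h5 (by positivity)
        _ = 1 * (2 ^ (L' - 2 * n) * 4 ^ n) := by ring
    have h8 : (1 : ℝ) / 2 ^ (m + 2) = 1 / 2 ^ (m + 1 + 2) + 1 / 2 ^ (m + 3) := by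
      rw [show m + 1 + 2 = m + 3 by ring, pow_succ (2 : ℝ) (m + 2)]
      field_simp
      norm_num
    rw [h8] at h6
    nlinarith

end Pool.Agent.V11180.BohrPart
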