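import Mathlib
import Pool.Agent.V11180.BohrPart

/-!
# Majorities of binary digits of integers in a fast growing mixed radix system
-/

set_option autoImplicit false

open Finset

namespace Pool.Agent.V11180.IPBits

section Scales

variable (C : ℕ → ℕ)

/-- bound for the coefficients at place `l` -/
def Cl (l : ℕ) : ℕ := ∑ j ∈ range (l + 1), C j + 2

/-- the place values -/
def s : ℕ → ℕ
  | 0 => 4
  | l + 1 => s l * (4 * 2 ^ (l + 8) * (Cl C l + 1))

lemma s_succ (l : ℕ) : s C (l + 1) = s C l * (4 * 2 ^ (l + 8) * (Cl C l + 1)) := rfl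

lemma s_pos (l : ℕ) : 0 < s C l := by
  induction l with
  | zero => exact Nat.succ_pos 3
  | succ l ih =>
    rw [s_succ]
    positivity

lemma s_growth (l : ℕ) : 1024 * s C l ≤ s C (l + 1) := by
  rw [s_succ]
  have h1 : 2 ^ 8 ≤ 2 ^ (l + 8) := Nat.pow_le_pow_right (by norm_num) (by omega)
  have h2 : 1024 ≤ 4 * 2 ^ (l + 8) * (Cl C l + 1) := by
    have : 4 * 2 ^ 8 * 1 ≤ 4 * 2 ^ (l + 8) * (Cl C l + 1) :=
      Nat.mul_le_mul (Nat.mul_le_mul_left _ h1) (by omega)
    omega
  have := Nat.mul_le_mul_left (s C l) h2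
  omega

lemma s_dvd_succ (l : ℕ) : 4 * s C l ∣ s C (l + 1) :=
  ⟨2 ^ (l + 8) * (Cl C l + 1), by rw [s_succ]; ring⟩

lemma s_dvd {l l' : ℕ} (h : l < l') : 4 * s C l ∣ s C l' := by
  induction l', h using Nat.le_induction with
  | base => exact s_dvd_succ C l
  | succ k hk ih => exact ih.trans ((Dvd.intro_left 4 rfl).trans (s_dvd_succ C k))

lemma four_dvd (l : ℕ) : 4 ∣ s C l := by
  cases l with
  | zero => exact ⟨1, rfl⟩
  | succ l => exact (Dvd.intro _ rfl).trans (s_dvd_succ C l)

lemma lt_s (l : ℕ) : 4 * l < s C l := by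
  induction l with
  | zero => exact s_pos C 0
  | succ l ih =>
    have := s_growth C l
    omega

lemma s_mono {l l' : ℕ} (h : l ≤ l') : s C l ≤ s C l' := by
  induction l', h using Nat.le_induction with
  | base => exact le_rfl
  | succ k hk ih =>
    have := s_growth C k
    omega

/-- bound for the lower part of a combination -/
def D (l : ℕ) : ℕ := ∑ l' ∈ range l, Cl C l' * s C l'

lemma D_le (l : ℕ) : D C l * 2 ^ (l + 6) ≤ s C l := by
  induction l with
  | zero => simp [D]
  | succ l ih =>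
    have h1 : D C (l + 1) = D C l + Cl C l * s C l := by rw [D, sum_range_succ, D]
    have h2 : D C l ≤ s C l := le_trans (Nat.le_mul_of_pos_right _ (by positivity)) ih
    rw [h1, s_succ]
    calc (D C l + Cl C l * s C l) * 2 ^ (l + 1 + 6)
        ≤ (s C l + Cl C l * s C l) * 2 ^ (l + 1 + 6) := by gcongr
      _ = s C l * (2 ^ (l + 7) * (Cl C l + 1)) := by ring
      _ ≤ s C l * (4 * 2 ^ (l + 8) * (Cl C l + 1)) := by
          apply Nat.mul_le_mul_left
          apply Nat.mul_le_mul_right
          have : 2 ^ (l + 8) = 2 * 2 ^ (l + 7) := by ring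
          omega

lemma D_small (l : ℕ) : 64 * D C l ≤ s C l := by
  have h1 := D_le C l
  have h2 : 2 ^ 6 ≤ 2 ^ (l + 6) := Nat.pow_le_pow_right (by norm_num) (by omega)
  have h3 := Nat.mul_le_mul_left (D C l) h2
  omega

/-- the offsets -/
def c (l : ℕ) : ℕ := ∑ l' ∈ range (l + 1), s C l' / 2

lemma c_succ (l : ℕ) : c C (l + 1) = c C l + s C (l + 1) / 2 := by
  rw [c, sum_range_succ, ← c]

lemma c_le (l : ℕ) : 16 * c C l ≤ 9 * s C l := by
  induction l with
  | zero => simp [c, s]
  | succ l ih =>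
    rw [c_succ]
    have := s_growth C l
    omega

lemma le_c (l : ℕ) : s C l ≤ 2 * c C l := by
  have h4 := four_dvd C l
  cases l with
  | zero => simp [c, s]
  | succ l =>
    rw [c_succ]
    omega

lemma c_congr {l Λ : ℕ} (h : l ≤ Λ) : ∃ v, c C Λ = c C l + 2 * s C l * v := by
  induction Λ, h using Nat.le_induction with
  | base => exact ⟨0, by ring⟩
  | succ k hk ih =>
    obtain ⟨v, hv⟩ := ih
    obtain ⟨w, hw⟩ := s_dvd C (Nat.lt_succ_of_le hk)
    refine ⟨v + w, ?_⟩
    rw [c_succ, hv, hw]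
    have : 4 * s C l * w / 2 = 2 * s C l * w := by
      rw [show 4 * s C l * w = 2 * (2 * s C l * w) by ring]
      exact Nat.mul_div_cancel_left _ (by norm_num)
    rw [this]
    ring

/-- the digit of `x` at place `l` -/
def bit (l : ℕ) (x : ℤ) : ℤ := ((x + c C l) / s C l) % 2

/-- `x + c_l` is close to a multiple of `s_l` -/
def Bad (l : ℕ) (x : ℤ) : Prop :=
  (x + c C l) % s C l < D C l ∨ (s C l : ℤ) ≤ (x + c C l) % s C l + D C l

lemma bit_shift {l : ℕ} {x u m v : ℤ} (hx : ¬ Bad C l x) (hu : |u| ≤ D C l) :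
    bit C l (x + (u + m * s C l + 2 * s C l * v)) = (bit C l x + m) % 2 := by
  unfold Bad at hx
  push Not at hx
  obtain ⟨h1, h2⟩ := hx
  have hs : (0 : ℤ) < s C l := by exact_mod_cast s_pos C l
  rw [abs_le] at hu
  set y := x + (c C l : ℤ) with hy
  have h3 := Int.emod_add_mul_ediv y (s C l : ℤ)
  have h4 : x + (u + m * s C l + 2 * s C l * v) + c C l =
      (y % s C l + u) + (y / s C l + m + 2 * v) * s C l := by
    have : x = y - c C l := by rw [hy]; ring
    rw [this]
    linear_combination -h3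
  have h5 : (y % s C l + u) / s C l = 0 := Int.ediv_eq_zero_of_lt (by omega) (by omega)
  rw [bit, bit, h4, Int.add_mul_ediv_right _ _ hs.ne', h5, ← hy]
  omega

/-- the effect of adding a combination of place values -/
lemma bit_add {Λ : ℕ} {m : ℕ → ℤ} (hm : ∀ l, |m l| ≤ Cl C l) (hm0 : ∀ l, Λ ≤ l → m l = 0)
    {l : ℕ} {x : ℤ} (hx : ¬ Bad C l x) :
    bit C l (x + ∑ l' ∈ range Λ, m l' * s C l') = (bit C l x + m l) % 2 := by
  have h1 : ∑ l' ∈ range Λ, m l' * (s C l' : ℤ) =
      ∑ l' ∈ range (l + 1 + Λ), m l' * (s C l' : ℤ) := by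
    apply sum_subset (range_subset_range.2 (by omega))
    intro i _ hi
    rw [mem_range, not_lt] at hi
    rw [hm0 i hi, zero_mul]
  have h2 : ∃ v : ℤ, ∑ i ∈ range Λ, m (l + 1 + i) * (s C (l + 1 + i) : ℤ) = 2 * s C l * v := by
    have : (2 * (s C l : ℤ)) ∣ ∑ i ∈ range Λ, m (l + 1 + i) * (s C (l + 1 + i) : ℤ) := by
      apply dvd_sum
      intro i _
      apply Dvd.dvd.mul_left
      have h3 : 4 * s C l ∣ s C (l + 1 + i) := s_dvd C (by omega)
      have h4 : 2 * s C l ∣ s C (l + 1 + i) := by
        refine Dvd.dvd.trans ?_ h3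
        exact ⟨2, by ring⟩
      exact_mod_cast h4
    exact this
  obtain ⟨v, hv⟩ := h2
  rw [h1, sum_range_add, hv, sum_range_succ]
  have h3 : |∑ l' ∈ range l, m l' * (s C l' : ℤ)| ≤ D C l := by
    refine (abs_sum_le_sum_abs _ _).trans ?_
    rw [D]
    push_cast
    apply sum_le_sum
    intro i _
    rw [abs_mul, abs_of_nonneg (by positivity : (0 : ℤ) ≤ s C i)]
    exact mul_le_mul_of_nonneg_right (hm i) (by positivity)
  exact bit_shift C hx h3

lemma bit_small {l : ℕ} {x : ℤ} (h : 4 * |x| < s C l) : bit C l x = 0 ∧ ¬ Bad C l x := by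
  have h1 : (16 * c C l : ℤ) ≤ 9 * s C l := by exact_mod_cast c_le C l
  have h2 : (s C l : ℤ) ≤ 2 * c C l := by exact_mod_cast le_c C l
  have h3 : (64 * D C l : ℤ) ≤ s C l := by exact_mod_cast D_small C l
  have h4 : (0 : ℤ) < s C l := by exact_mod_cast s_pos C l
  have h5 : -|x| ≤ x := neg_abs_le x
  have h6 : x ≤ |x| := le_abs_self x
  have h7 : (x + c C l) / s C l = 0 := Int.ediv_eq_zero_of_lt (by omega) (by omega)
  have h8 : (x + c C l) % s C l = x + c C l := Int.emod_eq_of_lt (by omega) (by omega)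
  constructor
  · rw [bit, h7]
    rfl
  · unfold Bad
    rw [h8]
    omega

end Scales

section Stages

variable (C n r : ℕ → ℕ)

/-- the first place of stage `j` -/
def a : ℕ → ℕ
  | 0 => 0
  | j + 1 => a j + 2 * n j

lemma a_succ (j : ℕ) : a n (j + 1) = a n j + 2 * n j := rfl

/-- number of ones in stage `j` -/
def ones (j : ℕ) (x : ℤ) : ℕ := ((Ico (a n j) (a n (j + 1))).filter (fun l => bit C l x = 1)).card

/-- a clear majority of ones -/
def High (j : ℕ) (x : ℤ) : Prop := n j + r j ≤ ones C n j x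

/-- a clear majority of zeros -/
def Low (j : ℕ) (x : ℤ) : Prop := ones C n j x + r j ≤ n j

/-- the decisive integers -/
def Good (x : ℤ) : Prop := (∀ l, ¬ Bad C l x) ∧ ∀ j, Low C n r j x ∨ High C n r j x

lemma le_a (hn : ∀ j, 1 ≤ n j) (j : ℕ) : j ≤ a n j := by
  induction j with
  | zero => exact le_rfl
  | succ j ih =>
    rw [a_succ]
    have := hn j
    omega

lemma a_lt (hn : ∀ j, 1 ≤ n j) {i j : ℕ} (h : i < j) : a n i < a n j := by
  induction j, h using Nat.le_induction with
  | base =>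
    rw [a_succ]
    have := hn i
    omega
  | succ k hk ih =>
    rw [a_succ]
    omega

lemma bit_cases (l : ℕ) (x : ℤ) : bit C l x = 0 ∨ bit C l x = 1 := by
  unfold bit
  omega

lemma high_lt (hn : ∀ j, 1 ≤ n j) {j : ℕ} {x : ℤ} (h : High C n r j x) : j < x.natAbs := by
  by_contra hcon
  push Not at hcon
  have h1 : ones C n j x = 0 := by
    rw [ones, card_eq_zero, filter_eq_empty_iff]
    intro l hl
    rw [mem_Ico] at hl
    have h2 := le_a n hn j
    have h3 := lt_s C l
    have h5 : |x| = (x.natAbs : ℤ) := Int.abs_eq_natAbs x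
    have h4 := (bit_small C (l := l) (x := x) (by omega)).1
    rw [h4]
    norm_num
  unfold High at h
  rw [h1] at h
  have := hn j
  omega

lemma high_finite (hn : ∀ j, 1 ≤ n j) (x : ℤ) : {j | High C n r j x}.Finite :=
  (Set.finite_lt_nat x.natAbs).subset (fun _ hj => high_lt C n r hn hj)

/-- the two classes of decisive integers -/
def A (ε : ℕ) : Set ℤ := {x | Good C n r x ∧ {j | High C n r j x}.ncard % 2 = ε}

variable {C n r}

/-- a combination with even coefficients outside stage `k` and few even coefficients in stage `k`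
changes the class -/
theorem flip (hn : ∀ j, 1 ≤ n j) {Λ k : ℕ} {m : ℕ → ℤ}
    (hm : ∀ l, |m l| ≤ Cl C l) (hm0 : ∀ l, Λ ≤ l → m l = 0)
    (hout : ∀ l, l ∉ Ico (a n k) (a n (k + 1)) → Even (m l))
    (hin : ((Ico (a n k) (a n (k + 1))).filter (fun l => Even (m l))).card < 2 * r k)
    {ε : ℕ} {x : ℤ} (hx : x ∈ A C n r ε) : x + ∑ l ∈ range Λ, m l * s C l ∉ A C n r ε := by
  intro hy
  set y := x + ∑ l ∈ range Λ, m l * (s C l : ℤ) with hyx
  have hbit : ∀ l, bit C l y = (bit C l x + m l) % 2 :=
    fun l => bit_add C hm hm0 (hx.1.1 l)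
  have hother : ∀ j, j ≠ k → (High C n r j y ↔ High C n r j x) := by
    intro j hjk
    have h1 : ones C n j y = ones C n j x := by
      unfold ones
      congr 1
      apply filter_congr
      intro l hl
      rw [mem_Ico] at hl
      have h2 : Even (m l) := by
        apply hout
        rw [mem_Ico]
        rintro ⟨h3, h4⟩
        rcases Nat.lt_or_gt_of_ne hjk with h | h
        · have := a_lt n hn (Nat.lt_succ_of_le (Nat.succ_le_of_lt h))
          rcases Nat.eq_or_lt_of_le (Nat.succ_le_of_lt h) with h5 | h5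
          · rw [← h5] at h3
            simp only [Nat.succ_eq_add_one] at h3
            omega
          · have := a_lt n hn h5
            simp only [Nat.succ_eq_add_one] at this
            omega
        · rcases Nat.eq_or_lt_of_le (Nat.succ_le_of_lt h) with h5 | h5
          · rw [← h5] at hl
            simp only [Nat.succ_eq_add_one] at hl
            omega
          · have := a_lt n hn h5
            simp only [Nat.succ_eq_add_one] at this
            omega
      obtain ⟨w, hw⟩ := h2
      rw [hbit l]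
      have := bit_cases C l x
      omega
    unfold High
    rw [h1]
  have hk : High C n r k y ↔ ¬ High C n r k x := by
    set I := Ico (a n k) (a n (k + 1)) with hI
    have hIc : I.card = 2 * n k := by
      rw [hI, Nat.card_Ico, a_succ]
      omega
    set X := I.filter (fun l => bit C l x = 1) with hX
    set Y := I.filter (fun l => bit C l y = 1) with hY
    set E := I.filter (fun l => Even (m l)) with hE
    have h1 : I ⊆ X ∪ Y ∪ E := by
      intro l hl
      rw [mem_union, mem_union]
      by_cases he : Even (m l)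
      · exact Or.inr (mem_filter.2 ⟨hl, he⟩)
      · left
        rw [Int.not_even_iff_odd] at he
        obtain ⟨w, hw⟩ := he
        have h2 := hbit l
        rcases bit_cases C l x with h3 | h3
        · right
          refine mem_filter.2 ⟨hl, ?_⟩
          rw [h2]
          omega
        · exact Or.inl (mem_filter.2 ⟨hl, h3⟩)
    have h2 : X ∩ Y ⊆ E := by
      intro l hl
      rw [mem_inter, mem_filter, mem_filter] at hl
      refine mem_filter.2 ⟨hl.1.1, ?_⟩
      by_contra he
      rw [Int.not_even_iff_odd] at he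
      obtain ⟨w, hw⟩ := he
      have h3 := hbit l
      have h4 := hl.1.2
      have h5 := hl.2.2
      omega
    have h3 := card_le_card h1
    have h4 := card_le_card h2
    have h5 := card_union_le (X ∪ Y) E
    have h6 := card_union_add_card_inter X Y
    have h7 : (X ∪ Y).card ≤ I.card :=
      card_le_card (union_subset (filter_subset _ _) (filter_subset _ _))
    have hx' := hx.1.2 k
    have hy' := hy.1.2 k
    unfold Low High ones at hx' hy'
    unfold High ones
    rw [← hI, ← hX] at hx' ⊢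
    rw [← hI, ← hY] at hy'
    rw [← hY]
    omega
  have hfx := high_finite C n r hn x
  by_cases hkx : High C n r k x
  · have h1 : {j | High C n r j y} = {j | High C n r j x} \ {k} := by
      ext j
      simp only [Set.mem_ofPred_eq, Set.mem_sdiff, Set.mem_singleton_iff]
      by_cases hj : j = k
      · subst hj
        rw [hk]
        simp [hkx]
      · rw [hother j hj]
        simp [hj]
    have h2 := Set.ncard_sdiff_singleton_add_one (s := {j | High C n r j x}) (a := k) hkx hfx
    have h3 := hx.2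
    have h4 := hy.2
    rw [h1] at h4
    omega
  · have h1 : {j | High C n r j y} = insert k {j | High C n r j x} := by
      ext j
      simp only [Set.mem_ofPred_eq, Set.mem_insert_iff]
      by_cases hj : j = k
      · subst hj
        rw [hk]
        simp [hkx]
      · rw [hother j hj]
        simp [hj]
    have h2 := Set.ncard_insert_of_notMem (s := {j | High C n r j x}) (a := k) hkx hfx
    have h3 := hx.2
    have h4 := hy.2
    rw [h1] at h4
    omega

end Stages

/-! ### Counting -/

section Count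

variable (C : ℕ → ℕ)

lemma dvd_P {l Λ : ℕ} (h : l < Λ) : 2 * s C l ∣ 2 * s C (Λ - 1) := by
  rcases Nat.eq_or_lt_of_le (Nat.le_sub_one_of_lt h) with h1 | h1
  · rw [h1]
  · apply Nat.mul_dvd_mul_left
    exact (Dvd.intro_left 4 rfl).trans (s_dvd C h1)

/-- `Y` with small digit `0` at place `l` can be increased by `s_l` -/
lemma add_place {l Λ Y : ℕ} (hl : l < Λ) (hY : Y < 2 * s C (Λ - 1)) (h0 : (Y / s C l) % 2 = 0) :
    Y + s C l < 2 * s C (Λ - 1) ∧ ((Y + s C l) / s C l) % 2 = 1 ∧
      ∀ l', l' ≠ l → ((Y + s C l) / s C l') % 2 = (Y / s C l') % 2 := by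
  have hs := s_pos C l
  have h1 : (Y + s C l) / (2 * s C l) = Y / (2 * s C l) := by
    rw [mul_comm 2, ← Nat.div_div_eq_div_mul, ← Nat.div_div_eq_div_mul, Nat.add_div_right _ hs]
    omega
  refine ⟨?_, ?_, ?_⟩
  · obtain ⟨w, hw⟩ := dvd_P C hl
    have h2 : Y / (2 * s C l) < w := by
      rw [Nat.div_lt_iff_lt_mul (by omega), mul_comm w]
      rw [← hw]
      exact hY
    rw [← h1, Nat.div_lt_iff_lt_mul (by omega), mul_comm w, ← hw] at h2
    exact h2
  · rw [Nat.add_div_right _ hs]
    omega
  · intro l' hne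
    rcases Nat.lt_or_gt_of_ne hne with h | h
    · obtain ⟨w, hw⟩ := s_dvd C h
      have h2 : Y + s C l = Y + s C l' * (4 * w) := by rw [hw]; ring
      rw [h2, Nat.add_mul_div_left _ _ (s_pos C l')]
      omega
    · obtain ⟨w, hw⟩ := s_dvd C h
      have h2 : s C l' = 2 * s C l * (2 * w) := by rw [hw]; ring
      rw [h2, ← Nat.div_div_eq_div_mul (Y + s C l) (2 * s C l) (2 * w),
        ← Nat.div_div_eq_div_mul Y (2 * s C l) (2 * w), h1]

/-- the integers with given digits in `I` -/
def F (Λ : ℕ) (I S : Finset ℕ) : Finset ℕ :=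
  (range (2 * s C (Λ - 1))).filter (fun Y => I.filter (fun l => (Y / s C l) % 2 = 1) = S)

lemma F_insert {Λ : ℕ} {I S : Finset ℕ} {l : ℕ} (hI : I ⊆ range Λ) (hl : l ∈ I) (hlS : l ∉ S) :
    (F C Λ I (insert l S)).card = (F C Λ I S).card := by
  have hlΛ : l < Λ := mem_range.1 (hI hl)
  have hs := s_pos C l
  symm
  apply card_bij (fun Y _ => Y + s C l)
  · intro Y hY
    rw [F, mem_filter, mem_range] at hY
    obtain ⟨hY1, hY2⟩ := hY
    have h0 : (Y / s C l) % 2 = 0 := by
      have : l ∉ I.filter (fun l => (Y / s C l) % 2 = 1) := by rw [hY2]; exact hlS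
      rw [mem_filter] at this
      have h1 : ¬ (Y / s C l) % 2 = 1 := fun h => this ⟨hl, h⟩
      omega
    obtain ⟨h1, h2, h3⟩ := add_place C hlΛ hY1 h0
    rw [F, mem_filter, mem_range]
    refine ⟨h1, ?_⟩
    rw [← hY2]
    ext l'
    rw [mem_filter, mem_insert, mem_filter]
    by_cases h4 : l' = l
    · subst h4
      simp [hl, h2]
    · rw [h3 l' h4]
      simp [h4]
  · intro Y _ Y' _ h
    simpa using h
  · intro Y hY
    rw [F, mem_filter, mem_range] at hY
    obtain ⟨hY1, hY2⟩ := hY
    have h1 : (Y / s C l) % 2 = 1 := by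
      have : l ∈ I.filter (fun l => (Y / s C l) % 2 = 1) := by
        rw [hY2]
        exact mem_insert_self _ _
      exact (mem_filter.1 this).2
    have hYs : s C l ≤ Y := by
      by_contra hcon
      push Not at hcon
      rw [Nat.div_eq_of_lt hcon] at h1
      norm_num at h1
    obtain ⟨Y', rfl⟩ := Nat.exists_eq_add_of_le' hYs
    have h0 : (Y' / s C l) % 2 = 0 := by
      rw [Nat.add_div_right _ hs] at h1
      omega
    obtain ⟨-, h2, h3⟩ := add_place C hlΛ (by omega) h0
    refine ⟨Y', ?_, rfl⟩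
    rw [F, mem_filter, mem_range]
    refine ⟨by omega, ?_⟩
    ext l'
    rw [mem_filter]
    by_cases h4 : l' = l
    · subst h4
      simp [hlS, h0]
    · have h5 : l' ∈ I.filter (fun l'' => ((Y' + s C l) / s C l'') % 2 = 1) ↔
          l' ∈ insert l S := by rw [hY2]
      rw [mem_filter, mem_insert, h3 l' h4] at h5
      rw [h5]
      simp [h4]

lemma F_card {Λ : ℕ} {I : Finset ℕ} (hI : I ⊆ range Λ) (S : Finset ℕ) (hS : S ⊆ I) :
    (F C Λ I S).card = (F C Λ I ∅).card := by
  induction S using Finset.induction_on with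
  | empty => rfl
  | insert l S hl ih =>
    rw [insert_subset_iff] at hS
    rw [F_insert C hI hS.1 hl, ih hS.2]

lemma F_total {Λ : ℕ} {I : Finset ℕ} (hI : I ⊆ range Λ) :
    2 ^ I.card * (F C Λ I ∅).card = 2 * s C (Λ - 1) := by
  have h1 : (range (2 * s C (Λ - 1))).card = ∑ S ∈ I.powerset, (F C Λ I S).card := by
    apply card_eq_sum_card_fiberwise
    intro Y _
    rw [mem_coe, mem_powerset]
    exact filter_subset _ _
  rw [card_range, sum_congr rfl (fun S hS => F_card C hI S (mem_powerset.1 hS)), sum_const,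
    card_powerset, smul_eq_mul] at h1
  exact h1.symm

/-- few integers are undecided in a stage -/
lemma undecided {Λ N ρ j : ℕ} {I : Finset ℕ} (hI : I ⊆ range Λ) (hIc : I.card = 2 * N)
    (hρ : ρ ≤ N) (hN : 2 * ρ * Nat.centralBinom N * 2 ^ (j + 3) ≤ 4 ^ N) :
    ((range (2 * s C (Λ - 1))).filter (fun Y =>
      ¬ ((I.filter (fun l => (Y / s C l) % 2 = 1)).card + ρ ≤ N ∨
        N + ρ ≤ (I.filter (fun l => (Y / s C l) % 2 = 1)).card))).card * 2 ^ (j + 3) ≤
      2 * s C (Λ - 1) := by
  set 𝒰 := I.powerset.filter (fun y => ¬ (y.card + ρ ≤ N ∨ N + ρ ≤ y.card)) with h𝒰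
  have h1 : (range (2 * s C (Λ - 1))).filter (fun Y =>
      ¬ ((I.filter (fun l => (Y / s C l) % 2 = 1)).card + ρ ≤ N ∨
        N + ρ ≤ (I.filter (fun l => (Y / s C l) % 2 = 1)).card)) ⊆
      𝒰.biUnion (fun S => F C Λ I S) := by
    intro Y hY
    rw [mem_filter] at hY
    rw [mem_biUnion]
    exact ⟨_, mem_filter.2 ⟨mem_powerset.2 (filter_subset _ _), hY.2⟩, mem_filter.2 ⟨hY.1, rfl⟩⟩
  have h2 := (card_le_card h1).trans card_biUnion_le
  rw [sum_congr rfl (fun S hS => F_card C hI S (mem_powerset.1 (mem_filter.1 hS).1)), sum_const,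
    smul_eq_mul] at h2
  have h3 := BohrPart.undecided_le hIc hρ
  have h4 := F_total C hI
  rw [hIc, pow_mul] at h4
  norm_num at h4
  calc _ ≤ (𝒰.card * (F C Λ I ∅).card) * 2 ^ (j + 3) := Nat.mul_le_mul_right _ h2
    _ ≤ ((2 * ρ * Nat.centralBinom N) * (F C Λ I ∅).card) * 2 ^ (j + 3) :=
        Nat.mul_le_mul_right _ (Nat.mul_le_mul_right _ h3)
    _ = (2 * ρ * Nat.centralBinom N * 2 ^ (j + 3)) * (F C Λ I ∅).card := by ring
    _ ≤ 4 ^ N * (F C Λ I ∅).card := Nat.mul_le_mul_right _ hN
    _ = 2 * s C (Λ - 1) := h4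

/-- few integers are close to a multiple of `s_l` -/
lemma bad_count {l Λ : ℕ} (hl : l < Λ) :
    ((range (2 * s C (Λ - 1))).filter (fun Y => Y % s C l < D C l ∨
      s C l ≤ Y % s C l + D C l)).card * 2 ^ (l + 5) ≤ 2 * s C (Λ - 1) := by
  obtain ⟨w, hw⟩ := dvd_P C hl
  have hs := s_pos C l
  have h1 : ((range (2 * s C (Λ - 1))).filter (fun Y => Y % s C l < D C l ∨
      s C l ≤ Y % s C l + D C l)).card ≤
      (range (2 * w) ×ˢ (range (D C l) ∪ Ico (s C l - D C l) (s C l))).card := by
    apply card_le_card_of_injOn (fun Y => (Y / s C l, Y % s C l))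
    · intro Y hY
      rw [mem_coe, mem_filter, mem_range] at hY
      rw [mem_coe, mem_product, mem_range, mem_union, mem_range, mem_Ico]
      simp only
      have h2 := Nat.mod_lt Y hs
      refine ⟨?_, ?_⟩
      · rw [Nat.div_lt_iff_lt_mul hs]
        have : 2 * w * s C l = 2 * s C l * w := by ring
        rw [this, ← hw]
        exact hY.1
      · omega
    · intro Y _ Y' _ h
      simp only [Prod.mk.injEq] at h
      rw [← Nat.div_add_mod Y (s C l), ← Nat.div_add_mod Y' (s C l), h.1, h.2]
  rw [card_product, card_range] at h1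
  have h2 : (range (D C l) ∪ Ico (s C l - D C l) (s C l)).card ≤ 2 * D C l := by
    refine (card_union_le _ _).trans ?_
    rw [card_range, Nat.card_Ico]
    omega
  have h3 := D_le C l
  calc _ ≤ (2 * w * (2 * D C l)) * 2 ^ (l + 5) :=
        Nat.mul_le_mul_right _ (h1.trans (Nat.mul_le_mul_left _ h2))
    _ = 2 * w * (D C l * 2 ^ (l + 6)) := by ring
    _ ≤ 2 * w * s C l := Nat.mul_le_mul_left _ h3
    _ = 2 * s C (Λ - 1) := by rw [hw]; ring

end Count

end Pool.Agent.V11180.IPBits
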