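import Mathlib

/-!
# Odd combinations close to zero on the torus

For `N` points of the `k`-dimensional torus there are natural numbers `m_i`, all but boundedly many
of which are odd, such that `∑ m_i z_i` is close to `0`; the `m_i` can be taken from a fixed finite
set.
-/

set_option autoImplicit false

open Filter Topology Finset

namespace Pool.Agent.V11180.IPBohr

lemma avg_tendsto (z : ℂ) (hz : ‖z‖ = 1) :
    Tendsto (fun C : ℕ => (∑ v ∈ range C, z ^ v) / (C : ℂ)) atTop
      (𝓝 (if z = 1 then 1 else 0)) := by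
  split_ifs with h
  · subst h
    apply tendsto_const_nhds.congr'
    filter_upwards [eventually_ge_atTop 1] with C hC
    have : (C : ℂ) ≠ 0 := by
      have : C ≠ 0 := by omega
      exact_mod_cast this
    simp [this]
  · apply squeeze_zero_norm (a := fun C : ℕ => (2 / ‖z - 1‖) * (C : ℝ)⁻¹)
    · intro C
      rw [geom_sum_eq h, norm_div, norm_div, Complex.norm_natCast, div_eq_mul_inv]
      apply mul_le_mul_of_nonneg_right _ (by positivity)
      apply div_le_div_of_nonneg_right _ (norm_nonneg _)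
      calc ‖z ^ C - 1‖ ≤ ‖z ^ C‖ + ‖(1 : ℂ)‖ := norm_sub_le _ _
        _ = 2 := by rw [norm_pow, hz, one_pow, norm_one]; norm_num
    · have : Tendsto (fun C : ℕ => (2 / ‖z - 1‖) * (C : ℝ)⁻¹) atTop (𝓝 ((2 / ‖z - 1‖) * 0)) :=
        tendsto_const_nhds.mul (tendsto_inv_atTop_zero.comp tendsto_natCast_atTop_atTop)
      simpa using this

lemma prod_symmDiff {ι Γ : Type*} [DecidableEq ι] [CommGroup Γ] (hΓ : ∀ g : Γ, g * g = 1)
    (W : ι → Γ) (a b : Finset ι) :
    ∏ i ∈ symmDiff a b, W i = (∏ i ∈ a, W i) * ∏ i ∈ b, W i := by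
  have h1 : ∏ i ∈ a, W i = (∏ i ∈ a \ b, W i) * ∏ i ∈ a ∩ b, W i := by
    rw [← prod_union (disjoint_sdiff_inter a b), sdiff_union_inter]
  have h2 : ∏ i ∈ b, W i = (∏ i ∈ b \ a, W i) * ∏ i ∈ a ∩ b, W i := by
    rw [inter_comm a b, ← prod_union (disjoint_sdiff_inter b a), sdiff_union_inter]
  have h3 : ∏ i ∈ symmDiff a b, W i = (∏ i ∈ a \ b, W i) * ∏ i ∈ b \ a, W i := by
    rw [← prod_union]
    · rfl
    · rw [disjoint_left]
      intro i hi hi'
      rw [Finset.mem_sdiff] at hi hi'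
      exact hi.2 hi'.1
  rw [h1, h2, h3, mul_mul_mul_comm, hΓ, mul_one]

/-- In a group of exponent two every product is one of few factors. -/
lemma small_rep {ι Γ : Type*} [DecidableEq ι] [CommGroup Γ] [Fintype Γ] (hΓ : ∀ g : Γ, g * g = 1)
    (W : ι → Γ) (T : Finset ι) :
    ∃ u ⊆ T, 2 ^ u.card ≤ Fintype.card Γ ∧ ∏ i ∈ u, W i = ∏ i ∈ T, W i := by
  classical
  obtain ⟨u, hu, hmin⟩ := exists_min_image
    (T.powerset.filter (fun u => ∏ i ∈ u, W i = ∏ i ∈ T, W i)) Finset.card
    ⟨T, by rw [mem_filter, mem_powerset]; exact ⟨Subset.refl _, rfl⟩⟩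
  rw [mem_filter, mem_powerset] at hu
  refine ⟨u, hu.1, ?_, hu.2⟩
  by_contra hcon
  push Not at hcon
  have hcard : (univ : Finset Γ).card < u.powerset.card := by
    rw [card_powerset, card_univ]
    exact hcon
  obtain ⟨a, ha, b, hb, hne, hab⟩ := exists_ne_map_eq_of_card_lt_of_maps_to hcard
    (f := fun a => ∏ i ∈ a, W i) (fun a _ => mem_coe.2 (mem_univ _))
  rw [mem_powerset] at ha hb
  have hw : ∏ i ∈ symmDiff a b, W i = 1 := by rw [prod_symmDiff hΓ, hab, hΓ]
  have hwu : symmDiff a b ⊆ u := by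
    intro j hj
    rw [Finset.mem_symmDiff] at hj
    rcases hj with h | h
    · exact ha h.1
    · exact hb h.1
  have hwne : (symmDiff a b).Nonempty := by
    rw [nonempty_iff_ne_empty]
    intro h
    exact hne (symmDiff_eq_bot.1 h)
  have h3 : u \ symmDiff a b ∈ T.powerset.filter (fun u => ∏ i ∈ u, W i = ∏ i ∈ T, W i) := by
    rw [mem_filter, mem_powerset]
    refine ⟨sdiff_subset.trans hu.1, ?_⟩
    have h4 := prod_sdiff (f := W) hwu
    rw [hw, mul_one] at h4
    rw [h4, hu.2]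
  have h4 := hmin _ h3
  have h5 := card_sdiff_of_subset hwu
  have h6 := card_pos.2 hwne
  have h7 := card_le_card hwu
  omega

/-- expansion of the kernel in one variable -/
lemma kernel_expand (y : ℂ) (hy : ‖y‖ = 1) (M : ℕ) :
    (((‖1 + y‖ ^ 2 / 4) ^ M : ℝ) : ℂ) =
      ∑ h ∈ range (2 * M + 1), ((2 * M).choose h : ℂ) / 4 ^ M * y ^ ((h : ℤ) - M) := by
  have hy0 : y ≠ 0 := by
    intro h
    rw [h, norm_zero] at hy
    norm_num at hy
  have h1 : ((‖1 + y‖ ^ 2 : ℝ) : ℂ) = (1 + y) ^ 2 * y⁻¹ := by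
    have h2 : ((‖1 + y‖ ^ 2 : ℝ) : ℂ) = (1 + y) * (starRingEnd ℂ) (1 + y) := by
      rw [Complex.mul_conj, Complex.normSq_eq_norm_sq]
    have h3 : (starRingEnd ℂ) y = y⁻¹ := by
      rw [Complex.inv_def, Complex.normSq_eq_norm_sq, hy]
      simp
    rw [h2, map_add, map_one, h3]
    field_simp
    ring
  push_cast at h1 ⊢
  rw [h1, div_pow, mul_pow, ← pow_mul, add_comm 1 y, add_pow, sum_mul, sum_div]
  apply sum_congr rfl
  intro h _
  rw [one_pow, mul_one, zpow_sub₀ hy0, zpow_natCast, zpow_natCast, inv_pow]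
  field_simp

lemma exists_M (k : ℕ) {ρ : ℝ} (h0 : 0 ≤ ρ) (h1 : ρ < 1) :
    ∃ M : ℕ, 1 ≤ M ∧ ρ ^ M < (1 / (2 * M + 1 : ℝ)) ^ k / 2 := by
  have h2 : Tendsto (fun n : ℕ => (n : ℝ) ^ k * ρ ^ n) atTop (𝓝 0) :=
    tendsto_pow_const_mul_const_pow_of_abs_lt_one k (by rw [abs_of_nonneg h0]; exact h1)
  have h3 : Tendsto (fun n : ℕ => (2 * 3 ^ k) * ((n : ℝ) ^ k * ρ ^ n)) atTop (𝓝 0) := by
    have := h2.const_mul (2 * 3 ^ k : ℝ)
    simpa using this
  obtain ⟨M, hM1, hM2⟩ := ((h3.eventually_lt_const (show (0 : ℝ) < 1 by norm_num)).and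
    (eventually_ge_atTop 1)).exists
  refine ⟨M, hM2, ?_⟩
  have hMr : (1 : ℝ) ≤ M := by exact_mod_cast hM2
  have h4 : ((2 * M + 1 : ℝ)) ^ k ≤ 3 ^ k * (M : ℝ) ^ k := by
    rw [← mul_pow]
    apply pow_le_pow_left₀ (by positivity)
    linarith
  have h5 : (0 : ℝ) < (2 * M + 1 : ℝ) ^ k := by positivity
  rw [div_pow, one_pow, div_div, lt_div_iff₀ (by positivity)]
  calc ρ ^ M * ((2 * M + 1 : ℝ) ^ k * 2) ≤ ρ ^ M * ((3 ^ k * (M : ℝ) ^ k) * 2) := by
        apply mul_le_mul_of_nonneg_left _ (pow_nonneg h0 M)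
        linarith
    _ = (2 * 3 ^ k) * ((M : ℝ) ^ k * ρ ^ M) := by ring
    _ < 1 := hM1

/-- Existence of an odd combination close to zero. -/
theorem exists_odd (k : ℕ) {η : ℝ} (hη : 0 < η) (hη1 : η ≤ 1) : ∃ k' : ℕ, ∀ (N : ℕ)
    (Z : Fin N → Fin k → ℂ), (∀ i q, ‖Z i q‖ = 1) → ∃ m : Fin N → ℕ,
      (univ.filter (fun i => Even (m i))).card ≤ k' ∧
      ∀ q, ‖∏ i, Z i q ^ m i - 1‖ < η := by
  classical
  obtain ⟨M, hM1, hM⟩ := exists_M k (ρ := 1 - η ^ 2 / 4) (by nlinarith) (by nlinarith)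
  refine ⟨Fintype.card (Fin k → Fin (2 * M + 1)), ?_⟩
  intro N Z hZ
  have hZ0 : ∀ i q, Z i q ≠ 0 := by
    intro i q h
    have := hZ i q
    rw [h, norm_zero] at this
    norm_num at this
  set w : Fin N → (Fin k → ℕ) → ℂ := fun i h => ∏ q, Z i q ^ ((h q : ℤ) - M) with hw
  have hwnorm : ∀ i h, ‖w i h‖ = 1 := by
    intro i h
    rw [hw]
    simp only [norm_prod, norm_zpow, hZ, one_zpow, prod_const_one]
  set W : Fin N → ((Fin k → Fin (2 * M + 1)) → ℤˣ) := fun i h =>
    if w i (fun q => (h q : ℕ)) = -1 then -1 else 1 with hW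
  obtain ⟨u, -, hu1, hu2⟩ := small_rep (Γ := (Fin k → Fin (2 * M + 1)) → ℤˣ)
    (fun g => by funext h; simp only [Pi.mul_apply, Pi.one_apply]; exact Int.units_mul_self _)
    W univ
  have hucard : u.card ≤ Fintype.card (Fin k → Fin (2 * M + 1)) := by
    rw [Fintype.card_fun, Fintype.card_units_int] at hu1
    exact (Nat.pow_le_pow_iff_right (by norm_num)).1 hu1
  set o : Fin N → ℕ := fun i => if i ∈ u then 0 else 1 with ho
  set H : Finset (Fin k → ℕ) := Fintype.piFinset (fun _ => range (2 * M + 1)) with hH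
  set coef : (Fin k → ℕ) → ℝ := fun h => ∏ q, ((2 * M).choose (h q) : ℝ) / 4 ^ M with hcoef
  have hcoef0 : ∀ h, 0 ≤ coef h := fun h => prod_nonneg (fun q _ => by positivity)
  -- the kernel along the combinations
  set g : (Fin N → ℕ) → ℝ := fun m => ∏ q, (‖1 + ∏ i, Z i q ^ m i‖ ^ 2 / 4) ^ M with hg
  have hgexp : ∀ m, (g m : ℂ) = ∑ h ∈ H, (coef h : ℂ) * ∏ i, w i h ^ m i := by
    intro m
    rw [hg]
    simp only
    push_cast
    have h1 : ∀ q, (((‖1 + ∏ i, Z i q ^ m i‖ : ℝ) : ℂ) ^ 2 / 4) ^ M =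
        ∑ h ∈ range (2 * M + 1), ((2 * M).choose h : ℂ) / 4 ^ M *
          (∏ i, Z i q ^ m i) ^ ((h : ℤ) - M) := by
      intro q
      have h2 := kernel_expand (∏ i, Z i q ^ m i) (by
        simp only [norm_prod, norm_pow, hZ, one_pow, prod_const_one]) M
      push_cast at h2
      exact h2
    rw [prod_congr rfl (fun q _ => h1 q), prod_univ_sum]
    apply sum_congr rfl
    intro h _
    rw [prod_mul_distrib, hcoef]
    push_cast
    congr 1
    rw [hw]
    simp only
    have h2 : ∀ q, (∏ i, Z i q ^ m i) ^ ((h q : ℤ) - M) =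
        ∏ i, (Z i q ^ ((h q : ℤ) - M)) ^ m i := by
      intro q
      rw [← prod_zpow]
      apply prod_congr rfl
      intro i _
      rw [← zpow_natCast, ← zpow_natCast, ← zpow_mul, ← zpow_mul, mul_comm]
    rw [prod_congr rfl (fun q _ => h2 q), Finset.prod_comm]
    apply prod_congr rfl
    intro i _
    rw [← prod_pow]
  -- averages
  set avg : ℕ → ℂ := fun C => ∑ h ∈ H, (coef h : ℂ) *
    ∏ i, (w i h ^ o i * ((∑ v ∈ range C, (w i h ^ 2) ^ v) / (C : ℂ))) with havg
  set lim : ℂ := ∑ h ∈ H, (coef h : ℂ) *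
    ∏ i, (w i h ^ o i * (if w i h ^ 2 = 1 then 1 else 0)) with hlim
  have hlimt : Tendsto avg atTop (𝓝 lim) := by
    apply tendsto_finsetSum
    intro h _
    apply tendsto_const_nhds.mul
    apply tendsto_finsetProd
    intro i _
    apply tendsto_const_nhds.mul
    exact avg_tendsto _ (by rw [norm_pow, hwnorm, one_pow])
  have hlimval : (1 / (2 * M + 1 : ℝ)) ^ k ≤ lim.re := by
    have h1 : ∀ h ∈ H, ((coef h : ℂ) * ∏ i, (w i h ^ o i * (if w i h ^ 2 = 1 then 1 else 0))) =
        ((coef h * (if ∀ i, w i h ^ 2 = 1 then 1 else 0) : ℝ) : ℂ) := by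
      intro h hhH
      push_cast
      congr 1
      split_ifs with hall
      · have h2 : ∀ i, w i h ^ o i * (if w i h ^ 2 = 1 then 1 else 0) = w i h ^ o i := by
          intro i
          rw [if_pos (hall i), mul_one]
        rw [prod_congr rfl (fun i _ => h2 i)]
        -- use the choice of `u`
        rw [hH, Fintype.mem_piFinset] at hhH
        set h' : Fin k → Fin (2 * M + 1) := fun q => ⟨h q, mem_range.1 (hhH q)⟩ with hh'
        have h3 : ∀ i, w i h = (((W i h' : ℤˣ) : ℤ) : ℂ) := by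
          intro i
          have h4 : (fun q => ((h' q : Fin (2 * M + 1)) : ℕ)) = h := by
            funext q
            rfl
          rw [hW]
          simp only
          rw [h4]
          split_ifs with h5
          · rw [h5]
            simp
          · have h7 := hall i
            rw [sq] at h7
            rcases mul_self_eq_one_iff.1 h7 with h6 | h6
            · rw [h6]; simp
            · exact absurd h6 h5
        have h4 : ∏ i, w i h ^ o i = ∏ i ∈ univ \ u, w i h := by
          rw [← prod_sdiff (subset_univ u)]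
          have h5 : ∏ i ∈ u, w i h ^ o i = 1 := by
            apply prod_eq_one
            intro i hi
            rw [ho]
            simp only
            rw [if_pos hi, pow_zero]
          rw [h5, mul_one]
          apply prod_congr rfl
          intro i hi
          rw [ho]
          simp only
          rw [if_neg (Finset.mem_sdiff.1 hi).2, pow_one]
        have h5 : ∏ i ∈ univ \ u, W i = 1 := by
          have h6 := prod_sdiff (f := W) (subset_univ u)
          rw [← hu2] at h6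
          exact mul_eq_right.1 h6
        rw [h4, prod_congr rfl (fun i _ => h3 i)]
        have h6 := congrFun h5 h'
        rw [Finset.prod_apply, Pi.one_apply] at h6
        have h7 : ((∏ i ∈ univ \ u, W i h' : ℤˣ) : ℤ) = 1 := by rw [h6]; rfl
        rw [Units.coe_prod] at h7
        have h8 : ((∏ i ∈ univ \ u, ((W i h' : ℤˣ) : ℤ) : ℤ) : ℂ) = 1 := by rw [h7]; simp
        push_cast at h8
        exact h8
      · push Not at hall
        obtain ⟨i, hi⟩ := hall
        apply prod_eq_zero (mem_univ i)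
        rw [if_neg hi, mul_zero]
    rw [hlim, sum_congr rfl h1, ← Complex.ofReal_sum, Complex.ofReal_re]
    set h0 : Fin k → ℕ := fun _ => M with hh0
    have h2 : h0 ∈ H := by
      rw [hH, Fintype.mem_piFinset]
      intro q
      rw [mem_range]
      simp only [hh0]
      omega
    have h3 : coef h0 * (if ∀ i, w i h0 ^ 2 = 1 then 1 else 0) ≤
        ∑ h ∈ H, coef h * (if ∀ i, w i h ^ 2 = 1 then 1 else 0) := by
      apply single_le_sum (f := fun h => coef h * (if ∀ i, w i h ^ 2 = 1 then (1 : ℝ) else 0))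
        _ h2
      intro h _
      apply mul_nonneg (hcoef0 h)
      split_ifs <;> norm_num
    have h4 : ∀ i, w i h0 ^ 2 = 1 := by
      intro i
      have : w i h0 = 1 := by
        rw [hw]
        simp [hh0]
      rw [this, one_pow]
    rw [if_pos h4, mul_one] at h3
    refine le_trans ?_ h3
    rw [hcoef]
    simp only [hh0, prod_const, card_univ, Fintype.card_fin]
    apply pow_le_pow_left₀ (by positivity)
    rw [div_le_div_iff₀ (by positivity) (by positivity), one_mul]
    have h5 := Nat.four_pow_le_two_mul_add_one_mul_central_binom M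
    have h6 : ((4 ^ M : ℕ) : ℝ) ≤ (((2 * M + 1) * (2 * M).choose M : ℕ) : ℝ) := by
      exact_mod_cast h5
    push_cast at h6
    linarith
  -- the averages are averages of the kernel
  have havg' : ∀ C : ℕ, avg C = (∑ v ∈ Fintype.piFinset (fun _ : Fin N => range C),
      (g (fun i => 2 * v i + o i) : ℂ)) / (C : ℂ) ^ N := by
    intro C
    simp only [hgexp]
    rw [sum_comm, sum_div, havg]
    apply sum_congr rfl
    intro h _
    rw [← mul_sum, mul_div_assoc]
    congr 1
    have h1 : ∀ i, w i h ^ o i * ((∑ v ∈ range C, (w i h ^ 2) ^ v) / (C : ℂ)) =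
        (∑ v ∈ range C, w i h ^ (2 * v + o i)) / (C : ℂ) := by
      intro i
      rw [mul_div_assoc', mul_sum]
      congr 1
      apply sum_congr rfl
      intro v _
      rw [pow_add, pow_mul, mul_comm]
    rw [prod_congr rfl (fun i _ => h1 i), prod_div_distrib, prod_univ_sum, prod_const, card_univ,
      Fintype.card_fin]
  -- choose a large `C`
  have hpos : (0 : ℝ) < (1 / (2 * M + 1 : ℝ)) ^ k := by positivity
  have hre : Tendsto (fun C => (avg C).re) atTop (𝓝 lim.re) :=
    (Complex.continuous_re.tendsto _).comp hlimt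
  obtain ⟨C, hC1, hC2⟩ := ((hre.eventually_const_lt
    (show (1 / (2 * M + 1 : ℝ)) ^ k / 2 < lim.re by linarith)).and
    (eventually_ge_atTop 1)).exists
  have hCr : (0 : ℝ) < (C : ℝ) ^ N := by
    have : (0 : ℝ) < C := by exact_mod_cast hC2
    positivity
  have hex : ∃ v ∈ Fintype.piFinset (fun _ : Fin N => range C),
      (1 / (2 * M + 1 : ℝ)) ^ k / 2 < g (fun i => 2 * v i + o i) := by
    by_contra hcon
    push Not at hcon
    have h1 : (avg C).re = (∑ v ∈ Fintype.piFinset (fun _ : Fin N => range C),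
        g (fun i => 2 * v i + o i)) / (C : ℝ) ^ N := by
      rw [havg' C]
      have h2 : (∑ v ∈ Fintype.piFinset (fun _ : Fin N => range C),
          (g (fun i => 2 * v i + o i) : ℂ)) / (C : ℂ) ^ N =
          (((∑ v ∈ Fintype.piFinset (fun _ : Fin N => range C),
            g (fun i => 2 * v i + o i)) / (C : ℝ) ^ N : ℝ) : ℂ) := by
        push_cast
        rfl
      rw [h2, Complex.ofReal_re]
    have h2 := sum_le_card_nsmul _ _ _ hcon
    rw [Fintype.card_piFinset] at h2
    simp only [card_range, prod_const, card_univ, Fintype.card_fin, nsmul_eq_mul] at h2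
    rw [h1, lt_div_iff₀ hCr] at hC1
    push_cast at h2
    linarith
  obtain ⟨v, -, hv⟩ := hex
  refine ⟨fun i => 2 * v i + o i, ?_, ?_⟩
  · refine le_trans (card_le_card ?_) hucard
    intro i hi
    rw [mem_filter] at hi
    by_contra hiu
    have h1 : o i = 1 := by
      rw [ho]
      simp only
      rw [if_neg hiu]
    have h2 := hi.2
    simp only [h1] at h2
    exact absurd h2 (by rw [Nat.not_even_iff_odd]; exact ⟨v i, rfl⟩)
  · intro q
    by_contra hcon
    push Not at hcon
    set y : ℂ := ∏ i, Z i q ^ (2 * v i + o i) with hy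
    have hynorm : ∀ q, ‖∏ i, Z i q ^ (2 * v i + o i)‖ = 1 := by
      intro q
      simp only [norm_prod, norm_pow, hZ, one_pow, prod_const_one]
    have hpar : ‖1 + y‖ ^ 2 = 4 - ‖y - 1‖ ^ 2 := by
      have h1 := parallelogram_law_with_norm ℝ y 1
      have h2 : ‖y‖ = 1 := hynorm q
      rw [h2, norm_one, add_comm y 1] at h1
      nlinarith
    have h1 : g (fun i => 2 * v i + o i) ≤ (1 - η ^ 2 / 4) ^ M := by
      rw [hg]
      simp only
      rw [← mul_prod_erase univ _ (mem_univ q)]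
      have h2 : (‖1 + y‖ ^ 2 / 4) ^ M ≤ (1 - η ^ 2 / 4) ^ M := by
        apply pow_le_pow_left₀ (by positivity)
        rw [hpar]
        have : η ^ 2 ≤ ‖y - 1‖ ^ 2 := pow_le_pow_left₀ hη.le hcon 2
        linarith
      have h3 : ∏ q' ∈ univ.erase q, (‖1 + ∏ i, Z i q' ^ (2 * v i + o i)‖ ^ 2 / 4) ^ M ≤ 1 := by
        apply prod_le_one
        · intro q' _
          positivity
        · intro q' _
          apply pow_le_one₀ (by positivity)
          have h4 : ‖1 + ∏ i, Z i q' ^ (2 * v i + o i)‖ ≤ 2 := by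
            calc ‖1 + ∏ i, Z i q' ^ (2 * v i + o i)‖ ≤ ‖(1 : ℂ)‖ +
                ‖∏ i, Z i q' ^ (2 * v i + o i)‖ := norm_add_le _ _
              _ = 2 := by rw [hynorm q', norm_one]; norm_num
          have h5 := norm_nonneg (1 + ∏ i, Z i q' ^ (2 * v i + o i))
          nlinarith
      calc (‖1 + y‖ ^ 2 / 4) ^ M *
          ∏ q' ∈ univ.erase q, (‖1 + ∏ i, Z i q' ^ (2 * v i + o i)‖ ^ 2 / 4) ^ M
          ≤ (1 - η ^ 2 / 4) ^ M * 1 := by
            apply mul_le_mul h2 h3
            · exact prod_nonneg (fun q' _ => by positivity)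
            · exact pow_nonneg (by nlinarith) M
        _ = _ := mul_one _
    linarith

/-- The uniform version. -/
theorem exists_odd_uniform (k : ℕ) {η : ℝ} (hη : 0 < η) (hη1 : η ≤ 1) : ∃ k' : ℕ, ∀ N : ℕ,
    ∃ 𝓜 : Finset (Fin N → ℕ), (∀ m ∈ 𝓜, (univ.filter (fun i => Even (m i))).card ≤ k') ∧
      ∀ Z : Fin N → Fin k → Circle, ∃ m ∈ 𝓜, ∀ q, ‖((∏ i, Z i q ^ m i : Circle) : ℂ) - 1‖ < η := by
  classical
  obtain ⟨k', hk'⟩ := exists_odd k hη hη1
  refine ⟨k', ?_⟩
  intro N
  set I := {m : Fin N → ℕ // (univ.filter (fun i => Even (m i))).card ≤ k'} with hI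
  set U : I → Set (Fin N → Fin k → Circle) :=
    fun m => {Z | ∀ q, ‖((∏ i, Z i q ^ m.1 i : Circle) : ℂ) - 1‖ < η} with hU
  have hopen : ∀ m, IsOpen (U m) := by
    intro m
    rw [hU]
    simp only [Set.ofPred_forall]
    apply isOpen_iInter_of_finite
    intro q
    apply isOpen_lt _ continuous_const
    fun_prop
  have hcover : (Set.univ : Set (Fin N → Fin k → Circle)) ⊆ ⋃ m, U m := by
    intro Z _
    obtain ⟨m, hm1, hm2⟩ := hk' N (fun i q => (Z i q : ℂ)) (fun i q => Circle.norm_coe _)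
    rw [Set.mem_iUnion]
    refine ⟨⟨m, hm1⟩, ?_⟩
    intro q
    have h1 := hm2 q
    have h2 : ((∏ i, Z i q ^ m i : Circle) : ℂ) = ∏ i, (Z i q : ℂ) ^ m i := by
      rw [← Circle.coeHom_apply, map_prod]
      simp
    rw [h2]
    exact h1
  obtain ⟨t, ht⟩ := isCompact_univ.elim_finite_subcover U hopen hcover
  refine ⟨t.image Subtype.val, ?_, ?_⟩
  · intro m hm
    rw [mem_image] at hm
    obtain ⟨m', -, rfl⟩ := hm
    exact m'.2
  · intro Z
    have h1 := ht (Set.mem_univ Z)
    rw [Set.mem_iUnion₂] at h1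
    obtain ⟨m, hm, hZm⟩ := h1
    exact ⟨m.1, mem_image_of_mem _ hm, hZm⟩

end Pool.Agent.V11180.IPBohr
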