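import Mathlib
import Pool.Agent.V11180.IPBits
import Pool.Agent.V11180.IPBohr

/-!
# Density of the classes, and the combinations that avoid the difference sets
-/

set_option autoImplicit false

open Finset

namespace Pool.Agent.V11180.IPBits

section Density

variable (C n r : ℕ → ℕ)

/-- the integer attached to `Y` in the window of level `K` -/
def win (K Y : ℕ) : ℤ := (Y : ℤ) - c C (a n K - 1)

lemma win_low {K Y l : ℕ} (hl : l < a n K) :
    (win C n K Y + c C l) % s C l = ((Y % s C l : ℕ) : ℤ) ∧
      bit C l (win C n K Y) = (((Y / s C l) % 2 : ℕ) : ℤ) := by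
  obtain ⟨v, hv⟩ := c_congr C (Nat.le_sub_one_of_lt hl)
  have hs : (0 : ℤ) < s C l := by exact_mod_cast s_pos C l
  have h1 : win C n K Y + c C l = (Y : ℤ) + s C l * (-(2 * v)) := by
    rw [win, hv]
    push_cast
    ring
  constructor
  · rw [h1, Int.add_mul_emod_self_left]
    push_cast
    rfl
  · rw [bit, h1, Int.add_mul_ediv_left _ _ hs.ne']
    push_cast
    omega

lemma win_high (hn : ∀ j, 1 ≤ n j) {K Y l : ℕ} (hK : 1 ≤ K) (hY : Y < 2 * s C (a n K - 1))
    (hl : a n K ≤ l) : 4 * |win C n K Y| < s C l := by
  have h1 : 1 ≤ a n K := le_trans hK (le_a n hn K)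
  have h2 := c_le C (a n K - 1)
  have h3 := s_growth C (a n K - 1)
  rw [show a n K - 1 + 1 = a n K by omega] at h3
  have h4 := s_mono C hl
  have h5 : 0 < s C (a n K - 1) := s_pos C _
  have h6 : |win C n K Y| ≤ 2 * s C (a n K - 1) := by
    rw [win, abs_le]
    constructor <;> omega
  omega

open Classical in
theorem density (hn : ∀ j, 1 ≤ n j) (hr : ∀ j, r j ≤ n j)
    (hN : ∀ j, 2 * r j * Nat.centralBinom (n j) * 2 ^ (j + 3) ≤ 4 ^ n j) {K : ℕ} (hK : 1 ≤ K) :
    2 * s C (a n K - 1) ≤ 2 * ((range (2 * s C (a n K - 1))).filter (fun Y =>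
      win C n K Y ∈ A C n r 0)).card + 2 * ((range (2 * s C (a n K - 1))).filter (fun Y =>
      win C n K Y ∈ A C n r 1)).card := by
  classical
  set Λ := a n K with hΛ
  set R := range (2 * s C (Λ - 1)) with hR
  set X0 := R.filter (fun Y => win C n K Y ∈ A C n r 0) with hX0
  set X1 := R.filter (fun Y => win C n K Y ∈ A C n r 1) with hX1
  set bad : ℕ → Finset ℕ := fun l => R.filter (fun Y => Y % s C l < D C l ∨
      s C l ≤ Y % s C l + D C l) with hbad
  set und : ℕ → Finset ℕ := fun j => R.filter (fun Y =>
      ¬ (((Ico (a n j) (a n (j + 1))).filter (fun l => (Y / s C l) % 2 = 1)).card + r j ≤ n j ∨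
        n j + r j ≤ ((Ico (a n j) (a n (j + 1))).filter
          (fun l => (Y / s C l) % 2 = 1)).card)) with hund
  have hcover : R ⊆ (X0 ∪ X1) ∪ ((range Λ).biUnion bad ∪ (range K).biUnion und) := by
    intro Y hY
    by_contra hcon
    simp only [mem_union, mem_biUnion, not_or, not_exists, not_and, mem_range] at hcon
    obtain ⟨⟨h0, h1⟩, h2, h3⟩ := hcon
    have hYlt := mem_range.1 hY
    have hgood : Good C n r (win C n K Y) := by
      constructor
      · intro l
        rcases Nat.lt_or_ge l Λ with hl | hl
        · have h4 := h2 l hl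
          rw [hbad, mem_filter, not_and] at h4
          have h5 := h4 hY
          have h6 := (win_low C n (K := K) (Y := Y) hl).1
          unfold Bad
          rw [h6]
          intro h7
          apply h5
          rcases h7 with h7 | h7
          · left
            exact_mod_cast h7
          · right
            exact_mod_cast h7
        · exact (bit_small C (win_high C n hn hK hYlt hl)).2
      · intro j
        rcases Nat.lt_or_ge j K with hj | hj
        · have h4 := h3 j hj
          rw [hund, mem_filter, not_and, not_not] at h4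
          have h5 := h4 hY
          have h6 : ones C n j (win C n K Y) =
              ((Ico (a n j) (a n (j + 1))).filter (fun l => (Y / s C l) % 2 = 1)).card := by
            unfold ones
            congr 1
            apply filter_congr
            intro l hl
            have hl2 : l < a n K := by
              have h7 := (mem_Ico.1 hl).2
              rcases Nat.eq_or_lt_of_le (Nat.succ_le_of_lt hj) with h8 | h8
              · rw [← h8]
                exact h7
              · have := a_lt n hn h8
                simp only [Nat.succ_eq_add_one] at this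
                omega
            rw [(win_low C n (K := K) (Y := Y) hl2).2]
            constructor
            · intro h
              exact_mod_cast h
            · intro h
              exact_mod_cast h
          unfold Low High
          rw [h6]
          exact h5
        · left
          have h6 : ones C n j (win C n K Y) = 0 := by
            rw [ones, card_eq_zero, filter_eq_empty_iff]
            intro l hl
            have hl2 : a n K ≤ l := by
              have h7 := (mem_Ico.1 hl).1
              rcases Nat.eq_or_lt_of_le hj with h8 | h8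
              · rw [h8]
                exact h7
              · have := a_lt n hn h8
                omega
            rw [(bit_small C (win_high C n hn hK hYlt hl2)).1]
            norm_num
          unfold Low
          rw [h6]
          have := hr j
          omega
    have hpar := Nat.mod_two_eq_zero_or_one ({j | High C n r j (win C n K Y)}.ncard)
    rcases hpar with h | h
    · exact h0 (mem_filter.2 ⟨hY, hgood, h⟩)
    · exact h1 (mem_filter.2 ⟨hY, hgood, h⟩)
  have hc1 := card_le_card hcover
  have hc2 := card_union_le (X0 ∪ X1) ((range Λ).biUnion bad ∪ (range K).biUnion und)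
  have hc3 := card_union_le X0 X1
  have hc4 := card_union_le ((range Λ).biUnion bad) ((range K).biUnion und)
  have hc5 : ((range Λ).biUnion bad).card ≤ ∑ l ∈ range Λ, (bad l).card := card_biUnion_le
  have hc6 : ((range K).biUnion und).card ≤ ∑ j ∈ range K, (und j).card := card_biUnion_le
  set P := 2 * s C (Λ - 1) with hP
  have hRc : R.card = P := by rw [hR, card_range]
  have hPr : (0 : ℝ) ≤ P := by positivity
  have hb : ∀ l ∈ range Λ, ((bad l).card : ℝ) ≤ P / 32 * (1 / 2) ^ l := by
    intro l hl
    have h1 := bad_count C (mem_range.1 hl)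
    have h2 : ((bad l).card : ℝ) * 2 ^ (l + 5) ≤ P := by exact_mod_cast h1
    rw [← le_div_iff₀ (by positivity)] at h2
    refine h2.trans (le_of_eq ?_)
    rw [pow_add, div_pow, one_pow]
    field_simp
    norm_num
  have hu : ∀ j ∈ range K, ((und j).card : ℝ) ≤ P / 8 * (1 / 2) ^ j := by
    intro j hj
    have hI : Ico (a n j) (a n (j + 1)) ⊆ range Λ := by
      intro l hl
      rw [mem_range]
      have h7 := (mem_Ico.1 hl).2
      rcases Nat.eq_or_lt_of_le (Nat.succ_le_of_lt (mem_range.1 hj)) with h8 | h8
      · rw [hΛ, ← h8]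
        exact h7
      · have := a_lt n hn h8
        simp only [Nat.succ_eq_add_one] at this
        omega
    have hIc : (Ico (a n j) (a n (j + 1))).card = 2 * n j := by
      rw [Nat.card_Ico, a_succ]
      omega
    have h1 := undecided C hI hIc (hr j) (hN j)
    have h2 : ((und j).card : ℝ) * 2 ^ (j + 3) ≤ P := by exact_mod_cast h1
    rw [← le_div_iff₀ (by positivity)] at h2
    refine h2.trans (le_of_eq ?_)
    rw [pow_add, div_pow, one_pow]
    field_simp
    norm_num
  have hb' : ((∑ l ∈ range Λ, (bad l).card : ℕ) : ℝ) ≤ P / 16 := by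
    push_cast
    refine (sum_le_sum hb).trans ?_
    rw [← mul_sum]
    have := mul_le_mul_of_nonneg_left (sum_geometric_two_le Λ) (show (0 : ℝ) ≤ P / 32 by positivity)
    linarith
  have hu' : ((∑ j ∈ range K, (und j).card : ℕ) : ℝ) ≤ P / 4 := by
    push_cast
    refine (sum_le_sum hu).trans ?_
    rw [← mul_sum]
    have := mul_le_mul_of_nonneg_left (sum_geometric_two_le K) (show (0 : ℝ) ≤ P / 8 by positivity)
    linarith
  have hfin : (P : ℝ) ≤ X0.card + X1.card + (P / 16 + P / 4) := by
    have h1 : R.card ≤ X0.card + X1.card + (∑ l ∈ range Λ, (bad l).card +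
        ∑ j ∈ range K, (und j).card) := by omega
    rw [hRc] at h1
    have h2 : (P : ℝ) ≤ X0.card + X1.card + (((∑ l ∈ range Λ, (bad l).card : ℕ) : ℝ) +
        ((∑ j ∈ range K, (und j).card : ℕ) : ℝ)) := by exact_mod_cast h1
    linarith
  have hfin2 : (P : ℝ) ≤ ((2 * X0.card + 2 * X1.card : ℕ) : ℝ) := by
    push_cast
    linarith
  exact_mod_cast hfin2

end Density

/-! ### The choice of the parameters -/

/-- the bound for the number of even coefficients in stage `j` -/
noncomputable def kk (j : ℕ) : ℕ :=
  (IPBohr.exists_odd_uniform (j + 1) (η := 1 / (j + 1)) (by positivity)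
    (by rw [div_le_one (by positivity)]; linarith [Nat.cast_nonneg (α := ℝ) j])).choose

lemma kk_spec (j N : ℕ) : ∃ 𝓜 : Finset (Fin N → ℕ),
    (∀ m ∈ 𝓜, (univ.filter (fun i => Even (m i))).card ≤ kk j) ∧
      ∀ Z : Fin N → Fin (j + 1) → Circle, ∃ m ∈ 𝓜, ∀ q,
        ‖((∏ i, Z i q ^ m i : Circle) : ℂ) - 1‖ < 1 / (j + 1) :=
  (IPBohr.exists_odd_uniform (j + 1) (η := 1 / (j + 1)) (by positivity)
    (by rw [div_le_one (by positivity)]; linarith [Nat.cast_nonneg (α := ℝ) j])).choose_spec N

/-- the margin of stage `j` -/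
noncomputable def rr (j : ℕ) : ℕ := kk j + 1

lemma nn_exists (j : ℕ) : ∃ n, 3 * rr j ≤ n ∧
    1 * (2 * rr j * Nat.centralBinom n) * 2 ^ (j + 3) ≤ 4 ^ n := BohrPart.exists_n j 1 (rr j)

/-- half the number of places of stage `j` -/
noncomputable def nj (j : ℕ) : ℕ := (nn_exists j).choose

lemma nj_spec (j : ℕ) : 3 * rr j ≤ nj j ∧
    1 * (2 * rr j * Nat.centralBinom (nj j)) * 2 ^ (j + 3) ≤ 4 ^ (nj j) :=
  (nn_exists j).choose_spec

/-- the finite set of combinations of stage `j` -/
noncomputable def MM (j : ℕ) : Finset (Fin (2 * nj j) → ℕ) := (kk_spec j (2 * nj j)).choose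

lemma MM_spec (j : ℕ) : (∀ m ∈ MM j, (univ.filter (fun i => Even (m i))).card ≤ kk j) ∧
      ∀ Z : Fin (2 * nj j) → Fin (j + 1) → Circle, ∃ m ∈ MM j, ∀ q,
        ‖((∏ i, Z i q ^ m i : Circle) : ℂ) - 1‖ < 1 / (j + 1) :=
  (kk_spec j (2 * nj j)).choose_spec

/-- the bound for the coefficients of stage `j` -/
noncomputable def Cj (j : ℕ) : ℕ := (MM j).sup (fun m => univ.sup m)

lemma le_Cj {j : ℕ} {m : Fin (2 * nj j) → ℕ} (hm : m ∈ MM j) (i : Fin (2 * nj j)) :
    m i ≤ Cj j :=
  le_trans (le_sup (f := m) (mem_univ i)) (le_sup (f := fun m => univ.sup m) hm)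

lemma nj_pos (j : ℕ) : 1 ≤ nj j := by
  have := (nj_spec j).1
  unfold rr at this
  omega

/-- the generator of the IP set -/
noncomputable def gen (j : ℕ) : ℕ := 2 * s Cj (a nj j)

/-- the difference of a combination of stage `j` and an element of the IP set avoids the
difference set of each class -/
theorem avoid {ε j : ℕ} {m : Fin (2 * nj j) → ℕ} (hm : m ∈ MM j) (Fs : Finset ℕ) {x : ℤ}
    (hx : x ∈ A Cj nj rr ε) :
    x + ((∑ i, (m i : ℤ) * s Cj (a nj j + i)) - ∑ t ∈ Fs, (gen t : ℤ)) ∉ A Cj nj rr ε := by
  classical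
  -- the coefficients
  set m' : ℕ → ℤ := fun l =>
    (if h : l - a nj j < 2 * nj j ∧ a nj j ≤ l then (m ⟨l - a nj j, h.1⟩ : ℤ) else 0) -
      (if l ∈ Fs.image (a nj) then 2 else 0) with hm'
  set Λ := a nj (j + 1) + (Fs.sup (a nj) + 1) with hΛ
  have hinj : Function.Injective (a nj) := by
    intro i i' h
    rcases lt_trichotomy i i' with h1 | h1 | h1
    · have := a_lt nj nj_pos h1
      omega
    · exact h1
    · have := a_lt nj nj_pos h1
      omega
  have hIm : ∀ l ∈ Fs.image (a nj), l < Λ := by
    intro l hl
    rw [mem_image] at hl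
    obtain ⟨t, ht, rfl⟩ := hl
    have := le_sup (f := a nj) ht
    omega
  have hsum : (∑ i, (m i : ℤ) * s Cj (a nj j + i)) - ∑ t ∈ Fs, (gen t : ℤ) =
      ∑ l ∈ range Λ, m' l * s Cj l := by
    have h1 : ∑ l ∈ range Λ, m' l * (s Cj l : ℤ) =
        (∑ l ∈ range Λ, (if h : l - a nj j < 2 * nj j ∧ a nj j ≤ l then
          (m ⟨l - a nj j, h.1⟩ : ℤ) else 0) * (s Cj l : ℤ)) -
        ∑ l ∈ range Λ, (if l ∈ Fs.image (a nj) then 2 else 0) * (s Cj l : ℤ) := by
      rw [← sum_sub_distrib]
      apply sum_congr rfl
      intro l _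
      rw [hm']
      ring
    rw [h1]
    congr 1
    · -- the stage
      have h2 : ∑ l ∈ range Λ, (if h : l - a nj j < 2 * nj j ∧ a nj j ≤ l then
          (m ⟨l - a nj j, h.1⟩ : ℤ) else 0) * (s Cj l : ℤ) =
          ∑ l ∈ Ico (a nj j) (a nj j + 2 * nj j),
            (if h : l - a nj j < 2 * nj j ∧ a nj j ≤ l then
              (m ⟨l - a nj j, h.1⟩ : ℤ) else 0) * (s Cj l : ℤ) := by
        symm
        apply sum_subset
        · intro l hl
          rw [mem_Ico] at hl
          rw [mem_range, hΛ, a_succ]
          omega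
        · intro l _ hl
          rw [mem_Ico, not_and_or] at hl
          rw [dif_neg (by omega), zero_mul]
      rw [h2, sum_Ico_eq_sum_range, Nat.add_sub_cancel_left, ← Fin.sum_univ_eq_sum_range
        (fun i => (if h : a nj j + i - a nj j < 2 * nj j ∧ a nj j ≤ a nj j + i then
          (m ⟨a nj j + i - a nj j, h.1⟩ : ℤ) else 0) * (s Cj (a nj j + i) : ℤ)) (2 * nj j)]
      apply sum_congr rfl
      intro i _
      rw [dif_pos ⟨by omega, by omega⟩]
      congr 3
      apply Fin.ext
      simp
    · -- the IP set
      have h2 : ∑ l ∈ range Λ, (if l ∈ Fs.image (a nj) then 2 else 0) * (s Cj l : ℤ) =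
          ∑ l ∈ Fs.image (a nj), 2 * (s Cj l : ℤ) := by
        rw [← sum_subset (s₁ := Fs.image (a nj)) (s₂ := range Λ)]
        · apply sum_congr rfl
          intro l hl
          rw [if_pos hl]
        · intro l hl
          exact mem_range.2 (hIm l hl)
        · intro l _ hl
          rw [if_neg hl, zero_mul]
      rw [h2, sum_image (fun i _ i' _ h => hinj h)]
      apply sum_congr rfl
      intro t _
      rw [gen]
      push_cast
      rfl
  rw [hsum]
  have hja := le_a nj nj_pos j
  have hCl : ∀ l, j ≤ l → Cj j + 2 ≤ Cl Cj l := by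
    intro l hl
    unfold Cl
    have : Cj j ≤ ∑ j ∈ range (l + 1), Cj j :=
      single_le_sum (f := Cj) (fun _ _ => Nat.zero_le _) (mem_range.2 (by omega))
    omega
  apply flip nj_pos (Λ := Λ) (k := j) (m := m') (n := nj) (r := rr) (C := Cj)
  · intro l
    rw [hm']
    simp only
    have h2 : 2 ≤ Cl Cj l := by
      unfold Cl
      omega
    split_ifs with h3 h4 h4
    · have h5 := le_Cj hm ⟨l - a nj j, h3.1⟩
      have h6 := hCl l (by omega)
      rw [abs_le]
      constructor <;> omega
    · have h5 := le_Cj hm ⟨l - a nj j, h3.1⟩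
      have h6 := hCl l (by omega)
      rw [abs_le]
      constructor <;> omega
    · rw [abs_le]
      constructor <;> omega
    · simp
  · intro l hl
    rw [hm']
    simp only
    rw [dif_neg, if_neg, sub_zero]
    · intro h
      have := hIm l h
      omega
    · rw [hΛ, a_succ] at hl
      omega
  · intro l hl
    rw [mem_Ico, a_succ, not_and_or] at hl
    rw [hm']
    simp only
    rw [dif_neg (by omega)]
    split_ifs
    · exact ⟨-1, by norm_num⟩
    · exact ⟨0, by norm_num⟩
  · have h1 : ((Ico (a nj j) (a nj (j + 1))).filter (fun l => Even (m' l))).card ≤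
        (univ.filter (fun i => Even (m i))).card := by
      apply card_le_card_of_surjOn (fun i : Fin (2 * nj j) => a nj j + i)
      intro l hl
      rw [mem_coe, mem_filter, mem_Ico, a_succ] at hl
      obtain ⟨⟨h2, h3⟩, h4⟩ := hl
      refine ⟨⟨l - a nj j, by omega⟩, ?_, ?_⟩
      · rw [mem_coe, mem_filter]
        refine ⟨mem_univ _, ?_⟩
        rw [hm'] at h4
        simp only at h4
        rw [dif_pos ⟨by omega, h2⟩] at h4
        have h5 : Even ((m ⟨l - a nj j, by omega⟩ : ℕ) : ℤ) := by
          split_ifs at h4 with h6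
          · have := h4.add (show Even (2 : ℤ) from ⟨1, by norm_num⟩)
            simpa using this
          · simpa using h4
        exact_mod_cast h5
      · simp only
        omega
    have h2 := (MM_spec j).1 m hm
    unfold rr
    omega
  · exact hx

end Pool.Agent.V11180.IPBits
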