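import Pool.Agent.V11180.HamK

set_option autoImplicit false

/-!
# Closed listings and lists with trivial product
-/

namespace Pool.Agent.V11180.HamS

/-- From a list with trivial product to a closed listing. -/
theorem closed_of_circuit {G : Type*} [Group G] [Finite G] (A : Set G) (l : List G)
    (hlen : l.length = Nat.card G) (hA : ∀ x ∈ l, x ∈ A)
    (hinj : Set.InjOn (fun k : ℕ => (l.take k).prod) (Set.Icc 1 (Nat.card G)))
    (hprod : l.prod = 1) : Closed A := by
  classical
  have hpos : 0 < Nat.card G := Nat.card_pos
  have hsucc : ∀ k, (hk : k < l.length) → (l.take (k + 1)).prod = (l.take k).prod * l[k] := by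
    intro k hk
    rw [List.prod_take_succ]
  have hfull : (l.take (Nat.card G)).prod = 1 := by
    rw [← hlen, List.take_length, hprod]
  refine ⟨fun j => (l.take (j % Nat.card G)).prod, ?_, ?_, ?_⟩
  · intro j
    show (l.take ((j + Nat.card G) % Nat.card G)).prod = (l.take (j % Nat.card G)).prod
    rw [Nat.add_mod_right]
  · intro j
    show ((l.take (j % Nat.card G)).prod)⁻¹ * (l.take ((j + 1) % Nat.card G)).prod ∈ A
    have hlt := Nat.mod_lt j hpos
    have hj := Nat.div_add_mod j (Nat.card G)
    have hk : j % Nat.card G < l.length := by omega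
    by_cases hc : j % Nat.card G + 1 < Nat.card G
    · have e : j + 1 = (j % Nat.card G + 1) + Nat.card G * (j / Nat.card G) := by omega
      have e2 : (j + 1) % Nat.card G = j % Nat.card G + 1 := by
        rw [e, Nat.add_mul_mod_self_left, Nat.mod_eq_of_lt hc]
      rw [e2, hsucc _ hk, inv_mul_cancel_left]
      exact hA _ (List.getElem_mem hk)
    · have e0 : j % Nat.card G + 1 = Nat.card G := by omega
      have e : j + 1 = Nat.card G * (j / Nat.card G + 1) := by
        rw [mul_add, mul_one]
        omega
      have e2 : (j + 1) % Nat.card G = 0 := by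
        rw [e]
        exact Nat.mul_mod_right _ _
      have h1 := hsucc _ hk
      rw [e0, hfull] at h1
      rw [e2, List.take_zero, List.prod_nil, h1, inv_mul_cancel_left]
      exact hA _ (List.getElem_mem hk)
  · have := Fintype.ofFinite G
    have hsurj : Set.SurjOn (fun k : ℕ => (l.take k).prod)
        (Finset.Icc 1 (Nat.card G) : Finset ℕ) (Finset.univ : Finset G) := by
      apply Finset.surjOn_of_injOn_of_card_le
      · intro x _
        simp
      · rw [Finset.coe_Icc]
        exact hinj
      · rw [Nat.card_Icc, Finset.card_univ, Nat.card_eq_fintype_card]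
        omega
    intro g
    obtain ⟨k, hk, hkg⟩ := hsurj (by simp : g ∈ ((Finset.univ : Finset G) : Set G))
    rw [Finset.coe_Icc] at hk
    simp only at hkg
    by_cases hkn : k = Nat.card G
    · refine ⟨0, hpos, ?_⟩
      show (l.take (0 % Nat.card G)).prod = g
      rw [Nat.zero_mod, List.take_zero, List.prod_nil, ← hkg, hkn, hfull]
    · refine ⟨k, lt_of_le_of_ne hk.2 hkn, ?_⟩
      show (l.take (k % Nat.card G)).prod = g
      rw [Nat.mod_eq_of_lt (lt_of_le_of_ne hk.2 hkn)]
      exact hkg

end Pool.Agent.V11180.HamS
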