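import Pool.Agent.V11180.HamSel

set_option autoImplicit false

/-!
# Level digraphs over `p`-groups
-/

namespace Pool.Agent.V11180.HamS

open Subgroup (closure mem_top mem_bot)

variable {G : Type*} [Group G]

/-- A closed listing of the group with all steps in `C`. -/
def Closed (C : Set G) : Prop :=
  ∃ s : ℕ → G, (∀ j, s (j + Nat.card G) = s j) ∧ (∀ j, (s j)⁻¹ * s (j + 1) ∈ C) ∧
    (∀ g, ∃ j < Nat.card G, s j = g)

/-- The labels. -/
def Lab (C : Set G) (N : Subgroup G) (s : ℕ → G) : Set G :=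
  {d | d ∈ N ∧ ∃ j, (s j)⁻¹ * d * s (j + 1) ∈ C}

/-- A level structure. -/
structure Lev (C : Set G) (N : Subgroup G) (m : ℕ) (s : ℕ → G) (h : G) : Prop where
  mpos : 0 < m
  hN : h ∈ N
  per : ∀ j, s (j + m) = h * s j
  arc : ∀ j, (s j)⁻¹ * s (j + 1) ∈ C
  cov : ∀ g, ∃ j < m, g * (s j)⁻¹ ∈ N
  card : m * Nat.card N = Nat.card G
  gen : N ≤ closure (Lab C N s ∪ {h})

section
variable {C : Set G} {N : Subgroup G} {m : ℕ} {s : ℕ → G} {h : G}

lemma Lev.per_mul (H : Lev C N m s h) (k j : ℕ) : s (j + k * m) = h ^ k * s j := by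
  induction k with
  | zero => simp
  | succ k ih =>
    have e : j + (k + 1) * m = (j + k * m) + m := by ring
    rw [e, H.per, ih, pow_succ', mul_assoc]

lemma Lev.conj_lab (H : Lev C N m s h) {d : G} {j : ℕ} (hd : (s j)⁻¹ * d * s (j + 1) ∈ C)
    (k : ℕ) : (s (j + k * m))⁻¹ * (h ^ k * d * (h ^ k)⁻¹) * s (j + k * m + 1) ∈ C := by
  have e : j + k * m + 1 = (j + 1) + k * m := by ring
  rw [e, H.per_mul, H.per_mul]
  have e2 : (h ^ k * s j)⁻¹ * (h ^ k * d * (h ^ k)⁻¹) * (h ^ k * s (j + 1)) =
      (s j)⁻¹ * d * s (j + 1) := by group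
  rw [e2]
  exact hd

/-- The periodic extension. -/
def ext (u : ℕ → G) (h : G) (m : ℕ) : ℕ → G := fun j => h ^ (j / m) * u (j % m)

lemma ext_per (u : ℕ → G) (h : G) (m : ℕ) (hm : 0 < m) (j : ℕ) :
    ext u h m (j + m) = h * ext u h m j := by
  unfold ext
  rw [Nat.add_div_right j hm, Nat.add_mod_right, pow_succ', mul_assoc]

lemma ext_succ (u : ℕ → G) (h : G) (m : ℕ) (hm : 0 < m) (hu : u m = h * u 0) (j : ℕ) :
    ext u h m (j + 1) = h ^ (j / m) * u (j % m + 1) := by
  unfold ext
  have hlt := Nat.mod_lt j hm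
  have hj := Nat.div_add_mod j m
  by_cases hc : j % m + 1 = m
  · have e : j + 1 = m * (j / m + 1) := by
      rw [mul_add, mul_one]
      omega
    have e1 : (j + 1) / m = j / m + 1 := by
      rw [e]
      exact Nat.mul_div_cancel_left _ hm
    have e2 : (j + 1) % m = 0 := by
      rw [e]
      exact Nat.mul_mod_right _ _
    rw [e1, e2, hc, hu, pow_succ, mul_assoc]
  · have hlt2 : j % m + 1 < m := by omega
    have e : j + 1 = (j % m + 1) + m * (j / m) := by omega
    have e1 : (j + 1) / m = j / m := by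
      rw [e, Nat.add_mul_div_left _ _ hm, Nat.div_eq_of_lt hlt2, zero_add]
    have e2 : (j + 1) % m = j % m + 1 := by
      rw [e, Nat.add_mul_mod_self_left, Nat.mod_eq_of_lt hlt2]
    rw [e1, e2]

lemma ext_lt (u : ℕ → G) (h : G) (m : ℕ) (j : ℕ) (hj : j < m) : ext u h m j = u j := by
  unfold ext
  rw [Nat.div_eq_of_lt hj, Nat.mod_eq_of_lt hj, pow_zero, one_mul]

lemma ext_succ_lt (u : ℕ → G) (h : G) (m : ℕ) (hu : u m = h * u 0) (j : ℕ) (hj : j < m) :
    ext u h m (j + 1) = u (j + 1) := by
  rw [ext_succ u h m (by omega) hu, Nat.div_eq_of_lt hj, Nat.mod_eq_of_lt hj, pow_zero, one_mul]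

lemma Lev.shift (H : Lev C N m s h) (t : ℕ) : Lev C N m (fun j => s (j + t)) h := by
  refine ⟨H.mpos, H.hN, ?_, ?_, ?_, H.card, ?_⟩
  · intro j
    have e : j + m + t = (j + t) + m := by ring
    rw [e, H.per]
  · intro j
    have e : j + 1 + t = (j + t) + 1 := by ring
    rw [e]
    exact H.arc _
  · intro g
    obtain ⟨j, hj, hg⟩ := H.cov g
    refine ⟨(j + (m - 1) * t) % m, Nat.mod_lt _ H.mpos, ?_⟩
    have hm := H.mpos
    have e1 : ((j + (m - 1) * t) % m + t) % m = j := by
      rw [Nat.mod_add_mod]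
      have e : j + (m - 1) * t + t = j + m * t := by
        obtain ⟨m', rfl⟩ : ∃ m', m = m' + 1 := ⟨m - 1, by omega⟩
        simp only [Nat.add_sub_cancel]
        ring
      rw [e, Nat.add_mul_mod_self_left, Nat.mod_eq_of_lt hj]
    have e2 := Nat.div_add_mod ((j + (m - 1) * t) % m + t) m
    rw [e1] at e2
    have e3 : (j + (m - 1) * t) % m + t = j + ((j + (m - 1) * t) % m + t) / m * m := by
      rw [← Nat.mul_comm m]
      omega
    rw [e3, H.per_mul, mul_inv_rev, ← mul_assoc]
    exact mul_mem hg (inv_mem (pow_mem H.hN _))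
  · refine H.gen.trans ?_
    rw [Subgroup.closure_le]
    have hh : h ∈ closure (Lab C N (fun j => s (j + t)) ∪ {h}) :=
      Subgroup.subset_closure (Or.inr rfl)
    rintro d (⟨hdN, j, hd⟩ | hd)
    · have h1 := H.conj_lab hd t
      have h2 : h ^ t * d * (h ^ t)⁻¹ ∈ closure (Lab C N (fun j => s (j + t)) ∪ {h}) := by
        apply Subgroup.subset_closure
        left
        refine ⟨mul_mem (mul_mem (pow_mem H.hN _) hdN) (inv_mem (pow_mem H.hN _)),
          j + t * m - t, ?_⟩
        have hle : t ≤ j + t * m := by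
          have := Nat.le_mul_of_pos_right t H.mpos
          omega
        simp only
        have e1 : j + t * m - t + t = j + t * m := by omega
        have e2 : j + t * m - t + 1 + t = j + t * m + 1 := by omega
        rw [e1, e2]
        exact h1
      have e : d = (h ^ t)⁻¹ * (h ^ t * d * (h ^ t)⁻¹) * h ^ t := by group
      rw [e]
      exact mul_mem (mul_mem (inv_mem (pow_mem hh _)) h2) (pow_mem hh _)
    · rw [Set.mem_singleton_iff] at hd
      rw [hd]
      exact hh

lemma Lev.rebase (H : Lev C N m s h) (e : G) (he : e ∈ N)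
    (heC : (s (m - 1))⁻¹ * e * s m ∈ C) : ∃ s', Lev C N m s' (e * h) := by
  have hm := H.mpos
  set u : ℕ → G := fun j => if j < m then s j else e * s m with hu
  have hu0 : u m = (e * h) * u 0 := by
    have h1 : u m = e * s m := by simp [hu]
    have h2 : u 0 = s 0 := by simp [hu, hm]
    have h3 : s m = h * s 0 := by
      have := H.per 0
      rwa [zero_add] at this
    rw [h1, h2, h3, mul_assoc]
  have hult : ∀ j, j < m → u j = s j := by
    intro j hj
    simp [hu, hj]
  refine ⟨ext u (e * h) m, hm, mul_mem he H.hN, ext_per u _ m hm, ?_, ?_, H.card, ?_⟩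
  · intro j
    rw [ext_succ u _ m hm hu0]
    unfold ext
    have hlt := Nat.mod_lt j hm
    have e1 : ((e * h) ^ (j / m) * u (j % m))⁻¹ * ((e * h) ^ (j / m) * u (j % m + 1)) =
        (u (j % m))⁻¹ * u (j % m + 1) := by group
    rw [e1]
    by_cases hc : j % m + 1 < m
    · rw [hult _ hlt, hult _ hc]
      exact H.arc _
    · have e2 : j % m + 1 = m := by omega
      have e3 : j % m = m - 1 := by omega
      rw [e2, hult _ hlt, e3]
      have : u m = e * s m := by simp [hu]
      rw [this, ← mul_assoc]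
      exact heC
  · intro g
    obtain ⟨j, hj, hg⟩ := H.cov g
    refine ⟨j, hj, ?_⟩
    rw [ext_lt _ _ _ _ hj, hult _ hj]
    exact hg
  · set s' := ext u (e * h) m with hs'
    set K := closure (Lab C N s' ∪ {e * h}) with hK
    have hehK : e * h ∈ K := Subgroup.subset_closure (Or.inr rfl)
    have hsm : s' m = e * s m := by
      have h1 := ext_succ_lt u (e * h) m hu0 (m - 1) (by omega)
      have e1 : m - 1 + 1 = m := by omega
      rw [e1] at h1
      rw [hs', h1]
      simp [hu]
    have hsm1 : s' (m - 1) = s (m - 1) := by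
      rw [hs', ext_lt _ _ _ _ (by omega), hult _ (by omega)]
    have heK : e ∈ K := by
      have h1 : e⁻¹ ∈ K := by
        apply Subgroup.subset_closure
        left
        refine ⟨inv_mem he, m - 1, ?_⟩
        have e1 : m - 1 + 1 = m := by omega
        rw [e1, hsm, hsm1]
        have e2 : (s (m - 1))⁻¹ * e⁻¹ * (e * s m) = (s (m - 1))⁻¹ * s (m - 1 + 1) := by
          rw [e1]
          group
        rw [e2]
        exact H.arc _
      have := inv_mem h1
      rwa [inv_inv] at this
    have hhK : h ∈ K := by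
      have : h = e⁻¹ * (e * h) := by group
      rw [this]
      exact mul_mem (inv_mem heK) hehK
    -- labels at small levels
    have hsmall : ∀ d ∈ N, ∀ j < m, (s j)⁻¹ * d * s (j + 1) ∈ C → d ∈ K := by
      intro d hd j hj hdC
      by_cases hc : j + 1 < m
      · apply Subgroup.subset_closure
        left
        refine ⟨hd, j, ?_⟩
        rw [hs', ext_lt _ _ _ _ hj, ext_lt _ _ _ _ hc, hult _ hj, hult _ hc]
        exact hdC
      · have e1 : j = m - 1 := by omega
        have e2 : m - 1 + 1 = m := by omega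
        subst e1
        have h1 : d * e⁻¹ ∈ K := by
          apply Subgroup.subset_closure
          left
          refine ⟨mul_mem hd (inv_mem he), m - 1, ?_⟩
          rw [e2, hsm, hsm1]
          have e3 : (s (m - 1))⁻¹ * (d * e⁻¹) * (e * s m) =
              (s (m - 1))⁻¹ * d * s (m - 1 + 1) := by
            rw [e2]
            group
          rw [e3]
          exact hdC
        have : d = d * e⁻¹ * e := by group
        rw [this]
        exact mul_mem h1 heK
    refine H.gen.trans ?_
    rw [Subgroup.closure_le]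
    rintro d (⟨hdN, j, hd⟩ | hd)
    · -- move to a small level
      have hj := Nat.div_add_mod j m
      have ej : j = j % m + j / m * m := by
        rw [Nat.mul_comm]
        omega
      have ej1 : j + 1 = (j % m + 1) + j / m * m := by
        rw [Nat.mul_comm]
        omega
      rw [ej1] at hd
      nth_rewrite 1 [ej] at hd
      rw [H.per_mul, H.per_mul] at hd
      have h1 : (h ^ (j / m))⁻¹ * d * h ^ (j / m) ∈ K := by
        apply hsmall _ (mul_mem (mul_mem (inv_mem (pow_mem H.hN _)) hdN) (pow_mem H.hN _))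
          (j % m) (Nat.mod_lt _ hm)
        have e1 : (s (j % m))⁻¹ * ((h ^ (j / m))⁻¹ * d * h ^ (j / m)) * s (j % m + 1) =
            (h ^ (j / m) * s (j % m))⁻¹ * d * (h ^ (j / m) * s (j % m + 1)) := by
          group
        rw [e1]
        exact hd
      have e : d = h ^ (j / m) * ((h ^ (j / m))⁻¹ * d * h ^ (j / m)) * (h ^ (j / m))⁻¹ := by
        group
      rw [e]
      exact mul_mem (mul_mem (pow_mem hhK _) h1) (inv_mem (pow_mem hhK _))
    · rw [Set.mem_singleton_iff] at hd
      rw [hd]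
      exact hhK

/-- Passage to a subgroup of index `p`. -/
lemma Lev.step [Finite G] (H : Lev C N m s h) (p : ℕ) [hp : Fact p.Prime] (hNp : IsPGroup p N)
    (hh : (⟨h, H.hN⟩ : N) ∉ frattini N) :
    ∃ R : Subgroup G, IsPGroup p R ∧ Nat.card R < Nat.card N ∧ Lev C R (p * m) s (h ^ p) := by
  classical
  have hgen' : closure ({d : N | ∃ j, (s j)⁻¹ * (d : G) * s (j + 1) ∈ C} ∪ {⟨h, H.hN⟩}) =
      (⊤ : Subgroup N) := by
    apply top_le_iff.1
    have h1 : N ≤ (closure ({d : N | ∃ j, (s j)⁻¹ * (d : G) * s (j + 1) ∈ C} ∪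
        {⟨h, H.hN⟩})).map N.subtype := by
      rw [MonoidHom.map_closure]
      refine H.gen.trans (Subgroup.closure_mono ?_)
      rintro d (⟨hdN, j, hd⟩ | hd)
      · exact ⟨⟨d, hdN⟩, Or.inl ⟨j, hd⟩, rfl⟩
      · rw [Set.mem_singleton_iff] at hd
        exact ⟨⟨h, H.hN⟩, Or.inr rfl, hd.symm⟩
    intro x _
    obtain ⟨z, hz, hzx⟩ := h1 x.2
    have : z = x := Subtype.ext hzx
    rw [← this]
    exact hz
  obtain ⟨Q, hQn, hhpQ, hhQ, hQcov, hQcard, hQgen⟩ := sel hNp _ _ hh hgen'
  have hQpos : 0 < Nat.card Q := Nat.card_pos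
  set R := Q.map N.subtype with hR
  have hmemR : ∀ x : N, (x : G) ∈ R ↔ x ∈ Q := by
    intro x
    constructor
    · rintro ⟨y, hy, hyx⟩
      have : y = x := Subtype.ext hyx
      rw [← this]
      exact hy
    · intro hx
      exact ⟨x, hx, rfl⟩
  have hRN : R ≤ N := Subgroup.map_subtype_le Q
  have hRcard : Nat.card R = Nat.card Q :=
    (Nat.card_congr (Q.equivMapOfInjective N.subtype N.subtype_injective).toEquiv).symm
  have hhpR : h ^ p ∈ R := (hmemR (⟨h, H.hN⟩ ^ p)).2 hhpQ
  have hhR : h ∉ R := fun hx => hhQ ((hmemR ⟨h, H.hN⟩).1 hx)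
  refine ⟨R, hNp.to_le hRN, ?_, Nat.mul_pos hp.out.pos H.mpos, hhpR, ?_, H.arc, ?_, ?_, ?_⟩
  · rw [hRcard, hQcard]
    have := hp.out.two_le
    nlinarith
  · intro j
    exact H.per_mul p j
  · intro g
    obtain ⟨j, hj, hg⟩ := H.cov g
    obtain ⟨k, hk, hkQ⟩ := hQcov ⟨_, hg⟩
    refine ⟨j + k * m, ?_, ?_⟩
    · have h1 : (k + 1) * m ≤ p * m := Nat.mul_le_mul_right m hk
      have h2 : (k + 1) * m = k * m + m := by ring
      omega
    · rw [H.per_mul, mul_inv_rev, ← mul_assoc]
      exact (hmemR _).2 hkQ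
  · rw [hRcard, mul_assoc, mul_left_comm, ← hQcard]
    exact H.card
  · set K := closure (Lab C R s ∪ {h ^ p}) with hK
    have hhpK : h ^ p ∈ K := Subgroup.subset_closure (Or.inr rfl)
    have hKR : K ≤ R := by
      rw [hK, Subgroup.closure_le]
      rintro d (hd | hd)
      · exact hd.1
      · rw [Set.mem_singleton_iff] at hd
        rw [hd]
        exact hhpR
    have hRconj : ∀ x ∈ R, h * x * h⁻¹ ∈ R := by
      intro x hx
      have h1 := hQn.conj_mem ⟨x, hRN hx⟩ ((hmemR ⟨x, hRN hx⟩).1 hx) ⟨h, H.hN⟩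
      exact (hmemR _).2 h1
    have hconj : ∀ x ∈ K, h * x * h⁻¹ ∈ K := by
      intro x hx
      induction hx using Subgroup.closure_induction with
      | mem x hx =>
        rcases hx with ⟨hxR, j, hj⟩ | hx
        · apply Subgroup.subset_closure
          left
          refine ⟨hRconj x hxR, j + 1 * m, ?_⟩
          have := H.conj_lab hj 1
          rwa [pow_one] at this
        · rw [Set.mem_singleton_iff] at hx
          have e : h * x * h⁻¹ = h ^ p := by
            rw [hx, ← pow_succ', pow_succ, mul_inv_cancel_right]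
          rw [e]
          exact hhpK
      | one => simp
      | mul x y _ _ hx hy =>
        have e : h * (x * y) * h⁻¹ = (h * x * h⁻¹) * (h * y * h⁻¹) := by group
        rw [e]
        exact mul_mem hx hy
      | inv x _ hx =>
        have e : h * x⁻¹ * h⁻¹ = (h * x * h⁻¹)⁻¹ := by group
        rw [e]
        exact inv_mem hx
    have hconjk : ∀ k : ℕ, ∀ x ∈ K, h ^ k * x * (h ^ k)⁻¹ ∈ K := by
      intro k
      induction k with
      | zero =>
        intro x hx
        simpa using hx
      | succ k ih =>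
        intro x hx
        have e : h ^ (k + 1) * x * (h ^ (k + 1))⁻¹ = h * (h ^ k * x * (h ^ k)⁻¹) * h⁻¹ := by
          rw [pow_succ']
          group
        rw [e]
        exact hconj _ (ih x hx)
    have hform : ∀ x : N, ∃ c ∈ K, ∃ k : ℕ, (x : G) = c * h ^ k := by
      intro x
      have hx : x ∈ closure (({d : N | ∃ j, (s j)⁻¹ * (d : G) * s (j + 1) ∈ C} ∩ Q) ∪
          {(⟨h, H.hN⟩ : N)}) := by
        rw [hQgen]
        trivial
      induction hx using Subgroup.closure_induction with
      | mem x hx =>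
        rcases hx with ⟨⟨j, hj⟩, hxQ⟩ | hx
        · refine ⟨x, Subgroup.subset_closure (Or.inl ⟨(hmemR x).2 hxQ, j, hj⟩), 0, by simp⟩
        · rw [Set.mem_singleton_iff] at hx
          exact ⟨1, one_mem K, 1, by simp [hx]⟩
      | one => exact ⟨1, one_mem K, 0, by simp⟩
      | mul x y _ _ hx hy =>
        obtain ⟨c, hc, k, hk⟩ := hx
        obtain ⟨c', hc', k', hk'⟩ := hy
        refine ⟨c * (h ^ k * c' * (h ^ k)⁻¹), mul_mem hc (hconjk k c' hc'), k + k', ?_⟩
        push_cast
        rw [hk, hk', pow_add]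
        group
      | inv x _ hx =>
        obtain ⟨c, hc, k, hk⟩ := hx
        -- a positive power which is the inverse of `h ^ k`
        obtain ⟨l, hl⟩ : ∃ l : ℕ, h ^ l = (h ^ k)⁻¹ := by
          refine ⟨k * (orderOf h - 1), ?_⟩
          rw [eq_inv_iff_mul_eq_one, ← pow_add]
          have h1 : 0 < orderOf h := orderOf_pos h
          have e : k * (orderOf h - 1) + k = orderOf h * k := by
            obtain ⟨o, ho⟩ : ∃ o, orderOf h = o + 1 := ⟨orderOf h - 1, by omega⟩
            rw [ho]
            simp only [Nat.add_sub_cancel]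
            ring
          rw [e, pow_mul, pow_orderOf_eq_one, one_pow]
        refine ⟨h ^ l * c⁻¹ * (h ^ l)⁻¹, hconjk l _ (inv_mem hc), l, ?_⟩
        push_cast
        rw [hk, hl]
        group
    intro r hr
    obtain ⟨c, hc, k, hk⟩ := hform ⟨r, hRN hr⟩
    simp only at hk
    have hkR : h ^ k ∈ R := by
      have : h ^ k = c⁻¹ * r := by
        rw [hk]
        group
      rw [this]
      exact mul_mem (inv_mem (hKR hc)) hr
    have hpk : p ∣ k := by
      by_contra hcon
      apply hhR
      have hcop : IsCoprime (k : ℤ) (p : ℤ) := by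
        rw [Nat.isCoprime_iff_coprime]
        exact ((Nat.Prime.coprime_iff_not_dvd hp.out).2 hcon).symm
      obtain ⟨a, b, hab⟩ := hcop
      have e : h = (h ^ k) ^ a * (h ^ p) ^ b := by
        rw [← zpow_natCast h k, ← zpow_natCast h p, ← zpow_mul, ← zpow_mul, ← zpow_add]
        have : (k : ℤ) * a + (p : ℤ) * b = 1 := by linarith
        rw [this, zpow_one]
      rw [e]
      exact mul_mem (Subgroup.zpow_mem _ hkR a) (Subgroup.zpow_mem _ hhpR b)
    obtain ⟨q, rfl⟩ := hpk
    rw [hk, pow_mul]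
    exact mul_mem hc (pow_mem hhpK q)

end

/-- The level digraphs of `p`-groups have Hamiltonian cycles. -/
theorem lev_closed [Finite G] (C : Set G) (p : ℕ) [hp : Fact p.Prime] : ∀ (n : ℕ)
    (N : Subgroup G) (m : ℕ) (s : ℕ → G) (h : G), Nat.card N = n → IsPGroup p N →
      Lev C N m s h → Closed C := by
  intro n
  induction n using Nat.strong_induction_on with
  | _ n ih =>
    intro N m s h hn hNp H
    by_cases hbot : N = ⊥
    · subst hbot
      have hm : m = Nat.card G := by
        have := H.card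
        simpa using this
      have hh : h = 1 := mem_bot.1 H.hN
      refine ⟨s, ?_, H.arc, ?_⟩
      · intro j
        rw [← hm, H.per, hh, one_mul]
      · intro g
        obtain ⟨j, hj, hg⟩ := H.cov g
        refine ⟨j, by omega, ?_⟩
        rw [mem_bot] at hg
        exact (mul_inv_eq_one.1 hg).symm
    · by_cases hh : (⟨h, H.hN⟩ : N) ∈ frattini N
      · -- rebase
        obtain ⟨e, heN, he⟩ : ∃ e, ∃ heN : e ∈ N, (∃ j, (s j)⁻¹ * e * s (j + 1) ∈ C) ∧
            (⟨e, heN⟩ : N) ∉ frattini N := by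
          by_contra hcon
          push Not at hcon
          have h1 : (⊤ : Subgroup N) ≤ frattini N := by
            intro x _
            have h2 : (x : G) ∈ closure (Lab C N s ∪ {h}) := H.gen x.2
            have h3 : closure (Lab C N s ∪ {h}) ≤ (frattini N).map N.subtype := by
              rw [Subgroup.closure_le]
              rintro d (⟨hdN, j, hd⟩ | hd)
              · exact ⟨⟨d, hdN⟩, hcon d hdN ⟨j, hd⟩, rfl⟩
              · rw [Set.mem_singleton_iff] at hd
                exact ⟨⟨h, H.hN⟩, hh, hd.symm⟩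
            obtain ⟨z, hz, hzx⟩ := h3 h2
            have : z = x := Subtype.ext hzx
            rw [← this]
            exact hz
          have h2 : (⊥ : Subgroup N) = ⊤ := by
            apply frattini_nongenerating
            rw [bot_sup_eq]
            exact top_le_iff.1 h1
          apply hbot
          apply (Subgroup.eq_bot_iff_forall N).2
          intro x hx
          have h3 : (⟨x, hx⟩ : N) ∈ (⊥ : Subgroup N) := by
            rw [h2]
            trivial
          rw [mem_bot] at h3
          exact congrArg Subtype.val h3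
        obtain ⟨⟨j, hj⟩, heF⟩ := he
        have H' := H.shift (j + 1)
        have hm := H.mpos
        have h1 := H.conj_lab hj 1
        rw [pow_one, one_mul] at h1
        have heN' : h * e * h⁻¹ ∈ N := mul_mem (mul_mem H.hN heN) (inv_mem H.hN)
        obtain ⟨s', H''⟩ := H'.rebase (h * e * h⁻¹) heN' (by
          have e1 : m - 1 + (j + 1) = j + m := by omega
          have e2 : m + (j + 1) = j + m + 1 := by omega
          rw [e1, e2]
          exact h1)
        have hnF : (⟨h * e * h⁻¹ * h, H''.hN⟩ : N) ∉ frattini N := by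
          intro hF
          apply heF
          have h2 : (⟨h * e * h⁻¹ * h, H''.hN⟩ : N) = ⟨h, H.hN⟩ * ⟨e, heN⟩ := by
            apply Subtype.ext
            simp
          rw [h2] at hF
          exact (Subgroup.mul_mem_cancel_left _ hh).1 hF
        obtain ⟨R, hR1, hR2, hR3⟩ := H''.step p hNp hnF
        exact ih _ (by omega) R _ _ _ rfl hR1 hR3
      · obtain ⟨R, hR1, hR2, hR3⟩ := H.step p hNp hh
        exact ih _ (by omega) R _ _ _ rfl hR1 hR3

/-- Lifting a closed listing over a normal `p`-subgroup `N` with `N = [N, G]`. -/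
theorem lift_p [Finite G] (N : Subgroup G) [hNn : N.Normal] (p : ℕ) [hp : Fact p.Prime]
    (hNp : IsPGroup p N) (hN : N ≤ ⁅N, (⊤ : Subgroup G)⁆) (C : Set G)
    (hC : ∀ x ∈ N, ∀ c ∈ C, x * c * x⁻¹ ∈ C)
    (hcl : Closed ((QuotientGroup.mk' N) '' C)) : Closed C := by
  classical
  obtain ⟨t, ht1, ht2, ht3⟩ := hcl
  choose c hcC hc using ht2
  obtain ⟨x0, hx0⟩ := QuotientGroup.mk'_surjective N (t 0)
  set m := Nat.card (G ⧸ N) with hm
  have hmpos : 0 < m := Nat.card_pos
  let u : ℕ → G := fun j => Nat.rec x0 (fun j x => x * c j) j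
  have hus : ∀ j, u (j + 1) = u j * c j := fun j => rfl
  have hut : ∀ j, QuotientGroup.mk' N (u j) = t j := by
    intro j
    induction j with
    | zero => exact hx0
    | succ j ih =>
      rw [hus, map_mul, ih, hc]
      group
  set h := u m * (u 0)⁻¹ with hh
  have hhN : h ∈ N := by
    have h1 : QuotientGroup.mk' N h = 1 := by
      rw [hh, map_mul, map_inv, hut, hut]
      have := ht1 0
      rw [zero_add] at this
      rw [this, mul_inv_cancel]
    exact (QuotientGroup.eq_one_iff h).1 h1
  have hum : u m = h * u 0 := by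
    rw [hh]
    group
  set s := ext u h m with hs
  have hstep : ∀ j, s (j + 1) = s j * c (j % m) := by
    intro j
    rw [hs, ext_succ u h m hmpos hum, hus]
    unfold ext
    rw [mul_assoc]
  -- the closure
  have hcov : ∀ g, ∃ j < m, g * (s j)⁻¹ ∈ N := by
    intro g
    obtain ⟨j, hj, hjg⟩ := ht3 (QuotientGroup.mk' N g)
    refine ⟨j, hj, ?_⟩
    rw [hs, ext_lt _ _ _ _ hj]
    have h1 : QuotientGroup.mk' N (g * (u j)⁻¹) = 1 := by
      rw [map_mul, map_inv, hut, hjg, mul_inv_cancel]
    exact (QuotientGroup.eq_one_iff _).1 h1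
  have hgen : N ≤ closure (Lab C N s ∪ {h}) := by
    obtain ⟨-, F2⟩ := frattini_facts hNp
    set L := closure (Lab C N s ∪ {h}) with hL
    have hLN : L ≤ N := by
      rw [hL, Subgroup.closure_le]
      rintro d (hd | hd)
      · exact hd.1
      · rw [Set.mem_singleton_iff] at hd
        rw [hd]
        exact hhN
    set F := (frattini N).map N.subtype with hF
    have hFN : F ≤ N := Subgroup.map_subtype_le _
    set U := L ⊔ F with hU
    have hUN : U ≤ N := sup_le hLN hFN
    -- the commutators with the elements of the listing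
    have hcomm1 : ∀ j, ∀ n ∈ N,
        n * (s (j + 1) * (s j)⁻¹) * n⁻¹ * (s (j + 1) * (s j)⁻¹)⁻¹ ∈ U := by
      intro j n hn
      apply Subgroup.mem_sup_left
      apply Subgroup.subset_closure
      left
      have hcomN : n * (s (j + 1) * (s j)⁻¹) * n⁻¹ * (s (j + 1) * (s j)⁻¹)⁻¹ ∈ N := by
        have e : n * (s (j + 1) * (s j)⁻¹) * n⁻¹ * (s (j + 1) * (s j)⁻¹)⁻¹ =
            n * ((s (j + 1) * (s j)⁻¹) * n⁻¹ * (s (j + 1) * (s j)⁻¹)⁻¹) := by group
        rw [e]
        exact mul_mem hn (hNn.conj_mem _ (inv_mem hn) _)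
      refine ⟨hcomN, j, ?_⟩
      rw [hstep j]
      have e : (s j)⁻¹ * (n * (s j * c (j % m) * (s j)⁻¹) * n⁻¹ *
          (s j * c (j % m) * (s j)⁻¹)⁻¹) * (s j * c (j % m)) =
          ((s j)⁻¹ * n * s j) * c (j % m) * ((s j)⁻¹ * n * s j)⁻¹ := by group
      rw [e]
      apply hC _ _ _ (hcC _)
      have := hNn.conj_mem n hn (s j)⁻¹
      rwa [inv_inv] at this
    -- the set of all `g` with `[N, g] ≤ U` is closed under multiplication
    have hmul : ∀ g g' : G, (∀ n ∈ N, n * g * n⁻¹ * g⁻¹ ∈ U) → (∀ n ∈ N, n * g' * n⁻¹ * g'⁻¹ ∈ U) →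
        ∀ n ∈ N, n * (g * g') * n⁻¹ * (g * g')⁻¹ ∈ U := by
      intro g g' hg hg' n hn
      have e : n * (g * g') * n⁻¹ * (g * g')⁻¹ =
          (n * g * n⁻¹ * g⁻¹) * (g * (n * g' * n⁻¹ * g'⁻¹) * g⁻¹) := by group
      rw [e]
      refine mul_mem (hg n hn) ?_
      have hu : n * g' * n⁻¹ * g'⁻¹ ∈ U := hg' n hn
      set v := n * g' * n⁻¹ * g'⁻¹ with hv
      have e2 : g * v * g⁻¹ = (v * g * v⁻¹ * g⁻¹)⁻¹ * v := by group
      rw [e2]
      exact mul_mem (inv_mem (hg v (hUN hu))) hu
    have hNU : ∀ g ∈ N, ∀ n ∈ N, n * g * n⁻¹ * g⁻¹ ∈ U := by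
      intro g hg n hn
      apply Subgroup.mem_sup_right
      exact ⟨_, F2 ⟨n, hn⟩ ⟨g, hg⟩, rfl⟩
    have hpow : ∀ j, ∀ n ∈ N, n * (s j * (s 0)⁻¹) * n⁻¹ * (s j * (s 0)⁻¹)⁻¹ ∈ U := by
      intro j
      induction j with
      | zero =>
        intro n _
        have e : n * (s 0 * (s 0)⁻¹) * n⁻¹ * (s 0 * (s 0)⁻¹)⁻¹ = 1 := by group
        rw [e]
        exact one_mem _
      | succ j ih =>
        have e : s (j + 1) * (s 0)⁻¹ = (s (j + 1) * (s j)⁻¹) * (s j * (s 0)⁻¹) := by group
        rw [e]
        exact hmul _ _ (hcomm1 j) ih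
    have hall : ∀ g : G, ∀ n ∈ N, n * g * n⁻¹ * g⁻¹ ∈ U := by
      intro g
      obtain ⟨j, _, hj⟩ := hcov (g * s 0)
      have e : g = (g * s 0 * (s j)⁻¹) * (s j * (s 0)⁻¹) := by group
      rw [e]
      exact hmul _ _ (hNU _ hj) (hpow j)
    have hNleU : N ≤ U := by
      refine hN.trans ?_
      rw [Subgroup.commutator_le]
      intro n hn g _
      have := hall g n hn
      exact this
    -- Frattini
    have hfin : L.subgroupOf N = ⊤ := by
      apply frattini_nongenerating
      apply top_le_iff.1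
      intro x _
      have h1 : (x : G) ∈ U := hNleU x.2
      have h2 : U ≤ (L.subgroupOf N ⊔ frattini N).map N.subtype := by
        rw [Subgroup.map_sup]
        refine sup_le_sup ?_ le_rfl
        intro y hy
        exact ⟨⟨y, hLN hy⟩, hy, rfl⟩
      obtain ⟨z, hz, hzx⟩ := h2 h1
      have : z = x := Subtype.ext hzx
      rw [← this]
      exact hz
    exact Subgroup.subgroupOf_eq_top.1 hfin
  refine lev_closed C p _ N m s h rfl hNp ⟨hmpos, hhN, ext_per u h m hmpos, ?_, hcov, ?_, hgen⟩
  · intro j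
    rw [hstep j, inv_mul_cancel_left]
    exact hcC _
  · exact (Subgroup.card_eq_card_quotient_mul_card_subgroup N).symm

end Pool.Agent.V11180.HamS
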