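import Pool.Agent.V11180.HamBase
import Pool.Agent.V11180.HamLevel

set_option autoImplicit false

/-!
# The reduction to quotients by solvable normal subgroups `S` with `S = [S, G]`
-/

namespace Pool.Agent.V11180.HamS

open Subgroup (normalClosure center commutator_mono commutator_le map_commutator mem_center_iff normalClosure_le_normal subset_normalClosure mem_top mem_bot commutator_mem_commutator top_lowerCentralSeries_one closure)

universe u

section exN

variable {G : Type*} [Group G]

/-- For a group generated by one conjugacy class the second and the third term of the lower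
central series agree. -/
lemma derived_le (a : G) (ha : normalClosure {a} = ⊤) :
    commutator G ≤ ⁅commutator G, (⊤ : Subgroup G)⁆ := by
  set K := ⁅commutator G, (⊤ : Subgroup G)⁆ with hK
  have hKn : K.Normal := inferInstance
  have h1 : commutator (G ⧸ K) ≤ center (G ⧸ K) := by
    intro z hz
    have e : commutator (G ⧸ K) = (commutator G).map (QuotientGroup.mk' K) := by
      rw [commutator_def, commutator_def, map_commutator,
        Subgroup.map_top_of_surjective _ (QuotientGroup.mk'_surjective K)]
    rw [e] at hz
    obtain ⟨w, hw, rfl⟩ := hz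
    rw [mem_center_iff]
    intro g
    obtain ⟨g, rfl⟩ := QuotientGroup.mk'_surjective K g
    rw [← map_mul, ← map_mul]
    have hmem : (g * w)⁻¹ * (w * g) ∈ K := by
      have h2 : w⁻¹ * g⁻¹ * w⁻¹⁻¹ * g⁻¹⁻¹ ∈ K :=
        commutator_mem_commutator (inv_mem hw) (mem_top _)
      have e3 : (g * w)⁻¹ * (w * g) = w⁻¹ * g⁻¹ * w⁻¹⁻¹ * g⁻¹⁻¹ := by
        group
      rw [e3]
      exact h2
    exact QuotientGroup.eq.2 hmem
  have h2 := comm_of_central_derived (G := G ⧸ K) (QuotientGroup.mk' K a)
    (normalClosure_map _ (QuotientGroup.mk'_surjective K) a ha) h1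
  rw [commutator_def, commutator_le]
  intro g _ h _
  have h3 : QuotientGroup.mk' K (h * g) = QuotientGroup.mk' K (g * h) := by
    rw [map_mul, map_mul]
    exact h2 _ _
  have h4 : (h * g)⁻¹ * (g * h) ∈ K := QuotientGroup.eq.1 h3
  have h5 := hKn.conj_mem _ h4 (h * g)
  have e : (h * g) * ((h * g)⁻¹ * (g * h)) * (h * g)⁻¹ = g * h * g⁻¹ * h⁻¹ := by
    group
  rw [e] at h5
  exact h5

/-- A normal `p`-subgroup `N` with `N = [N, G]` inside of a solvable normal subgroup `S` with
`S = [S, G]`. -/
theorem exists_pN [Finite G] (S : Subgroup G) [hSn : S.Normal] (hSs : Group.IsSolvable S)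
    (hS0 : S ≠ ⊥) (hS : S ≤ ⁅S, (⊤ : Subgroup G)⁆) :
    ∃ p : ℕ, p.Prime ∧ ∃ N : Subgroup G, N.Normal ∧ N ≤ S ∧ N ≠ ⊥ ∧ IsPGroup p N ∧
      N ≤ ⁅N, (⊤ : Subgroup G)⁆ := by
  classical
  -- the upper central series is stable from `n0` on
  obtain ⟨n0, hn0⟩ : ∃ n, Subgroup.upperCentralSeries G n =
      Subgroup.upperCentralSeries G (n + 1) := by
    obtain ⟨m, n, hmn, he⟩ := Finite.exists_ne_map_eq_of_infinite
      (fun n : ℕ => Subgroup.upperCentralSeries G n)
    rcases lt_or_gt_of_ne hmn with h | h
    · refine ⟨m, le_antisymm (Subgroup.upperCentralSeries_mono G (Nat.le_succ m)) ?_⟩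
      have h2 := Subgroup.upperCentralSeries_mono G (Nat.succ_le_of_lt h)
      have he' : Subgroup.upperCentralSeries G m = Subgroup.upperCentralSeries G n := he
      rw [he']
      exact h2
    · refine ⟨n, le_antisymm (Subgroup.upperCentralSeries_mono G (Nat.le_succ n)) ?_⟩
      have h2 := Subgroup.upperCentralSeries_mono G (Nat.succ_le_of_lt h)
      have he' : Subgroup.upperCentralSeries G m = Subgroup.upperCentralSeries G n := he
      rw [← he']
      exact h2
  set Z := Subgroup.upperCentralSeries G n0 with hZ
  have hZb : ∀ M : Subgroup G, ⁅M, (⊤ : Subgroup G)⁆ ≤ Z → M ≤ Z := by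
    intro M hM x hx
    rw [hn0, Subgroup.mem_upperCentralSeries_succ_iff]
    intro y
    exact hM (commutator_mem_commutator hx (mem_top y))
  have hSZ : ¬ S ≤ Z := by
    intro h
    apply hS0
    have h1 : ∀ k, S ≤ Subgroup.upperCentralSeries G k → S ≤ ⊥ := by
      intro k
      induction k with
      | zero =>
        intro hk
        rwa [Subgroup.upperCentralSeries_zero] at hk
      | succ k ih =>
        intro hk
        apply ih
        refine hS.trans ((commutator_mono hk le_rfl).trans (comm_ucs_top k))
    exact le_bot_iff.1 (h1 n0 h)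
  -- a minimal normal subgroup outside of `Z`
  obtain ⟨N, ⟨hNn, hNS, hNZ⟩, hmin⟩ := WellFounded.has_min
    (wellFounded_lt : WellFounded ((· < ·) : Subgroup G → Subgroup G → Prop))
    {N : Subgroup G | N.Normal ∧ N ≤ S ∧ ¬ N ≤ Z} ⟨S, hSn, le_rfl, hSZ⟩
  have hmin' : ∀ M : Subgroup G, M.Normal → M ≤ N → ¬ M ≤ Z → M = N := by
    intro M hM hMN hMZ
    by_contra hne
    exact hmin M ⟨hM, hMN.trans hNS, hMZ⟩ (lt_of_le_of_ne hMN hne)
  have hNG : ⁅N, (⊤ : Subgroup G)⁆ = N := by
    apply hmin' _ inferInstance (Subgroup.commutator_le_left N ⊤)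
    intro h
    exact hNZ (hZb N h)
  have hNbot : N ≠ ⊥ := by
    rintro rfl
    exact hNZ bot_le
  -- `N` lies in the lower central series
  have hNlcs : ∀ k, N ≤ (⊤ : Subgroup G).lowerCentralSeries k := by
    intro k
    induction k with
    | zero => exact le_top
    | succ k ih =>
      rw [Subgroup.lowerCentralSeries_succ]
      calc N = ⁅N, (⊤ : Subgroup G)⁆ := hNG.symm
        _ ≤ _ := commutator_mono ih le_rfl
  have hNZcomm : ∀ x ∈ N, ∀ z ∈ Z, x * z = z * x := by
    intro x hx z hz
    have h1 := comm_lcs_ucs (G := G) n0 0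
    have e : Subgroup.upperCentralSeries G (0 + n0 + 1) = Z := by
      rw [zero_add]
      exact hn0.symm
    rw [e, Subgroup.upperCentralSeries_zero] at h1
    have h2 : x * z * x⁻¹ * z⁻¹ ∈ (⊥ : Subgroup G) :=
      h1 (commutator_mem_commutator (hNlcs n0 hx) hz)
    rw [mem_bot] at h2
    have e : x * z = (x * z * x⁻¹ * z⁻¹) * (z * x) := by group
    rw [e, h2, one_mul]
  have hNsolv : Group.IsSolvable N := by
    exact Group.isSolvable_of_isSolvable_injective (Subgroup.inclusion_injective hNS)
  have hNN : ⁅N, N⁆ ≤ Z := by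
    by_contra h
    have h1 := hmin' ⁅N, N⁆ inferInstance (Subgroup.commutator_le_left N N) h
    have hnt : Nontrivial N := (Subgroup.nontrivial_iff_ne_bot N).2 hNbot
    have h2 := Group.IsSolvable.commutator_lt_top_of_nontrivial N
    apply h2.ne
    apply top_le_iff.1
    intro x _
    have h3 : (x : G) ∈ (commutator N).map N.subtype := by
      rw [Subgroup.map_subtype_commutator, h1]
      exact x.2
    obtain ⟨y, hy, hyx⟩ := h3
    have : y = x := Subtype.ext hyx
    rw [← this]
    exact hy
  -- `N` is nilpotent
  have hnil : Group.IsNilpotent N := by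
    have h1 : commutator N ≤ center N := by
      rw [_root_.commutator_def, commutator_le]
      intro x _ y _
      rw [mem_center_iff]
      intro w
      apply Subtype.ext
      have h2 : (x : G) * y * (x : G)⁻¹ * (y : G)⁻¹ ∈ Z :=
        hNN (commutator_mem_commutator x.2 y.2)
      exact hNZcomm w w.2 _ h2
    refine Subgroup.nilpotent_iff_lowerCentralSeries.2 ⟨2, ?_⟩
    have e2 : (⊤ : Subgroup N).lowerCentralSeries 2 =
        ⁅(⊤ : Subgroup N).lowerCentralSeries 1, (⊤ : Subgroup N)⁆ := rfl
    rw [e2, top_lowerCentralSeries_one]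
    apply le_bot_iff.1
    refine (commutator_mono h1 le_rfl).trans ?_
    rw [commutator_le]
    intro x hx y _
    rw [mem_bot]
    have h3 : y * x = x * y := (mem_center_iff.1 hx) y
    have : x * y * x⁻¹ * y⁻¹ = 1 := by
      rw [← h3]
      group
    exact this
  -- a prime divisor of the index of `Z ∩ N` in `N`
  have hidx : (Z.subgroupOf N).index ≠ 1 := by
    intro h
    apply hNZ
    exact Subgroup.subgroupOf_eq_top.1 (Subgroup.index_eq_one.1 h)
  obtain ⟨p, hp, hpdvd⟩ := Nat.exists_prime_and_dvd hidx
  have hpf : Fact p.Prime := ⟨hp⟩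
  obtain ⟨P⟩ : Nonempty (Sylow p N) := inferInstance
  have hPnorm : (P : Subgroup N).Normal := inferInstance
  have hPchar : (P : Subgroup N).Characteristic := Sylow.characteristic_of_normal P hPnorm
  have hmapn : ((P : Subgroup N).map N.subtype).Normal := inferInstance
  have hmaple : (P : Subgroup N).map N.subtype ≤ N := Subgroup.map_subtype_le _
  have hmapZ : ¬ (P : Subgroup N).map N.subtype ≤ Z := by
    intro h
    have h1 : (P : Subgroup N) ≤ Z.subgroupOf N := by
      intro x hx
      rw [Subgroup.mem_subgroupOf]
      exact h ⟨x, hx, rfl⟩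
    exact P.not_dvd_index (hpdvd.trans (Subgroup.index_dvd_of_le h1))
  have hmapeq := hmin' _ hmapn hmaple hmapZ
  have hNp : IsPGroup p N := by
    rw [← hmapeq]
    exact P.isPGroup'.map _
  exact ⟨p, hp, N, hNn, hNS, hNbot, hNp, hNG.ge⟩

end exN

/-- Transport of closed listings along isomorphisms. -/
lemma closed_of_equiv {G H : Type*} [Group G] [Group H] (e : G ≃* H) (C : Set G)
    (h : Closed (e '' C)) : Closed C := by
  obtain ⟨s, h1, h2, h3⟩ := h
  have hcard : Nat.card H = Nat.card G := (Nat.card_congr e.toEquiv).symm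
  refine ⟨fun j => e.symm (s j), ?_, ?_, ?_⟩
  · intro j
    show e.symm (s (j + Nat.card G)) = e.symm (s j)
    rw [← hcard, h1]
  · intro j
    show (e.symm (s j))⁻¹ * e.symm (s (j + 1)) ∈ C
    rw [← map_inv, ← map_mul]
    obtain ⟨c, hc, hce⟩ := h2 j
    rw [← hce, MulEquiv.symm_apply_apply]
    exact hc
  · intro g
    obtain ⟨j, hj, hjg⟩ := h3 (e g)
    refine ⟨j, by omega, ?_⟩
    simp only
    rw [hjg, MulEquiv.symm_apply_apply]

/-- The reduction. -/
theorem reduction : ∀ (n : ℕ) (G : Type u) [Group G] [Finite G], Nat.card G = n →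
    ∀ (S : Subgroup G) [S.Normal], Group.IsSolvable S → S ≤ ⁅S, (⊤ : Subgroup G)⁆ →
      ∀ C : Set G, (∀ x ∈ S, ∀ c ∈ C, x * c * x⁻¹ ∈ C) →
        Closed ((QuotientGroup.mk' S) '' C) → Closed C := by
  intro n
  induction n using Nat.strong_induction_on with
  | _ n ih =>
    intro G _ _ hcard S _ hSs hS C hC hcl
    by_cases hS0 : S = ⊥
    · subst hS0
      refine closed_of_equiv (QuotientGroup.quotientBot (G := G)).symm C ?_
      have e : (QuotientGroup.quotientBot (G := G)).symm '' C =
          (QuotientGroup.mk' (⊥ : Subgroup G)) '' C := rfl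
      rw [e]
      exact hcl
    · obtain ⟨p, hp, N, hNn, hNS, hNbot, hNp, hNG⟩ := exists_pN S hSs hS0 hS
      have hpf : Fact p.Prime := ⟨hp⟩
      have hlt : Nat.card (G ⧸ N) < n := by
        have h1 : Nat.card G = Nat.card (G ⧸ N) * Nat.card N :=
          Subgroup.card_eq_card_quotient_mul_card_subgroup N
        have h2 : 1 < Nat.card N := (Subgroup.one_lt_card_iff_ne_bot N).2 hNbot
        have h3 : 0 < Nat.card (G ⧸ N) := Nat.card_pos
        rw [← hcard, h1]
        exact lt_mul_of_one_lt_right h3 h2
      have hS1n : (S.map (QuotientGroup.mk' N)).Normal :=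
        Subgroup.Normal.map inferInstance _ (QuotientGroup.mk'_surjective N)
      refine lift_p N p hNp hNG C (fun x hx c hc => hC x (hNS hx) c hc) ?_
      refine ih _ hlt (G ⧸ N) rfl (S.map (QuotientGroup.mk' N)) ?_ ?_ _ ?_ ?_
      · exact Group.isSolvable_of_surjective ((QuotientGroup.mk' N).subgroupMap_surjective S)
      · conv_rhs => rw [← Subgroup.map_top_of_surjective _ (QuotientGroup.mk'_surjective N)]
        rw [← map_commutator]
        exact Subgroup.map_mono hS
      · rintro _ ⟨x, hx, rfl⟩ _ ⟨c, hc, rfl⟩
        exact ⟨x * c * x⁻¹, hC x hx c hc, by simp⟩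
      · refine closed_of_equiv (QuotientGroup.quotientQuotientEquivQuotient N S hNS) _ ?_
        have e : (QuotientGroup.quotientQuotientEquivQuotient N S hNS) ''
            ((QuotientGroup.mk' (S.map (QuotientGroup.mk' N))) '' ((QuotientGroup.mk' N) '' C)) =
            (QuotientGroup.mk' S) '' C := by
          ext y
          constructor
          · rintro ⟨_, ⟨_, ⟨c, hc, rfl⟩, rfl⟩, rfl⟩
            exact ⟨c, hc, rfl⟩
          · rintro ⟨c, hc, rfl⟩
            exact ⟨_, ⟨_, ⟨c, hc, rfl⟩, rfl⟩, rfl⟩
        rw [e]
        exact hcl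

/-- A closed listing of a cyclic group by the powers of a generator. -/
lemma closed_of_zpowers {G : Type*} [Group G] [Finite G] (a : G) (ha : ∀ g, g ∈ Subgroup.zpowers a)
    (C : Set G) (haC : a ∈ C) : Closed C := by
  classical
  have hord : orderOf a = Nat.card G := orderOf_eq_card_of_forall_mem_zpowers ha
  refine ⟨fun j => a ^ j, ?_, ?_, ?_⟩
  · intro j
    show a ^ (j + Nat.card G) = a ^ j
    rw [pow_add, ← hord, pow_orderOf_eq_one, mul_one]
  · intro j
    show (a ^ j)⁻¹ * a ^ (j + 1) ∈ C
    rw [pow_succ, inv_mul_cancel_left]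
    exact haC
  · intro g
    obtain ⟨k, hk, hkg⟩ := (mem_powers_iff_mem_range_orderOf (x := a) (y := g)).1
      (mem_powers_iff_mem_zpowers.2 (ha g)) |> Finset.mem_image.1
    rw [Finset.mem_range] at hk
    exact ⟨k, by omega, hkg⟩

/-- A closed listing for solvable groups which are generated by one conjugacy class. -/
theorem closed_one_class {G : Type u} [Group G] [Finite G] (hG : Group.IsSolvable G) (a : G)
    (ha : normalClosure {a} = ⊤) (C : Set G) (hC : ∀ x, ∀ c ∈ C, x * c * x⁻¹ ∈ C)
    (haC : a ∈ C) : Closed C := by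
  refine reduction _ G rfl (commutator G) inferInstance (derived_le a ha) C
    (fun x _ c hc => hC x c hc) ?_
  have hab : ∀ x y : G ⧸ commutator G, x * y = y * x := by
    intro x y
    obtain ⟨x, rfl⟩ := QuotientGroup.mk'_surjective (commutator G) x
    obtain ⟨y, rfl⟩ := QuotientGroup.mk'_surjective (commutator G) y
    rw [← map_mul, ← map_mul]
    apply QuotientGroup.eq.2
    have h1 : y⁻¹ * x⁻¹ * y⁻¹⁻¹ * x⁻¹⁻¹ ∈ commutator G :=
      commutator_mem_commutator (mem_top _) (mem_top _)
    have e : (x * y)⁻¹ * (y * x) = y⁻¹ * x⁻¹ * y⁻¹⁻¹ * x⁻¹⁻¹ := by group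
    rw [e]
    exact h1
  have ha' := normalClosure_map _ (QuotientGroup.mk'_surjective (commutator G)) a ha
  refine closed_of_zpowers (QuotientGroup.mk' (commutator G) a) ?_ _ ⟨a, haC, rfl⟩
  intro g
  have h1 : (Subgroup.zpowers (QuotientGroup.mk' (commutator G) a)).Normal := by
    constructor
    intro x hx g
    rw [hab g x, mul_assoc, mul_inv_cancel, mul_one]
    exact hx
  have h2 : Subgroup.zpowers (QuotientGroup.mk' (commutator G) a) = ⊤ := by
    apply top_le_iff.1
    rw [← ha']
    apply normalClosure_le_normal
    intro z hz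
    rw [Set.mem_singleton_iff] at hz
    subst hz
    exact Subgroup.mem_zpowers _
  rw [h2]
  trivial

lemma path_of_closed {G : Type*} [Group G] [Finite G] (C : Set G) (h : Closed C) :
    HasPath C := by
  classical
  obtain ⟨s, h1, h2, h3⟩ := h
  have := Fintype.ofFinite G
  refine ⟨(List.range (Nat.card G)).map s, ?_, ?_, ?_⟩
  · rw [← Multiset.coe_nodup, ← Multiset.map_coe, Multiset.coe_range, ← Finset.range_val]
    rw [Finset.nodup_map_iff_injOn]
    have hsurj : Set.SurjOn s (Finset.range (Nat.card G) : Set ℕ) (Finset.univ : Finset G) := by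
      intro g _
      obtain ⟨j, hj, hjg⟩ := h3 g
      exact ⟨j, by simpa using hj, hjg⟩
    apply Finset.injOn_of_surjOn_of_card_le s (fun _ _ => Finset.mem_univ _) hsurj
    rw [Finset.card_range, Finset.card_univ, Nat.card_eq_fintype_card]
  · intro g
    obtain ⟨j, hj, hjg⟩ := h3 g
    rw [List.mem_map]
    exact ⟨j, List.mem_range.2 hj, hjg⟩
  · rw [List.isChain_iff_getElem]
    intro i hi
    rw [List.getElem_map, List.getElem_map, List.getElem_range, List.getElem_range]
    exact h2 i

/-- The main theorem: every conjugation closed generating set of a finite solvable group has a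
Hamiltonian path. -/
theorem path_main : ∀ (n : ℕ) (G : Type u) [Group G] [Finite G], Nat.card G = n →
    Group.IsSolvable G → ∀ A : Set G, closure A = ⊤ → (∀ x, ∀ a ∈ A, x * a * x⁻¹ ∈ A) →
      HasPath A := by
  intro n
  induction n using Nat.strong_induction_on with
  | _ n ih =>
    intro G _ _ hcard hG A hgen hconj
    by_cases htriv : ∀ a ∈ A, a = 1
    · have hG1 : ∀ g : G, g = 1 := by
        intro g
        have h1 : closure A ≤ ⊥ := by
          rw [Subgroup.closure_le]
          intro a ha
          exact htriv a ha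
        rw [hgen] at h1
        exact h1 (mem_top g)
      exact ⟨[1], by simp, fun g => by simp [hG1 g], by simp⟩
    · push Not at htriv
      obtain ⟨a, haA, ha1⟩ := htriv
      by_cases htop : normalClosure {a} = ⊤
      · exact path_of_closed A (closed_one_class hG a htop A hconj haA)
      · set N := normalClosure {a} with hN
        have hNn : N.Normal := Subgroup.normalClosure_normal
        have haN : a ∈ N := subset_normalClosure rfl
        have hNbot : N ≠ ⊥ := by
          intro h
          rw [h, mem_bot] at haN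
          exact ha1 haN
        have hcardG : Nat.card G = Nat.card (G ⧸ N) * Nat.card N :=
          Subgroup.card_eq_card_quotient_mul_card_subgroup N
        have h1N : 1 < Nat.card N := (Subgroup.one_lt_card_iff_ne_bot N).2 hNbot
        have h0Q : 0 < Nat.card (G ⧸ N) := Nat.card_pos
        have h1Q : Nat.card (G ⧸ N) ≠ 1 := by
          intro h
          apply htop
          exact Subgroup.index_eq_one.1 h
        have hQlt : Nat.card (G ⧸ N) < n := by
          rw [← hcard, hcardG]
          exact lt_mul_of_one_lt_right h0Q h1N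
        have hNlt : Nat.card N < n := by
          rw [← hcard, hcardG]
          exact lt_mul_of_one_lt_left (by omega) (by omega)
        apply combine N A
        · refine ih _ hNlt N rfl inferInstance _ ?_ ?_
          · -- the conjugates of `a` generate `N`
            apply top_le_iff.1
            have h1 : N ≤ (closure {x : N | (x : G) ∈ A}).map N.subtype := by
              rw [MonoidHom.map_closure]
              have h2 : N = closure (Group.conjugatesOfSet {a}) := rfl
              rw [h2, Subgroup.closure_le]
              intro y hy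
              apply Subgroup.subset_closure
              have hyN : y ∈ N := by
                rw [h2]
                exact Subgroup.subset_closure hy
              have hyA : y ∈ A := by
                rw [Group.mem_conjugatesOfSet_iff] at hy
                obtain ⟨b, hb, hby⟩ := hy
                rw [Set.mem_singleton_iff] at hb
                subst hb
                obtain ⟨c, rfl⟩ := isConj_iff.1 hby
                exact hconj c _ haA
              exact ⟨⟨y, hyN⟩, hyA, rfl⟩
            intro x _
            obtain ⟨z, hz, hzx⟩ := h1 x.2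
            have : z = x := Subtype.ext hzx
            rw [← this]
            exact hz
          · intro x y hy
            exact hconj x y hy
        · refine ih _ hQlt (G ⧸ N) rfl inferInstance _ ?_ ?_
          · rw [← MonoidHom.map_closure, hgen]
            exact Subgroup.map_top_of_surjective _ (QuotientGroup.mk'_surjective N)
          · rintro x _ ⟨c, hc, rfl⟩
            obtain ⟨x, rfl⟩ := QuotientGroup.mk'_surjective N x
            exact ⟨x * c * x⁻¹, hconj x c hc, by simp⟩

end Pool.Agent.V11180.HamS
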