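import Mathlib

/-!
# Sets of large upper density avoiding the pattern `x, kx, (k+1)x` up to bounded shifts
-/

set_option autoImplicit false

open Finset

namespace Pool.Agent.V11180.Scale

section

variable (m l : ℕ)

/-- scale multipliers -/
def T : ℕ → ℕ
  | 0 => m + l
  | J + 1 => (m + l) * (T J * m * (m + l) ^ (2 * J + 1) + J + 1)

/-- upper endpoints -/
def U (J i : ℕ) : ℕ :=
  if i = 0 then T m l J * m * (m + l) ^ (2 * J + 1)
  else T m l J * (m + 1) * l ^ (2 * i) * (m + l) ^ (2 * (J - i) + 1)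

/-- lower endpoints -/
def L (J i : ℕ) : ℕ :=
  if i = 0 then T m l J * m * l * (m + l) ^ (2 * J)
  else T m l J * (m + 1) * l ^ (2 * i + 1) * (m + l) ^ (2 * (J - i))

/-- the set: at scale `J` the integers in `(L J i + J, U J i]`, `i ≤ J` -/
def A : Set ℕ := {n | ∃ J i, i ≤ J ∧ L m l J i + J < n ∧ n ≤ U m l J i}

variable {m l}

lemma rel1 (J i : ℕ) : (m + l) * L m l J i = l * U m l J i := by
  unfold L U
  split_ifs
  · ring
  · ring

lemma rel2 {J i : ℕ} (hi : 1 ≤ i) (hJ : i + 1 ≤ J) :
    (m + l) * U m l J (i + 1) = l * L m l J i := by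
  unfold L U
  rw [if_neg (by omega), if_neg (by omega)]
  obtain ⟨e, rfl⟩ := Nat.exists_eq_add_of_le hJ
  rw [show i + 1 + e - (i + 1) = e by omega, show i + 1 + e - i = e + 1 by omega]
  ring

lemma rel3 {J : ℕ} (hJ : 1 ≤ J) : m * (m + l) * U m l J 1 = (m + 1) * l * L m l J 0 := by
  unfold L U
  rw [if_neg (by omega), if_pos rfl]
  obtain ⟨e, rfl⟩ := Nat.exists_eq_add_of_le hJ
  rw [show 1 + e - 1 = e by omega]
  ring

lemma T_succ (J : ℕ) : T m l (J + 1) = (m + l) * (U m l J 0 + J + 1) := by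
  rw [T, U, if_pos rfl]

lemma T_le_L (hl : 1 ≤ l) (hm : l < m) (J i : ℕ) : T m l J ≤ L m l J i := by
  have hm0 : 0 < m := by omega
  have hl0 : 0 < l := by omega
  unfold L
  split_ifs
  · rw [mul_assoc, mul_assoc]
    apply Nat.le_mul_of_pos_right
    positivity
  · rw [mul_assoc, mul_assoc]
    apply Nat.le_mul_of_pos_right
    positivity

lemma L_le_U (hl : 1 ≤ l) (J i : ℕ) : L m l J i ≤ U m l J i := by
  have h := rel1 (m := m) (l := l) J i
  by_contra hcon
  push Not at hcon
  have h1 : l * U m l J i < (m + l) * L m l J i := by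
    calc l * U m l J i < l * L m l J i := Nat.mul_lt_mul_of_pos_left hcon (by omega)
      _ ≤ (m + l) * L m l J i := Nat.mul_le_mul_right _ (by omega)
  omega

lemma U_succ_le_L (hl : 1 ≤ l) (hm : l < m) {J i : ℕ} (hJ : i + 1 ≤ J) :
    U m l J (i + 1) ≤ L m l J i := by
  rcases Nat.eq_zero_or_pos i with rfl | hi
  · have h := rel3 (m := m) (l := l) hJ
    by_contra hcon
    push Not at hcon
    have h1 : (m + 1) * l ≤ m * (m + l) := by nlinarith
    have h2 : (m + 1) * l * L m l J 0 < m * (m + l) * U m l J 1 :=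
      calc (m + 1) * l * L m l J 0 < (m + 1) * l * U m l J 1 :=
            Nat.mul_lt_mul_of_pos_left hcon (by positivity)
        _ ≤ m * (m + l) * U m l J 1 := Nat.mul_le_mul_right _ h1
    omega
  · have h := rel2 (m := m) (l := l) hi hJ
    by_contra hcon
    push Not at hcon
    have h1 : l * L m l J i < (m + l) * U m l J (i + 1) :=
      calc l * L m l J i < l * U m l J (i + 1) := Nat.mul_lt_mul_of_pos_left hcon (by omega)
        _ ≤ (m + l) * U m l J (i + 1) := Nat.mul_le_mul_right _ (by omega)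
    omega

lemma U_le_L (hl : 1 ≤ l) (hm : l < m) {J i j : ℕ} (hij : i < j) (hJ : j ≤ J) :
    U m l J j ≤ L m l J i := by
  induction j, hij using Nat.le_induction with
  | base => exact U_succ_le_L hl hm hJ
  | succ j hj ih =>
    exact (U_succ_le_L hl hm hJ).trans ((L_le_U hl J j).trans (ih (by omega)))

lemma U_anti (hl : 1 ≤ l) (hm : l < m) {J i j : ℕ} (hij : i ≤ j) (hJ : j ≤ J) :
    U m l J j ≤ U m l J i := by
  rcases Nat.eq_or_lt_of_le hij with rfl | h
  · exact le_rfl
  · exact (U_le_L hl hm h hJ).trans (L_le_U hl J i)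

lemma L_anti (hl : 1 ≤ l) (hm : l < m) {J i j : ℕ} (hij : i ≤ j) (hJ : j ≤ J) :
    L m l J j ≤ L m l J i := by
  rcases Nat.eq_or_lt_of_le hij with rfl | h
  · exact le_rfl
  · exact (L_le_U hl J j).trans (U_le_L hl hm h hJ)

lemma T_le_U (hl : 1 ≤ l) (hm : l < m) (J : ℕ) : T m l J ≤ U m l J 0 :=
  (T_le_L hl hm J 0).trans (L_le_U hl J 0)

lemma U_lt_T (hl : 1 ≤ l) {J : ℕ} : (m + l) * (U m l J 0 + J) < T m l (J + 1) := by
  rw [T_succ]
  exact Nat.mul_lt_mul_of_pos_left (by omega) (by omega)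

lemma U_add_lt (hl : 1 ≤ l) {J : ℕ} : U m l J 0 + J < T m l (J + 1) := by
  have h := U_lt_T (m := m) hl (J := J)
  have h1 : 1 * (U m l J 0 + J) ≤ (m + l) * (U m l J 0 + J) := Nat.mul_le_mul_right _ (by omega)
  omega

lemma mul_U_add_lt (hl : 1 ≤ l) {J : ℕ} : (m + l) * U m l J 0 + J < T m l (J + 1) := by
  have h := U_lt_T (m := m) hl (J := J)
  have h1 : 1 * J ≤ (m + l) * J := Nat.mul_le_mul_right _ (by omega)
  rw [mul_add] at h
  omega

lemma T_mono (hl : 1 ≤ l) (hm : l < m) {J J' : ℕ} (h : J ≤ J') : T m l J ≤ T m l J' := by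
  induction J', h using Nat.le_induction with
  | base => exact le_rfl
  | succ k hk ih =>
    refine ih.trans ((T_le_U hl hm k).trans ?_)
    have := U_add_lt (m := m) hl (J := k)
    omega

lemma top_mono (hl : 1 ≤ l) (hm : l < m) {J J' : ℕ} (h : J ≤ J') :
    U m l J 0 ≤ U m l J' 0 := by
  rcases Nat.eq_or_lt_of_le h with rfl | h
  · exact le_rfl
  · have h1 := U_add_lt (m := m) hl (J := J)
    have h2 := T_mono hl hm h
    have h3 := T_le_U hl hm J'
    simp only [Nat.succ_eq_add_one] at h2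
    omega

lemma sq_bound (hm : l < m) : (m + 1) * l ≤ m * m := by nlinarith

/-- the pattern `x, kx, (k+1)x` up to bounded shifts is avoided -/
theorem avoid (hl : 1 ≤ l) (hm : l < m) (b t : ℕ) {y : ℕ}
    (hy : U m l (m * b + l * b + t + b) 0 < y) (h1 : m * b + l * y + t ∈ A m l)
    (h2 : m * y + l * b + t ∈ A m l) (h3 : m * y + l * y + t ∈ A m l) : False := by
  set c := m * b + l * b + t + b with hc
  obtain ⟨J, i, hi, h1a, h1b⟩ := h1
  obtain ⟨J2, i2, hi2, h2a, h2b⟩ := h2
  obtain ⟨J3, i3, hi3, h3a, h3b⟩ := h3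
  have hcT : c ≤ U m l c 0 := by
    have : ∀ c, c ≤ U m l c 0 := by
      intro c
      cases c with
      | zero => exact Nat.zero_le _
      | succ c =>
        refine le_trans ?_ (T_le_U hl hm (c + 1))
        have := U_add_lt (m := m) hl (J := c)
        omega
    exact this c
  have hby : b < y := by omega
  have hly : y ≤ l * y := Nat.le_mul_of_pos_left _ (by omega)
  have hlm : l * y ≤ m * y := Nat.mul_le_mul_right _ hm.le
  have hJ : c < J := by
    by_contra hcon
    push Not at hcon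
    have h4 := U_anti hl hm (Nat.zero_le i) hi
    have h5 := top_mono hl hm hcon
    omega
  -- the order of the three elements
  have o1 : m * b + l * y ≤ m * y + l * b := by
    obtain ⟨e, rfl⟩ := Nat.exists_eq_add_of_lt hm
    have : (e + 1) * b ≤ (e + 1) * y := Nat.mul_le_mul_left _ hby.le
    have e1 : (l + e + 1) * b + l * y = l * b + l * y + (e + 1) * b := by ring
    have e2 : (l + e + 1) * y + l * b = l * b + l * y + (e + 1) * y := by ring
    rw [e1, e2]
    exact Nat.add_le_add_left this _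
  have o2 : l * b ≤ l * y := Nat.mul_le_mul_left _ hby.le
  -- all three are in the same scale
  have same : ∀ J' i' n, i' ≤ J' → L m l J' i' + J' < n → n ≤ U m l J' i' →
      m * b + l * y + t ≤ n → n ≤ m * y + l * y + t → J' = J := by
    intro J' i' n hi' hna hnb hn1 hn2
    rcases lt_trichotomy J' J with h | h | h
    · exfalso
      have h4 := U_anti hl hm (Nat.zero_le i') hi'
      have h5 := U_add_lt (m := m) hl (J := J')
      have h6 := T_mono hl hm h
      have h7 := T_le_L hl hm J i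
      simp only [Nat.succ_eq_add_one] at h6
      omega
    · exact h
    · exfalso
      have h4 := U_anti hl hm (Nat.zero_le i) hi
      have h5 := mul_U_add_lt (m := m) hl (J := J)
      have h6 := T_mono hl hm h
      have h7 := T_le_L hl hm J' i'
      simp only [Nat.succ_eq_add_one] at h6
      have h8 : y ≤ U m l J 0 := by omega
      have h9 : m * y + l * y ≤ (m + l) * U m l J 0 := by
        rw [← add_mul]
        exact Nat.mul_le_mul_left _ h8
      omega
  obtain rfl : J3 = J := same J3 i3 _ hi3 h3a h3b (by omega) le_rfl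
  obtain rfl : J2 = J3 := same J2 i2 _ hi2 h2a h2b (by omega) (by omega)
  -- `n3` is above the interval of `n1`
  have hr1 := rel1 (m := m) (l := l) J2 i
  have hs : U m l J2 i < (m + l) * y := by
    have h4 : L m l J2 i < l * y := by omega
    have h5 : (m + l) * L m l J2 i < (m + l) * (l * y) := Nat.mul_lt_mul_of_pos_left h4 (by omega)
    rw [hr1] at h5
    have h6 : l * U m l J2 i < l * ((m + l) * y) := by
      calc _ < _ := h5
        _ = _ := by ring
    exact lt_of_mul_lt_mul_left h6 (Nat.zero_le l)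
  have hsy : (m + l) * y = m * y + l * y := by ring
  have hi3i : i3 < i := by
    by_contra hcon
    push Not at hcon
    have := U_anti hl hm hcon hi3
    omega
  obtain ⟨i', rfl⟩ : ∃ i', i = i' + 1 := ⟨i - 1, by omega⟩
  have hL3 := L_anti hl hm (show i3 ≤ i' by omega) (show i' ≤ J2 by omega)
  have hsL : L m l J2 i' < (m + l) * y := by omega
  rcases Nat.eq_zero_or_pos i' with rfl | hi'
  · -- the first two intervals
    have hr3 := rel3 (m := m) (l := l) (J := J2) (by omega)
    set V := U m l J2 (0 + 1) with hV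
    set W := L m l J2 0 with hW
    -- `n2` is above the second interval
    have h4 : V < m * y := by
      by_contra hcon
      push Not at hcon
      have h5 : m * (m + l) * (m * y) ≤ (m + 1) * l * W := by
        rw [← hr3]
        exact Nat.mul_le_mul_left _ hcon
      have h6 : (m + 1) * l ≤ m * m := sq_bound hm
      have hm0 : 0 < m := by omega
      have h7 : m * m * W < m * m * ((m + l) * y) :=
        Nat.mul_lt_mul_of_pos_left hsL (by positivity)
      have h8 : (m + 1) * l * W ≤ m * m * W := Nat.mul_le_mul_right _ h6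
      have h9 : m * m * ((m + l) * y) = m * (m + l) * (m * y) := by ring
      omega
    have hi20 : i2 = 0 := by
      by_contra hcon
      have h5 := U_anti hl hm (show 0 + 1 ≤ i2 by omega) hi2
      omega
    subst hi20
    have h5 : W < m * y := by omega
    have h6 : l * y ≤ V := by omega
    have h7 : m * (m + l) * (l * y) ≤ (m + 1) * l * W := by
      rw [← hr3]
      exact Nat.mul_le_mul_left _ h6
    have h8 : l * ((m + l) * (m * y)) ≤ l * ((m + 1) * W) := by
      calc _ = m * (m + l) * (l * y) := by ring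
        _ ≤ _ := h7
        _ = _ := by ring
    have h9 := le_of_mul_le_mul_left h8 (by omega)
    have h10 : (m + l) * W < (m + l) * (m * y) := Nat.mul_lt_mul_of_pos_left h5 (by omega)
    have h11 : (m + 1) * W ≤ (m + l) * W := Nat.mul_le_mul_right _ (by omega)
    omega
  · have hr2 := rel2 (m := m) (l := l) hi' hi
    have h6 : l * y ≤ U m l J2 (i' + 1) := by omega
    have h7 : (m + l) * (l * y) ≤ l * L m l J2 i' := by
      rw [← hr2]
      exact Nat.mul_le_mul_left _ h6
    have h8 : l * ((m + l) * y) ≤ l * L m l J2 i' := by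
      calc _ = (m + l) * (l * y) := by ring
        _ ≤ _ := h7
    have h9 := le_of_mul_le_mul_left h8 (by omega)
    omega

/-! ### Counting -/

lemma dvd_T {d : ℕ} (hd : d ∣ m + l) (J : ℕ) : d ∣ T m l J := by
  cases J with
  | zero => exact hd
  | succ J => exact hd.trans (Dvd.intro _ rfl)

lemma dvd_U {d : ℕ} (hd : d ∣ m + l) (J i : ℕ) : d ∣ U m l J i := by
  unfold U
  have h := dvd_T hd J
  split_ifs
  · rw [mul_assoc]
    exact h.mul_right _
  · rw [mul_assoc, mul_assoc]
    exact h.mul_right _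

lemma dvd_L {d : ℕ} (hd : d ∣ m + l) (J i : ℕ) : d ∣ L m l J i := by
  unfold L
  have h := dvd_T hd J
  split_ifs
  · rw [mul_assoc, mul_assoc]
    exact h.mul_right _
  · rw [mul_assoc, mul_assoc]
    exact h.mul_right _

/-- the integers outside `A` up to the top of scale `J` -/
lemma gap_cases {J n : ℕ} (hn : n ≤ U m l J 0) (hA : n ∉ A m l) :
    n ≤ L m l J J + J ∨ ∃ i < J, U m l J (i + 1) < n ∧ n ≤ L m l J i + J := by
  classical
  set i := Nat.findGreatest (fun i => n ≤ U m l J i) J with hi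
  have h1 : n ≤ U m l J i := Nat.findGreatest_spec (P := fun i => n ≤ U m l J i) (Nat.zero_le J) hn
  have h2 : i ≤ J := Nat.findGreatest_le J
  have h3 : n ≤ L m l J i + J := by
    by_contra hcon
    push Not at hcon
    exact hA ⟨J, i, h2, hcon, h1⟩
  rcases Nat.eq_or_lt_of_le h2 with h | h
  · left
    rw [h] at h3
    exact h3
  · right
    refine ⟨i, h, ?_, h3⟩
    by_contra hcon
    push Not at hcon
    have := Nat.le_findGreatest (P := fun i => n ≤ U m l J i) (Nat.succ_le_of_lt h) hcon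
    omega

open Classical in
lemma gap_card (hl : 1 ≤ l) (hm : l < m) {d : ℕ} (hd : d ∣ m + l) (J : ℕ) :
    d * ((Icc 1 (U m l J 0)).filter (fun n => d ∣ n ∧ n ∉ A m l)).card +
      ∑ i ∈ range J, U m l J (i + 1) ≤
      L m l J J + ∑ i ∈ range J, L m l J i + d * ((J + 1) * J) := by
  have hd0 : 0 < d := Nat.pos_of_dvd_of_pos hd (by omega)
  set X : Finset ℕ := Icc 1 (L m l J J / d + J) ∪
    (range J).biUnion (fun i => Ioc (U m l J (i + 1) / d) (L m l J i / d + J)) with hX
  have h1 : ((Icc 1 (U m l J 0)).filter (fun n => d ∣ n ∧ n ∉ A m l)).card ≤ X.card := by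
    have hinj : Function.Injective (fun n => d * n) := fun _ _ h => Nat.eq_of_mul_eq_mul_left hd0 h
    rw [← card_image_of_injective X hinj]
    apply card_le_card
    intro n hn
    rw [mem_filter, mem_Icc] at hn
    obtain ⟨⟨hn1, hn2⟩, ⟨n', rfl⟩, hn4⟩ := hn
    rw [mem_image]
    refine ⟨n', ?_, rfl⟩
    rw [hX, mem_union, mem_Icc, mem_biUnion]
    have hn' : 0 < n' := Nat.pos_of_mul_pos_left hn1 |> fun h => by
      by_contra hcon
      have : n' = 0 := by omega
      subst this
      omega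
    have aux : ∀ x, d * n' ≤ x + J → d ∣ x → n' ≤ x / d + J := by
      rintro x hx ⟨w, rfl⟩
      rw [Nat.mul_div_cancel_left _ hd0]
      have h5 : d * n' ≤ d * (w + J) := by
        rw [mul_add]
        have : J ≤ d * J := Nat.le_mul_of_pos_left _ hd0
        omega
      exact le_of_mul_le_mul_left h5 hd0
    rcases gap_cases hn2 hn4 with h | ⟨i, hi, h2, h3⟩
    · left
      exact ⟨hn', aux _ h (dvd_L hd J J)⟩
    · right
      refine ⟨i, mem_range.2 hi, ?_⟩
      rw [mem_Ioc]
      refine ⟨?_, aux _ h3 (dvd_L hd J i)⟩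
      rw [Nat.div_lt_iff_lt_mul hd0, mul_comm n' d]
      exact h2
  have h2 : X.card ≤ (L m l J J / d + J) +
      ∑ i ∈ range J, (L m l J i / d + J - U m l J (i + 1) / d) := by
    refine (card_union_le _ _).trans ?_
    apply Nat.add_le_add
    · rw [Nat.card_Icc, Nat.add_sub_cancel]
    · refine card_biUnion_le.trans ?_
      apply sum_le_sum
      intro i _
      rw [Nat.card_Ioc]
  have h3 : ∀ i ∈ range J, d * (L m l J i / d + J - U m l J (i + 1) / d) + U m l J (i + 1) =
      L m l J i + d * J := by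
    intro i hi
    have h4 := U_succ_le_L hl hm (Nat.succ_le_of_lt (mem_range.1 hi))
    obtain ⟨w, hw⟩ := dvd_L (m := m) (l := l) hd J i
    obtain ⟨v, hv⟩ := dvd_U (m := m) (l := l) hd J (i + 1)
    rw [hw, hv, Nat.mul_div_cancel_left _ hd0, Nat.mul_div_cancel_left _ hd0]
    rw [hw, hv] at h4
    have h5 := le_of_mul_le_mul_left h4 hd0
    obtain ⟨e, rfl⟩ := Nat.exists_eq_add_of_le h5
    rw [show v + e + J - v = e + J by omega]
    ring
  have h4 : d * (L m l J J / d) = L m l J J := Nat.mul_div_cancel' (dvd_L hd J J)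
  calc d * ((Icc 1 (U m l J 0)).filter (fun n => d ∣ n ∧ n ∉ A m l)).card +
      ∑ i ∈ range J, U m l J (i + 1)
      ≤ d * ((L m l J J / d + J) +
      ∑ i ∈ range J, (L m l J i / d + J - U m l J (i + 1) / d)) + ∑ i ∈ range J, U m l J (i + 1) :=
        Nat.add_le_add_right (Nat.mul_le_mul_left _ (h1.trans h2)) _
    _ = d * (L m l J J / d) + d * J + ∑ i ∈ range J,
        (d * (L m l J i / d + J - U m l J (i + 1) / d) + U m l J (i + 1)) := by
        rw [sum_add_distrib, ← mul_sum]
        ring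
    _ = L m l J J + ∑ i ∈ range J, L m l J i + d * ((J + 1) * J) := by
        rw [sum_congr rfl h3, h4, sum_add_distrib, sum_const, card_range, smul_eq_mul]
        ring

lemma U_real (hl : 1 ≤ l) (hm : l < m) {J i : ℕ} (hi : 1 ≤ i) (hJ : i ≤ J) :
    (U m l J i : ℝ) = U m l J 0 * (((m : ℝ) + 1) / m * ((l : ℝ) / (m + l)) ^ (2 * i)) := by
  unfold U
  rw [if_neg (by omega), if_pos rfl]
  have hm0 : (m : ℝ) ≠ 0 := by
    have : 0 < m := by omega
    positivity
  have hs0 : ((m : ℝ) + l) ≠ 0 := by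
    have : 0 < m := by omega
    positivity
  obtain ⟨e, rfl⟩ := Nat.exists_eq_add_of_le hJ
  rw [show i + e - i = e by omega]
  push_cast
  rw [div_pow]
  field_simp
  ring

lemma L_real (hl : 1 ≤ l) (hm : l < m) (J i : ℕ) :
    (L m l J i : ℝ) = U m l J i * ((l : ℝ) / (m + l)) := by
  have h := rel1 (m := m) (l := l) J i
  have hs0 : ((m : ℝ) + l) ≠ 0 := by
    have : 0 < m := by omega
    positivity
  have h1 : ((m : ℝ) + l) * L m l J i = l * U m l J i := by exact_mod_cast h
  field_simp
  linarith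

/-- the total length of the gaps -/
lemma gap_total (hl : 1 ≤ l) (hm : l < m) (J : ℕ) :
    (L m l J J : ℝ) + ∑ i ∈ range J, (L m l J i : ℝ) - ∑ i ∈ range J, (U m l J (i + 1) : ℝ) =
      U m l J 0 * (((l : ℝ) / (m + l)) - ((m : ℝ) + 1) / m * ((l : ℝ) / (m + l)) ^ 2 *
        (1 - ((l : ℝ) / (m + l)) ^ (2 * J)) / (1 + (l : ℝ) / (m + l))) := by
  set ρ : ℝ := (l : ℝ) / (m + l) with hρ
  have hρ0 : 0 < ρ := by
    have : 0 < m := by omega
    have : 0 < l := by omega
    positivity
  have h1 : (L m l J J : ℝ) + ∑ i ∈ range J, (L m l J i : ℝ) =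
      ∑ i ∈ range (J + 1), (L m l J i : ℝ) := by
    rw [sum_range_succ]
    ring
  rw [h1, sum_range_succ', add_sub_right_comm, ← sum_sub_distrib]
  have h2 : ∀ i ∈ range J, (L m l J (i + 1) : ℝ) - U m l J (i + 1) =
      U m l J 0 * (((m : ℝ) + 1) / m * (ρ - 1)) * (ρ ^ 2) ^ (i + 1) := by
    intro i hi
    have hi' := mem_range.1 hi
    rw [L_real hl hm, U_real hl hm (i := i + 1) (by omega) (by omega), ← hρ]
    ring
  rw [sum_congr rfl h2, ← mul_sum, L_real hl hm]
  have h3 : ∀ J : ℕ, (1 + ρ) * ((ρ - 1) * ∑ i ∈ range J, (ρ ^ 2) ^ (i + 1)) =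
      - ρ ^ 2 * (1 - ρ ^ (2 * J)) := by
    intro J
    induction J with
    | zero => simp
    | succ J ih =>
      rw [sum_range_succ, mul_add, mul_add, ih]
      ring
  have h4 : (ρ - 1) * ∑ i ∈ range J, (ρ ^ 2) ^ (i + 1) =
      - ρ ^ 2 * (1 - ρ ^ (2 * J)) / (1 + ρ) := by
    rw [eq_div_iff (by positivity), ← h3 J]
    ring
  calc (U m l J 0 : ℝ) * (((m : ℝ) + 1) / m * (ρ - 1)) * ∑ i ∈ range J, (ρ ^ 2) ^ (i + 1) +
      U m l J 0 * ρ = U m l J 0 * (((m : ℝ) + 1) / m *
        ((ρ - 1) * ∑ i ∈ range J, (ρ ^ 2) ^ (i + 1)) + ρ) := by ring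
    _ = _ := by
      rw [h4]
      ring

end

end Pool.Agent.V11180.Scale
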