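import Mathlib

/-!
# Counting partitions of size at most `n`: auxiliary results
-/

set_option autoImplicit false

open Multiset

namespace Pool.Agent.V11180.PartCount

/-- multisets of positive integers with sum at most `n` -/
def Q (n : ℕ) : Set (Multiset ℕ) := {μ | 0 ∉ μ ∧ μ.sum ≤ n}

/-- the parametrisation of `Q n` by partitions -/
def toQ (n : ℕ) : (Σ k : Fin (n + 1), Nat.Partition k) → Multiset ℕ := fun x => x.2.parts

lemma toQ_injective (n : ℕ) : Function.Injective (toQ n) := by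
  rintro ⟨⟨k, hk⟩, a⟩ ⟨⟨l, hl⟩, b⟩ h
  simp only [toQ] at h
  have : k = l := by
    have h1 := a.parts_sum
    have h2 := b.parts_sum
    rw [h, h2] at h1
    exact h1.symm
  subst this
  congr 1
  exact Nat.Partition.ext h

lemma range_toQ (n : ℕ) : Set.range (toQ n) = Q n := by
  ext μ
  constructor
  · rintro ⟨⟨⟨k, hk⟩, a⟩, rfl⟩
    refine ⟨fun h => ?_, ?_⟩
    · exact absurd (a.parts_pos h) (lt_irrefl _)
    · show a.parts.sum ≤ n
      rw [a.parts_sum]
      show k ≤ n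
      omega
  · rintro ⟨h1, h2⟩
    refine ⟨⟨⟨μ.sum, by omega⟩, ⟨μ, ?_, rfl⟩⟩, rfl⟩
    intro i hi
    rcases Nat.eq_zero_or_pos i with h | h
    · subst h; exact absurd hi h1
    · exact h

lemma Q_finite (n : ℕ) : (Q n).Finite := by
  rw [← range_toQ]
  exact Set.finite_range _

lemma Q_ncard (n : ℕ) : (Q n).ncard = ∑ k ∈ Finset.range (n + 1), Fintype.card (Nat.Partition k) := by
  rw [← range_toQ, ← Set.image_univ, Set.ncard_image_of_injective _ (toQ_injective n),
    Set.ncard_univ, Nat.card_eq_fintype_card, Fintype.card_sigma, Finset.sum_range]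

lemma Q_sep_ncard (n : ℕ) (R : Multiset ℕ → Prop) : {μ ∈ Q n | R μ}.ncard =
    ∑ k ∈ Finset.range (n + 1), Nat.card {a : Nat.Partition k // R a.parts} := by
  have h1 : {μ ∈ Q n | R μ} =
      Set.range (fun x : (Σ k : Fin (n + 1), {a : Nat.Partition k // R a.parts}) =>
        (x.2.1.parts : Multiset ℕ)) := by
    ext μ
    constructor
    · rintro ⟨hμ, hR⟩
      rw [← range_toQ] at hμ
      obtain ⟨⟨k, a⟩, rfl⟩ := hμ
      exact ⟨⟨k, ⟨a, hR⟩⟩, rfl⟩
    · rintro ⟨⟨k, ⟨a, hR⟩⟩, rfl⟩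
      refine ⟨?_, hR⟩
      rw [← range_toQ]
      exact ⟨⟨k, a⟩, rfl⟩
  have h2 : Function.Injective (fun x : (Σ k : Fin (n + 1), {a : Nat.Partition k // R a.parts}) =>
        (x.2.1.parts : Multiset ℕ)) := by
    rintro ⟨k, ⟨a, ha⟩⟩ ⟨l, ⟨b, hb⟩⟩ h
    have h3 : (⟨k, a⟩ : Σ k : Fin (n + 1), Nat.Partition k) = ⟨l, b⟩ := toQ_injective n h
    cases h3
    rfl
  rw [h1, ← Set.image_univ, Set.ncard_image_of_injective _ h2, Set.ncard_univ, Nat.card_sigma,
    Finset.sum_range]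

/-- number of partitions of size at most `n` -/
noncomputable def P (n : ℕ) : ℕ := (Q n).ncard

/-- number of partitions of size at most `n` without part `1` -/
noncomputable def a (n : ℕ) : ℕ := {μ ∈ Q n | 1 ∉ μ}.ncard

/-- number of partitions of size at most `n` without part `2` -/
noncomputable def b (n : ℕ) : ℕ := {μ ∈ Q n | 2 ∉ μ}.ncard

lemma sep_finite (n : ℕ) (R : Multiset ℕ → Prop) : {μ ∈ Q n | R μ}.Finite :=
  (Q_finite n).subset (Set.sep_subset _ _)

/-- adding a part `j` -/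
lemma card_with (n j : ℕ) (hj : 0 < j) : {μ ∈ Q (n + j) | j ∈ μ}.ncard = P n := by
  have h : {μ ∈ Q (n + j) | j ∈ μ} = (fun μ => j ::ₘ μ) '' (Q n) := by
    ext μ
    constructor
    · rintro ⟨⟨h0, hs⟩, hj'⟩
      refine ⟨μ.erase j, ⟨?_, ?_⟩, ?_⟩
      · intro h; exact h0 (Multiset.mem_of_mem_erase h)
      · have h1 : j + (μ.erase j).sum = μ.sum := by
          rw [← Multiset.sum_cons, Multiset.cons_erase hj']
        omega
      · exact Multiset.cons_erase hj'
    · rintro ⟨ν, ⟨h0, hs⟩, rfl⟩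
      refine ⟨⟨?_, ?_⟩, ?_⟩
      · simp only [Multiset.mem_cons, not_or]
        exact ⟨by omega, h0⟩
      · simp only [Multiset.sum_cons]; omega
      · simp
  rw [h, Set.ncard_image_of_injective]
  · rfl
  · intro μ ν h
    exact Multiset.cons_inj_right j |>.1 h

lemma P_eq_a (n : ℕ) : P (n + 1) = a (n + 1) + P n := by
  have h := card_with n 1 one_pos
  have h2 : {μ ∈ Q (n + 1) | 1 ∉ μ} ∪ {μ ∈ Q (n + 1) | 1 ∈ μ} = Q (n + 1) := by
    ext μ
    simp only [Set.mem_union, Set.mem_sep_iff]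
    tauto
  have h3 := Set.ncard_union_eq (s := {μ ∈ Q (n + 1) | 1 ∉ μ}) (t := {μ ∈ Q (n + 1) | 1 ∈ μ})
    (by
      rw [Set.disjoint_left]
      rintro μ ⟨-, h4⟩ ⟨-, h5⟩
      exact h4 h5) (sep_finite _ _) (sep_finite _ _)
  rw [h2, h] at h3
  exact h3

lemma P_eq_b (n : ℕ) : P (n + 2) = b (n + 2) + P n := by
  have h := card_with n 2 two_pos
  have h2 : {μ ∈ Q (n + 2) | 2 ∉ μ} ∪ {μ ∈ Q (n + 2) | 2 ∈ μ} = Q (n + 2) := by
    ext μ
    simp only [Set.mem_union, Set.mem_sep_iff]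
    tauto
  have h3 := Set.ncard_union_eq (s := {μ ∈ Q (n + 2) | 2 ∉ μ}) (t := {μ ∈ Q (n + 2) | 2 ∈ μ})
    (by
      rw [Set.disjoint_left]
      rintro μ ⟨-, h4⟩ ⟨-, h5⟩
      exact h4 h5) (sep_finite _ _) (sep_finite _ _)
  rw [h2, h] at h3
  exact h3

lemma a_mono {m n : ℕ} (h : m ≤ n) : a m ≤ a n := by
  apply Set.ncard_le_ncard _ (sep_finite _ _)
  rintro μ ⟨⟨h0, hs⟩, h1⟩
  exact ⟨⟨h0, by omega⟩, h1⟩

lemma P_mono {m n : ℕ} (h : m ≤ n) : P m ≤ P n := by
  apply Set.ncard_le_ncard _ (Q_finite _)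
  rintro μ ⟨h0, hs⟩
  exact ⟨h0, by omega⟩

lemma b_le (n : ℕ) : b n ≤ 2 * a n := by
  rcases n with _ | _ | n
  · have h1 : {μ ∈ Q 0 | 2 ∉ μ} ⊆ {μ ∈ Q 0 | 1 ∉ μ} := by
      rintro μ ⟨⟨h0, hs⟩, h1⟩
      refine ⟨⟨h0, hs⟩, ?_⟩
      intro h
      have := Multiset.le_sum_of_mem h
      omega
    have := Set.ncard_le_ncard h1 (sep_finite _ _)
    unfold a b
    omega
  · have h1 : P 1 = a 1 + P 0 := P_eq_a 0
    have h2 : b 1 ≤ P 1 := Set.ncard_le_ncard (Set.sep_subset _ _) (Q_finite _)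
    have h3 : P 0 ≤ a 1 := by
      apply Set.ncard_le_ncard _ (sep_finite _ _)
      rintro μ ⟨h0, hs⟩
      refine ⟨⟨h0, by omega⟩, ?_⟩
      intro h
      have := Multiset.le_sum_of_mem h
      omega
    show b 1 ≤ 2 * a 1
    omega
  · have h1 := P_eq_b n
    have h2 := P_eq_a (n + 1)
    have h3 := P_eq_a n
    have h4 : a (n + 1) ≤ a (n + 2) := a_mono (by omega)
    show b (n + 2) ≤ 2 * a (n + 2)
    have e : n + 1 + 1 = n + 2 := rfl
    rw [e] at h2
    omega

/-- sum over a residue class -/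
lemma sum_blocks (J r q : ℕ) : (J + 1) * ∑ i ∈ Finset.range q, a (r + i * (J + 1)) ≤
    ∑ t ∈ Finset.range (r + q * (J + 1)), a t := by
  induction q with
  | zero => simp
  | succ q ih =>
    rw [Finset.sum_range_succ, mul_add, show r + (q + 1) * (J + 1) = (r + q * (J + 1)) + (J + 1) by ring,
      Finset.sum_range_add]
    apply add_le_add ih
    calc (J + 1) * a (r + q * (J + 1)) = ∑ x ∈ Finset.range (J + 1), a (r + q * (J + 1)) := by simp
      _ ≤ _ := Finset.sum_le_sum (fun x _ => a_mono (by omega))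

lemma sum_a (n : ℕ) : ∑ t ∈ Finset.range (n + 1), a t ≤ P n := by
  induction n with
  | zero =>
    simp only [zero_add, Finset.range_one, Finset.sum_singleton]
    exact Set.ncard_le_ncard (Set.sep_subset _ _) (Q_finite _)
  | succ n ih =>
    rw [Finset.sum_range_succ, P_eq_a]
    omega

/-- the sum over the progression `n, n - (J+1), n - 2 (J+1), ...` -/
lemma sum_progression (J n : ℕ) : (J + 1) * ∑ i ∈ Finset.range (n / (J + 1) + 1), a (n - i * (J + 1)) ≤
    (J + 1) * a n + P n := by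
  rw [Finset.sum_range_succ', mul_add, add_comm, zero_mul, Nat.sub_zero]
  apply Nat.add_le_add_left
  have h1 : ∑ i ∈ Finset.range (n / (J + 1)), a (n - (i + 1) * (J + 1)) =
      ∑ i ∈ Finset.range (n / (J + 1)), a (n % (J + 1) + i * (J + 1)) := by
    rw [← Finset.sum_range_reflect]
    apply Finset.sum_congr rfl
    intro i hi
    rw [Finset.mem_range] at hi
    congr 1
    have h2 := Nat.mod_add_div n (J + 1)
    have h3 : (n / (J + 1) - 1 - i + 1) * (J + 1) + i * (J + 1) = (n / (J + 1)) * (J + 1) := by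
      rw [← add_mul]
      congr 1
      omega
    rw [mul_comm (J + 1)] at h2
    omega
  rw [h1]
  refine (sum_blocks J (n % (J + 1)) (n / (J + 1))).trans ?_
  rw [mul_comm (n / (J + 1)), Nat.mod_add_div]
  refine le_trans ?_ (sum_a n)
  exact Finset.sum_le_sum_of_subset (Finset.range_mono (by omega))

end Pool.Agent.V11180.PartCount
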