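import Mathlib
import Pool.Agent.V11180.PartCount

/-!
# Partitions of size at most `n` without part `1` are negligible
-/

set_option autoImplicit false

open Multiset Filter Topology

namespace Pool.Agent.V11180.PartCount

/-- many distinct part sizes -/
lemma many_supports (n D : ℕ) :
    D * {μ ∈ Q n | 1 ∉ μ ∧ D ≤ μ.toFinset.card}.ncard ≤ P n := by
  classical
  have hfin := sep_finite n (fun μ => 1 ∉ μ ∧ D ≤ μ.toFinset.card)
  set A := hfin.toFinset with hA
  have hcardA : {μ ∈ Q n | 1 ∉ μ ∧ D ≤ μ.toFinset.card}.ncard = A.card :=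
    Set.ncard_eq_toFinset_card _ hfin
  set T : Finset (Σ _ : Multiset ℕ, ℕ) := A.sigma (fun μ => μ.toFinset) with hT
  have h1 : D * A.card ≤ T.card := by
    rw [hT, Finset.card_sigma, mul_comm, ← smul_eq_mul]
    apply Finset.card_nsmul_le_sum
    intro μ hμ
    rw [hA, Set.Finite.mem_toFinset] at hμ
    exact hμ.2.2
  have h2 : T.card ≤ (Q_finite n).toFinset.card := by
    apply Finset.card_le_card_of_injOn (fun x => x.1.erase x.2 + replicate x.2 1)
    · rintro ⟨μ, d⟩ hx
      rw [Finset.mem_coe, hT, Finset.mem_sigma, hA, Set.Finite.mem_toFinset, Multiset.mem_toFinset] at hx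
      obtain ⟨⟨⟨h0, hs⟩, h1, -⟩, hd⟩ := hx
      rw [Finset.mem_coe, Set.Finite.mem_toFinset]
      refine ⟨?_, ?_⟩
      · simp only [Multiset.mem_add, not_or]
        refine ⟨fun h => h0 (Multiset.mem_of_mem_erase h), ?_⟩
        intro h
        have := Multiset.eq_of_mem_replicate h
        omega
      · have h3 : d + (μ.erase d).sum = μ.sum := by
          rw [← Multiset.sum_cons, Multiset.cons_erase hd]
        simp only [Multiset.sum_add, Multiset.sum_replicate, smul_eq_mul, mul_one]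
        simp only at hs
        omega
    · rintro ⟨μ, d⟩ hx ⟨μ', d'⟩ hx' he
      rw [Finset.mem_coe, hT, Finset.mem_sigma, hA, Set.Finite.mem_toFinset, Multiset.mem_toFinset] at hx hx'
      obtain ⟨⟨⟨h0, hs⟩, h1, -⟩, hd⟩ := hx
      obtain ⟨⟨⟨h0', hs'⟩, h1', -⟩, hd'⟩ := hx'
      simp only at he h1 h1' hd hd'
      have hc : d = d' := by
        have h3 := congrArg (count 1) he
        rw [count_add, count_add, count_replicate_self, count_replicate_self,
          count_eq_zero_of_notMem (fun h => h1 (Multiset.mem_of_mem_erase h)),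
          count_eq_zero_of_notMem (fun h => h1' (Multiset.mem_of_mem_erase h))] at h3
        omega
      subst hc
      have h4 := add_right_cancel he
      have h5 : μ = μ' := by
        rw [← Multiset.cons_erase hd, ← Multiset.cons_erase hd', h4]
      subst h5
      rfl
  have h3 : (Q_finite n).toFinset.card = P n := (Set.ncard_eq_toFinset_card _ _).symm
  rw [hcardA, ← h3]
  exact h1.trans h2

/-- few distinct part sizes -/
lemma few_supports (n D : ℕ) : {μ ∈ Q n | μ.toFinset.card ≤ D}.ncard ≤ ((n + 1) ^ 2) ^ D := by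
  classical
  induction D with
  | zero =>
    have : {μ ∈ Q n | μ.toFinset.card ≤ 0} ⊆ {0} := by
      rintro μ ⟨-, h⟩
      simp only [Nat.le_zero, Finset.card_eq_zero, Multiset.toFinset_eq_empty] at h
      exact h
    calc _ ≤ ({0} : Set (Multiset ℕ)).ncard := Set.ncard_le_ncard this (Set.finite_singleton _)
      _ = 1 := Set.ncard_singleton _
      _ ≤ _ := by simp
  | succ D ih =>
    set B := {μ ∈ Q n | μ.toFinset.card ≤ D} with hB
    have hBfin : B.Finite := sep_finite _ _
    set R : Set ℕ := {x | x ≤ n} with hR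
    have hRfin : R.Finite := Set.finite_le_nat n
    have hRcard : R.ncard = n + 1 := by
      have : R = (Finset.range (n + 1) : Set ℕ) := by
        ext x; simp [hR]
      rw [this, Set.ncard_coe_finset, Finset.card_range]
    have hsub : {μ ∈ Q n | μ.toFinset.card ≤ D + 1} ⊆
        (fun x : (ℕ × ℕ) × Multiset ℕ => replicate x.1.1 x.1.2 + x.2) '' ((R ×ˢ R) ×ˢ B) := by
      rintro μ ⟨⟨h0, hs⟩, hc⟩
      rcases Multiset.empty_or_exists_mem μ with rfl | ⟨d, hd⟩
      · exact ⟨((0, 0), 0), ⟨⟨Nat.zero_le _, Nat.zero_le _⟩, ⟨by simp, by simp⟩, by simp⟩, by simp⟩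
      · have hdec : replicate (count d μ) d + μ.filter (fun x => ¬ d = x) = μ := by
          have h3 := Multiset.filter_add_not (fun x => d = x) μ
          rw [Multiset.filter_eq] at h3
          exact h3
        have hsum : count d μ * d + (μ.filter (fun x => ¬ d = x)).sum = μ.sum := by
          have h4 := congrArg Multiset.sum hdec
          rw [Multiset.sum_add, Multiset.sum_replicate, smul_eq_mul] at h4
          exact h4
        have hd0 : 0 < d := Nat.pos_of_ne_zero (fun h => h0 (h ▸ hd))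
        refine ⟨((count d μ, d), μ.filter (fun x => ¬ d = x)), ⟨⟨?_, ?_⟩, ⟨⟨?_, ?_⟩, ?_⟩⟩, hdec⟩
        · show count d μ ≤ n
          have h7 : count d μ ≤ count d μ * d := Nat.le_mul_of_pos_right _ hd0
          omega
        · have := Multiset.le_sum_of_mem hd
          show d ≤ n
          omega
        · intro h; exact h0 (Multiset.mem_of_mem_filter h)
        · show (μ.filter (fun x => ¬ d = x)).sum ≤ n
          omega
        · have h5 : (μ.filter (fun x => ¬ d = x)).toFinset ⊆ μ.toFinset.erase d := by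
            intro x hx
            rw [Multiset.mem_toFinset, Multiset.mem_filter] at hx
            rw [Finset.mem_erase, Multiset.mem_toFinset]
            exact ⟨fun h => hx.2 h.symm, hx.1⟩
          have h6 := Finset.card_le_card h5
          rw [Finset.card_erase_of_mem (Multiset.mem_toFinset.2 hd)] at h6
          show (μ.filter (fun x => ¬ d = x)).toFinset.card ≤ D
          omega
    calc _ ≤ ((fun x : (ℕ × ℕ) × Multiset ℕ => replicate x.1.1 x.1.2 + x.2) '' ((R ×ˢ R) ×ˢ B)).ncard :=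
          Set.ncard_le_ncard hsub (((hRfin.prod hRfin).prod hBfin).image _)
      _ ≤ ((R ×ˢ R) ×ˢ B).ncard := Set.ncard_image_le ((hRfin.prod hRfin).prod hBfin)
      _ = (n + 1) ^ 2 * B.ncard := by
          rw [Set.ncard_prod, Set.ncard_prod, hRcard]; ring
      _ ≤ (n + 1) ^ 2 * ((n + 1) ^ 2) ^ D := Nat.mul_le_mul_left _ ih
      _ = _ := by ring

lemma two_pow_sqrt_le (n : ℕ) : 2 ^ (Nat.sqrt n) ≤ P n := by
  classical
  have hr : Nat.sqrt n * Nat.sqrt n ≤ n := Nat.sqrt_le n
  set r := Nat.sqrt n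
  have h1 : (Finset.powerset (Finset.Icc 1 r)).card = 2 ^ r := by
    rw [Finset.card_powerset, Nat.card_Icc]; simp
  have h3 : (Q_finite n).toFinset.card = P n := (Set.ncard_eq_toFinset_card _ _).symm
  rw [← h1, ← h3]
  apply Finset.card_le_card_of_injOn (fun s => s.val)
  · intro s hs
    rw [Finset.mem_coe, Finset.mem_powerset] at hs
    rw [Finset.mem_coe, Set.Finite.mem_toFinset]
    refine ⟨?_, ?_⟩
    · intro h
      have := Finset.mem_Icc.1 (hs h)
      omega
    · have h4 : s.val.sum ≤ s.card • r := by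
        apply Multiset.sum_le_card_nsmul
        intro x hx
        exact (Finset.mem_Icc.1 (hs hx)).2
      have h5 : s.card ≤ r := by
        have := Finset.card_le_card hs
        rw [Nat.card_Icc] at this
        omega
      calc s.val.sum ≤ s.card • r := h4
        _ = s.card * r := smul_eq_mul _ _
        _ ≤ r * r := Nat.mul_le_mul_right _ h5
        _ ≤ n := hr
  · intro s _ t _ h
    exact Finset.val_injective h

lemma P_pos (n : ℕ) : 0 < P n := lt_of_lt_of_le (by positivity) (two_pow_sqrt_le n)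

lemma a_bound (n D : ℕ) : D * a n ≤ P n + D * ((n + 1) ^ 2) ^ D := by
  have h1 := many_supports n D
  have h2 := few_supports n D
  have h3 : a n ≤ {μ ∈ Q n | 1 ∉ μ ∧ D ≤ μ.toFinset.card}.ncard +
      {μ ∈ Q n | μ.toFinset.card ≤ D}.ncard := by
    refine le_trans ?_ (Set.ncard_union_le _ _)
    apply Set.ncard_le_ncard _ ((sep_finite _ _).union (sep_finite _ _))
    rintro μ ⟨hμ, h1⟩
    rcases le_total D μ.toFinset.card with h | h
    · exact Or.inl ⟨hμ, h1, h⟩
    · exact Or.inr ⟨hμ, h⟩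
  calc D * a n ≤ D * (_ + _) := Nat.mul_le_mul_left _ h3
    _ = D * {μ ∈ Q n | 1 ∉ μ ∧ D ≤ μ.toFinset.card}.ncard +
      D * {μ ∈ Q n | μ.toFinset.card ≤ D}.ncard := mul_add _ _ _
    _ ≤ _ := Nat.add_le_add h1 (Nat.mul_le_mul_left _ h2)

lemma poly_div (D : ℕ) : Tendsto (fun n : ℕ => (((n + 1 : ℕ) : ℝ) ^ 2) ^ D / (P n : ℝ)) atTop (𝓝 0) := by
  have h1 : Tendsto (fun r : ℕ => 2 * (((r + 1 : ℕ) : ℝ) ^ (4 * D) / 2 ^ (r + 1))) atTop (𝓝 0) := by
    have h := tendsto_pow_const_div_const_pow_of_one_lt (4 * D) (r := (2 : ℝ)) (by norm_num)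
    have h' := (h.comp (tendsto_add_atTop_nat 1)).const_mul 2
    simpa using h'
  have h2 : Tendsto (fun n : ℕ => Nat.sqrt n) atTop atTop := by
    apply tendsto_atTop_mono' atTop _ (tendsto_id.comp ?_ : Tendsto (fun n : ℕ => id (Nat.sqrt n)) atTop atTop)
    · exact Eventually.of_forall (fun n => le_rfl)
    · rw [tendsto_atTop_atTop]
      intro b
      exact ⟨b * b, fun a ha => Nat.le_sqrt.2 ha⟩
  have h3 := h1.comp h2
  refine squeeze_zero (fun n => by positivity) (fun n => ?_) h3
  have h4 : (2 : ℝ) ^ (Nat.sqrt n) ≤ (P n : ℝ) := by exact_mod_cast two_pow_sqrt_le n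
  have h5 : ((n + 1 : ℕ) : ℝ) ≤ ((Nat.sqrt n + 1 : ℕ) : ℝ) ^ 2 := by
    have := Nat.lt_succ_sqrt n
    have h6 : n + 1 ≤ (Nat.sqrt n + 1) ^ 2 := by
      rw [pow_two]; exact this
    exact_mod_cast h6
  simp only [Function.comp]
  rw [pow_succ (2 : ℝ) (Nat.sqrt n)]
  have h7 : (((n + 1 : ℕ) : ℝ) ^ 2) ^ D ≤ ((Nat.sqrt n + 1 : ℕ) : ℝ) ^ (4 * D) := by
    rw [show 4 * D = 2 * 2 * D by ring, pow_mul, pow_mul]
    apply pow_le_pow_left₀ (by positivity)
    exact pow_le_pow_left₀ (by positivity) h5 2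
  calc (((n + 1 : ℕ) : ℝ) ^ 2) ^ D / (P n : ℝ) ≤ ((Nat.sqrt n + 1 : ℕ) : ℝ) ^ (4 * D) / 2 ^ (Nat.sqrt n) := by
        apply div_le_div₀ (by positivity) h7 (by positivity) h4
    _ = _ := by
        field_simp

/-- partitions without part `1` are negligible -/
lemma a_div_P : Tendsto (fun n : ℕ => (a n : ℝ) / (P n : ℝ)) atTop (𝓝 0) := by
  rw [Metric.tendsto_atTop]
  intro ε hε
  obtain ⟨D, hD⟩ := exists_nat_gt (2 / ε)
  have hD0 : (0 : ℝ) < D := lt_trans (by positivity) hD
  have h1 := poly_div D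
  rw [Metric.tendsto_atTop] at h1
  obtain ⟨N, hN⟩ := h1 (ε / 2) (by positivity)
  refine ⟨N, fun n hn => ?_⟩
  have h2 := hN n hn
  have hP : (0 : ℝ) < P n := by exact_mod_cast P_pos n
  rw [Real.dist_eq, sub_zero, abs_of_nonneg (by positivity)] at h2 ⊢
  have h3 : (D : ℝ) * a n ≤ P n + D * (((n + 1 : ℕ) : ℝ) ^ 2) ^ D := by exact_mod_cast a_bound n D
  have h4 : (a n : ℝ) / P n ≤ 1 / D + (((n + 1 : ℕ) : ℝ) ^ 2) ^ D / (P n : ℝ) := by
    rw [div_add_div _ _ hD0.ne' hP.ne', div_le_div_iff₀ hP (by positivity)]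
    nlinarith
  have h5 : 1 / (D : ℝ) < ε / 2 := by
    rw [div_lt_iff₀ hε] at hD
    rw [div_lt_iff₀ hD0]
    linarith
  linarith

end Pool.Agent.V11180.PartCount
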