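import Mathlib

/-!
# A form of Delsarte duality for additive rank-metric codes

An additive code `C` of `n × n` matrices over a finite field whose nonzero elements have rank at
least `d` and which has `q ^ (n (n - d + 1))` elements has no nonzero matrix of rank at most
`n - d + 1` in its dual.
-/

set_option autoImplicit false

open Module Matrix

namespace Pool.Agent.V11180.Delsarte

lemma exists_superspace {K V : Type*} [Field K] [AddCommGroup V] [Module K V]
    [FiniteDimensional K V] (m : ℕ) (hm : m ≤ finrank K V) :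
    ∀ (t : ℕ) (U : Submodule K V), finrank K U + t = m → ∃ W : Submodule K V, U ≤ W ∧
      finrank K W = m := by
  intro t
  induction t with
  | zero => exact fun U hU => ⟨U, le_rfl, by omega⟩
  | succ t ih =>
    intro U hU
    have hne : U ≠ ⊤ := by
      rintro rfl
      rw [finrank_top] at hU
      omega
    obtain ⟨x, hx⟩ : ∃ x, x ∉ U := by
      by_contra h
      push Not at h
      exact hne ((Submodule.eq_top_iff').2 h)
    have h1 : finrank K (U ⊔ Submodule.span K {x} : Submodule K V) = finrank K U + 1 := by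
      have hx0 : x ≠ 0 := fun h => hx (h ▸ U.zero_mem)
      have hdisj : Disjoint U (Submodule.span K {x}) := by
        rw [Submodule.disjoint_span_singleton' hx0]
        exact hx
      have h2 := Submodule.finrank_sup_add_finrank_inf_eq U (Submodule.span K {x})
      rw [hdisj.eq_bot, finrank_bot, finrank_span_singleton hx0] at h2
      omega
    obtain ⟨W, hW, hW'⟩ := ih (U ⊔ Submodule.span K {x}) (by omega)
    exact ⟨W, le_sup_left.trans hW, hW'⟩

variable {F : Type} [Field F] [Fintype F] {n : ℕ}

/-- the standard pairing of two square matrices -/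
def pair (X Y : Matrix (Fin n) (Fin n) F) : F := ∑ i, ∑ j, X i j * Y i j

lemma pair_add_left (X X' Y : Matrix (Fin n) (Fin n) F) :
    pair (X + X') Y = pair X Y + pair X' Y := by
  simp [pair, add_mul, Finset.sum_add_distrib]

lemma pair_add_right (X Y Y' : Matrix (Fin n) (Fin n) F) :
    pair X (Y + Y') = pair X Y + pair X Y' := by
  simp [pair, mul_add, Finset.sum_add_distrib]

lemma pair_comm (X Y : Matrix (Fin n) (Fin n) F) : pair X Y = pair Y X := by
  simp [pair, mul_comm]

theorem eq_zero_of_rank_le {G : Type} [AddCommGroup G] (φ : F →+ G)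
    (hφ : ∀ y, (∀ c, φ (c * y) = 0) → y = 0)
    (C : AddSubgroup (Matrix (Fin n) (Fin n) F)) (d : ℕ) (hd : 1 ≤ d) (hdn : d ≤ n)
    (hmin : ∀ X ∈ C, X ≠ 0 → d ≤ X.rank)
    (hcard : Nat.card C = Fintype.card F ^ (n * (n - d + 1)))
    (Y : Matrix (Fin n) (Fin n) F) (hY : ∀ X ∈ C, φ (pair X Y) = 0)
    (hr : Y.rank ≤ n - d + 1) : Y = 0 := by
  classical
  obtain ⟨W, hW, hWm⟩ := exists_superspace (K := F) (V := Fin n → F) (n - d + 1)
    (by rw [finrank_fin_fun]; omega) (n - d + 1 - Y.rank) (LinearMap.range Y.mulVecLin)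
    (by change Y.rank + _ = _; omega)
  -- the restriction map
  let Φ : C → (W →ₗ[F] (Fin n → F)) := fun X => (X.1.vecMulLinear).comp W.subtype
  have hΦapp : ∀ X : C, ∀ w : W, Φ X w = w.1 ᵥ* X.1 := fun X w => rfl
  have hinj : Function.Injective Φ := by
    intro X X' h
    by_contra hne
    have hne' : X.1 - X'.1 ≠ 0 := fun h' => hne (Subtype.ext (sub_eq_zero.1 h'))
    have h1 := hmin _ (C.sub_mem X.2 X'.2) hne'
    have h2 : W ≤ LinearMap.ker ((X.1 - X'.1)ᵀ).mulVecLin := by
      intro w hw
      rw [LinearMap.mem_ker, Matrix.mulVecLin_apply, Matrix.mulVec_transpose, Matrix.vecMul_sub,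
        sub_eq_zero]
      have := DFunLike.congr_fun h ⟨w, hw⟩
      exact this
    have h3 := Submodule.finrank_mono h2
    have h4 := LinearMap.finrank_range_add_finrank_ker ((X.1 - X'.1)ᵀ).mulVecLin
    have h5 : finrank F (LinearMap.range ((X.1 - X'.1)ᵀ).mulVecLin) = (X.1 - X'.1).rank := by
      rw [← Matrix.rank_transpose (X.1 - X'.1)]
      rfl
    rw [h5, finrank_fin_fun] at h4
    omega
  have hsurj : Function.Surjective Φ := by
    haveI : Finite (W →ₗ[F] (Fin n → F)) := Module.finite_of_finite F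
    haveI : Fintype (W →ₗ[F] (Fin n → F)) := Fintype.ofFinite _
    haveI : Fintype C := Fintype.ofFinite _
    have hcard2 : Nat.card (W →ₗ[F] (Fin n → F)) = Nat.card C := by
      rw [hcard, Module.natCard_eq_pow_finrank (K := F), Module.finrank_linearMap, hWm,
        finrank_fin_fun, Nat.card_eq_fintype_card]
      congr 1
      ring
    exact ((Nat.bijective_iff_injective_and_card Φ).2 ⟨hinj, hcard2.symm⟩).2
  -- test against rank one maps
  have key : ∀ (k : Fin n), Y *ᵥ (Pi.single k 1) = 0 := by
    intro k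
    have hmem : Y *ᵥ (Pi.single k 1) ∈ W := hW ⟨_, rfl⟩
    by_contra hne
    have hne2 : (⟨Y *ᵥ (Pi.single k 1), hmem⟩ : W) ≠ 0 := fun h => hne (congrArg Subtype.val h)
    obtain ⟨g, hg⟩ : ∃ g : Module.Dual F W, g ⟨Y *ᵥ (Pi.single k 1), hmem⟩ ≠ 0 := by
      by_contra hcon
      push Not at hcon
      exact hne2 ((Module.forall_dual_apply_eq_zero_iff F _).1 hcon)
    apply hg
    apply hφ
    intro c
    obtain ⟨X, hX⟩ := hsurj (c • (g.smulRight (Pi.single k 1 : Fin n → F)))
    have h1 := hY X.1 X.2
    have h2 : pair X.1 Y = ∑ j, ((Y *ᵥ (Pi.single j 1)) ᵥ* X.1) j := by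
      unfold pair
      rw [Finset.sum_comm]
      apply Finset.sum_congr rfl
      intro j _
      rw [Matrix.vecMul, dotProduct]
      apply Finset.sum_congr rfl
      intro i _
      rw [Matrix.mulVec_single_one, Matrix.col_apply, mul_comm]
    rw [h2] at h1
    have h3 : ∑ j, ((Y *ᵥ (Pi.single j 1)) ᵥ* X.1) j =
        c * g ⟨Y *ᵥ (Pi.single k 1), hmem⟩ := by
      rw [Finset.sum_eq_single k]
      · have h4 := hΦapp X ⟨Y *ᵥ (Pi.single k 1), hmem⟩
        rw [← h4, hX]
        simp
      · intro j _ hj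
        have hmemj : Y *ᵥ (Pi.single j 1) ∈ W := hW ⟨_, rfl⟩
        have h4 := hΦapp X ⟨Y *ᵥ (Pi.single j 1), hmemj⟩
        rw [← h4, hX]
        simp [hj]
      · simp
    rw [h3] at h1
    exact h1
  ext i k
  have := congrFun (key k) i
  rw [Matrix.mulVec_single_one, Matrix.col_apply] at this
  simpa using this

end Pool.Agent.V11180.Delsarte
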