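import Mathlib

/-!
# The field with four elements
-/

set_option autoImplicit false

namespace Pool.Agent.V11180

/-- the field with four elements `0, 1, ω, ω + 1` -/
inductive F4 | o | i | w | v
  deriving DecidableEq

namespace F4

instance : Fintype F4 := ⟨{o, i, w, v}, by intro x; cases x <;> decide⟩

def add : F4 → F4 → F4
  | o, x => x
  | x, o => x
  | i, i => o
  | w, w => o
  | v, v => o
  | i, w => v
  | w, i => v
  | i, v => w
  | v, i => w
  | w, v => i
  | v, w => i

def mul : F4 → F4 → F4
  | o, _ => o
  | _, o => o
  | i, x => x
  | x, i => x
  | w, w => v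
  | v, v => w
  | w, v => i
  | v, w => i

def inv : F4 → F4
  | o => o
  | i => i
  | w => v
  | v => w

instance : Add F4 := ⟨add⟩
instance : Mul F4 := ⟨mul⟩
instance : Zero F4 := ⟨o⟩
instance : One F4 := ⟨i⟩
instance : Neg F4 := ⟨id⟩
instance : Inv F4 := ⟨inv⟩

instance : Field F4 where
  add_assoc := by decide +kernel
  zero_add := by decide +kernel
  add_zero := by decide +kernel
  nsmul := nsmulRec
  add_comm := by decide +kernel
  left_distrib := by decide +kernel
  right_distrib := by decide +kernel
  zero_mul := by decide +kernel
  mul_zero := by decide +kernel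
  mul_assoc := by decide +kernel
  one_mul := by decide +kernel
  mul_one := by decide +kernel
  zsmul := zsmulRec
  neg_add_cancel := by decide +kernel
  mul_comm := by decide +kernel
  exists_pair_ne := ⟨o, i, by decide +kernel⟩
  mul_inv_cancel := by decide +kernel
  inv_zero := by decide +kernel
  nnqsmul := _
  nnqsmul_def := fun _ _ => rfl
  qsmul := _
  qsmul_def := fun _ _ => rfl

lemma card : Fintype.card F4 = 4 := by decide +kernel

/-- the absolute trace -/
def tr : F4 →+ ZMod 2 where
  toFun x := match x with
    | o => 0
    | i => 0
    | w => 1
    | v => 1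
  map_zero' := rfl
  map_add' := by decide +kernel

lemma tr_nondeg : ∀ y : F4, (∀ c, tr (c * y) = 0) → y = 0 := by decide +kernel

/-- the element with given coordinates -/
def e (a b : Bool) : F4 := match a, b with
  | false, false => o
  | true, false => i
  | false, true => w
  | true, true => v

lemma e_xor : ∀ a b c d : Bool, e (a ^^ c) (b ^^ d) = e a b + e c d := by decide +kernel

lemma add_self : ∀ x : F4, x + x = 0 := by decide +kernel

end F4

end Pool.Agent.V11180
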