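import Mathlib

/-!
# Relations `a + b = c + d` in finite sets of integers and the number of differences
-/

set_option autoImplicit false

open Finset Module
open scoped Pointwise

namespace Pool.Agent.V11180.DiffRel

/-- the vector of the relation `a + b = c + d` -/
noncomputable def rv (a b c d : ℤ) : ℤ →₀ ℚ :=
  Finsupp.single a 1 + Finsupp.single b 1 - Finsupp.single c 1 - Finsupp.single d 1

lemma rv_apply (a b c d t : ℤ) : rv a b c d t =
    (if a = t then 1 else 0) + (if b = t then 1 else 0) - (if c = t then 1 else 0) -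
      (if d = t then 1 else 0) := by
  simp [rv, Finsupp.single_apply]

/-- the relation vectors of `S` -/
def RS (S : Finset ℤ) : Set (ℤ →₀ ℚ) :=
  {w | ∃ a ∈ S, ∃ b ∈ S, ∃ c ∈ S, ∃ d ∈ S, a + b = c + d ∧ w = rv a b c d}

/-- the relation space of `S` -/
noncomputable def R (S : Finset ℤ) : Submodule ℚ (ℤ →₀ ℚ) := Submodule.span ℚ (RS S)

lemma RS_finite (S : Finset ℤ) : (RS S).Finite := by
  have h : RS S ⊆ ((S ×ˢ S ×ˢ S ×ˢ S).image (fun p => rv p.1 p.2.1 p.2.2.1 p.2.2.2) :
      Set (ℤ →₀ ℚ)) := by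
    rintro w ⟨a, ha, b, hb, c, hc, d, hd, -, rfl⟩
    rw [Finset.coe_image]
    exact ⟨(a, b, c, d), by simp [ha, hb, hc, hd], rfl⟩
  exact (Finset.finite_toSet _).subset h

instance (S : Finset ℤ) : FiniteDimensional ℚ (R S) :=
  FiniteDimensional.span_of_finite ℚ (RS_finite S)

/-- the rank of the relation space -/
noncomputable def rho (S : Finset ℤ) : ℕ := finrank ℚ (R S)

lemma rv_mem {S : Finset ℤ} {a b c d : ℤ} (ha : a ∈ S) (hb : b ∈ S) (hc : c ∈ S) (hd : d ∈ S)
    (h : a + b = c + d) : rv a b c d ∈ R S :=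
  Submodule.subset_span ⟨a, ha, b, hb, c, hc, d, hd, h, rfl⟩

lemma R_mono {S T : Finset ℤ} (h : S ⊆ T) : R S ≤ R T := by
  apply Submodule.span_mono
  rintro w ⟨a, ha, b, hb, c, hc, d, hd, h', rfl⟩
  exact ⟨a, h ha, b, h hb, c, h hc, d, h hd, h', rfl⟩

lemma rho_mono {S T : Finset ℤ} (h : S ⊆ T) : rho S ≤ rho T :=
  Submodule.finrank_mono (R_mono h)

lemma R_support {S : Finset ℤ} {w : ℤ →₀ ℚ} (hw : w ∈ R S) {t : ℤ} (ht : t ∉ S) : w t = 0 := by
  induction hw using Submodule.span_induction with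
  | mem x hx =>
    obtain ⟨a, ha, b, hb, c, hc, d, hd, -, rfl⟩ := hx
    rw [rv_apply, if_neg (by rintro rfl; exact ht ha), if_neg (by rintro rfl; exact ht hb),
      if_neg (by rintro rfl; exact ht hc), if_neg (by rintro rfl; exact ht hd)]
    norm_num
  | zero => rfl
  | add x y _ _ hx hy => rw [Finsupp.add_apply, hx, hy, add_zero]
  | smul r x _ hx => rw [Finsupp.smul_apply, hx, smul_zero]

/-- the positive differences -/
def Dp (S : Finset ℤ) : Finset ℤ := ((S ×ˢ S).image (fun p => p.1 - p.2)).filter (fun d => 0 < d)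

lemma mem_Dp {S : Finset ℤ} {d : ℤ} : d ∈ Dp S ↔ ∃ a ∈ S, ∃ b ∈ S, a - b = d ∧ 0 < d := by
  simp only [Dp, mem_filter, mem_image, mem_product, Prod.exists]
  constructor
  · rintro ⟨⟨a, b, ⟨ha, hb⟩, h⟩, hd⟩
    exact ⟨a, ha, b, hb, h, hd⟩
  · rintro ⟨a, ha, b, hb, h, hd⟩
    exact ⟨⟨a, b, ⟨ha, hb⟩, h⟩, hd⟩

/-- the partners of `x` in `T` -/
def Y (x : ℤ) (T : Finset ℤ) : Finset ℤ := T.filter (fun y => x - y ∈ Dp T)

/-- the pairs with sum in `x + T` -/
def G (x : ℤ) (T : Finset ℤ) : Finset (ℤ × ℤ) := (T ×ˢ T).filter (fun e => e.1 + e.2 - x ∈ T)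

/-- the vertices of a set of edges -/
def vert (E : Finset (ℤ × ℤ)) : Finset ℤ := E.image Prod.fst ∪ E.image Prod.snd

lemma mem_vert {E : Finset (ℤ × ℤ)} {t : ℤ} : t ∈ vert E ↔ ∃ e ∈ E, e.1 = t ∨ e.2 = t := by
  simp only [vert, mem_union, mem_image]
  constructor
  · rintro (⟨e, he, h⟩ | ⟨e, he, h⟩)
    · exact ⟨e, he, Or.inl h⟩
    · exact ⟨e, he, Or.inr h⟩
  · rintro ⟨e, he, h | h⟩
    · exact Or.inl ⟨e, he, h⟩
    · exact Or.inr ⟨e, he, h⟩

lemma mem_G {x : ℤ} {T : Finset ℤ} {e : ℤ × ℤ} :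
    e ∈ G x T ↔ e.1 ∈ T ∧ e.2 ∈ T ∧ e.1 + e.2 - x ∈ T := by
  simp [G, and_assoc]

lemma mem_Y {x : ℤ} {T : Finset ℤ} (hx : ∀ y ∈ T, y < x) {y : ℤ} :
    y ∈ Y x T ↔ y ∈ T ∧ ∃ u ∈ T, y + u - x ∈ T := by
  simp only [Y, mem_filter, mem_Dp]
  constructor
  · rintro ⟨hy, a, ha, b, hb, h, -⟩
    refine ⟨hy, a, ha, ?_⟩
    have : y + a - x = b := by omega
    rw [this]
    exact hb
  · rintro ⟨hy, u, hu, hv⟩
    refine ⟨hy, u, hu, _, hv, by ring, ?_⟩
    have := hx y hy
    omega

lemma vert_G {x : ℤ} {T : Finset ℤ} (hx : ∀ y ∈ T, y < x) : vert (G x T) = Y x T := by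
  ext t
  rw [mem_vert, mem_Y hx]
  constructor
  · rintro ⟨e, he, h | h⟩
    · rw [mem_G] at he
      rw [← h]
      exact ⟨he.1, e.2, he.2.1, he.2.2⟩
    · rw [mem_G] at he
      rw [← h]
      refine ⟨he.2.1, e.1, he.1, ?_⟩
      rw [add_comm e.2 e.1]
      exact he.2.2
  · rintro ⟨ht, u, hu, hv⟩
    exact ⟨(t, u), mem_G.2 ⟨ht, hu, hv⟩, Or.inl rfl⟩

lemma card_Dp_insert {x : ℤ} {T : Finset ℤ} (hx : ∀ y ∈ T, y < x) :
    (Dp (insert x T)).card + (Y x T).card = (Dp T).card + T.card := by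
  have h1 : Dp (insert x T) = Dp T ∪ T.image (fun y => x - y) := by
    ext d
    rw [mem_union, mem_Dp, mem_Dp, mem_image]
    constructor
    · rintro ⟨a, ha, b, hb, h, hd⟩
      rw [mem_insert] at ha hb
      rcases ha with rfl | ha
      · rcases hb with rfl | hb
        · omega
        · exact Or.inr ⟨b, hb, h⟩
      · rcases hb with rfl | hb
        · have := hx a ha
          omega
        · exact Or.inl ⟨a, ha, b, hb, h, hd⟩
    · rintro (⟨a, ha, b, hb, h, hd⟩ | ⟨y, hy, h⟩)
      · exact ⟨a, mem_insert_of_mem ha, b, mem_insert_of_mem hb, h, hd⟩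
      · have := hx y hy
        exact ⟨x, mem_insert_self _ _, y, mem_insert_of_mem hy, h, by omega⟩
  have hinj : Function.Injective (fun y : ℤ => x - y) := by
    intro a b h
    simp only at h
    omega
  have h2 : (Y x T).card = (Dp T ∩ T.image (fun y => x - y)).card := by
    rw [← card_image_of_injective (Y x T) hinj]
    congr 1
    ext d
    simp only [mem_image, mem_inter, Y, mem_filter]
    constructor
    · rintro ⟨y, ⟨hy, hd⟩, rfl⟩
      exact ⟨hd, y, hy, rfl⟩
    · rintro ⟨hd, y, hy, rfl⟩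
      exact ⟨y, ⟨hy, hd⟩, rfl⟩
  rw [h1, h2, card_union_add_card_inter, card_image_of_injective _ hinj]

/-- the relation vector of an edge -/
noncomputable def re (x : ℤ) (e : ℤ × ℤ) : ℤ →₀ ℚ := rv x (e.1 + e.2 - x) e.1 e.2

lemma re_mem {x : ℤ} {T : Finset ℤ} {e : ℤ × ℤ} (he : e ∈ G x T) : re x e ∈ R (insert x T) := by
  rw [mem_G] at he
  exact rv_mem (mem_insert_self _ _) (mem_insert_of_mem he.2.2) (mem_insert_of_mem he.1)
    (mem_insert_of_mem he.2.1) (by ring)

/-- a cover in which every edge has a private vertex -/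
def IsCover (x : ℤ) (T : Finset ℤ) (E : Finset (ℤ × ℤ)) : Prop :=
  E ⊆ G x T ∧ vert E = Y x T ∧ ∀ e ∈ E, ∃ l, (e.1 = l ∨ e.2 = l) ∧ l ∉ vert (E.erase e)

lemma exists_cover {x : ℤ} {T : Finset ℤ} (hx : ∀ y ∈ T, y < x) : ∃ E, IsCover x T E := by
  classical
  obtain ⟨E, hE, hmin⟩ := Finset.exists_min_image
    ((G x T).powerset.filter (fun E => vert E = Y x T)) Finset.card
    ⟨G x T, by rw [mem_filter, mem_powerset]; exact ⟨Subset.refl _, vert_G hx⟩⟩
  rw [mem_filter, mem_powerset] at hE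
  refine ⟨E, hE.1, hE.2, ?_⟩
  intro e he
  by_contra hcon
  push Not at hcon
  have h1 : vert (E.erase e) = Y x T := by
    rw [← hE.2]
    apply Subset.antisymm
    · intro t ht
      rw [mem_vert] at ht ⊢
      obtain ⟨f, hf, h⟩ := ht
      exact ⟨f, mem_of_mem_erase hf, h⟩
    · intro t ht
      rw [mem_vert] at ht
      obtain ⟨f, hf, h⟩ := ht
      by_cases hfe : f = e
      · subst hfe
        exact hcon t h
      · exact mem_vert.2 ⟨f, mem_erase.2 ⟨hfe, hf⟩, h⟩
  have h2 := hmin (E.erase e) (by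
    rw [mem_filter, mem_powerset]
    exact ⟨(erase_subset _ _).trans hE.1, h1⟩)
  rw [card_erase_of_mem he] at h2
  have := card_pos.2 ⟨e, he⟩
  omega

lemma cover_indep {x : ℤ} {T : Finset ℤ} (hx : ∀ y ∈ T, y < x) {E : Finset (ℤ × ℤ)}
    (hE : IsCover x T E) : LinearIndependent ℚ (fun e : E => re x e.1) := by
  classical
  obtain ⟨hEG, -, hleaf⟩ := hE
  choose! leaf hl1 hl2 using hleaf
  rw [linearIndependent_iff']
  intro s g hg i hi
  by_contra hne
  obtain ⟨e, he, hmax⟩ := Finset.exists_max_image (s.filter (fun e => g e ≠ 0))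
    (fun e => leaf e.1) ⟨i, mem_filter.2 ⟨hi, hne⟩⟩
  rw [mem_filter] at he
  have hlT : ∀ f : E, leaf f.1 < x := by
    intro f
    have h1 := mem_G.1 (hEG f.2)
    rcases hl1 f.1 f.2 with h | h
    · rw [← h]; exact hx _ h1.1
    · rw [← h]; exact hx _ h1.2.1
  have hval : ∀ f : E, f ∈ s → f ≠ e → g f * re x f.1 (leaf e.1) = 0 := by
    intro f hf hfe
    by_cases hgf : g f = 0
    · rw [hgf, zero_mul]
    · have hfm := hmax f (mem_filter.2 ⟨hf, hgf⟩)
      have hfE : f.1 ∈ E.erase e.1 := mem_erase.2 ⟨fun h => hfe (Subtype.ext h), f.2⟩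
      have h2 := hl2 e.1 e.2
      have hn1 : f.1.1 ≠ leaf e.1 := fun h => h2 (mem_vert.2 ⟨f.1, hfE, Or.inl h⟩)
      have hn2 : f.1.2 ≠ leaf e.1 := fun h => h2 (mem_vert.2 ⟨f.1, hfE, Or.inr h⟩)
      have hG := mem_G.1 (hEG f.2)
      have hx1 := hx _ hG.1
      have hx2 := hx _ hG.2.1
      have hn3 : f.1.1 + f.1.2 - x ≠ leaf e.1 := by
        rcases hl1 f.1 f.2 with h | h <;> omega
      have hn4 : x ≠ leaf e.1 := by have := hlT e; omega
      rw [re, rv_apply, if_neg hn4, if_neg hn3, if_neg hn1, if_neg hn2]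
      ring
  have hsum := DFunLike.congr_fun hg (leaf e.1)
  rw [Finsupp.finsetSum_apply, Finset.sum_eq_single e] at hsum
  · rw [Finsupp.smul_apply, smul_eq_mul, Finsupp.zero_apply] at hsum
    have hG := mem_G.1 (hEG e.2)
    have hx1 := hx _ hG.1
    have hx2 := hx _ hG.2.1
    have hre : re x e.1 (leaf e.1) ≠ 0 := by
      have hn4 : x ≠ leaf e.1 := by have := hlT e; omega
      have hn3 : e.1.1 + e.1.2 - x ≠ leaf e.1 := by
        rcases hl1 e.1 e.2 with h | h <;> omega
      rw [re, rv_apply, if_neg hn4, if_neg hn3]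
      rcases hl1 e.1 e.2 with h | h
      · rw [if_pos h]
        split_ifs <;> norm_num
      · rw [if_pos h]
        split_ifs <;> norm_num
    rcases mul_eq_zero.1 hsum with h | h
    · exact he.2 h
    · exact hre h
  · intro f hf hfe
    rw [Finsupp.smul_apply, smul_eq_mul]
    exact hval f hf hfe
  · intro h
    exact absurd he.1 h

lemma cover_card_le {x : ℤ} {T : Finset ℤ} (hx : ∀ y ∈ T, y < x) {E : Finset (ℤ × ℤ)}
    (hE : IsCover x T E) : E.card ≤ rho (insert x T) := by
  have h1 := cover_indep hx hE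
  have h2 : LinearIndependent ℚ (fun e : E => (⟨re x e.1, re_mem (hE.1 e.2)⟩ : R (insert x T))) := by
    apply LinearIndependent.of_comp (R (insert x T)).subtype
    exact h1
  have h3 := h2.fintype_card_le_finrank
  simpa [rho] using h3

lemma vert_card_le (E : Finset (ℤ × ℤ)) : (vert E).card ≤ 2 * E.card := by
  have h1 := card_union_le (E.image Prod.fst) (E.image Prod.snd)
  have h2 := card_image_le (s := E) (f := Prod.fst)
  have h3 := card_image_le (s := E) (f := Prod.snd)
  unfold vert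
  omega

lemma Y_card_le {x : ℤ} {T : Finset ℤ} (hx : ∀ y ∈ T, y < x) :
    (Y x T).card ≤ 2 * rho (insert x T) := by
  obtain ⟨E, hE⟩ := exists_cover hx
  have h1 := cover_card_le hx hE
  have h2 := vert_card_le E
  rw [hE.2.1] at h2
  omega

lemma rho_lt {x : ℤ} {T : Finset ℤ} (hx : ∀ y ∈ T, y < x) (hY : (Y x T).Nonempty) :
    rho T < rho (insert x T) := by
  obtain ⟨y, hy⟩ := hY
  rw [mem_Y hx] at hy
  obtain ⟨hy, u, hu, hv⟩ := hy
  apply Submodule.finrank_lt_finrank_of_lt
  refine lt_of_le_of_ne (R_mono (subset_insert _ _)) ?_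
  intro heq
  have h1 : re x (y, u) ∈ R T := by
    rw [heq]
    exact re_mem (mem_G.2 ⟨hy, hu, hv⟩)
  have hxT : x ∉ T := fun h => lt_irrefl _ (hx x h)
  have h2 := R_support h1 hxT
  have h3 := hx y hy
  have h4 := hx u hu
  have h5 := hx _ hv
  rw [re, rv_apply] at h2
  simp only at h2
  rw [if_neg (show ¬ (y + u - x = x) by omega), if_neg (show ¬ (y = x) by omega),
    if_neg (show ¬ (u = x) by omega)] at h2
  norm_num at h2

lemma R_insert_of_empty {x : ℤ} {T : Finset ℤ} (hx : ∀ y ∈ T, y < x) (hY : Y x T = ∅) :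
    R (insert x T) = R T := by
  apply le_antisymm _ (R_mono (subset_insert _ _))
  have hno : ∀ b ∈ T, ∀ c ∈ T, ∀ d ∈ T, x + b = c + d → False := by
    intro b hb c hc d hd h
    have : c ∈ Y x T := by
      rw [mem_Y hx]
      refine ⟨hc, d, hd, ?_⟩
      rw [show c + d - x = b by omega]
      exact hb
    rw [hY] at this
    exact absurd this (notMem_empty _)
  -- the case of a relation with `x` on the left as first element
  have key : ∀ b ∈ insert x T, ∀ c ∈ insert x T, ∀ d ∈ insert x T, x + b = c + d →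
      rv x b c d ∈ R T := by
    intro b hb c hc d hd h
    rw [mem_insert] at hb hc hd
    rcases hc with rfl | hc
    · have : b = d := by omega
      subst this
      have : rv c b c b = 0 := by simp [rv]
      rw [this]
      exact Submodule.zero_mem _
    · rcases hd with rfl | hd
      · have : b = c := by omega
        subst this
        have : rv d b b d = 0 := by simp [rv]
        rw [this]
        exact Submodule.zero_mem _
      · rcases hb with rfl | hb
        · have := hx c hc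
          have := hx d hd
          omega
        · exact absurd (hno b hb c hc d hd h) id
  have hcomm1 : ∀ a b c d, rv a b c d = rv b a c d := by
    intro a b c d
    simp only [rv]
    abel
  have hneg : ∀ a b c d, rv a b c d = - rv c d a b := by
    intro a b c d
    simp only [rv]
    abel
  apply Submodule.span_le.2
  rintro w ⟨a, ha, b, hb, c, hc, d, hd, h, rfl⟩
  by_cases h1 : a = x
  · subst h1
    exact key b hb c hc d hd h
  by_cases h2 : b = x
  · subst h2
    rw [hcomm1]
    exact key a ha c hc d hd (by omega)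
  by_cases h3 : c = x
  · subst h3
    rw [hneg]
    exact Submodule.neg_mem _ (key d hd a ha b hb (by omega))
  by_cases h4 : d = x
  · subst h4
    rw [hneg, hcomm1]
    exact Submodule.neg_mem _ (key c hc a ha b hb (by omega))
  exact rv_mem (mem_of_mem_insert_of_ne ha h1) (mem_of_mem_insert_of_ne hb h2)
    (mem_of_mem_insert_of_ne hc h3) (mem_of_mem_insert_of_ne hd h4) h

lemma choose_two_succ (n : ℕ) : (n + 1).choose 2 = n.choose 2 + n := by
  have := Nat.choose_succ_succ' n 1
  rw [Nat.choose_one_right] at this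
  norm_num at this
  omega

/-- the number of coincidences among the differences is at most `ρ (ρ + 1)` -/
theorem choose_le (S : Finset ℤ) : S.card.choose 2 ≤ (Dp S).card + rho S * (rho S + 1) := by
  induction S using Finset.induction_on_max with
  | empty => simp
  | insert x T hx ih =>
    have hxT : x ∉ T := fun h => lt_irrefl _ (hx x h)
    have h1 := card_Dp_insert hx
    have h2 := Y_card_le hx
    rw [card_insert_of_notMem hxT, choose_two_succ]
    rcases (Y x T).eq_empty_or_nonempty with hY | hY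
    · have h3 : rho (insert x T) = rho T := by rw [rho, rho, R_insert_of_empty hx hY]
      rw [h3]
      rw [hY, card_empty] at h1
      omega
    · have h3 := rho_lt hx hY
      have h4 : rho T * (rho T + 1) + 2 * rho (insert x T) ≤
          rho (insert x T) * (rho (insert x T) + 1) := by
        obtain ⟨m, hm⟩ : ∃ m, rho (insert x T) = rho T + 1 + m :=
          ⟨rho (insert x T) - rho T - 1, by omega⟩
        rw [hm]
        nlinarith [Nat.zero_le m, Nat.zero_le (rho T)]
      omega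

end Pool.Agent.V11180.DiffRel
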