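import Mathlib
import Pool.Agent.V11180.DiffRel

/-!
# Extremal configurations for the number of coincident differences
-/

set_option autoImplicit false

open Finset Module
open scoped Pointwise

namespace Pool.Agent.V11180.DiffRel

lemma exists_coeff {x : ℤ} {T : Finset ℤ} (hx : ∀ y ∈ T, y < x) {E : Finset (ℤ × ℤ)}
    (hE : IsCover x T E) (hcard : E.card = rho (insert x T)) {w : ℤ →₀ ℚ}
    (hw : w ∈ R (insert x T)) : ∃ α : ℤ × ℤ → ℚ, w = ∑ e ∈ E, α e • re x e := by
  classical
  have h1 := cover_indep hx hE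
  have h2 : Submodule.span ℚ (Set.range (fun e : E => re x e.1)) = R (insert x T) := by
    apply Submodule.eq_of_le_of_finrank_eq
    · rw [Submodule.span_le]
      rintro _ ⟨e, rfl⟩
      exact re_mem (hE.1 e.2)
    · rw [finrank_span_eq_card h1, Fintype.card_coe, hcard]
      rfl
  rw [← h2, Submodule.mem_span_range_iff_exists_fun] at hw
  obtain ⟨c, hc⟩ := hw
  refine ⟨fun e => if h : e ∈ E then c ⟨e, h⟩ else 0, ?_⟩
  rw [← hc, ← Finset.sum_coe_sort E]
  apply Finset.sum_congr rfl
  intro e _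
  simp

/-- the edges of a perfect matching -/
structure IsMatching (E : Finset (ℤ × ℤ)) : Prop where
  inj1 : ∀ e ∈ E, ∀ f ∈ E, e.1 = f.1 → e = f
  inj2 : ∀ e ∈ E, ∀ f ∈ E, e.2 = f.2 → e = f
  disj : ∀ e ∈ E, ∀ f ∈ E, e.1 ≠ f.2

lemma isMatching_of_card {E : Finset (ℤ × ℤ)} (h : (vert E).card = 2 * E.card) :
    IsMatching E := by
  classical
  have h1 := card_union_le (E.image Prod.fst) (E.image Prod.snd)
  have h2 := card_image_le (s := E) (f := Prod.fst)
  have h3 := card_image_le (s := E) (f := Prod.snd)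
  have h4 : (E.image Prod.fst ∪ E.image Prod.snd).card = 2 * E.card := h
  have h5 : (E.image Prod.fst).card = E.card := by omega
  have h6 : (E.image Prod.snd).card = E.card := by omega
  rw [card_image_iff] at h5 h6
  refine ⟨fun e he f hf hef => h5 he hf hef, fun e he f hf hef => h6 he hf hef, ?_⟩
  intro e he f hf hef
  have h7 := card_union_add_card_inter (E.image Prod.fst) (E.image Prod.snd)
  rw [← card_image_iff] at h5 h6
  have h8 : (E.image Prod.fst ∩ E.image Prod.snd).card = 0 := by omega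
  rw [card_eq_zero] at h8
  have h9 : e.1 ∈ E.image Prod.fst ∩ E.image Prod.snd := by
    rw [mem_inter, mem_image, mem_image]
    exact ⟨⟨e, he, rfl⟩, ⟨f, hf, hef.symm⟩⟩
  rw [h8] at h9
  exact absurd h9 (notMem_empty _)

/-- the value at a vertex of a combination of edge vectors -/
lemma eval_fst {x : ℤ} {T : Finset ℤ} (hx : ∀ y ∈ T, y < x) {E : Finset (ℤ × ℤ)}
    (hEG : E ⊆ G x T) (hM : IsMatching E) (α : ℤ × ℤ → ℚ) {e : ℤ × ℤ} (he : e ∈ E) :
    (∑ f ∈ E, α f • re x f) e.1 =
      - α e + ∑ f ∈ E, (if f.1 + f.2 - x = e.1 then α f else 0) := by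
  classical
  rw [Finsupp.finsetSum_apply]
  have hxe : x ≠ e.1 := by
    have := hx _ (mem_G.1 (hEG he)).1
    omega
  have h1 : ∀ f ∈ E, (α f • re x f) e.1 = (if f.1 + f.2 - x = e.1 then α f else 0) -
      (if f = e then α f else 0) := by
    intro f hf
    have q1 : ¬ f.2 = e.1 := fun h => hM.disj e he f hf h.symm
    rw [Finsupp.smul_apply, smul_eq_mul, re, rv_apply, if_neg hxe, if_neg q1]
    by_cases h : f = e
    · have q2 : f.1 = e.1 := by rw [h]
      rw [if_pos h, if_pos q2]
      split_ifs <;> ring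
    · have q2 : ¬ f.1 = e.1 := fun h' => h (hM.inj1 f hf e he h')
      rw [if_neg h, if_neg q2]
      split_ifs <;> ring
  rw [sum_congr rfl h1, sum_sub_distrib, sum_ite_eq' E e, if_pos he]
  ring

lemma eval_snd {x : ℤ} {T : Finset ℤ} (hx : ∀ y ∈ T, y < x) {E : Finset (ℤ × ℤ)}
    (hEG : E ⊆ G x T) (hM : IsMatching E) (α : ℤ × ℤ → ℚ) {e : ℤ × ℤ} (he : e ∈ E) :
    (∑ f ∈ E, α f • re x f) e.2 =
      - α e + ∑ f ∈ E, (if f.1 + f.2 - x = e.2 then α f else 0) := by
  classical
  rw [Finsupp.finsetSum_apply]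
  have hxe : x ≠ e.2 := by
    have := hx _ (mem_G.1 (hEG he)).2.1
    omega
  have h1 : ∀ f ∈ E, (α f • re x f) e.2 = (if f.1 + f.2 - x = e.2 then α f else 0) -
      (if f = e then α f else 0) := by
    intro f hf
    have q1 : ¬ f.1 = e.2 := fun h => hM.disj f hf e he h
    rw [Finsupp.smul_apply, smul_eq_mul, re, rv_apply, if_neg hxe, if_neg q1]
    by_cases h : f = e
    · have q2 : f.2 = e.2 := by rw [h]
      rw [if_pos h, if_pos q2]
      split_ifs <;> ring
    · have q2 : ¬ f.2 = e.2 := fun h' => h (hM.inj2 f hf e he h')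
      rw [if_neg h, if_neg q2]
      split_ifs <;> ring
  rw [sum_congr rfl h1, sum_sub_distrib, sum_ite_eq' E e, if_pos he]
  ring

lemma eval_top {x : ℤ} {T : Finset ℤ} (hx : ∀ y ∈ T, y < x) {E : Finset (ℤ × ℤ)}
    (hEG : E ⊆ G x T) (α : ℤ × ℤ → ℚ) :
    (∑ f ∈ E, α f • re x f) x = ∑ f ∈ E, α f := by
  rw [Finsupp.finsetSum_apply]
  apply sum_congr rfl
  intro f hf
  have hG := mem_G.1 (hEG hf)
  have h1 := hx _ hG.1
  have h2 := hx _ hG.2.1
  have h3 := hx _ hG.2.2
  rw [Finsupp.smul_apply, smul_eq_mul, re, rv_apply, if_pos rfl, if_neg (by omega),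
    if_neg (by omega), if_neg (by omega)]
  ring

/-- the coefficients are integers -/
lemma coeff_int {x : ℤ} {T : Finset ℤ} (hx : ∀ y ∈ T, y < x) {E : Finset (ℤ × ℤ)}
    (hEG : E ⊆ G x T) (hM : IsMatching E) (α : ℤ × ℤ → ℚ)
    (hint : ∀ t, ∃ m : ℤ, (∑ f ∈ E, α f • re x f) t = m) :
    ∀ e ∈ E, ∃ m : ℤ, α e = m := by
  classical
  by_contra hcon
  push Not at hcon
  obtain ⟨i, hi, hi'⟩ := hcon
  obtain ⟨e, he, hmax⟩ := Finset.exists_max_image (E.filter (fun e => ∀ m : ℤ, α e ≠ m))
    (fun e => e.1) ⟨i, mem_filter.2 ⟨hi, hi'⟩⟩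
  rw [mem_filter] at he
  have h1 := eval_fst hx hEG hM α he.1
  have h2 : ∀ f ∈ E, ∃ m : ℤ, (if f.1 + f.2 - x = e.1 then α f else 0) = (m : ℚ) := by
    intro f hf
    split_ifs with h
    · by_contra hne
      push Not at hne
      have h3 := hmax f (mem_filter.2 ⟨hf, hne⟩)
      have h4 := hx _ (mem_G.1 (hEG hf)).2.1
      omega
    · exact ⟨0, by simp⟩
  choose! g hg using h2
  rw [sum_congr rfl hg] at h1
  obtain ⟨m, hm⟩ := hint e.1
  apply he.2 (∑ f ∈ E, g f - m)
  push_cast
  rw [hm] at h1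
  linarith

lemma rv_lower (a b c d : ℤ) (P : Finset ℤ) : -2 ≤ ∑ t ∈ P, rv a b c d t := by
  have h1 : ∀ t ∈ P, -(if c = t then (1 : ℚ) else 0) - (if d = t then 1 else 0) ≤
      rv a b c d t := by
    intro t _
    rw [rv_apply]
    have h2 : (0 : ℚ) ≤ (if a = t then 1 else 0) := by split_ifs <;> norm_num
    have h3 : (0 : ℚ) ≤ (if b = t then 1 else 0) := by split_ifs <;> norm_num
    linarith
  have h2 := sum_le_sum h1
  rw [sum_sub_distrib, sum_neg_distrib, sum_ite_eq, sum_ite_eq] at h2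
  have h3 : (if c ∈ P then (1 : ℚ) else 0) ≤ 1 := by split_ifs <;> norm_num
  have h4 : (if d ∈ P then (1 : ℚ) else 0) ≤ 1 := by split_ifs <;> norm_num
  linarith

lemma sum_vert_le {E F : Finset (ℤ × ℤ)} (hM : IsMatching E) (hF : F ⊆ E) (g : ℤ → ℚ) :
    ∑ t ∈ vert F, g t = ∑ e ∈ F, (g e.1 + g e.2) := by
  classical
  rw [vert, sum_union, sum_image, sum_image, sum_add_distrib]
  · intro e he f hf h
    exact hM.inj2 e (hF he) f (hF hf) h
  · intro e he f hf h
    exact hM.inj1 e (hF he) f (hF hf) h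
  · rw [disjoint_left]
    intro t h1 h2
    rw [mem_image] at h1 h2
    obtain ⟨e, he, rfl⟩ := h1
    obtain ⟨f, hf, h⟩ := h2
    exact hM.disj e (hF he) f (hF hf) h.symm

/-- the mass argument -/
lemma mass {x : ℤ} {T : Finset ℤ} (hx : ∀ y ∈ T, y < x) {E : Finset (ℤ × ℤ)}
    (hEG : E ⊆ G x T) (hM : IsMatching E) (α : ℤ × ℤ → ℚ) {a b c d : ℤ}
    (hz : rv a b c d = ∑ f ∈ E, α f • re x f) (hxT : rv a b c d x = 0)
    (hac : a ≠ c) (had : a ≠ d) :
    ∃ f ∈ E, α f = 1 ∧ ∀ e ∈ E, e ≠ f → α e ≤ 0 := by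
  classical
  have hint : ∀ e ∈ E, ∃ m : ℤ, α e = m := by
    apply coeff_int hx hEG hM α
    intro t
    rw [← hz, rv_apply]
    exact ⟨(if a = t then 1 else 0) + (if b = t then 1 else 0) - (if c = t then 1 else 0) -
      (if d = t then 1 else 0), by push_cast; rfl⟩
  have hsum : ∑ f ∈ E, α f = 0 := by rw [← eval_top hx hEG α, ← hz, hxT]
  set F := E.filter (fun e => 0 < α e) with hF
  have hFE : F ⊆ E := filter_subset _ _
  have hne : F.Nonempty := by
    by_contra hcon
    rw [not_nonempty_iff_eq_empty] at hcon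
    have h1 : ∀ e ∈ E, α e ≤ 0 := by
      intro e he
      by_contra h
      have : e ∈ F := mem_filter.2 ⟨he, not_le.1 h⟩
      rw [hcon] at this
      exact absurd this (notMem_empty _)
    have h2 : ∀ e ∈ E, α e = 0 := (Finset.sum_eq_zero_iff_of_nonpos h1).1 hsum
    have h3 : rv a b c d = 0 := by
      rw [hz]
      apply sum_eq_zero
      intro e he
      rw [h2 e he, zero_smul]
    have h4 : rv a b c d a = 0 := by rw [h3]; rfl
    have q1 : ¬ c = a := fun h => hac h.symm
    have q2 : ¬ d = a := fun h => had h.symm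
    rw [rv_apply, if_pos rfl, if_neg q1, if_neg q2] at h4
    have h5 : (0 : ℚ) ≤ (if b = a then 1 else 0) := by split_ifs <;> norm_num
    linarith
  obtain ⟨f0, hf0, hmin⟩ := Finset.exists_min_image F (fun e => min e.1 e.2) hne
  have hf0E := hFE hf0
  have hpos : ∀ e ∈ F, 1 ≤ α e := by
    intro e he
    obtain ⟨m, hm⟩ := hint e (hFE he)
    have h1 := (mem_filter.1 he).2
    rw [hm] at h1 ⊢
    have h2 : (0 : ℤ) < m := by exact_mod_cast h1
    exact_mod_cast h2
  -- lower bound for the sum over the vertices of `F`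
  have hlow := rv_lower a b c d (vert F)
  rw [sum_vert_le hM hFE] at hlow
  -- upper bound
  have hup : ∑ e ∈ F, (rv a b c d e.1 + rv a b c d e.2) ≤
      ∑ e ∈ F, (-2 * α e) + ∑ f ∈ F.erase f0, α f := by
    have h1 : ∀ e ∈ F, rv a b c d e.1 + rv a b c d e.2 ≤ -2 * α e +
        ∑ f ∈ F.erase f0, ((if f.1 + f.2 - x = e.1 then α f else 0) +
          (if f.1 + f.2 - x = e.2 then α f else 0)) := by
      intro e he
      have h2 := eval_fst hx hEG hM α (hFE he)
      have h3 := eval_snd hx hEG hM α (hFE he)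
      rw [← hz] at h2 h3
      rw [h2, h3]
      have hle : ∀ t, (t = e.1 ∨ t = e.2) →
          ∑ f ∈ E, (if f.1 + f.2 - x = t then α f else 0) ≤
          ∑ f ∈ F.erase f0, (if f.1 + f.2 - x = t then α f else 0) := by
        intro t ht
        have hsub : F.erase f0 ⊆ E := (erase_subset _ _).trans hFE
        rw [← sum_sdiff hsub]
        have : ∑ f ∈ E \ F.erase f0, (if f.1 + f.2 - x = t then α f else 0) ≤ 0 := by
          apply sum_nonpos
          intro f hf
          rw [mem_sdiff, mem_erase, not_and_or, not_not] at hf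
          split_ifs with h
          · rcases hf.2 with hf2 | hf2
            · exfalso
              subst hf2
              have h4 := hmin e he
              have hG := mem_G.1 (hEG hf0E)
              have h5 := hx _ hG.1
              have h6 := hx _ hG.2.1
              rcases ht with rfl | rfl
              · have h7 := min_le_left e.1 e.2
                have h8 : f.1 + f.2 - x < min f.1 f.2 := lt_min (by omega) (by omega)
                omega
              · have h7 := min_le_right e.1 e.2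
                have h8 : f.1 + f.2 - x < min f.1 f.2 := lt_min (by omega) (by omega)
                omega
            · by_contra hgt
              exact hf2 (mem_filter.2 ⟨hf.1, not_le.1 hgt⟩)
          · exact le_rfl
        linarith
      rw [sum_add_distrib]
      have h4 := hle e.1 (Or.inl rfl)
      have h5 := hle e.2 (Or.inr rfl)
      linarith
    refine (sum_le_sum h1).trans ?_
    rw [sum_add_distrib]
    rw [sum_comm]
    have h3 : ∀ f ∈ F.erase f0, ∑ e ∈ F, ((if f.1 + f.2 - x = e.1 then α f else 0) +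
        (if f.1 + f.2 - x = e.2 then α f else 0)) ≤ α f := by
      intro f hf
      have hfp : 0 ≤ α f := (hpos f (mem_of_mem_erase hf)).trans' (by norm_num)
      have h4 : ∑ e ∈ F, ((if f.1 + f.2 - x = e.1 then α f else 0) +
          (if f.1 + f.2 - x = e.2 then α f else 0)) =
          ∑ t ∈ vert F, (if f.1 + f.2 - x = t then α f else 0) :=
        (sum_vert_le hM hFE (fun t => if f.1 + f.2 - x = t then α f else 0)).symm
      rw [h4, sum_ite_eq]
      split_ifs
      · exact le_rfl
      · exact hfp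
    have h5 := sum_le_sum h3
    linarith
  have hP : ∑ e ∈ F, α e = α f0 + ∑ f ∈ F.erase f0, α f := (add_sum_erase F α hf0).symm
  have h6 : ∑ e ∈ F, (-2 * α e) = -2 * ∑ e ∈ F, α e := by rw [mul_sum]
  have h7 := hpos f0 hf0
  have h8 : ((F.erase f0).card : ℚ) ≤ ∑ f ∈ F.erase f0, α f := by
    have := sum_le_sum (fun f (hf : f ∈ F.erase f0) => hpos f (mem_of_mem_erase hf))
    simpa using this
  have h9 : ∑ f ∈ F.erase f0, α f ≤ 0 := by
    rw [h6, hP] at hup
    linarith
  have h10 : (F.erase f0).card = 0 := by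
    have : ((F.erase f0).card : ℚ) ≤ 0 := h8.trans h9
    exact_mod_cast le_antisymm this (by positivity)
  have h11 : α f0 ≤ 1 := by
    rw [h6, hP] at hup
    have : (0 : ℚ) ≤ ∑ f ∈ F.erase f0, α f := h8.trans' (by positivity)
    linarith
  refine ⟨f0, hf0E, le_antisymm h11 h7, ?_⟩
  intro e he hne'
  by_contra hgt
  have : e ∈ F.erase f0 := mem_erase.2 ⟨hne', mem_filter.2 ⟨he, not_le.1 hgt⟩⟩
  rw [card_eq_zero] at h10
  rw [h10] at this
  exact absurd this (notMem_empty _)

/-- every nontrivial relation among the smaller elements comes from two edges with the same sum -/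
lemma matching_relation {x : ℤ} {T : Finset ℤ} (hx : ∀ y ∈ T, y < x) {E : Finset (ℤ × ℤ)}
    (hE : IsCover x T E) (hcard : E.card = rho (insert x T)) (hM : IsMatching E)
    {a b c d : ℤ} (ha : a ∈ T) (hb : b ∈ T) (hc : c ∈ T) (hd : d ∈ T) (h : a + b = c + d)
    (hac : a ≠ c) (had : a ≠ d) :
    ∃ e ∈ E, ∃ f ∈ E, e ≠ f ∧ e.1 + e.2 = f.1 + f.2 ∧ rv a b c d = re x f - re x e := by
  classical
  have hR : rv a b c d ∈ R (insert x T) := R_mono (subset_insert _ _) (rv_mem ha hb hc hd h)
  obtain ⟨α, hα⟩ := exists_coeff hx hE hcard hR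
  have hxT : x ∉ T := fun h => lt_irrefl _ (hx x h)
  have hxz : rv a b c d x = 0 := R_support (rv_mem ha hb hc hd h) hxT
  obtain ⟨f, hf, hf1, hf2⟩ := mass hx hE.1 hM α hα hxz hac had
  have hneg : rv c d a b = ∑ e ∈ E, (fun e => - α e) e • re x e := by
    simp only [neg_smul, sum_neg_distrib, ← hα]
    simp only [rv]
    abel
  have hxz' : rv c d a b x = 0 := R_support (rv_mem hc hd ha hb h.symm) hxT
  obtain ⟨e, he, he1, he2⟩ := mass hx hE.1 hM (fun e => - α e) hneg hxz' hac.symm
    (by omega)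
  have hef : e ≠ f := by
    rintro rfl
    linarith
  have hz : rv a b c d = re x f - re x e := by
    rw [hα, ← add_sum_erase E _ hf, ← add_sum_erase (E.erase f) _ (mem_erase.2 ⟨hef, he⟩)]
    have h0 : ∑ g ∈ (E.erase f).erase e, α g • re x g = 0 := by
      apply sum_eq_zero
      intro g hg
      rw [mem_erase, mem_erase] at hg
      have h1 := hf2 g hg.2.2 hg.2.1
      have h2 := he2 g hg.2.2 hg.1
      have h3 : α g = 0 := by linarith
      rw [h3, zero_smul]
    rw [h0, hf1, show α e = -1 by linarith]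
    simp [sub_eq_add_neg]
  refine ⟨e, he, f, hf, hef, ?_, hz⟩
  -- equality of the sums
  by_contra hne
  have hGe := mem_G.1 (hE.1 he)
  have hGf := mem_G.1 (hE.1 hf)
  have x1 := hx _ hGe.1
  have x2 := hx _ hGe.2.1
  have x3 := hx _ hGf.1
  have x4 := hx _ hGf.2.1
  have x5 := hx _ hGf.2.2
  have x6 := hx _ hGe.2.2
  have d1 := hM.disj e he f hf
  have d2 := hM.disj f hf e he
  have d3 : e.1 ≠ f.1 := fun h => hef (hM.inj1 e he f hf h)
  have d4 : e.2 ≠ f.2 := fun h => hef (hM.inj2 e he f hf h)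
  have d5 := hM.disj f hf f hf
  have d6 := hM.disj e he e he
  have hv1 : rv a b c d f.1 ≤ -1 - (if e.1 + e.2 - x = f.1 then 1 else 0) := by
    rw [hz, Finsupp.sub_apply, re, re, rv_apply, rv_apply, if_neg (by omega), if_neg (by omega),
      if_pos rfl, if_neg (show ¬ f.2 = f.1 by omega), if_neg (show ¬ e.1 = f.1 by omega),
      if_neg (show ¬ e.2 = f.1 by omega)]
    linarith
  have hv2 : rv a b c d f.2 ≤ -1 - (if e.1 + e.2 - x = f.2 then 1 else 0) := by
    rw [hz, Finsupp.sub_apply, re, re, rv_apply, rv_apply, if_neg (by omega), if_neg (by omega),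
      if_neg (show ¬ f.1 = f.2 by omega), if_pos rfl, if_neg (show ¬ e.1 = f.2 by omega),
      if_neg (show ¬ e.2 = f.2 by omega)]
    linarith
  by_cases c1 : e.1 + e.2 - x = f.1
  · rw [if_pos c1] at hv1
    have hlow := rv_lower a b c d {f.1, f.2}
    rw [sum_pair d5] at hlow
    have : (0 : ℚ) ≤ (if e.1 + e.2 - x = f.2 then 1 else 0) := by split_ifs <;> norm_num
    linarith
  by_cases c2 : e.1 + e.2 - x = f.2
  · rw [if_pos c2] at hv2
    have hlow := rv_lower a b c d {f.1, f.2}
    rw [sum_pair d5] at hlow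
    have : (0 : ℚ) ≤ (if e.1 + e.2 - x = f.1 then 1 else 0) := by split_ifs <;> norm_num
    linarith
  · rw [if_neg c1] at hv1
    rw [if_neg c2] at hv2
    have hv3 : rv a b c d (e.1 + e.2 - x) ≤ -1 := by
      rw [hz, Finsupp.sub_apply, re, re, rv_apply, rv_apply,
        if_neg (show ¬ x = e.1 + e.2 - x by omega),
        if_neg (show ¬ f.1 + f.2 - x = e.1 + e.2 - x by omega),
        if_neg (show ¬ f.1 = e.1 + e.2 - x by omega), if_neg (show ¬ f.2 = e.1 + e.2 - x by omega),
        if_pos rfl, if_neg (show ¬ e.1 = e.1 + e.2 - x by omega),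
        if_neg (show ¬ e.2 = e.1 + e.2 - x by omega)]
      norm_num
    have hlow := rv_lower a b c d {f.1, f.2, e.1 + e.2 - x}
    rw [sum_insert (by simp; omega), sum_pair (by omega)] at hlow
    linarith

end Pool.Agent.V11180.DiffRel
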