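import Mathlib
import Pool.Agent.V11180.DiffRel2

/-!
# A set of integers whose relation space has dimension at most three cannot have exactly
eleven coincidences among its differences
-/

set_option autoImplicit false

open Finset Module
open scoped Pointwise

namespace Pool.Agent.V11180.DiffRel

lemma exists_nontrivial {T : Finset ℤ} (h : rho T ≠ 0) :
    ∃ a ∈ T, ∃ b ∈ T, ∃ c ∈ T, ∃ d ∈ T, a + b = c + d ∧ a ≠ c ∧ a ≠ d := by
  by_contra hcon
  push Not at hcon
  apply h
  have h1 : R T = ⊥ := by
    rw [R, Submodule.span_eq_bot]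
    rintro w ⟨a, ha, b, hb, c, hc, d, hd, hs, rfl⟩
    by_cases hac : a = c
    · subst hac
      have : b = d := by omega
      subst this
      simp [rv]
    · have had := hcon a ha b hb c hc d hd hs hac
      subst had
      have : b = c := by omega
      subst this
      simp [rv]
  rw [rho, h1, finrank_bot]

/-- the octahedral configuration -/
def Octa (S : Finset ℤ) : Prop :=
  ∃ σ : ℤ, ∃ O : Finset ℤ, O ⊆ S ∧ O.card = 6 ∧ (∀ p ∈ O, σ - p ∈ O ∧ 2 * p ≠ σ) ∧
    ∀ w ∈ R S, (∀ p, w (σ - p) = w p) ∧ ∀ t, t ∉ O → w t = 0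

lemma re_symm (x : ℤ) (e : ℤ × ℤ) (p : ℤ) : re x e (e.1 + e.2 - p) = re x e p := by
  rw [re, rv_apply, rv_apply]
  have h1 : (x = e.1 + e.2 - p) ↔ (e.1 + e.2 - x = p) := by omega
  have h2 : (e.1 + e.2 - x = e.1 + e.2 - p) ↔ (x = p) := by omega
  have h3 : (e.1 = e.1 + e.2 - p) ↔ (e.2 = p) := by omega
  have h4 : (e.2 = e.1 + e.2 - p) ↔ (e.1 = p) := by omega
  rw [if_congr h1 rfl rfl, if_congr h2 rfl rfl, if_congr h3 rfl rfl, if_congr h4 rfl rfl]
  ring

lemma re_eq_zero {x : ℤ} {e : ℤ × ℤ} {t : ℤ} (h1 : t ≠ x) (h2 : t ≠ e.1 + e.2 - x)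
    (h3 : t ≠ e.1) (h4 : t ≠ e.2) : re x e t = 0 := by
  rw [re, rv_apply, if_neg h1.symm, if_neg h2.symm, if_neg h3.symm, if_neg h4.symm]
  norm_num

lemma octa_of_two (S : Finset ℤ) : rho S ≤ 2 → (Dp S).card + 6 = S.card.choose 2 → Octa S := by
  classical
  induction S using Finset.induction_on_max with
  | empty =>
    intro _ h
    simp at h
  | insert x T hx ih =>
    intro h2 hc
    have hxT : x ∉ T := fun h => lt_irrefl _ (hx x h)
    have h1 := card_Dp_insert hx
    rw [card_insert_of_notMem hxT, choose_two_succ] at hc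
    rcases (Y x T).eq_empty_or_nonempty with hY | hY
    · have hR := R_insert_of_empty hx hY
      have h3 : rho (insert x T) = rho T := by rw [rho, rho, hR]
      rw [hY, card_empty] at h1
      obtain ⟨σ, O, hOT, hO6, hOs, hOw⟩ := ih (by omega) (by omega)
      refine ⟨σ, O, hOT.trans (subset_insert _ _), hO6, hOs, ?_⟩
      rw [hR]
      exact hOw
    · have h3 := rho_lt hx hY
      have h4 := choose_le T
      have h5 := Y_card_le hx
      have h6 : rho T * (rho T + 1) ≤ 2 := by
        have : rho T ≤ 1 := by omega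
        interval_cases rho T <;> norm_num
      have h7 : rho T ≠ 0 := by
        intro h0
        rw [h0] at h4
        omega
      have h8 : rho (insert x T) = 2 := by omega
      obtain ⟨E, hE⟩ := exists_cover hx
      have h9 := cover_card_le hx hE
      have h10 := vert_card_le E
      rw [hE.2.1] at h10
      have h11 : E.card = 2 := by omega
      have hM : IsMatching E := isMatching_of_card (by rw [hE.2.1]; omega)
      obtain ⟨a, ha, b, hb, c, hc', d, hd, hs, hac, had⟩ := exists_nontrivial h7
      obtain ⟨e, he, f, hf, hef, hsum, -⟩ :=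
        matching_relation hx hE (by omega) hM ha hb hc' hd hs hac had
      have hEef : E = {e, f} := by
        symm
        apply eq_of_subset_of_card_le
        · intro g hg
          rw [mem_insert, mem_singleton] at hg
          rcases hg with rfl | rfl <;> assumption
        · rw [card_pair hef, h11]
      have hGe := mem_G.1 (hE.1 he)
      have hGf := mem_G.1 (hE.1 hf)
      have x1 := hx _ hGe.1
      have x2 := hx _ hGe.2.1
      have x3 := hx _ hGf.1
      have x4 := hx _ hGf.2.1
      have d1 := hM.disj e he f hf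
      have d2 := hM.disj f hf e he
      have d3 : e.1 ≠ f.1 := fun h => hef (hM.inj1 e he f hf h)
      have d4 : e.2 ≠ f.2 := fun h => hef (hM.inj2 e he f hf h)
      have d5 := hM.disj f hf f hf
      have d6 := hM.disj e he e he
      refine ⟨e.1 + e.2, {x, e.1 + e.2 - x, e.1, e.2, f.1, f.2}, ?_, ?_, ?_, ?_⟩
      · intro t ht
        simp only [mem_insert, mem_singleton] at ht
        rw [mem_insert]
        rcases ht with h | h | h | h | h | h
        · exact Or.inl h
        · exact Or.inr (h ▸ hGe.2.2)
        · exact Or.inr (h ▸ hGe.1)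
        · exact Or.inr (h ▸ hGe.2.1)
        · exact Or.inr (h ▸ hGf.1)
        · exact Or.inr (h ▸ hGf.2.1)
      · rw [card_insert_of_notMem, card_insert_of_notMem, card_insert_of_notMem,
          card_insert_of_notMem, card_insert_of_notMem, card_singleton] <;>
        simp only [mem_insert, mem_singleton, not_or] <;> omega
      · intro p hp
        simp only [mem_insert, mem_singleton] at hp ⊢
        omega
      · intro w hw
        obtain ⟨α, hα⟩ := exists_coeff hx hE (by omega) hw
        rw [hEef, sum_pair hef] at hα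
        constructor
        · intro p
          rw [hα, Finsupp.add_apply, Finsupp.add_apply, Finsupp.smul_apply, Finsupp.smul_apply,
            Finsupp.smul_apply, Finsupp.smul_apply, re_symm x e p, hsum, re_symm x f p]
        · intro t ht
          simp only [mem_insert, mem_singleton, not_or] at ht
          rw [hα, Finsupp.add_apply, Finsupp.smul_apply, Finsupp.smul_apply,
            re_eq_zero ht.1 ht.2.1 ht.2.2.1 ht.2.2.2.1,
            re_eq_zero ht.1 (by omega) ht.2.2.2.2.1 ht.2.2.2.2.2, smul_zero, smul_zero, add_zero]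

/-- relations of `insert x T` not involving `x` are relations of `T` when the rank grows by one -/
lemma mem_R_of_apply_zero {x : ℤ} {T : Finset ℤ} (hx : ∀ y ∈ T, y < x) (hY : (Y x T).Nonempty)
    (hr : rho (insert x T) ≤ rho T + 1) {w : ℤ →₀ ℚ} (hw : w ∈ R (insert x T))
    (h0 : w x = 0) : w ∈ R T := by
  have hxT : x ∉ T := fun h => lt_irrefl _ (hx x h)
  obtain ⟨y, hy⟩ := hY
  rw [mem_Y hx] at hy
  obtain ⟨hy, u, hu, hv⟩ := hy
  set K : Submodule ℚ (ℤ →₀ ℚ) := R (insert x T) ⊓ LinearMap.ker (Finsupp.lapply x) with hK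
  have h1 : R T ≤ K := by
    intro z hz
    refine ⟨R_mono (subset_insert _ _) hz, ?_⟩
    rw [SetLike.mem_coe, LinearMap.mem_ker, Finsupp.lapply_apply]
    exact R_support hz hxT
  have h2 : K < R (insert x T) := by
    refine lt_of_le_of_ne inf_le_left ?_
    intro heq
    have h3 : re x (y, u) ∈ K := by
      rw [heq]
      exact re_mem (mem_G.2 ⟨hy, hu, hv⟩)
    have h4 := h3.2
    rw [SetLike.mem_coe, LinearMap.mem_ker, Finsupp.lapply_apply] at h4
    have q1 := hx y hy
    have q2 := hx u hu
    have q3 := hx _ hv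
    rw [re, rv_apply] at h4
    simp only at h4
    rw [if_neg (show ¬ (y + u - x = x) by omega), if_neg (show ¬ (y = x) by omega),
      if_neg (show ¬ (u = x) by omega)] at h4
    norm_num at h4
  have hfd : FiniteDimensional ℚ K := Submodule.finiteDimensional_of_le inf_le_left
  have h5 : finrank ℚ K < finrank ℚ (R (insert x T)) := Submodule.finrank_lt_finrank_of_lt h2
  have h6 : R T = K := by
    apply Submodule.eq_of_le_of_finrank_le h1
    unfold rho at hr
    omega
  rw [h6]
  exact ⟨hw, by rw [SetLike.mem_coe, LinearMap.mem_ker, Finsupp.lapply_apply]; exact h0⟩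

lemma octa_edge {x σ : ℤ} {T O : Finset ℤ} (hx : ∀ y ∈ T, y < x)
    (hO2 : ∀ p ∈ O, σ - p ∈ O ∧ 2 * p ≠ σ) (hOw : ∀ w ∈ R T, (∀ p, w (σ - p) = w p) ∧
      ∀ t, t ∉ O → w t = 0) {e f : ℤ × ℤ} (he : e ∈ G x T) (hf : f ∈ G x T)
    (he12 : e.1 ≠ e.2) (h11 : e.1 ≠ f.1) (h12 : e.1 ≠ f.2) (h21 : e.2 ≠ f.1) (h22 : e.2 ≠ f.2)
    (hw : re x f - re x e ∈ R T) : e.1 + e.2 = σ := by
  have hGe := mem_G.1 he
  have hGf := mem_G.1 hf
  have x1 := hx _ hGe.1
  have x2 := hx _ hGe.2.1
  have x3 := hx _ hGf.1
  have x4 := hx _ hGf.2.1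
  obtain ⟨hs, hz⟩ := hOw _ hw
  have hv1 : 0 < (re x f - re x e) e.1 := by
    rw [Finsupp.sub_apply, re, re, rv_apply, rv_apply, if_neg (show ¬ x = e.1 by omega),
      if_neg h11.symm, if_neg h12.symm, if_neg (show ¬ e.1 + e.2 - x = e.1 by omega),
      if_pos rfl, if_neg he12.symm]
    have : (0 : ℚ) ≤ (if f.1 + f.2 - x = e.1 then 1 else 0) := by split_ifs <;> norm_num
    linarith
  have hv2 : 0 < (re x f - re x e) e.2 := by
    rw [Finsupp.sub_apply, re, re, rv_apply, rv_apply, if_neg (show ¬ x = e.2 by omega),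
      if_neg h21.symm, if_neg h22.symm, if_neg (show ¬ e.1 + e.2 - x = e.2 by omega),
      if_neg he12, if_pos rfl]
    have : (0 : ℚ) ≤ (if f.1 + f.2 - x = e.2 then 1 else 0) := by split_ifs <;> norm_num
    linarith
  have hpos : ∀ t, 0 < (re x f - re x e) t → t = e.1 ∨ t = e.2 ∨ t = f.1 + f.2 - x := by
    intro t ht
    by_contra hcon
    push Not at hcon
    obtain ⟨c1, c2, c3⟩ := hcon
    rw [Finsupp.sub_apply, re, re, rv_apply, rv_apply, if_neg c1.symm, if_neg c2.symm,
      if_neg c3.symm] at ht
    have b1 : (0 : ℚ) ≤ (if f.1 = t then 1 else 0) := by split_ifs <;> norm_num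
    have b2 : (0 : ℚ) ≤ (if f.2 = t then 1 else 0) := by split_ifs <;> norm_num
    have b3 : (0 : ℚ) ≤ (if e.1 + e.2 - x = t then 1 else 0) := by split_ifs <;> norm_num
    linarith
  have hO1 : e.1 ∈ O := by
    by_contra hcon
    have := hz _ hcon
    linarith
  have hO2' : e.2 ∈ O := by
    by_contra hcon
    have := hz _ hcon
    linarith
  have h1 := hpos (σ - e.1) (by rw [hs]; exact hv1)
  have h2 := hpos (σ - e.2) (by rw [hs]; exact hv2)
  have h3 := (hO2 _ hO1).2
  have h4 := (hO2 _ hO2').2
  omega

lemma four_distinct {a b c d : ℤ} (h : 4 ≤ ({a, b, c, d} : Finset ℤ).card) :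
    a ≠ b ∧ c ≠ d ∧ a ≠ c ∧ a ≠ d ∧ b ≠ c ∧ b ≠ d := by
  have key : ∀ p q r : ℤ, ({a, b, c, d} : Finset ℤ) ⊆ {p, q, r} → False := by
    intro p q r hsub
    have h1 := card_le_card hsub
    have h2 := Finset.card_le_three (a := p) (b := q) (c := r)
    omega
  refine ⟨?_, ?_, ?_, ?_, ?_, ?_⟩
  · rintro rfl
    exact key a c d (by intro t; simp only [mem_insert, mem_singleton]; tauto)
  · rintro rfl
    exact key a b c (by intro t; simp only [mem_insert, mem_singleton]; tauto)
  · rintro rfl
    exact key a b d (by intro t; simp only [mem_insert, mem_singleton]; tauto)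
  · rintro rfl
    exact key a b c (by intro t; simp only [mem_insert, mem_singleton]; tauto)
  · rintro rfl
    exact key a b d (by intro t; simp only [mem_insert, mem_singleton]; tauto)
  · rintro rfl
    exact key a b c (by intro t; simp only [mem_insert, mem_singleton]; tauto)

lemma disjoint_pair {E : Finset (ℤ × ℤ)} (h3 : E.card = 3) (h5 : (vert E).card = 5) :
    ∃ e ∈ E, ∃ f ∈ E, e.1 ≠ e.2 ∧ f.1 ≠ f.2 ∧ e.1 ≠ f.1 ∧ e.1 ≠ f.2 ∧ e.2 ≠ f.1 ∧ e.2 ≠ f.2 := by
  classical
  obtain ⟨e, f, g, hef, heg, hfg, rfl⟩ := card_eq_three.1 h3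
  set A : Finset ℤ := {e.1, e.2} with hA
  set B : Finset ℤ := {f.1, f.2} with hB
  set C : Finset ℤ := {g.1, g.2} with hC
  have hV : vert {e, f, g} = A ∪ B ∪ C := by
    ext t
    simp only [mem_vert, hA, hB, hC, mem_union, mem_insert, mem_singleton]
    constructor
    · rintro ⟨z, (rfl | rfl | rfl), (rfl | rfl)⟩ <;> simp
    · rintro ((h | h) | h) 
      · rcases h with rfl | rfl
        · exact ⟨e, by simp, Or.inl rfl⟩
        · exact ⟨e, by simp, Or.inr rfl⟩
      · rcases h with rfl | rfl
        · exact ⟨f, by simp, Or.inl rfl⟩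
        · exact ⟨f, by simp, Or.inr rfl⟩
      · rcases h with rfl | rfl
        · exact ⟨g, by simp, Or.inl rfl⟩
        · exact ⟨g, by simp, Or.inr rfl⟩
  rw [hV] at h5
  have a2 : A.card ≤ 2 := card_le_two
  have b2 : B.card ≤ 2 := card_le_two
  have c2 : C.card ≤ 2 := card_le_two
  by_cases k1 : 4 ≤ (A ∪ B).card
  · have : A ∪ B = {e.1, e.2, f.1, f.2} := by
      ext t
      simp only [hA, hB, mem_union, mem_insert, mem_singleton]
      tauto
    rw [this] at k1
    exact ⟨e, by simp, f, by simp, four_distinct k1⟩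
  by_cases k2 : 4 ≤ (A ∪ C).card
  · have : A ∪ C = {e.1, e.2, g.1, g.2} := by
      ext t
      simp only [hA, hC, mem_union, mem_insert, mem_singleton]
      tauto
    rw [this] at k2
    exact ⟨e, by simp, g, by simp, four_distinct k2⟩
  have k3 : 4 ≤ (B ∪ C).card := by
    have q1 := card_union_add_card_inter (A ∪ B) C
    have q2 := card_union_add_card_inter B C
    have q3 : (B ∩ C).card ≤ ((A ∪ B) ∩ C).card :=
      card_le_card (inter_subset_inter_right subset_union_right)
    have q4 := card_union_add_card_inter (A ∪ C) B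
    have q5 : A ∪ C ∪ B = A ∪ B ∪ C := by
      ext t
      simp only [mem_union]
      tauto
    rw [q5] at q4
    omega
  have : B ∪ C = {f.1, f.2, g.1, g.2} := by
    ext t
    simp only [hB, hC, mem_union, mem_insert, mem_singleton]
    tauto
  rw [this] at k3
  exact ⟨f, by simp, g, by simp, four_distinct k3⟩

lemma no_five {x : ℤ} {T : Finset ℤ} (hx : ∀ y ∈ T, y < x) (hO : Octa T)
    (h3 : rho (insert x T) = 3) (h2 : rho T = 2) (hY : (Y x T).card = 5) : False := by
  obtain ⟨σ, O, hOT, hO6, hO2, hOw⟩ := hO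
  obtain ⟨E, hE⟩ := exists_cover hx
  have h9 := cover_card_le hx hE
  have h10 := vert_card_le E
  rw [hE.2.1] at h10
  have h11 : E.card = 3 := by omega
  obtain ⟨e, he, f, hf, d1, d2, d3, d4, d5, d6⟩ :=
    disjoint_pair h11 (by rw [hE.2.1]; exact hY)
  have hYne : (Y x T).Nonempty := by rw [← card_pos]; omega
  have hGe := mem_G.1 (hE.1 he)
  have hGf := mem_G.1 (hE.1 hf)
  have x1 := hx _ hGe.1
  have x2 := hx _ hGe.2.1
  have x3 := hx _ hGf.1
  have x4 := hx _ hGf.2.1
  have hw : re x f - re x e ∈ R T := by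
    apply mem_R_of_apply_zero hx hYne (by omega)
    · exact Submodule.sub_mem _ (re_mem (hE.1 hf)) (re_mem (hE.1 he))
    · rw [Finsupp.sub_apply, re, re, rv_apply, rv_apply, if_pos rfl,
        if_neg (show ¬ f.1 + f.2 - x = x by omega), if_neg (show ¬ f.1 = x by omega),
        if_neg (show ¬ f.2 = x by omega), if_neg (show ¬ e.1 + e.2 - x = x by omega),
        if_neg (show ¬ e.1 = x by omega), if_neg (show ¬ e.2 = x by omega)]
      norm_num
  have hσ := octa_edge hx hO2 hOw (hE.1 he) (hE.1 hf) d1 d3 d4 d5 d6 hw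
  have hsub : O ⊆ Y x T := by
    intro z hz
    rw [mem_Y hx]
    refine ⟨hOT hz, σ - z, hOT (hO2 z hz).1, ?_⟩
    have : z + (σ - z) - x = e.1 + e.2 - x := by omega
    rw [this]
    exact hGe.2.2
  have := card_le_card hsub
  omega

lemma card_Dp_insert_le (z : ℤ) (T : Finset ℤ) :
    (Dp (insert z T)).card ≤ (Dp T).card + T.card := by
  have h1 : Dp (insert z T) ⊆ Dp T ∪ T.image (fun y => |z - y|) := by
    intro d
    rw [mem_union, mem_Dp, mem_Dp, mem_image]
    rintro ⟨a, ha, b, hb, h, hd⟩
    rw [mem_insert] at ha hb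
    rcases ha with rfl | ha
    · rcases hb with rfl | hb
      · omega
      · exact Or.inr ⟨b, hb, by rw [h, abs_of_pos hd]⟩
    · rcases hb with rfl | hb
      · exact Or.inr ⟨a, ha, by rw [abs_sub_comm, h, abs_of_pos hd]⟩
      · exact Or.inl ⟨a, ha, b, hb, h, hd⟩
  exact (card_le_card h1).trans ((card_union_le _ _).trans (by
    have := card_image_le (s := T) (f := fun y => |z - y|)
    omega))

lemma coincidence_mono {O T : Finset ℤ} (h : O ⊆ T) :
    (Dp T).card + O.card.choose 2 ≤ (Dp O).card + T.card.choose 2 := by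
  classical
  have key : ∀ F : Finset ℤ, Disjoint O F →
      (Dp (O ∪ F)).card + O.card.choose 2 ≤ (Dp O).card + (O ∪ F).card.choose 2 := by
    intro F
    induction F using Finset.induction_on with
    | empty =>
      intro _
      rw [union_empty]
    | insert z F hz ih =>
      intro hd
      rw [disjoint_insert_right] at hd
      have h1 := ih hd.2
      rw [union_insert]
      have h2 : z ∉ O ∪ F := by
        rw [mem_union, not_or]
        exact ⟨hd.1, hz⟩
      have h3 := card_Dp_insert_le z (O ∪ F)
      rw [card_insert_of_notMem h2, choose_two_succ]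
      omega
  have := key (T \ O) disjoint_sdiff
  rwa [union_sdiff_of_subset h] at this

lemma Dp_six_le (a b c σ : ℤ) :
    (Dp {a, σ - a, b, σ - b, c, σ - c}).card ≤ 9 := by
  have h1 : Dp {a, σ - a, b, σ - b, c, σ - c} ⊆
      [|a - b|, |a - c|, |b - c|, |σ - 2 * a|, |σ - 2 * b|, |σ - 2 * c|, |σ - a - b|,
        |σ - a - c|, |σ - b - c|].toFinset := by
    intro d hd
    rw [mem_Dp] at hd
    obtain ⟨p, hp, q, hq, h, h0⟩ := hd
    have hd' : d = |p - q| := by rw [h, abs_of_pos h0]
    have hne : p ≠ q := by omega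
    subst hd'
    clear h h0
    simp only [List.toFinset_cons, List.toFinset_nil, mem_insert]
    simp only [mem_insert, mem_singleton] at hp hq
    have k : ∀ u v : ℤ, u = v ∨ u = -v → |u| = |v| := by
      rintro u v (rfl | rfl)
      · rfl
      · rw [abs_neg]
    rcases hp with rfl | rfl | rfl | rfl | rfl | rfl
    all_goals rcases hq with rfl | rfl | rfl | rfl | rfl | rfl
    all_goals first
      | exact absurd rfl hne
      | exact Or.inl (k _ _ (by omega))
      | exact Or.inr (Or.inl (k _ _ (by omega)))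
      | exact Or.inr (Or.inr (Or.inl (k _ _ (by omega))))
      | exact Or.inr (Or.inr (Or.inr (Or.inl (k _ _ (by omega)))))
      | exact Or.inr (Or.inr (Or.inr (Or.inr (Or.inl (k _ _ (by omega))))))
      | exact Or.inr (Or.inr (Or.inr (Or.inr (Or.inr (Or.inl (k _ _ (by omega)))))))
      | exact Or.inr (Or.inr (Or.inr (Or.inr (Or.inr (Or.inr (Or.inl (k _ _ (by omega))))))))
      | exact Or.inr (Or.inr (Or.inr (Or.inr (Or.inr (Or.inr (Or.inr (Or.inl
          (k _ _ (by omega)))))))))
      | exact Or.inr (Or.inr (Or.inr (Or.inr (Or.inr (Or.inr (Or.inr (Or.inr (Or.inl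
          (k _ _ (by omega))))))))))
  exact (card_le_card h1).trans (List.toFinset_card_le _)

lemma no_six {x : ℤ} {T : Finset ℤ} (hx : ∀ y ∈ T, y < x)
    (h3 : rho (insert x T) = 3) (h2 : rho T = 2) (hY : (Y x T).card = 6)
    (hc : (Dp T).card + 5 = T.card.choose 2) : False := by
  classical
  obtain ⟨E, hE⟩ := exists_cover hx
  have h9 := cover_card_le hx hE
  have h10 := vert_card_le E
  rw [hE.2.1] at h10
  have h11 : E.card = 3 := by omega
  have hM : IsMatching E := isMatching_of_card (by rw [hE.2.1]; omega)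
  obtain ⟨a, ha, b, hb, c, hc', d, hd, hs, hac, had⟩ := exists_nontrivial (T := T) (by omega)
  obtain ⟨e, he, f, hf, hef, hsum, -⟩ :=
    matching_relation hx hE (by omega) hM ha hb hc' hd hs hac had
  have hg1 : ((E.erase e).erase f).card = 1 := by
    rw [card_erase_of_mem (mem_erase.2 ⟨hef.symm, hf⟩), card_erase_of_mem he, h11]
  obtain ⟨g, hg⟩ := card_eq_one.1 hg1
  have hgE : g ∈ (E.erase e).erase f := by rw [hg]; exact mem_singleton_self _
  rw [mem_erase, mem_erase] at hgE
  obtain ⟨hgf, hge, hgE⟩ := hgE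
  have hEall : ∀ z ∈ E, z = e ∨ z = f ∨ z = g := by
    intro z hz
    by_contra hcon
    push Not at hcon
    have : z ∈ (E.erase e).erase f := mem_erase.2 ⟨hcon.2.1, mem_erase.2 ⟨hcon.1, hz⟩⟩
    rw [hg, mem_singleton] at this
    exact hcon.2.2 this
  have hGe := mem_G.1 (hE.1 he)
  have hGf := mem_G.1 (hE.1 hf)
  have hGg := mem_G.1 (hE.1 hgE)
  by_cases hsg : g.1 + g.2 = e.1 + e.2
  · have d1 := hM.disj e he f hf
    have d2 := hM.disj f hf e he
    have d3 : e.1 ≠ f.1 := fun h => hef (hM.inj1 e he f hf h)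
    have d4 : e.2 ≠ f.2 := fun h => hef (hM.inj2 e he f hf h)
    have d5 := hM.disj f hf f hf
    have d6 := hM.disj e he e he
    have d7 := hM.disj g hgE g hgE
    have d8 := hM.disj e he g hgE
    have d9 := hM.disj f hf g hgE
    have d10 := hM.disj g hgE e he
    have d11 := hM.disj g hgE f hf
    have d12 : g.1 ≠ e.1 := fun h => hge (hM.inj1 g hgE e he h)
    have d13 : g.1 ≠ f.1 := fun h => hgf (hM.inj1 g hgE f hf h)
    have d14 : g.2 ≠ e.2 := fun h => hge (hM.inj2 g hgE e he h)
    have d15 : g.2 ≠ f.2 := fun h => hgf (hM.inj2 g hgE f hf h)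
    have h12 := Dp_six_le e.1 f.1 g.1 (e.1 + e.2)
    have q1 : e.1 + e.2 - e.1 = e.2 := by ring
    have q2 : e.1 + e.2 - f.1 = f.2 := by omega
    have q3 : e.1 + e.2 - g.1 = g.2 := by omega
    rw [q1, q2, q3] at h12
    have hcard : ({e.1, e.2, f.1, f.2, g.1, g.2} : Finset ℤ).card = 6 := by
      rw [card_insert_of_notMem, card_insert_of_notMem, card_insert_of_notMem,
          card_insert_of_notMem, card_insert_of_notMem, card_singleton] <;>
        simp only [mem_insert, mem_singleton, not_or] <;> omega
    have hsub : ({e.1, e.2, f.1, f.2, g.1, g.2} : Finset ℤ) ⊆ T := by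
      intro t ht
      simp only [mem_insert, mem_singleton] at ht
      rcases ht with h | h | h | h | h | h
      · exact h ▸ hGe.1
      · exact h ▸ hGe.2.1
      · exact h ▸ hGf.1
      · exact h ▸ hGf.2.1
      · exact h ▸ hGg.1
      · exact h ▸ hGg.2.1
    have h13 := coincidence_mono hsub
    rw [hcard] at h13
    have : Nat.choose 6 2 = 15 := by decide
    omega
  · have hle : R T ≤ Submodule.span ℚ {re x f - re x e} := by
      rw [R, Submodule.span_le]
      rintro w ⟨a, ha, b, hb, c, hc, d, hd, hs, rfl⟩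
      by_cases hac : a = c
      · subst hac
        have : b = d := by omega
        subst this
        have : rv a b a b = 0 := by simp [rv]
        rw [this]
        exact Submodule.zero_mem _
      by_cases had : a = d
      · subst had
        have : b = c := by omega
        subst this
        have : rv a b b a = 0 := by simp [rv]
        rw [this]
        exact Submodule.zero_mem _
      obtain ⟨e', he', f', hf', hef', hsum', hz⟩ :=
        matching_relation hx hE (by omega) hM ha hb hc hd hs hac had
      rw [hz]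
      have hmem : re x f - re x e ∈ Submodule.span ℚ {re x f - re x e} :=
        Submodule.mem_span_singleton_self _
      rcases hEall e' he' with rfl | rfl | rfl
      · rcases hEall f' hf' with rfl | rfl | rfl
        · exact absurd rfl hef'
        · exact hmem
        · exact absurd hsum'.symm hsg
      · rcases hEall f' hf' with rfl | rfl | rfl
        · have hneg := Submodule.neg_mem _ hmem
          rw [neg_sub] at hneg
          exact hneg
        · exact absurd rfl hef'
        · exact absurd (hsum'.symm.trans hsum.symm) hsg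
      · rcases hEall f' hf' with rfl | rfl | rfl
        · exact absurd hsum' hsg
        · exact absurd (hsum'.trans hsum.symm) hsg
        · exact absurd rfl hef'
    have h12 := Submodule.finrank_mono hle
    have h13 := finrank_span_le_card (R := ℚ) ({re x f - re x e} : Set (ℤ →₀ ℚ))
    rw [Set.toFinset_singleton, card_singleton] at h13
    unfold rho at h2
    omega

/-- eleven coincidences need a relation space of dimension at least four -/
theorem not_eleven (S : Finset ℤ) : rho S ≤ 3 → (Dp S).card + 11 ≠ S.card.choose 2 := by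
  induction S using Finset.induction_on_max with
  | empty =>
    intro _ h
    simp at h
  | insert x T hx ih =>
    intro h3 hc
    have hxT : x ∉ T := fun h => lt_irrefl _ (hx x h)
    have h1 := card_Dp_insert hx
    rw [card_insert_of_notMem hxT, choose_two_succ] at hc
    rcases (Y x T).eq_empty_or_nonempty with hY | hY
    · have hR := R_insert_of_empty hx hY
      have h3' : rho (insert x T) = rho T := by rw [rho, rho, hR]
      rw [hY, card_empty] at h1
      exact ih (by omega) (by omega)
    · have h4 := rho_lt hx hY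
      have h5 := choose_le T
      have h6 := Y_card_le hx
      have h7 : rho T ≤ 2 := by omega
      have h8 : rho T = 2 := by
        by_contra hne
        have h9 : rho T ≤ 1 := by omega
        have h10 : rho T * (rho T + 1) ≤ 2 := by
          interval_cases rho T <;> norm_num
        omega
      have h9 : rho (insert x T) = 3 := by omega
      rw [h8] at h5
      have h10 : (Y x T).card = 5 ∨ (Y x T).card = 6 := by omega
      rcases h10 with h10 | h10
      · exact no_five hx (octa_of_two T h7 (by omega)) h9 h8 h10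
      · exact no_six hx h9 h8 h10 (by omega)

end Pool.Agent.V11180.DiffRel
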