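import Mathlib
import Pool.Agent.V11180.DiffRel3

/-!
# Rank and size of the sets with a given number of differences
-/

set_option autoImplicit false

open Finset Module
open scoped Pointwise

namespace Pool.Agent.V11180.DiffRel

lemma Dp_mono {S T : Finset ℤ} (h : S ⊆ T) : Dp S ⊆ Dp T := by
  intro d
  rw [mem_Dp, mem_Dp]
  rintro ⟨a, ha, b, hb, h'⟩
  exact ⟨a, h ha, b, h hb, h'⟩

lemma card_Dp_le_choose (S : Finset ℤ) : (Dp S).card ≤ S.card.choose 2 := by
  have h1 := coincidence_mono (empty_subset S)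
  have h2 : (Dp ∅).card = 0 := by
    rw [card_eq_zero, eq_empty_iff_forall_notMem]
    intro d hd
    rw [mem_Dp] at hd
    obtain ⟨a, ha, -⟩ := hd
    exact absurd ha (notMem_empty _)
  rw [h2, card_empty] at h1
  simpa using h1

lemma card_le_Dp (S : Finset ℤ) : S.card ≤ (Dp S).card + 1 := by
  classical
  rcases S.eq_empty_or_nonempty with rfl | hS
  · simp
  · have h1 : (S.erase (S.max' hS)).image (fun y => S.max' hS - y) ⊆ Dp S := by
      intro d
      rw [mem_image, mem_Dp]
      rintro ⟨y, hy, rfl⟩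
      rw [mem_erase] at hy
      refine ⟨_, S.max'_mem hS, y, hy.2, rfl, ?_⟩
      have := S.le_max' y hy.2
      have := hy.1
      omega
    have h2 := card_le_card h1
    rw [card_image_of_injective _ (fun a b h => by simpa using h),
      card_erase_of_mem (S.max'_mem hS)] at h2
    omega

lemma exists_erase {S : Finset ℤ} (h : rho S ≠ 0) : ∃ p ∈ S, rho (S.erase p) < rho S := by
  have h1 : R S ≠ ⊥ := by
    intro h0
    apply h
    rw [rho, h0, finrank_bot]
  obtain ⟨w, hw, hw0⟩ := Submodule.exists_mem_ne_zero_of_ne_bot h1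
  obtain ⟨p, hp⟩ := Finsupp.ne_iff.1 hw0
  rw [Finsupp.zero_apply] at hp
  have hpS : p ∈ S := by
    by_contra hcon
    exact hp (R_support hw hcon)
  refine ⟨p, hpS, ?_⟩
  apply Submodule.finrank_lt_finrank_of_lt
  refine lt_of_le_of_ne (R_mono (erase_subset _ _)) ?_
  intro heq
  rw [← heq] at hw
  exact hp (R_support hw (notMem_erase _ _))

lemma exists_sub {k j : ℕ} (hj : j ≤ k) : ∀ (n : ℕ) (S : Finset ℤ), S.card = k + n →
    rho S + j ≤ S.card → ∃ T ⊆ S, T.card = k ∧ rho T + j ≤ k := by
  intro n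
  induction n with
  | zero =>
    intro S hS h
    exact ⟨S, Subset.refl _, by omega, by omega⟩
  | succ n ih =>
    intro S hS h
    by_cases h0 : rho S = 0
    · have hne : S.Nonempty := by rw [← card_pos]; omega
      obtain ⟨p, hp⟩ := hne
      have h1 := card_erase_of_mem hp
      have h2 := rho_mono (erase_subset p S)
      obtain ⟨T, hT, hT1, hT2⟩ := ih (S.erase p) (by omega) (by omega)
      exact ⟨T, hT.trans (erase_subset _ _), hT1, hT2⟩
    · obtain ⟨p, hp, hlt⟩ := exists_erase h0
      have h1 := card_erase_of_mem hp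
      obtain ⟨T, hT, hT1, hT2⟩ := ih (S.erase p) (by omega) (by omega)
      exact ⟨T, hT.trans (erase_subset _ _), hT1, hT2⟩

theorem key_a {S : Finset ℤ} (h : (Dp S).card = 80) : S.card ≤ rho S + 10 := by
  by_contra hcon
  push Not at hcon
  have h1 := card_Dp_le_choose S
  have h2 : 14 ≤ S.card := by
    by_contra h3
    have h4 : S.card ≤ 13 := by omega
    have h5 := Nat.choose_le_choose 2 h4
    have h6 : Nat.choose 13 2 = 78 := by decide
    omega
  rcases Nat.eq_or_lt_of_le h2 with h3 | h3
  · have h4 := not_eleven S (by omega)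
    rw [← h3, h] at h4
    exact h4 (by decide)
  · obtain ⟨T, hT, hT1, hT2⟩ := exists_sub (k := 15) (j := 11) (by norm_num) (S.card - 15) S
      (by omega) (by omega)
    have h4 := choose_le T
    have h5 := card_le_card (Dp_mono hT)
    have h6 : rho T ≤ 4 := by omega
    have h7 : rho T * (rho T + 1) ≤ 4 * (4 + 1) := Nat.mul_le_mul h6 (by omega)
    rw [hT1] at h4
    have h8 : Nat.choose 15 2 = 105 := by decide
    omega

theorem key_b {S : Finset ℤ} {s : ℕ} (hs : 20 ≤ s) (h : (Dp S).card + 11 = s.choose 2) :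
    (S.card = s ∧ 4 ≤ rho S) ∨ (s < S.card ∧ S.card + 5 ≤ rho S + s) := by
  have h1 := card_Dp_le_choose S
  rcases lt_trichotomy S.card s with h2 | h2 | h2
  · exfalso
    obtain ⟨m, rfl⟩ : ∃ m, s = m + 1 := ⟨s - 1, by omega⟩
    have h3 : S.card ≤ m := by omega
    have h4 := Nat.choose_le_choose 2 h3
    rw [choose_two_succ] at h
    omega
  · left
    refine ⟨h2, ?_⟩
    by_contra hcon
    exact not_eleven S (by omega) (by rw [h2]; exact h)
  · right
    refine ⟨h2, ?_⟩
    by_contra hcon
    push Not at hcon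
    obtain ⟨T, hT, hT1, hT2⟩ := exists_sub (k := s + 1) (j := s - 4) (by omega)
      (S.card - (s + 1)) S (by omega) (by omega)
    have h4 := choose_le T
    have h5 := card_le_card (Dp_mono hT)
    have h6 : rho T ≤ 5 := by omega
    have h7 : rho T * (rho T + 1) ≤ 5 * (5 + 1) := Nat.mul_le_mul h6 (by omega)
    rw [hT1, choose_two_succ] at h4
    omega

/-! ### Integer points of subspaces -/

/-- the number of integer points with coordinates in `[0, n)` of a subspace of dimension `d` is
at most `n ^ d` -/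
theorem card_points {ι : Type} [Fintype ι] [DecidableEq ι] (V : Submodule ℚ (ι → ℚ)) {n : ℕ}
    (hn : 1 ≤ n) (P : Finset (ι → ℤ)) (hP : ∀ f ∈ P, (∀ i, f i ∈ Ico (0 : ℤ) n) ∧
      (fun i => (f i : ℚ)) ∈ V) : P.card ≤ n ^ finrank ℚ V := by
  classical
  set v : ι → Module.Dual ℚ V := fun i => (LinearMap.proj i).comp V.subtype with hv
  obtain ⟨κ, a, hainj, hspan, hlin⟩ := exists_linearIndependent' ℚ v
  have hfin : Finite κ := Finite.of_injective a hainj
  have : Fintype κ := Fintype.ofFinite κ
  have h1 : Fintype.card κ ≤ finrank ℚ V := by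
    have := hlin.fintype_card_le_finrank
    rwa [Subspace.dual_finrank_eq] at this
  have h2 : P.card ≤ (Fintype.piFinset (fun _ : κ => Ico (0 : ℤ) n)).card := by
    apply card_le_card_of_injOn (fun f => f ∘ a)
    · intro f hf
      rw [mem_coe, Fintype.mem_piFinset]
      intro k
      exact (hP f hf).1 (a k)
    · intro f hf g hg hfg
      simp only at hfg
      set z : V := ⟨fun i => (f i : ℚ), (hP f hf).2⟩ - ⟨fun i => (g i : ℚ), (hP g hg).2⟩ with hz
      have h3 : ∀ φ ∈ Submodule.span ℚ (Set.range (v ∘ a)), φ z = 0 := by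
        intro φ hφ
        induction hφ using Submodule.span_induction with
        | mem x hx =>
          obtain ⟨k, rfl⟩ := hx
          have := congrFun hfg k
          simp only [Function.comp] at this
          simp [hv, hz, this]
        | zero => rfl
        | add x y _ _ hx hy => rw [LinearMap.add_apply, hx, hy, add_zero]
        | smul r x _ hx => rw [LinearMap.smul_apply, hx, smul_zero]
      funext i
      have h4 := h3 (v i) (by
        rw [hspan]
        exact Submodule.subset_span ⟨i, rfl⟩)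
      simp only [hv, hz, LinearMap.comp_apply, Submodule.subtype_apply, LinearMap.proj_apply,
        AddSubgroupClass.coe_sub, Pi.sub_apply] at h4
      have h5 : (f i : ℚ) = g i := by linarith
      exact_mod_cast h5
  rw [Fintype.card_piFinset] at h2
  simp only [Int.card_Ico, sub_zero, Int.toNat_natCast, prod_const, card_univ] at h2
  exact h2.trans (Nat.pow_le_pow_right hn h1)

/-- pairing a vector with functions of the index -/
noncomputable def L {s : ℕ} (f : Fin s → ℤ) : (ℤ →₀ ℚ) →ₗ[ℚ] Module.Dual ℚ (Fin s → ℚ) where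
  toFun w := ∑ i, w (f i) • LinearMap.proj i
  map_add' w w' := by
    simp only [Finsupp.add_apply, add_smul, sum_add_distrib]
  map_smul' r w := by
    simp only [Finsupp.smul_apply, smul_eq_mul, mul_smul, RingHom.id_apply, smul_sum]

lemma L_apply {s : ℕ} (f : Fin s → ℤ) (w : ℤ →₀ ℚ) (g : Fin s → ℚ) :
    L f w g = ∑ i, w (f i) * g i := by
  simp [L, LinearMap.sum_apply]

/-- the type of a tuple -/
def ty {s : ℕ} (f : Fin s → ℤ) : Finset (Fin s × Fin s × Fin s × Fin s) :=
  Finset.univ.filter (fun p => f p.1 + f p.2.1 = f p.2.2.1 + f p.2.2.2)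

/-- the rational tuples satisfying the relations of a type -/
def VT {s : ℕ} (τ : Finset (Fin s × Fin s × Fin s × Fin s)) : Submodule ℚ (Fin s → ℚ) where
  carrier := {g | ∀ p ∈ τ, g p.1 + g p.2.1 = g p.2.2.1 + g p.2.2.2}
  add_mem' := by
    intro g g' hg hg' p hp
    have h1 := hg p hp
    have h2 := hg' p hp
    simp only [Pi.add_apply]
    linarith
  zero_mem' := by
    intro p _
    simp
  smul_mem' := by
    intro c g hg p hp
    have h1 := hg p hp
    simp only [Pi.smul_apply, smul_eq_mul]
    rw [← mul_add, h1, mul_add]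

lemma self_mem_VT {s : ℕ} (f : Fin s → ℤ) : (fun i => (f i : ℚ)) ∈ VT (ty f) := by
  intro p hp
  have h := (mem_filter.1 hp).2
  change ((f p.1 : ℤ) : ℚ) + f p.2.1 = f p.2.2.1 + f p.2.2.2
  exact_mod_cast h

lemma finrank_VT {s : ℕ} {f : Fin s → ℤ} (hf : Function.Injective f) :
    finrank ℚ (VT (ty f)) + rho (univ.image f) ≤ s := by
  classical
  set S := univ.image f with hS
  set Φ : R S →ₗ[ℚ] Module.Dual ℚ (Fin s → ℚ) := (L f).comp (R S).subtype with hΦ
  have hinj : Function.Injective Φ := by
    rw [← LinearMap.ker_eq_bot, LinearMap.ker_eq_bot']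
    intro w hw
    apply Subtype.ext
    ext t
    by_cases ht : t ∈ S
    · rw [hS, mem_image] at ht
      obtain ⟨i, -, rfl⟩ := ht
      have h1 := LinearMap.congr_fun hw (Pi.single i 1)
      rw [hΦ, LinearMap.comp_apply, Submodule.subtype_apply, L_apply] at h1
      simpa [Pi.single_apply] using h1
    · exact R_support w.2 ht
  have h1 : finrank ℚ (LinearMap.range Φ) = rho S := LinearMap.finrank_range_of_inj hinj
  have h2 : VT (ty f) ≤ (LinearMap.range Φ).dualCoannihilator := by
    intro g hg
    rw [Submodule.mem_dualCoannihilator]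
    rintro _ ⟨w, rfl⟩
    rw [hΦ, LinearMap.comp_apply, Submodule.subtype_apply]
    obtain ⟨w, hw⟩ := w
    simp only
    induction hw using Submodule.span_induction with
    | mem x hx =>
      obtain ⟨a, ha, b, hb, c, hc, d, hd, h, rfl⟩ := hx
      rw [hS, mem_image] at ha hb hc hd
      obtain ⟨i, -, rfl⟩ := ha
      obtain ⟨j, -, rfl⟩ := hb
      obtain ⟨k, -, rfl⟩ := hc
      obtain ⟨l, -, rfl⟩ := hd
      have h3 : (i, j, k, l) ∈ ty f := mem_filter.2 ⟨mem_univ _, h⟩
      have h4 := hg _ h3
      simp only at h4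
      rw [L_apply]
      simp only [rv_apply, hf.eq_iff, sub_mul, add_mul, ite_mul, one_mul, zero_mul,
        sum_sub_distrib, sum_add_distrib, sum_ite_eq, mem_univ, if_true]
      linarith
    | zero => rw [map_zero, LinearMap.zero_apply]
    | add x y _ _ hx hy => rw [map_add, LinearMap.add_apply, hx, hy, add_zero]
    | smul r x _ hx => rw [map_smul, LinearMap.smul_apply, hx, smul_zero]
  have h3 := Submodule.finrank_mono h2
  have h4 := Subspace.finrank_add_finrank_dualCoannihilator_eq (LinearMap.range Φ)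
  rw [finrank_fin_fun, h1] at h4
  omega

/-- the number of sets of size `s` and rank at least `r` is at most `K n ^ (s - r)` -/
theorem card_rank_le (s : ℕ) : ∃ K : ℕ, ∀ (r n : ℕ), 1 ≤ n → ∀ 𝒮 : Finset (Finset ℤ),
    (∀ S ∈ 𝒮, S ⊆ Ico (0 : ℤ) n ∧ S.card = s ∧ r ≤ rho S) → 𝒮.card ≤ K * n ^ (s - r) := by
  classical
  refine ⟨Fintype.card (Finset (Fin s × Fin s × Fin s × Fin s)), ?_⟩
  intro r n hn 𝒮 h𝒮
  set P : Finset (Fin s → ℤ) := (Fintype.piFinset (fun _ : Fin s => Ico (0 : ℤ) n)).filter
    (fun f => Function.Injective f ∧ univ.image f ∈ 𝒮) with hP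
  have h1 : 𝒮.card ≤ P.card := by
    apply card_le_card_of_surjOn (fun f => univ.image f)
    intro S hS
    rw [mem_coe] at hS
    obtain ⟨h1, h2, h3⟩ := h𝒮 S hS
    have hrange : univ.image (S.orderEmbOfFin h2) = S := by
      apply coe_injective
      rw [coe_image, coe_univ, Set.image_univ, range_orderEmbOfFin]
    refine ⟨S.orderEmbOfFin h2, ?_, hrange⟩
    rw [mem_coe, hP, mem_filter, Fintype.mem_piFinset]
    refine ⟨fun i => h1 (orderEmbOfFin_mem _ _ _), (S.orderEmbOfFin h2).injective, ?_⟩
    rw [hrange]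
    exact hS
  have h2 : ∀ τ, (P.filter (fun f => ty f = τ)).card ≤ n ^ (s - r) := by
    intro τ
    rcases (P.filter (fun f => ty f = τ)).eq_empty_or_nonempty with h0 | ⟨f, hf⟩
    · rw [h0, card_empty]
      exact Nat.zero_le _
    · rw [mem_filter, hP, mem_filter] at hf
      obtain ⟨⟨-, hfinj, hf𝒮⟩, hfτ⟩ := hf
      have h3 := finrank_VT hfinj
      have h4 := (h𝒮 _ hf𝒮).2.2
      rw [hfτ] at h3
      have h5 := card_points (VT τ) hn (P.filter (fun f => ty f = τ)) (by
        intro g hg
        rw [mem_filter, hP, mem_filter, Fintype.mem_piFinset] at hg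
        refine ⟨hg.1.1, ?_⟩
        rw [← hg.2]
        exact self_mem_VT g)
      exact h5.trans (Nat.pow_le_pow_right hn (by omega))
  calc 𝒮.card ≤ P.card := h1
    _ = ∑ τ : Finset (Fin s × Fin s × Fin s × Fin s), (P.filter (fun f => ty f = τ)).card :=
        card_eq_sum_card_fiberwise (fun f _ => mem_coe.2 (mem_univ _))
    _ ≤ ∑ τ : Finset (Fin s × Fin s × Fin s × Fin s), n ^ (s - r) := sum_le_sum (fun τ _ => h2 τ)
    _ = Fintype.card (Finset (Fin s × Fin s × Fin s × Fin s)) * n ^ (s - r) := by
        rw [sum_const, card_univ, smul_eq_mul]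

end Pool.Agent.V11180.DiffRel
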