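import Mathlib
import Pool.Agent.V11180.DiffRel4

/-!
# Many sets with a prescribed number of differences
-/

set_option autoImplicit false

open Finset Module
open scoped Pointwise

namespace Pool.Agent.V11180.DiffRel

lemma card_sub_self {S : Finset ℤ} (hS : S.Nonempty) : (S - S).card = 2 * (Dp S).card + 1 := by
  classical
  have h1 : S - S = insert 0 (Dp S ∪ (Dp S).image (fun d => -d)) := by
    ext d
    rw [mem_sub, mem_insert, mem_union, mem_image]
    simp only [mem_Dp]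
    constructor
    · rintro ⟨a, ha, b, hb, rfl⟩
      rcases lt_trichotomy (a - b) 0 with h | h | h
      · exact Or.inr (Or.inr ⟨b - a, ⟨b, hb, a, ha, rfl, by omega⟩, by ring⟩)
      · exact Or.inl h
      · exact Or.inr (Or.inl ⟨a, ha, b, hb, rfl, h⟩)
    · rintro (rfl | ⟨a, ha, b, hb, rfl, -⟩ | ⟨e, ⟨a, ha, b, hb, rfl, -⟩, rfl⟩)
      · obtain ⟨a, ha⟩ := hS
        exact ⟨a, ha, a, ha, by ring⟩
      · exact ⟨a, ha, b, hb, rfl⟩
      · exact ⟨b, hb, a, ha, by ring⟩
  have hpos : ∀ d ∈ Dp S, 0 < d := by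
    intro d hd
    rw [mem_Dp] at hd
    obtain ⟨a, -, b, -, -, h⟩ := hd
    exact h
  rw [h1, card_insert_of_notMem, card_union_of_disjoint, card_image_of_injective _ neg_injective]
  · ring
  · rw [disjoint_left]
    intro d hd hd'
    rw [mem_image] at hd'
    obtain ⟨e, he, rfl⟩ := hd'
    have := hpos _ hd
    have := hpos _ he
    omega
  · rw [mem_union, mem_image]
    rintro (h | ⟨e, he, h⟩)
    · have := hpos _ h
      omega
    · have := hpos _ he
      omega

/-- the points involved in a nontrivial relation -/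
def supp (S : Finset ℤ) : Finset ℤ :=
  S.filter (fun p => ∃ b ∈ S, ∃ c ∈ S, ∃ d ∈ S, p + b = c + d ∧ p ≠ c ∧ p ≠ d)

lemma mem_supp {S : Finset ℤ} {p : ℤ} : p ∈ supp S ↔
    p ∈ S ∧ ∃ b ∈ S, ∃ c ∈ S, ∃ d ∈ S, p + b = c + d ∧ p ≠ c ∧ p ≠ d := by
  rw [supp, mem_filter]

lemma supp_subset (S : Finset ℤ) : supp S ⊆ S := filter_subset _ _

/-- the points which are not free over `S` -/
def bad (S : Finset ℤ) : Finset ℤ :=
  (S ×ˢ S ×ˢ S).image (fun q => q.1 + q.2.1 - q.2.2) ∪ (S ×ˢ S).image (fun q => (q.1 + q.2) / 2)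

lemma bad_of_three {S : Finset ℤ} {b c d z : ℤ} (hb : b ∈ S) (hc : c ∈ S) (hd : d ∈ S)
    (h : z + b = c + d) : z ∈ bad S := by
  rw [bad, mem_union, mem_image]
  refine Or.inl ⟨(c, d, b), ?_, ?_⟩
  · simp [hb, hc, hd]
  · simp only
    omega

lemma bad_of_two {S : Finset ℤ} {c d z : ℤ} (hc : c ∈ S) (hd : d ∈ S)
    (h : z + z = c + d) : z ∈ bad S := by
  rw [bad, mem_union, mem_image, mem_image]
  refine Or.inr ⟨(c, d), ?_, ?_⟩
  · simp [hc, hd]
  · simp only
    omega

lemma card_bad_le (S : Finset ℤ) : (bad S).card ≤ S.card ^ 3 + S.card ^ 2 := by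
  have h1 := card_image_le (s := S ×ˢ S ×ˢ S) (f := fun q : ℤ × ℤ × ℤ => q.1 + q.2.1 - q.2.2)
  have h2 := card_image_le (s := S ×ˢ S) (f := fun q : ℤ × ℤ => (q.1 + q.2) / 2)
  rw [card_product, card_product] at h1
  rw [card_product] at h2
  have h3 := card_union_le ((S ×ˢ S ×ˢ S).image (fun q => q.1 + q.2.1 - q.2.2))
    ((S ×ˢ S).image (fun q => (q.1 + q.2) / 2))
  have h4 : S.card * (S.card * S.card) = S.card ^ 3 := by ring
  have h5 : S.card * S.card = S.card ^ 2 := by ring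
  unfold bad
  omega

lemma notMem_of_notMem_bad {S : Finset ℤ} {z : ℤ} (hz : z ∉ bad S) : z ∉ S :=
  fun h => hz (bad_of_three h h h rfl)

lemma free_rel {S : Finset ℤ} {z : ℤ} (hz : z ∉ bad S) {a b c d : ℤ} (ha : a ∈ insert z S)
    (hb : b ∈ insert z S) (hc : c ∈ insert z S) (hd : d ∈ insert z S) (h : a + b = c + d)
    (hac : a ≠ c) (had : a ≠ d) : a ∈ S ∧ b ∈ S ∧ c ∈ S ∧ d ∈ S := by
  rw [mem_insert] at ha hb hc hd
  by_cases h1 : a = z
  · exfalso
    subst h1
    have hc' : c ∈ S := hc.resolve_left hac.symm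
    have hd' : d ∈ S := hd.resolve_left had.symm
    rcases hb with rfl | hb
    · exact hz (bad_of_two hc' hd' h)
    · exact hz (bad_of_three hb hc' hd' h)
  have ha' : a ∈ S := ha.resolve_left h1
  by_cases h2 : b = z
  · exfalso
    subst h2
    have hc' : c ∈ S := hc.resolve_left (by omega)
    have hd' : d ∈ S := hd.resolve_left (by omega)
    exact hz (bad_of_three ha' hc' hd' (by omega))
  have hb' : b ∈ S := hb.resolve_left h2
  by_cases h3 : c = z
  · exfalso
    subst h3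
    rcases hd with rfl | hd
    · exact hz (bad_of_two ha' hb' h.symm)
    · exact hz (bad_of_three hd ha' hb' h.symm)
  have hc' : c ∈ S := hc.resolve_left h3
  by_cases h4 : d = z
  · exfalso
    subst h4
    exact hz (bad_of_three hc' ha' hb' (by omega))
  exact ⟨ha', hb', hc', hd.resolve_left h4⟩

lemma card_Dp_insert_free {S : Finset ℤ} {z : ℤ} (hz : z ∉ bad S) :
    (Dp (insert z S)).card = (Dp S).card + S.card := by
  classical
  have h1 : Dp (insert z S) = Dp S ∪ S.image (fun y => |z - y|) := by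
    ext d
    rw [mem_union, mem_Dp, mem_Dp, mem_image]
    constructor
    · rintro ⟨a, ha, b, hb, h, hd⟩
      rw [mem_insert] at ha hb
      rcases ha with rfl | ha
      · rcases hb with rfl | hb
        · omega
        · exact Or.inr ⟨b, hb, by rw [h, abs_of_pos hd]⟩
      · rcases hb with rfl | hb
        · exact Or.inr ⟨a, ha, by rw [abs_sub_comm, h, abs_of_pos hd]⟩
        · exact Or.inl ⟨a, ha, b, hb, h, hd⟩
    · rintro (⟨a, ha, b, hb, h, hd⟩ | ⟨y, hy, h⟩)
      · exact ⟨a, mem_insert_of_mem ha, b, mem_insert_of_mem hb, h, hd⟩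
      · have hne : z ≠ y := by
          rintro rfl
          exact notMem_of_notMem_bad hz hy
        rcases abs_cases (z - y) with ⟨h2, h3⟩ | ⟨h2, h3⟩
        · exact ⟨z, mem_insert_self _ _, y, mem_insert_of_mem hy, by omega, by omega⟩
        · exact ⟨y, mem_insert_of_mem hy, z, mem_insert_self _ _, by omega, by omega⟩
  rw [h1, card_union_of_disjoint, card_image_of_injOn]
  · intro y hy y' hy' h
    simp only at h
    rw [abs_eq_abs] at h
    rcases h with h | h
    · omega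
    · exfalso
      exact hz (bad_of_two hy hy' (by omega))
  · rw [disjoint_left]
    intro d hd hd'
    rw [mem_Dp] at hd
    rw [mem_image] at hd'
    obtain ⟨a, ha, b, hb, h, h0⟩ := hd
    obtain ⟨y, hy, hy'⟩ := hd'
    rcases abs_cases (z - y) with ⟨h2, h3⟩ | ⟨h2, h3⟩
    · exact hz (bad_of_three hb hy ha (by omega))
    · exact hz (bad_of_three ha hy hb (by omega))

lemma supp_insert_free {S : Finset ℤ} {z : ℤ} (hz : z ∉ bad S) : supp (insert z S) = supp S := by
  ext p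
  rw [mem_supp, mem_supp]
  constructor
  · rintro ⟨hp, b, hb, c, hc, d, hd, h, h1, h2⟩
    obtain ⟨q1, q2, q3, q4⟩ := free_rel hz hp hb hc hd h h1 h2
    exact ⟨q1, b, q2, c, q3, d, q4, h, h1, h2⟩
  · rintro ⟨hp, b, hb, c, hc, d, hd, h, h1, h2⟩
    exact ⟨mem_insert_of_mem hp, b, mem_insert_of_mem hb, c, mem_insert_of_mem hc, d,
      mem_insert_of_mem hd, h, h1, h2⟩

/-- the sets obtained from a base family by adding `k` free points -/
noncomputable def fam (n t0 c0 : ℕ) (𝒯 : Finset (Finset ℤ)) (k : ℕ) : Finset (Finset ℤ) :=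
  (Ico (0 : ℤ) n).powerset.filter (fun S => S.card = t0 + k ∧
    (Dp S).card + c0 = (t0 + k).choose 2 ∧ supp S ∈ 𝒯)

lemma fam_step {n t0 c0 : ℕ} {𝒯 : Finset (Finset ℤ)} (h𝒯 : ∀ T ∈ 𝒯, T.card = t0) (k : ℕ) :
    (fam n t0 c0 𝒯 k).card * (n - ((t0 + k) ^ 3 + (t0 + k) ^ 2)) ≤
      (k + 1) * (fam n t0 c0 𝒯 (k + 1)).card := by
  classical
  set P := (fam n t0 c0 𝒯 k).sigma (fun S => Ico (0 : ℤ) n \ bad S) with hP
  set Q := (fam n t0 c0 𝒯 (k + 1)).sigma (fun S => S \ supp S) with hQ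
  have h1 : (fam n t0 c0 𝒯 k).card * (n - ((t0 + k) ^ 3 + (t0 + k) ^ 2)) ≤ P.card := by
    rw [hP, card_sigma, ← smul_eq_mul]
    apply card_nsmul_le_sum
    intro S hS
    rw [fam, mem_filter] at hS
    have h2 := card_bad_le S
    rw [hS.2.1] at h2
    have h3 := le_card_sdiff (bad S) (Ico (0 : ℤ) n)
    rw [Int.card_Ico, sub_zero, Int.toNat_natCast] at h3
    omega
  have h2 : Q.card = (k + 1) * (fam n t0 c0 𝒯 (k + 1)).card := by
    rw [hQ, card_sigma, mul_comm, ← smul_eq_mul]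
    apply sum_eq_card_nsmul
    intro S hS
    rw [fam, mem_filter] at hS
    rw [card_sdiff_of_subset (supp_subset S), h𝒯 _ hS.2.2.2, hS.2.1]
    omega
  have h3 : P.card ≤ Q.card := by
    apply card_le_card_of_injOn (fun q => ⟨insert q.2 q.1, q.2⟩)
    · rintro ⟨S, z⟩ hq
      rw [mem_coe, hP, mem_sigma, mem_sdiff] at hq
      obtain ⟨hS, hz1, hz2⟩ := hq
      simp only at hS hz1 hz2
      rw [fam, mem_filter, mem_powerset] at hS
      have hzS := notMem_of_notMem_bad hz2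
      rw [mem_coe, hQ, mem_sigma, mem_sdiff]
      simp only
      rw [supp_insert_free hz2]
      refine ⟨?_, mem_insert_self _ _, fun h => hzS (supp_subset _ h)⟩
      rw [fam, mem_filter, mem_powerset]
      refine ⟨insert_subset hz1 hS.1, ?_, ?_, ?_⟩
      · rw [card_insert_of_notMem hzS, hS.2.1]
        ring
      · rw [card_Dp_insert_free hz2, hS.2.1, ← add_assoc t0 k 1, choose_two_succ, ← hS.2.2.1]
        ring
      · rw [supp_insert_free hz2]
        exact hS.2.2.2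
    · rintro ⟨S, z⟩ hq ⟨S', z'⟩ hq' h
      rw [mem_coe, hP, mem_sigma, mem_sdiff] at hq hq'
      simp only [Sigma.mk.injEq, heq_eq_eq] at h
      obtain ⟨h4, rfl⟩ := h
      have hzS := notMem_of_notMem_bad hq.2.2
      have hzS' := notMem_of_notMem_bad hq'.2.2
      have h5 : S = S' := by
        have := congrArg (fun A => A.erase z) h4
        simpa [erase_insert hzS, erase_insert hzS'] using this
      rw [h5]
  rw [← h2]
  exact h1.trans h3

lemma fam_zero {n t0 c0 : ℕ} {𝒯 : Finset (Finset ℤ)} (h𝒯 : ∀ T ∈ 𝒯, T ⊆ Ico (0 : ℤ) n ∧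
    T.card = t0 ∧ (Dp T).card + c0 = t0.choose 2 ∧ supp T = T) :
    𝒯.card ≤ (fam n t0 c0 𝒯 0).card := by
  apply card_le_card
  intro T hT
  obtain ⟨h1, h2, h3, h4⟩ := h𝒯 T hT
  rw [fam, mem_filter, mem_powerset]
  refine ⟨h1, h2, h3, ?_⟩
  rw [h4]
  exact hT

lemma fam_lower {n t0 c0 : ℕ} {𝒯 : Finset (Finset ℤ)} (h𝒯 : ∀ T ∈ 𝒯, T ⊆ Ico (0 : ℤ) n ∧
    T.card = t0 ∧ (Dp T).card + c0 = t0.choose 2 ∧ supp T = T) (k : ℕ) :
    𝒯.card * (n - ((t0 + k) ^ 3 + (t0 + k) ^ 2)) ^ k ≤ k.factorial * (fam n t0 c0 𝒯 k).card := by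
  have key : ∀ j ≤ k, 𝒯.card * (n - ((t0 + k) ^ 3 + (t0 + k) ^ 2)) ^ j ≤
      j.factorial * (fam n t0 c0 𝒯 j).card := by
    intro j
    induction j with
    | zero =>
      intro _
      simpa using fam_zero h𝒯
    | succ j ih =>
      intro hj
      have h1 := ih (by omega)
      have h2 := fam_step (n := n) (c0 := c0) (fun T hT => (h𝒯 T hT).2.1) j
      have h3 : n - ((t0 + k) ^ 3 + (t0 + k) ^ 2) ≤ n - ((t0 + j) ^ 3 + (t0 + j) ^ 2) := by
        have a1 : (t0 + j) ^ 3 ≤ (t0 + k) ^ 3 := Nat.pow_le_pow_left (by omega) 3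
        have a2 : (t0 + j) ^ 2 ≤ (t0 + k) ^ 2 := Nat.pow_le_pow_left (by omega) 2
        omega
      calc 𝒯.card * (n - ((t0 + k) ^ 3 + (t0 + k) ^ 2)) ^ (j + 1)
          = (𝒯.card * (n - ((t0 + k) ^ 3 + (t0 + k) ^ 2)) ^ j) *
            (n - ((t0 + k) ^ 3 + (t0 + k) ^ 2)) := by ring
        _ ≤ (j.factorial * (fam n t0 c0 𝒯 j).card) * (n - ((t0 + j) ^ 3 + (t0 + j) ^ 2)) :=
            Nat.mul_le_mul h1 h3
        _ = j.factorial * ((fam n t0 c0 𝒯 j).card * (n - ((t0 + j) ^ 3 + (t0 + j) ^ 2))) := by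
            ring
        _ ≤ j.factorial * ((j + 1) * (fam n t0 c0 𝒯 (j + 1)).card) := Nat.mul_le_mul_left _ h2
        _ = (j + 1).factorial * (fam n t0 c0 𝒯 (j + 1)).card := by
            rw [Nat.factorial_succ]
            ring
  exact key k le_rfl

/-! ### Evaluations of a configuration of vectors -/

/-- evaluation of a vector -/
def ev {d : ℕ} (t : Fin d → ℤ) : (Fin d → ℤ) →+ ℤ where
  toFun u := ∑ i, u i * t i
  map_zero' := by simp
  map_add' u v := by
    simp only [Pi.add_apply, add_mul, sum_add_distrib]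

lemma ev_apply {d : ℕ} (t u : Fin d → ℤ) : ev t u = ∑ i, u i * t i := rfl

lemma hyperplane {d : ℕ} {m : ℕ} (hm : 1 ≤ m) {u : Fin d → ℤ} (hu : u ≠ 0) :
    ((Fintype.piFinset (fun _ : Fin d => Ico (0 : ℤ) m)).filter (fun t => ev t u = 0)).card ≤
      m ^ (d - 1) := by
  classical
  set φ : Module.Dual ℚ (Fin d → ℚ) := ∑ i, (u i : ℚ) • LinearMap.proj i with hφ
  have hφa : ∀ g, φ g = ∑ i, (u i : ℚ) * g i := by
    intro g
    simp [hφ, LinearMap.sum_apply]
  have hφ0 : φ ≠ 0 := by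
    intro h0
    apply hu
    funext i
    have h1 := LinearMap.congr_fun h0 (Pi.single i 1)
    rw [hφa] at h1
    simp [Pi.single_apply] at h1
    simpa using h1
  have h1 : finrank ℚ (LinearMap.ker φ) ≤ d - 1 := by
    have h2 := LinearMap.finrank_range_add_finrank_ker φ
    rw [finrank_fin_fun] at h2
    have h3 : LinearMap.range φ = ⊤ := LinearMap.range_eq_top.2 (LinearMap.surjective hφ0)
    rw [h3, finrank_top, finrank_self] at h2
    omega
  have h2 := card_points (LinearMap.ker φ) hm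
    ((Fintype.piFinset (fun _ : Fin d => Ico (0 : ℤ) m)).filter (fun t => ev t u = 0)) (by
      intro t ht
      rw [mem_filter, Fintype.mem_piFinset] at ht
      refine ⟨ht.1, ?_⟩
      rw [LinearMap.mem_ker, hφa]
      have h3 := ht.2
      rw [ev_apply] at h3
      exact_mod_cast h3)
  exact h2.trans (Nat.pow_le_pow_right hm h1)

end Pool.Agent.V11180.DiffRel
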