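import Mathlib
import Pool.Agent.V11180.DiffRel5

/-!
# Lower bounds from configurations of vectors
-/

set_option autoImplicit false

open Finset Module
open scoped Pointwise

namespace Pool.Agent.V11180.DiffRel

/-- a configuration of vectors all of whose vectors are involved in relations -/
structure Config (d t0 c0 B : ℕ) (X : Fin t0 → Fin d → ℤ) : Prop where
  hd : 1 ≤ d
  ht : 1 ≤ t0
  nn : ∀ j i, 0 ≤ X j i
  hB : ∀ j, ∑ i, X j i ≤ B
  hcard : (univ.image X).card = t0
  hdiff : (univ.image X - univ.image X).card + 2 * c0 = 2 * t0.choose 2 + 1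
  hsupp : ∀ j, ∃ b c e : Fin t0, X j + X b = X c + X e ∧ X j ≠ X c ∧ X j ≠ X e
  hinj : ∀ t t' : Fin d → ℤ, (∀ j, ev t (X j) = ev t' (X j)) → t = t'

theorem config_lower {d t0 c0 B : ℕ} {X : Fin t0 → Fin d → ℤ} (hX : Config d t0 c0 B X)
    (hB1 : 1 ≤ B) : ∃ Q : ℕ, 0 < Q ∧ ∃ n0 : ℕ, ∀ n ≥ n0, ∃ 𝒯 : Finset (Finset ℤ),
      (∀ T ∈ 𝒯, T ⊆ Ico (0 : ℤ) n ∧ T.card = t0 ∧ (Dp T).card + c0 = t0.choose 2 ∧
        supp T = T) ∧ n ^ d ≤ Q * 𝒯.card := by
  classical
  set Xs := univ.image X with hXs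
  set D := Xs - Xs with hD
  set U := (D - D).erase 0 with hU
  refine ⟨(2 * B) ^ d * (2 * t0 ^ t0), ?_, B * (2 * U.card + 1), ?_⟩
  · have := hX.ht
    positivity
  intro n hn
  set m := n / B with hm
  have hm1 : 2 * U.card + 1 ≤ m := by
    rw [hm, Nat.le_div_iff_mul_le (by omega), mul_comm]
    exact hn
  have hm2 : B * m ≤ n := Nat.mul_div_le n B
  have hm3 : n < B * (m + 1) := by
    have := Nat.lt_mul_div_succ n (show 0 < B by omega)
    exact this
  set Pi := Fintype.piFinset (fun _ : Fin d => Ico (0 : ℤ) m) with hPi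
  have hPic : Pi.card = m ^ d := by
    rw [hPi, Fintype.card_piFinset]
    simp
  set Gen := Pi.filter (fun t => ∀ u ∈ U, ev t u ≠ 0) with hGen
  have hGen1 : m ^ d ≤ Gen.card + U.card * m ^ (d - 1) := by
    have h1 : Pi ⊆ Gen ∪ U.biUnion (fun u => Pi.filter (fun t => ev t u = 0)) := by
      intro t ht
      rw [mem_union, mem_biUnion, hGen, mem_filter]
      by_cases h : ∀ u ∈ U, ev t u ≠ 0
      · exact Or.inl ⟨ht, h⟩
      · push Not at h
        obtain ⟨u, hu, h⟩ := h
        exact Or.inr ⟨u, hu, mem_filter.2 ⟨ht, h⟩⟩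
    have h2 := (card_le_card h1).trans (card_union_le _ _)
    have h3 : (U.biUnion (fun u => Pi.filter (fun t => ev t u = 0))).card ≤
        U.card * m ^ (d - 1) := by
      apply card_biUnion_le_card_mul
      intro u hu
      exact hyperplane (by omega) (mem_erase.1 hu).1
    rw [hPic] at h2
    omega
  have hGen2 : m ^ d ≤ 2 * Gen.card := by
    have h1 : m ^ d = m * m ^ (d - 1) := by
      obtain ⟨e, he⟩ : ∃ e, d = e + 1 := ⟨d - 1, by have := hX.hd; omega⟩
      rw [he, Nat.add_sub_cancel, pow_succ]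
      ring
    have h2 : 2 * (U.card * m ^ (d - 1)) ≤ m ^ d := by
      rw [h1, ← mul_assoc]
      exact Nat.mul_le_mul_right _ (by omega)
    omega
  have hinjD : ∀ t ∈ Gen, Set.InjOn (ev t) (D : Set (Fin d → ℤ)) := by
    intro t ht u hu v hv h
    by_contra hne
    have h1 : u - v ∈ U := by
      rw [hU, mem_erase]
      exact ⟨sub_ne_zero.2 hne, sub_mem_sub hu hv⟩
    exact (mem_filter.1 ht).2 _ h1 (by rw [map_sub, h, sub_self])
  have hinjX : ∀ t ∈ Gen, Set.InjOn (ev t) (Xs : Set (Fin d → ℤ)) := by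
    intro t ht u hu v hv h
    have h1 : u - v ∈ D := sub_mem_sub hu hv
    have h2 : (0 : Fin d → ℤ) ∈ D := by
      rw [← sub_self u]
      exact sub_mem_sub hu hu
    have h3 := hinjD t ht h1 h2 (by rw [map_sub, h, sub_self, map_zero])
    exact sub_eq_zero.1 h3
  set Tt : (Fin d → ℤ) → Finset ℤ := fun t => Xs.image (ev t) with hTt
  have hmemX : ∀ j, X j ∈ Xs := fun j => mem_image_of_mem _ (mem_univ _)
  have hTcard : ∀ t ∈ Gen, (Tt t).card = t0 := by
    intro t ht
    rw [hTt]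
    simp only
    rw [card_image_of_injOn (hinjX t ht), hXs, hX.hcard]
  refine ⟨Gen.image Tt, ?_, ?_⟩
  · intro T hT
    rw [mem_image] at hT
    obtain ⟨t, ht, rfl⟩ := hT
    have htP : ∀ i, 0 ≤ t i ∧ t i < m := by
      intro i
      have h1 := (mem_filter.1 ht).1
      rw [hPi, Fintype.mem_piFinset] at h1
      exact mem_Ico.1 (h1 i)
    refine ⟨?_, hTcard t ht, ?_, ?_⟩
    · intro p hp
      rw [hTt] at hp
      simp only [mem_image] at hp
      obtain ⟨x, hx, rfl⟩ := hp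
      rw [hXs, mem_image] at hx
      obtain ⟨j, -, rfl⟩ := hx
      rw [mem_Ico, ev_apply]
      constructor
      · exact sum_nonneg (fun i _ => mul_nonneg (hX.nn j i) (htP i).1)
      · have h1 : ∑ i, X j i * t i ≤ ∑ i, X j i * ((m : ℤ) - 1) := by
          apply sum_le_sum
          intro i _
          apply mul_le_mul_of_nonneg_left _ (hX.nn j i)
          have := (htP i).2
          omega
        rw [← sum_mul] at h1
        have h2 : (∑ i, X j i) * ((m : ℤ) - 1) ≤ B * ((m : ℤ) - 1) := by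
          apply mul_le_mul_of_nonneg_right (hX.hB j)
          omega
        have h3 : ((B * m : ℕ) : ℤ) ≤ n := by exact_mod_cast hm2
        push_cast at h3
        have h4 : (B : ℤ) * ((m : ℤ) - 1) = B * m - B := by ring
        have h5 : (1 : ℤ) ≤ B := by exact_mod_cast hB1
        linarith
    · have h1 : Tt t - Tt t = D.image (ev t) :=
        (image_image₂_distrib (map_sub (ev t))).symm
      have h2 : (Tt t - Tt t).card = D.card := by
        rw [h1, card_image_of_injOn (hinjD t ht)]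
      have hne : (Tt t).Nonempty := by
        rw [← card_pos, hTcard t ht]
        exact hX.ht
      rw [card_sub_self hne] at h2
      have h3 := hX.hdiff
      rw [← hXs, ← hD] at h3
      omega
    · apply Subset.antisymm (supp_subset _)
      intro p hp
      rw [hTt] at hp
      simp only [mem_image] at hp
      obtain ⟨x, hx, rfl⟩ := hp
      rw [hXs, mem_image] at hx
      obtain ⟨j, -, rfl⟩ := hx
      obtain ⟨b, c, e, h1, h2, h3⟩ := hX.hsupp j
      rw [mem_supp]
      have hmemT : ∀ j, ev t (X j) ∈ Tt t := fun j => mem_image_of_mem _ (hmemX j)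
      refine ⟨hmemT j, _, hmemT b, _, hmemT c, _, hmemT e, ?_, ?_, ?_⟩
      · rw [← map_add, ← map_add, h1]
      · intro h
        exact h2 (hinjX t ht (hmemX j) (hmemX c) h)
      · intro h
        exact h3 (hinjX t ht (hmemX j) (hmemX e) h)
  · have h1 : Gen.card ≤ t0 ^ t0 * (Gen.image Tt).card := by
      apply card_le_mul_card_image
      intro T hT
      rw [mem_image] at hT
      obtain ⟨t1, ht1, rfl⟩ := hT
      have h2 : (Gen.filter (fun t => Tt t = Tt t1)).card ≤
          (Fintype.piFinset (fun _ : Fin t0 => Tt t1)).card := by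
        apply card_le_card_of_injOn (fun t j => ev t (X j))
        · intro t ht
          rw [mem_coe, mem_filter] at ht
          rw [mem_coe, Fintype.mem_piFinset]
          intro j
          rw [← ht.2]
          exact mem_image_of_mem _ (hmemX j)
        · intro t ht t' ht' h
          exact hX.hinj t t' (fun j => congrFun h j)
      rw [Fintype.card_piFinset] at h2
      simp only [prod_const, card_univ, Fintype.card_fin] at h2
      rw [hTcard t1 ht1] at h2
      exact h2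
    have h2 : n ≤ 2 * B * m := by
      have : B * (m + 1) ≤ 2 * B * m := by
        have h3 : 1 ≤ m := by omega
        nlinarith
      omega
    calc n ^ d ≤ (2 * B * m) ^ d := Nat.pow_le_pow_left h2 d
      _ = (2 * B) ^ d * m ^ d := by rw [mul_pow]
      _ ≤ (2 * B) ^ d * (2 * (t0 ^ t0 * (Gen.image Tt).card)) :=
          Nat.mul_le_mul_left _ (hGen2.trans (Nat.mul_le_mul_left _ h1))
      _ = (2 * B) ^ d * (2 * t0 ^ t0) * (Gen.image Tt).card := by ring

/-- the sets of size `s` with `C(s,2) - c0` positive differences -/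
noncomputable def cls (n s c0 : ℕ) : Finset (Finset ℤ) :=
  (Ico (0 : ℤ) n).powerset.filter (fun S => S.card = s ∧ (Dp S).card + c0 = s.choose 2)

lemma pow_lower (k C : ℕ) : ∃ n0, ∀ n ≥ n0, n ^ k ≤ 2 * (n - C) ^ k := by
  refine ⟨2 * k * C + C + 1, ?_⟩
  intro n hn
  have hCn : C ≤ n := by nlinarith [Nat.zero_le (2 * k * C)]
  have hn0 : (0 : ℝ) < n := by
    have : 0 < n := by omega
    exact_mod_cast this
  have h1 : ((n ^ k : ℕ) : ℝ) ≤ ((2 * (n - C) ^ k : ℕ) : ℝ) := by
    push_cast [Nat.cast_sub hCn]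
    have h2 : (-2 : ℝ) ≤ -(C / n : ℝ) := by
      have : (C : ℝ) / n ≤ 1 := by
        rw [div_le_one hn0]
        exact_mod_cast hCn
      linarith
    have h3 := one_add_mul_le_pow h2 k
    have h4 : (1 : ℝ) / 2 ≤ 1 + k * -(C / n : ℝ) := by
      have h5 : (k : ℝ) * (C / n) ≤ 1 / 2 := by
        rw [mul_div_assoc', div_le_div_iff₀ hn0 (by norm_num)]
        have : 2 * k * C ≤ n := by omega
        have h6 : (2 * k * C : ℝ) ≤ n := by exact_mod_cast this
        linarith
      linarith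
    have h5 : (1 : ℝ) ≤ 2 * (1 + -(C / n : ℝ)) ^ k := by linarith
    have h6 : (n : ℝ) - C = n * (1 + -(C / n : ℝ)) := by
      field_simp
      ring
    rw [h6, mul_pow]
    have h7 : (0 : ℝ) < (n : ℝ) ^ k := pow_pos hn0 k
    nlinarith
  exact_mod_cast h1

theorem cls_lower {d t0 c0 B : ℕ} {X : Fin t0 → Fin d → ℤ} (hX : Config d t0 c0 B X)
    (hB1 : 1 ≤ B) : ∃ Q : ℕ, 0 < Q ∧ ∀ k : ℕ, ∃ n0 : ℕ, ∀ n ≥ n0,
      n ^ (d + k) ≤ Q * k.factorial * (cls n (t0 + k) c0).card := by
  obtain ⟨Q, hQ, n1, hn1⟩ := config_lower hX hB1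
  refine ⟨2 * Q, by omega, ?_⟩
  intro k
  obtain ⟨n2, hn2⟩ := pow_lower k ((t0 + k) ^ 3 + (t0 + k) ^ 2)
  refine ⟨max n1 n2, ?_⟩
  intro n hn
  obtain ⟨𝒯, h𝒯, h1⟩ := hn1 n (le_trans (le_max_left _ _) hn)
  have h2 := hn2 n (le_trans (le_max_right _ _) hn)
  have h3 := fam_lower h𝒯 k
  have h4 : (fam n t0 c0 𝒯 k).card ≤ (cls n (t0 + k) c0).card := by
    apply card_le_card
    intro S hS
    rw [fam, mem_filter] at hS
    rw [cls, mem_filter]
    exact ⟨hS.1, hS.2.1, hS.2.2.1⟩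
  calc n ^ (d + k) = n ^ d * n ^ k := pow_add _ _ _
    _ ≤ (Q * 𝒯.card) * (2 * (n - ((t0 + k) ^ 3 + (t0 + k) ^ 2)) ^ k) := Nat.mul_le_mul h1 h2
    _ = 2 * Q * (𝒯.card * (n - ((t0 + k) ^ 3 + (t0 + k) ^ 2)) ^ k) := by ring
    _ ≤ 2 * Q * (k.factorial * (fam n t0 c0 𝒯 k).card) := Nat.mul_le_mul_left _ h3
    _ ≤ 2 * Q * (k.factorial * (cls n (t0 + k) c0).card) :=
        Nat.mul_le_mul_left _ (Nat.mul_le_mul_left _ h4)
    _ = 2 * Q * k.factorial * (cls n (t0 + k) c0).card := by ring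

/-- four pairs with the same sum -/
def X8 : Fin 8 → Fin 5 → ℤ := ![![1, 0, 0, 0, 0], ![1, 1, 0, 0, 0], ![1, 1, 1, 0, 0],
  ![1, 1, 1, 1, 0], ![1, 1, 1, 1, 1], ![1, 1, 1, 2, 1], ![1, 1, 2, 2, 1], ![1, 2, 2, 2, 1]]

/-- three pairs with the same sum and two further relations -/
def X14 : Fin 14 → Fin 10 → ℤ := ![![1, 0, 0, 0, 0, 0, 0, 0, 0, 0],
  ![1, 1, 0, 0, 0, 0, 0, 0, 0, 0], ![1, 1, 1, 0, 0, 0, 0, 0, 0, 0],
  ![1, 1, 1, 1, 0, 0, 0, 0, 0, 0], ![1, 1, 2, 1, 0, 0, 0, 0, 0, 0],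
  ![1, 2, 2, 1, 0, 0, 0, 0, 0, 0],
  ![0, 0, 0, 0, 1, 0, 0, 0, 0, 0], ![0, 0, 0, 0, 1, 1, 0, 0, 0, 0],
  ![0, 0, 0, 0, 1, 1, 1, 0, 0, 0], ![0, 0, 0, 0, 1, 2, 1, 0, 0, 0],
  ![0, 0, 0, 0, 0, 0, 0, 1, 0, 0], ![0, 0, 0, 0, 0, 0, 0, 1, 1, 0],
  ![0, 0, 0, 0, 0, 0, 0, 1, 1, 1], ![0, 0, 0, 0, 0, 0, 0, 1, 2, 1]]

lemma config8 : Config 5 8 12 8 X8 where
  hd := by norm_num
  ht := by norm_num
  nn := by decide +kernel
  hB := by decide +kernel
  hcard := by decide +kernel
  hdiff := by decide +kernel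
  hsupp := by decide +kernel
  hinj := by
    intro t t' h
    have h0 := h 0
    have h1 := h 1
    have h2 := h 2
    have h3 := h 3
    have h4 := h 4
    simp [ev_apply, X8, Fin.sum_univ_succ] at h0 h1 h2 h3 h4
    funext i
    fin_cases i <;> simp <;> omega

lemma config14 : Config 10 14 10 8 X14 where
  hd := by norm_num
  ht := by norm_num
  nn := by decide +kernel
  hB := by decide +kernel
  hcard := by decide +kernel
  hdiff := by decide +kernel
  hsupp := by decide +kernel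
  hinj := by
    intro t t' h
    have h0 := h 0
    have h1 := h 1
    have h2 := h 2
    have h3 := h 3
    have h4 := h 6
    have h5 := h 7
    have h6 := h 8
    have h7 := h 10
    have h8 := h 11
    have h9 := h 12
    simp [ev_apply, X14, Fin.sum_univ_succ] at h0 h1 h2 h3 h4 h5 h6 h7 h8 h9
    funext i
    fin_cases i <;> simp <;> omega

end Pool.Agent.V11180.DiffRel
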