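import Mathlib
import Pool.Agent.V11180.DiffRel5

/-!
# Rank four and a large support leave room for at most ten coincidences
-/

set_option autoImplicit false

open Finset Module
open scoped Pointwise

namespace Pool.Agent.V11180.DiffRel

open Classical in
/-- the nonzero relation vectors of `S` -/
noncomputable def RV (S : Finset ℤ) : Finset (ℤ →₀ ℚ) :=
  ((S ×ˢ S ×ˢ S ×ˢ S).filter (fun q => q.1 + q.2.1 = q.2.2.1 + q.2.2.2 ∧ q.1 ≠ q.2.2.1 ∧
    q.1 ≠ q.2.2.2)).image (fun q => rv q.1 q.2.1 q.2.2.1 q.2.2.2)

lemma mem_RV {S : Finset ℤ} {w : ℤ →₀ ℚ} : w ∈ RV S ↔ ∃ a ∈ S, ∃ b ∈ S, ∃ c ∈ S, ∃ d ∈ S,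
    a + b = c + d ∧ a ≠ c ∧ a ≠ d ∧ w = rv a b c d := by
  classical
  rw [RV, mem_image]
  constructor
  · rintro ⟨⟨a, b, c, d⟩, hq, rfl⟩
    rw [mem_filter, mem_product, mem_product, mem_product] at hq
    exact ⟨a, hq.1.1, b, hq.1.2.1, c, hq.1.2.2.1, d, hq.1.2.2.2, hq.2.1, hq.2.2.1, hq.2.2.2, rfl⟩
  · rintro ⟨a, ha, b, hb, c, hc, d, hd, h, h1, h2, rfl⟩
    refine ⟨(a, b, c, d), ?_, rfl⟩
    rw [mem_filter, mem_product, mem_product, mem_product]
    exact ⟨⟨ha, hb, hc, hd⟩, h, h1, h2⟩

lemma RV_mono {S T : Finset ℤ} (h : S ⊆ T) : RV S ⊆ RV T := by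
  intro w
  rw [mem_RV, mem_RV]
  rintro ⟨a, ha, b, hb, c, hc, d, hd, h'⟩
  exact ⟨a, h ha, b, h hb, c, h hc, d, h hd, h'⟩

lemma RV_neg {S : Finset ℤ} {w : ℤ →₀ ℚ} (h : w ∈ RV S) : -w ∈ RV S := by
  rw [mem_RV] at h ⊢
  obtain ⟨a, ha, b, hb, c, hc, d, hd, h, h1, h2, rfl⟩ := h
  refine ⟨c, hc, d, hd, a, ha, b, hb, h.symm, h1.symm, by omega, ?_⟩
  simp only [rv]
  abel

lemma span_RV (S : Finset ℤ) : Submodule.span ℚ (RV S : Set (ℤ →₀ ℚ)) = R S := by
  apply le_antisymm
  · rw [Submodule.span_le]
    intro w hw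
    rw [mem_coe, mem_RV] at hw
    obtain ⟨a, ha, b, hb, c, hc, d, hd, h, h1, h2, rfl⟩ := hw
    exact rv_mem ha hb hc hd h
  · rw [R, Submodule.span_le]
    rintro w ⟨a, ha, b, hb, c, hc, d, hd, h, rfl⟩
    by_cases h1 : a = c
    · subst h1
      have : b = d := by omega
      subst this
      have : rv a b a b = 0 := by simp [rv]
      rw [this]
      exact Submodule.zero_mem _
    by_cases h2 : a = d
    · subst h2
      have : b = c := by omega
      subst this
      have : rv a b b a = 0 := by simp [rv]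
      rw [this]
      exact Submodule.zero_mem _
    exact Submodule.subset_span (mem_coe.2 (mem_RV.2 ⟨a, ha, b, hb, c, hc, d, hd, h, h1, h2, rfl⟩))

lemma re_apply_top {x : ℤ} {T : Finset ℤ} (hx : ∀ y ∈ T, y < x) {e : ℤ × ℤ} (he : e ∈ G x T) :
    re x e x = 1 := by
  have hG := mem_G.1 he
  have h1 := hx _ hG.1
  have h2 := hx _ hG.2.1
  have h3 := hx _ hG.2.2
  rw [re, rv_apply, if_pos rfl, if_neg (by omega), if_neg (by omega), if_neg (by omega)]
  norm_num

lemma re_neg_iff {x : ℤ} {T : Finset ℤ} (hx : ∀ y ∈ T, y < x) {e : ℤ × ℤ} (he : e ∈ G x T)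
    (t : ℤ) : re x e t < 0 ↔ t = e.1 ∨ t = e.2 := by
  have hG := mem_G.1 he
  have h1 := hx _ hG.1
  have h2 := hx _ hG.2.1
  constructor
  · intro h
    by_contra hcon
    push Not at hcon
    rw [re, rv_apply, if_neg hcon.1.symm, if_neg hcon.2.symm] at h
    have b1 : (0 : ℚ) ≤ (if x = t then 1 else 0) := by split_ifs <;> norm_num
    have b2 : (0 : ℚ) ≤ (if e.1 + e.2 - x = t then 1 else 0) := by split_ifs <;> norm_num
    linarith
  · rintro (rfl | rfl)
    · rw [re, rv_apply, if_neg (show ¬ x = e.1 by omega),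
        if_neg (show ¬ e.1 + e.2 - x = e.1 by omega), if_pos rfl]
      have b1 : (0 : ℚ) ≤ (if e.2 = e.1 then 1 else 0) := by split_ifs <;> norm_num
      linarith
    · rw [re, rv_apply, if_neg (show ¬ x = e.2 by omega),
        if_neg (show ¬ e.1 + e.2 - x = e.2 by omega), if_pos (show e.2 = e.2 from rfl)]
      have b1 : (0 : ℚ) ≤ (if e.1 = e.2 then 1 else 0) := by split_ifs <;> norm_num
      linarith

/-- the number of coincidences is at most the number of nonzero relation vectors -/
theorem choose_le_RV (S : Finset ℤ) : S.card.choose 2 ≤ (Dp S).card + (RV S).card := by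
  classical
  induction S using Finset.induction_on_max with
  | empty => simp
  | insert x T hx ih =>
    have hxT : x ∉ T := fun h => lt_irrefl _ (hx x h)
    have h1 := card_Dp_insert hx
    rw [card_insert_of_notMem hxT, choose_two_succ]
    have h2 : ∀ y, ∃ u, y ∈ Y x T → (y, u) ∈ G x T := by
      intro y
      by_cases hy : y ∈ Y x T
      · rw [mem_Y hx] at hy
        obtain ⟨hy, u, hu, hv⟩ := hy
        exact ⟨u, fun _ => mem_G.2 ⟨hy, hu, hv⟩⟩
      · exact ⟨0, fun h => absurd h hy⟩
    choose u hu using h2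
    have h3 : (Y x T).card ≤ ((RV (insert x T)).filter (fun w => w x ≠ 0)).card := by
      apply card_le_card_of_injOn (fun y => if y ≤ u y then re x (y, u y) else - re x (y, u y))
      · intro y hy
        rw [mem_coe] at hy
        have hG := mem_G.1 (hu y hy)
        simp only at hG
        have q1 := hx _ hG.1
        have q2 := hx _ hG.2.1
        have hmem : re x (y, u y) ∈ RV (insert x T) := by
          rw [mem_RV]
          exact ⟨x, mem_insert_self _ _, _, mem_insert_of_mem hG.2.2, y, mem_insert_of_mem hG.1,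
            u y, mem_insert_of_mem hG.2.1, by ring, by omega, by omega, rfl⟩
        have htop := re_apply_top hx (hu y hy)
        rw [mem_coe, mem_filter]
        simp only
        split_ifs
        · exact ⟨hmem, by rw [htop]; norm_num⟩
        · exact ⟨RV_neg hmem, by rw [Finsupp.neg_apply, htop]; norm_num⟩
      · intro y hy y' hy' h
        rw [mem_coe] at hy hy'
        simp only at h
        have t1 := re_apply_top hx (hu y hy)
        have t2 := re_apply_top hx (hu y' hy')
        have n1 := re_neg_iff hx (hu y hy)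
        have n2 := re_neg_iff hx (hu y' hy')
        simp only at n1 n2
        have key : re x (y, u y) = re x (y', u y') →
            (y = y' ∨ y = u y') ∧ (y' = y ∨ y' = u y) ∧ (u y = y' ∨ u y = u y') := by
          intro heq
          refine ⟨?_, ?_, ?_⟩
          · rw [← n2 y, ← heq, n1 y]
            exact Or.inl rfl
          · rw [← n1 y', heq, n2 y']
            exact Or.inl rfl
          · rw [← n2 (u y), ← heq, n1 (u y)]
            exact Or.inr rfl
        by_cases c1 : y ≤ u y
        · rw [if_pos c1] at h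
          by_cases c2 : y' ≤ u y'
          · rw [if_pos c2] at h
            have := key h
            omega
          · rw [if_neg c2] at h
            have h4 := DFunLike.congr_fun h x
            rw [Finsupp.neg_apply, t1, t2] at h4
            norm_num at h4
        · rw [if_neg c1] at h
          by_cases c2 : y' ≤ u y'
          · rw [if_pos c2] at h
            have h4 := DFunLike.congr_fun h x
            rw [Finsupp.neg_apply, t1, t2] at h4
            norm_num at h4
          · rw [if_neg c2] at h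
            have := key (neg_injective h)
            omega
    have h4 : (RV T).card ≤ ((RV (insert x T)).filter (fun w => ¬ w x ≠ 0)).card := by
      apply card_le_card
      intro w hw
      rw [mem_filter, not_not]
      refine ⟨RV_mono (subset_insert _ _) hw, ?_⟩
      have : w ∈ R T := by
        rw [← span_RV]
        exact Submodule.subset_span hw
      exact R_support this hxT
    have h5 := card_filter_add_card_filter_not (s := RV (insert x T)) (fun w => w x ≠ 0)
    omega

lemma rv_abs {a b c d : ℤ} (h : a + b = c + d) (h1 : a ≠ c) (h2 : a ≠ d) (p : ℤ) :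
    |rv a b c d p| = (if a = p then 1 else 0) + (if b = p then 1 else 0) +
      (if c = p then 1 else 0) + (if d = p then 1 else 0) := by
  rw [rv_apply]
  have h3 : b ≠ c := by omega
  have h4 : b ≠ d := by omega
  by_cases c1 : c = p ∨ d = p
  · have q1 : ¬ a = p := by omega
    have q2 : ¬ b = p := by omega
    rw [if_neg q1, if_neg q2]
    have b1 : (0 : ℚ) ≤ (if c = p then 1 else 0) := by split_ifs <;> norm_num
    have b2 : (0 : ℚ) ≤ (if d = p then 1 else 0) := by split_ifs <;> norm_num
    rw [abs_of_nonpos (by linarith)]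
    ring
  · push Not at c1
    rw [if_neg c1.1, if_neg c1.2]
    have b1 : (0 : ℚ) ≤ (if a = p then 1 else 0) := by split_ifs <;> norm_num
    have b2 : (0 : ℚ) ≤ (if b = p then 1 else 0) := by split_ifs <;> norm_num
    rw [abs_of_nonneg (by linarith)]
    ring

lemma norm_RV {S : Finset ℤ} {w : ℤ →₀ ℚ} (hw : w ∈ RV S) : ∑ p ∈ S, |w p| = 4 := by
  rw [mem_RV] at hw
  obtain ⟨a, ha, b, hb, c, hc, d, hd, h, h1, h2, rfl⟩ := hw
  simp only [rv_abs h h1 h2, sum_add_distrib, sum_ite_eq, if_pos ha, if_pos hb, if_pos hc,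
    if_pos hd]
  norm_num

lemma RV_prop {S : Finset ℤ} {v w : ℤ →₀ ℚ} (hv : v ∈ RV S) (hw : w ∈ RV S) {α : ℚ}
    (h : w = α • v) : w = v ∨ w = -v := by
  have h1 := norm_RV hv
  have h2 := norm_RV hw
  have h3 : ∑ p ∈ S, |w p| = |α| * ∑ p ∈ S, |v p| := by
    rw [mul_sum]
    apply sum_congr rfl
    intro p _
    rw [h, Finsupp.smul_apply, smul_eq_mul, abs_mul]
  rw [h1, h2] at h3
  have h4 : |α| = 1 := by linarith
  rcases (abs_eq (by norm_num : (0 : ℚ) ≤ 1)).1 h4 with h5 | h5
  · left
    rw [h, h5, one_smul]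
  · right
    rw [h, h5, neg_smul, one_smul]

lemma support_card_RV {S : Finset ℤ} {w : ℤ →₀ ℚ} (hw : w ∈ RV S) : w.support.card ≤ 4 := by
  rw [mem_RV] at hw
  obtain ⟨a, ha, b, hb, c, hc, d, hd, h, h1, h2, rfl⟩ := hw
  have h3 : (rv a b c d).support ⊆ {a, b, c, d} := by
    intro p hp
    rw [Finsupp.mem_support_iff] at hp
    by_contra hcon
    simp only [mem_insert, mem_singleton, not_or] at hcon
    apply hp
    rw [rv_apply, if_neg (Ne.symm hcon.1), if_neg (Ne.symm hcon.2.1),
      if_neg (Ne.symm hcon.2.2.1), if_neg (Ne.symm hcon.2.2.2)]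
    norm_num
  exact (card_le_card h3).trans card_le_four

/-- the union of the supports -/
def UU (J : Finset (ℤ →₀ ℚ)) : Finset ℤ := J.biUnion Finsupp.support

/-- the points in exactly one support -/
def Sing (J : Finset (ℤ →₀ ℚ)) : Finset ℤ :=
  (UU J).filter (fun p => (J.filter (fun v => v p ≠ 0)).card = 1)

lemma two_UU (J : Finset (ℤ →₀ ℚ)) :
    2 * (UU J).card ≤ ∑ v ∈ J, v.support.card + (Sing J).card := by
  classical
  have h1 : ∑ v ∈ J, v.support.card = ∑ p ∈ UU J, (J.filter (fun v => v p ≠ 0)).card := by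
    have h2 := sum_card_bipartiteAbove_eq_sum_card_bipartiteBelow (s := J) (t := UU J)
      (fun (v : ℤ →₀ ℚ) (p : ℤ) => v p ≠ 0)
    unfold bipartiteAbove bipartiteBelow at h2
    rw [← h2]
    apply sum_congr rfl
    intro v hv
    congr 1
    ext p
    rw [Finsupp.mem_support_iff, mem_filter]
    constructor
    · intro h
      exact ⟨mem_biUnion.2 ⟨v, hv, Finsupp.mem_support_iff.2 h⟩, h⟩
    · exact fun h => h.2
  have h2 : (Sing J).card = ∑ p ∈ UU J, (if (J.filter (fun v => v p ≠ 0)).card = 1 then 1 else 0)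
      := by
    rw [Sing, card_filter]
  rw [h1, h2, ← sum_add_distrib, mul_comm, ← smul_eq_mul]
  apply card_nsmul_le_sum
  intro p hp
  have h3 : 0 < (J.filter (fun v => v p ≠ 0)).card := by
    rw [card_pos]
    rw [UU, mem_biUnion] at hp
    obtain ⟨v, hv, hp⟩ := hp
    exact ⟨v, mem_filter.2 ⟨hv, Finsupp.mem_support_iff.1 hp⟩⟩
  split_ifs <;> omega

lemma sing_subset {J : Finset (ℤ →₀ ℚ)} {α : (ℤ →₀ ℚ) → ℚ} (hα : ∀ v ∈ J, α v ≠ 0)
    {w : ℤ →₀ ℚ} (hw : w = ∑ v ∈ J, α v • v) : Sing J ⊆ w.support := by
  classical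
  intro p hp
  rw [Sing, mem_filter, card_eq_one] at hp
  obtain ⟨-, v0, hv0⟩ := hp
  have h1 : v0 ∈ J.filter (fun v => v p ≠ 0) := by rw [hv0]; exact mem_singleton_self _
  rw [mem_filter] at h1
  rw [Finsupp.mem_support_iff, hw, Finsupp.finsetSum_apply, sum_eq_single_of_mem v0 h1.1]
  · rw [Finsupp.smul_apply, smul_eq_mul]
    exact mul_ne_zero (hα v0 h1.1) h1.2
  · intro v hv hne
    rw [Finsupp.smul_apply, smul_eq_mul]
    by_cases h2 : v p = 0
    · rw [h2, mul_zero]
    · exfalso
      have h3 : v ∈ J.filter (fun v => v p ≠ 0) := mem_filter.2 ⟨hv, h2⟩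
      rw [hv0, mem_singleton] at h3
      exact hne h3

lemma UU_union (J K : Finset (ℤ →₀ ℚ)) [DecidableEq (ℤ →₀ ℚ)] :
    UU (J ∪ K) = UU J ∪ UU K := by
  ext p
  simp only [UU, mem_union, mem_biUnion]
  constructor
  · rintro ⟨v, hv | hv, hp⟩
    · exact Or.inl ⟨v, hv, hp⟩
    · exact Or.inr ⟨v, hv, hp⟩
  · rintro (⟨v, hv, hp⟩ | ⟨v, hv, hp⟩)
    · exact ⟨v, Or.inl hv, hp⟩
    · exact ⟨v, Or.inr hv, hp⟩

lemma UU_card_le {J : Finset (ℤ →₀ ℚ)} (h : ∀ v ∈ J, v.support.card ≤ 4) :
    (UU J).card ≤ J.card * 4 := card_biUnion_le_card_mul _ _ _ h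

/-- rank four and at least fourteen points in the support: at most ten relation vectors -/
theorem card_RV_le {S : Finset ℤ} (h4 : rho S = 4) (h14 : 14 ≤ (supp S).card) :
    (RV S).card ≤ 10 := by
  classical
  obtain ⟨b, hb1, hb2, hb3⟩ := exists_linearIndependent ℚ (RV S : Set (ℤ →₀ ℚ))
  have hbfin : b.Finite := (finite_toSet _).subset hb1
  set B := hbfin.toFinset with hB
  have hBb : (B : Set (ℤ →₀ ℚ)) = b := hbfin.coe_toFinset
  have hBR : ∀ v ∈ B, v ∈ RV S := by
    intro v hv
    rw [hB, Set.Finite.mem_toFinset] at hv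
    exact hb1 hv
  have hB4 : B.card = 4 := by
    have : Fintype b := hbfin.fintype
    have h1 := finrank_span_set_eq_card hb3
    rw [hb2, span_RV] at h1
    rw [rho] at h4
    rw [h4] at h1
    rw [hB, Set.Finite.toFinset_eq_toFinset]
    exact h1.symm
  have hBs : ∀ v ∈ B, v.support.card ≤ 4 := fun v hv => support_card_RV (hBR v hv)
  -- coefficients
  have hcoef : ∀ w ∈ RV S, ∃ α : (ℤ →₀ ℚ) → ℚ,
      w = ∑ v ∈ B.filter (fun v => α v ≠ 0), α v • v := by
    intro w hw
    have h1 : w ∈ Submodule.span ℚ (B : Set (ℤ →₀ ℚ)) := by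
      rw [hBb, hb2]
      exact Submodule.subset_span hw
    rw [Submodule.mem_span_finset] at h1
    obtain ⟨α, -, h1⟩ := h1
    refine ⟨α, ?_⟩
    rw [← h1, sum_filter]
    apply sum_congr rfl
    intro v _
    split_ifs with h2
    · rfl
    · rw [not_not.1 h2, zero_smul]
  have hU14 : 14 ≤ (UU B).card := by
    refine h14.trans (card_le_card ?_)
    intro p hp
    rw [mem_supp] at hp
    obtain ⟨hp, b', hb', c, hc, d, hd, h, h1, h2⟩ := hp
    obtain ⟨α, hα⟩ := hcoef (rv p b' c d) (mem_RV.2 ⟨p, hp, b', hb', c, hc, d, hd, h, h1, h2, rfl⟩)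
    have h3 : rv p b' c d p ≠ 0 := by
      have h5 := rv_abs h h1 h2 p
      rw [if_pos rfl] at h5
      intro h6
      rw [h6, abs_zero] at h5
      have b1 : (0 : ℚ) ≤ (if b' = p then 1 else 0) := by split_ifs <;> norm_num
      have b2 : (0 : ℚ) ≤ (if c = p then 1 else 0) := by split_ifs <;> norm_num
      have b3 : (0 : ℚ) ≤ (if d = p then 1 else 0) := by split_ifs <;> norm_num
      linarith
    rw [UU, mem_biUnion]
    by_contra hcon
    push Not at hcon
    apply h3
    rw [hα, Finsupp.finsetSum_apply]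
    apply sum_eq_zero
    intro v hv
    rw [Finsupp.smul_apply, Finsupp.notMem_support_iff.1 (hcon v (mem_filter.1 hv).1), smul_zero]
  have hUJ : ∀ J ⊆ B, 4 * J.card ≤ (UU J).card + 2 := by
    intro J hJ
    have h1 : UU B = UU J ∪ UU (B \ J) := by
      rw [← UU_union, union_sdiff_of_subset hJ]
    have h2 := card_union_le (UU J) (UU (B \ J))
    rw [← h1] at h2
    have h3 := UU_card_le (J := B \ J) (fun v hv => hBs v (sdiff_subset hv))
    rw [card_sdiff_of_subset hJ] at h3
    have h5 := card_le_card hJ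
    omega
  have hsum4 : ∀ J ⊆ B, ∑ v ∈ J, v.support.card ≤ 4 * J.card := by
    intro J hJ
    have := sum_le_card_nsmul J (fun v => v.support.card) 4 (fun v hv => hBs v (hJ hv))
    rw [smul_eq_mul] at this
    omega
  -- the structure of one relation vector
  have hstr : ∀ w ∈ RV S, w ∈ B ∨ -w ∈ B ∨ ∃ α : (ℤ →₀ ℚ) → ℚ, ∃ J ⊆ B,
      (∀ v ∈ J, α v ≠ 0) ∧ w = ∑ v ∈ J, α v • v ∧ J.card = 2 ∧ (UU J).card = 6 ∧
      (∀ v ∈ J, v.support.card = 4) ∧ w.support = Sing J ∧ (Sing J).card = 4 := by
    intro w hw
    obtain ⟨α, hα⟩ := hcoef w hw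
    set J := B.filter (fun v => α v ≠ 0) with hJ
    have hJB : J ⊆ B := filter_subset _ _
    have hJα : ∀ v ∈ J, α v ≠ 0 := fun v hv => (mem_filter.1 hv).2
    have h1 := sing_subset hJα hα
    have h2 := card_le_card h1
    have h3 := support_card_RV hw
    have h5 := two_UU J
    have h6 := hUJ J hJB
    have h7 := hsum4 J hJB
    have h8 : J.card ≤ 2 := by omega
    have h9 : J.card ≠ 0 := by
      intro h0
      rw [card_eq_zero] at h0
      rw [h0, sum_empty] at hα
      have h10 := norm_RV hw
      rw [hα] at h10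
      simp at h10
    rcases (show J.card = 1 ∨ J.card = 2 by omega) with h10 | h10
    · obtain ⟨v, hv⟩ := card_eq_one.1 h10
      have hvB : v ∈ B := hJB (by rw [hv]; exact mem_singleton_self _)
      rw [hv, sum_singleton] at hα
      rcases RV_prop (hBR v hvB) hw hα with h11 | h11
      · left
        rw [h11]
        exact hvB
      · right
        left
        rw [h11, neg_neg]
        exact hvB
    · right
      right
      refine ⟨α, J, hJB, hJα, hα, h10, by omega, ?_, ?_, by omega⟩
      · intro v hv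
        have h12 := add_sum_erase J (fun v => v.support.card) hv
        have h13 := sum_le_card_nsmul (J.erase v) (fun v => v.support.card) 4
          (fun v hv => hBs v (hJB (mem_of_mem_erase hv)))
        rw [card_erase_of_mem hv, h10] at h13
        have h14 := hBs v (hJB hv)
        simp only [smul_eq_mul] at h13
        omega
      · symm
        apply eq_of_subset_of_card_le h1
        omega
  by_cases hex : ∃ w0 ∈ RV S, ∃ α : (ℤ →₀ ℚ) → ℚ, ∃ J ⊆ B,
      (∀ v ∈ J, α v ≠ 0) ∧ w0 = ∑ v ∈ J, α v • v ∧ J.card = 2 ∧ (UU J).card = 6 ∧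
      (∀ v ∈ J, v.support.card = 4) ∧ w0.support = Sing J ∧ (Sing J).card = 4
  · obtain ⟨w0, hw0, α0, J0, hJ0, hα0, hw0s, hc0, hU0, hn0, hs0, hsc0⟩ := hex
    have hsub : RV S ⊆ B ∪ B.image (fun v => -v) ∪ {w0, -w0} := by
      intro w hw
      rw [mem_union, mem_union, mem_image]
      rcases hstr w hw with h | h | h
      · exact Or.inl (Or.inl h)
      · exact Or.inl (Or.inr ⟨-w, h, neg_neg w⟩)
      · right
        obtain ⟨α, J, hJ, hα, hws, hc, hU, hn, hs, hsc⟩ := h
        have hJJ : J = J0 := by
          by_contra hne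
          have h1 := hUJ (J ∪ J0) (union_subset hJ hJ0)
          rw [UU_union] at h1
          have h2 := card_union_add_card_inter (UU J) (UU J0)
          have h3 := card_union_add_card_inter J J0
          rcases (J ∩ J0).eq_empty_or_nonempty with h5 | ⟨v, hv⟩
          · rw [h5, card_empty] at h3
            omega
          · rw [mem_inter] at hv
            have h6 : v.support ⊆ UU J ∩ UU J0 := by
              intro p hp
              rw [mem_inter, UU, UU, mem_biUnion, mem_biUnion]
              exact ⟨⟨v, hv.1, hp⟩, ⟨v, hv.2, hp⟩⟩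
            have h7 := card_le_card h6
            rw [hn v hv.1] at h7
            have h8 : (J ∩ J0).card < 2 := by
              by_contra hge
              have h9 : J ∩ J0 = J := eq_of_subset_of_card_le inter_subset_left (by omega)
              have h10 : J ∩ J0 = J0 := eq_of_subset_of_card_le inter_subset_right (by omega)
              exact hne (h9.symm.trans h10)
            omega
        subst hJJ
        -- a common point
        have h1 : ∃ p ∈ UU J, p ∉ Sing J := by
          by_contra hcon
          push Not at hcon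
          have := card_le_card (show UU J ⊆ Sing J from hcon)
          omega
        obtain ⟨p, hpU, hpS⟩ := h1
        obtain ⟨v, v', hvv, hJv⟩ := card_eq_two.1 hc
        have h2 : v p ≠ 0 ∧ v' p ≠ 0 := by
          have h3 : (J.filter (fun v => v p ≠ 0)).card ≠ 1 := by
            intro h3
            exact hpS (mem_filter.2 ⟨hpU, h3⟩)
          have h5 : (J.filter (fun v => v p ≠ 0)).card ≠ 0 := by
            rw [UU, mem_biUnion] at hpU
            obtain ⟨z, hz, hpz⟩ := hpU
            have : 0 < (J.filter (fun v => v p ≠ 0)).card :=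
              card_pos.2 ⟨z, mem_filter.2 ⟨hz, Finsupp.mem_support_iff.1 hpz⟩⟩
            omega
          have h6 : J.filter (fun v => v p ≠ 0) = J :=
            eq_of_subset_of_card_le (filter_subset _ _) (by omega)
          constructor
          · have : v ∈ J.filter (fun v => v p ≠ 0) := by rw [h6, hJv]; simp
            exact (mem_filter.1 this).2
          · have : v' ∈ J.filter (fun v => v p ≠ 0) := by rw [h6, hJv]; simp
            exact (mem_filter.1 this).2
        have h3 : w p = 0 := by
          rw [← Finsupp.notMem_support_iff, hs]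
          exact hpS
        have h5 : w0 p = 0 := by
          rw [← Finsupp.notMem_support_iff, hs0]
          exact hpS
        rw [hJv, sum_pair hvv] at hws hw0s
        have hvJ : v ∈ J := by rw [hJv]; simp
        have hv'J : v' ∈ J := by rw [hJv]; simp
        have e1 : α v * v p + α v' * v' p = 0 := by
          rw [hws] at h3
          simpa using h3
        have e2 : α0 v * v p + α0 v' * v' p = 0 := by
          rw [hw0s] at h5
          simpa using h5
        have e3 : α v' = α v / α0 v * α0 v' := by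
          have q1 := hα0 v hvJ
          have q2 := h2.2
          field_simp
          have : (α v' * α0 v - α v * α0 v') * v' p = 0 := by
            linear_combination (α0 v) * e1 - (α v) * e2
          rcases mul_eq_zero.1 this with h | h
          · linarith
          · exact absurd h q2
        have h6 : w = (α v / α0 v) • w0 := by
          rw [hws, hw0s, smul_add, smul_smul, smul_smul, ← e3, div_mul_cancel₀ _ (hα0 v hvJ)]
        rw [mem_insert, mem_singleton]
        exact RV_prop hw0 hw h6
    have h1 := card_le_card hsub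
    have h2 := card_union_le (B ∪ B.image (fun v => -v)) {w0, -w0}
    have h3 := card_union_le B (B.image (fun v => -v))
    have h5 := card_image_le (s := B) (f := fun v => -v)
    have h6 : ({w0, -w0} : Finset (ℤ →₀ ℚ)).card ≤ 2 := card_le_two
    omega
  · have hsub : RV S ⊆ B ∪ B.image (fun v => -v) := by
      intro w hw
      rw [mem_union, mem_image]
      rcases hstr w hw with h | h | h
      · exact Or.inl h
      · exact Or.inr ⟨-w, h, neg_neg w⟩
      · exact absurd ⟨w, hw, h⟩ hex
    have h1 := card_le_card hsub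
    have h3 := card_union_le B (B.image (fun v => -v))
    have h5 := card_image_le (s := B) (f := fun v => -v)
    omega

theorem supp_le {S : Finset ℤ} (h4 : rho S = 4) (h11 : (Dp S).card + 11 = S.card.choose 2) :
    (supp S).card ≤ 13 := by
  by_contra hcon
  have h1 := card_RV_le h4 (by omega)
  have h2 := choose_le_RV S
  omega

lemma R_supp (S : Finset ℤ) : R (supp S) = R S := by
  apply le_antisymm (R_mono (supp_subset S))
  rw [R, Submodule.span_le]
  rintro w ⟨a, ha, b, hb, c, hc, d, hd, h, rfl⟩
  by_cases h1 : a = c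
  · subst h1
    have : b = d := by omega
    subst this
    have : rv a b a b = 0 := by simp [rv]
    rw [this]
    exact Submodule.zero_mem _
  by_cases h2 : a = d
  · subst h2
    have : b = c := by omega
    subst this
    have : rv a b b a = 0 := by simp [rv]
    rw [this]
    exact Submodule.zero_mem _
  refine rv_mem (mem_supp.2 ⟨ha, b, hb, c, hc, d, hd, h, h1, h2⟩)
    (mem_supp.2 ⟨hb, a, ha, c, hc, d, hd, by omega, by omega, by omega⟩)
    (mem_supp.2 ⟨hc, d, hd, a, ha, b, hb, h.symm, by omega, by omega⟩)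
    (mem_supp.2 ⟨hd, c, hc, a, ha, b, hb, by omega, by omega, by omega⟩) h

end Pool.Agent.V11180.DiffRel
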