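import Mathlib
import Pool.Agent.V11180.DiffRel6
import Pool.Agent.V11180.DiffRel7

/-!
# Comparison of the numbers of sets with given numbers of differences
-/

set_option autoImplicit false

open Finset Module
open scoped Pointwise

namespace Pool.Agent.V11180.DiffRel

/-- the number of subsets of `[0, n)` with `D` positive differences -/
noncomputable def N (n D : ℕ) : ℕ :=
  ((Ico (0 : ℤ) n).powerset.filter (fun S => (Dp S).card = D)).card

lemma cls_le_N {n s c0 D : ℕ} (h : D + c0 = s.choose 2) : (cls n s c0).card ≤ N n D := by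
  apply card_le_card
  intro S hS
  rw [cls, mem_filter] at hS
  rw [mem_filter]
  exact ⟨hS.1, by omega⟩

theorem card_rank_le' (M e : ℕ) : ∃ K : ℕ, ∀ n : ℕ, 1 ≤ n → ∀ 𝒮 : Finset (Finset ℤ),
    (∀ S ∈ 𝒮, S ⊆ Ico (0 : ℤ) n ∧ S.card ≤ M ∧ S.card ≤ rho S + e) →
      𝒮.card ≤ K * n ^ e := by
  classical
  choose K hK using card_rank_le
  refine ⟨∑ s ∈ range (M + 1), K s, ?_⟩
  intro n hn 𝒮 h𝒮
  rw [card_eq_sum_card_fiberwise (f := fun S : Finset ℤ => S.card) (t := range (M + 1)), sum_mul]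
  · apply sum_le_sum
    intro s _
    have h1 := hK s (s - e) n hn (𝒮.filter (fun S => S.card = s)) (by
      intro S hS
      rw [mem_filter] at hS
      obtain ⟨h1, h2, h3⟩ := h𝒮 S hS.1
      exact ⟨h1, hS.2, by omega⟩)
    exact h1.trans (Nat.mul_le_mul_left _ (Nat.pow_le_pow_right hn (by omega)))
  · intro S hS
    rw [mem_coe, mem_range]
    have := (h𝒮 S hS).2.1
    simp only
    omega

theorem upper_a : ∃ K : ℕ, ∀ n : ℕ, 1 ≤ n → N n 80 ≤ K * n ^ 10 := by
  obtain ⟨K, hK⟩ := card_rank_le' 81 10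
  refine ⟨K, fun n hn => hK n hn _ ?_⟩
  intro S hS
  rw [mem_filter, mem_powerset] at hS
  have h1 := card_le_Dp S
  exact ⟨hS.1, by omega, key_a hS.2⟩

theorem a_main : ∃ n0 : ℕ, ∀ n ≥ n0, N n 80 < N n 79 := by
  obtain ⟨K, hK⟩ := upper_a
  obtain ⟨Q, hQ, hQ'⟩ := cls_lower config8 (by norm_num)
  obtain ⟨n1, hn1⟩ := hQ' 6
  refine ⟨n1 + Q * Nat.factorial 6 * K + 1, ?_⟩
  intro n hn
  have h1 := hK n (by omega)
  have h2 := hn1 n (by omega)
  have h3 : (cls n (8 + 6) 12).card ≤ N n 79 := cls_le_N (by decide)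
  by_contra hcon
  push Not at hcon
  have h4 : n ^ 11 ≤ (Q * Nat.factorial 6 * K) * n ^ 10 := by
    calc n ^ 11 = n ^ (5 + 6) := by norm_num
      _ ≤ Q * Nat.factorial 6 * (cls n (8 + 6) 12).card := h2
      _ ≤ Q * Nat.factorial 6 * (K * n ^ 10) :=
          Nat.mul_le_mul_left _ (h3.trans (hcon.trans h1))
      _ = (Q * Nat.factorial 6 * K) * n ^ 10 := by ring
  have h5 : n ^ 11 = n * n ^ 10 := by ring
  rw [h5] at h4
  have h6 : 0 < n ^ 10 := by
    apply Nat.pow_pos
    omega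
  have h7 := Nat.le_of_mul_le_mul_right h4 h6
  omega

lemma rho_le_card (S : Finset ℤ) : rho S ≤ S.card := by
  have hrange : univ.image (S.orderEmbOfFin rfl) = S := by
    apply coe_injective
    rw [coe_image, coe_univ, Set.image_univ, range_orderEmbOfFin]
  have h1 := finrank_VT (S.orderEmbOfFin rfl).injective
  have h2 : rho (univ.image (S.orderEmbOfFin rfl)) = rho S := by rw [hrange]
  omega

/-- sets of size `s` and rank four with small support -/
theorem famB_le : ∃ K : ℕ, ∀ s n : ℕ, 13 ≤ s → 1 ≤ n → ∀ 𝒮 : Finset (Finset ℤ),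
    (∀ S ∈ 𝒮, S ⊆ Ico (0 : ℤ) n ∧ S.card = s ∧ rho S = 4 ∧ (supp S).card ≤ 13) →
      (s - 13).factorial * 𝒮.card ≤ K * n ^ (s - 4) := by
  classical
  choose K hK using card_rank_le
  refine ⟨∑ t ∈ range 14, K t, ?_⟩
  intro s n hs hn 𝒮 h𝒮
  rw [card_eq_sum_card_fiberwise (f := fun S : Finset ℤ => (supp S).card) (t := range 14),
    mul_sum, sum_mul]
  · apply sum_le_sum
    intro t ht
    rw [mem_range] at ht
    set 𝒮t := 𝒮.filter (fun S => (supp S).card = t) with h𝒮t
    set 𝒯 := (Ico (0 : ℤ) n).powerset.filter (fun T => T.card = t ∧ rho T = 4) with h𝒯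
    have h1 : 𝒯.card ≤ K t * n ^ (t - 4) := by
      apply hK t 4 n hn
      intro T hT
      rw [h𝒯, mem_filter, mem_powerset] at hT
      exact ⟨hT.1, hT.2.1, by omega⟩
    have hmaps : ∀ S ∈ 𝒮t, supp S ∈ 𝒯 ∧ S \ supp S ∈ powersetCard (s - t) (Ico (0 : ℤ) n) := by
      intro S hS
      rw [h𝒮t, mem_filter] at hS
      obtain ⟨h2, h3, h4, h5⟩ := h𝒮 S hS.1
      constructor
      · rw [h𝒯, mem_filter, mem_powerset]
        refine ⟨(supp_subset S).trans h2, hS.2, ?_⟩
        rw [rho, R_supp]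
        exact h4
      · rw [mem_powersetCard]
        refine ⟨sdiff_subset.trans h2, ?_⟩
        rw [card_sdiff_of_subset (supp_subset S), h3, hS.2]
    rcases 𝒮t.eq_empty_or_nonempty with h0 | ⟨S0, hS0⟩
    · rw [h0, card_empty, mul_zero]
      exact Nat.zero_le _
    · have ht4 : 4 ≤ t := by
        have h2 := (hmaps S0 hS0).1
        rw [h𝒯, mem_filter] at h2
        have h3 := rho_le_card (supp S0)
        omega
      have h2 : 𝒮t.card ≤ (𝒯 ×ˢ powersetCard (s - t) (Ico (0 : ℤ) n)).card := by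
        apply card_le_card_of_injOn (fun S => (supp S, S \ supp S))
        · intro S hS
          rw [mem_coe, mem_product]
          exact hmaps S hS
        · intro S _ S' _ h
          simp only [Prod.mk.injEq] at h
          rw [← union_sdiff_of_subset (supp_subset S), ← union_sdiff_of_subset (supp_subset S'),
            h.2, h.1]
      rw [card_product, card_powersetCard, Int.card_Ico, sub_zero, Int.toNat_natCast] at h2
      have h3 : (s - 13).factorial * n.choose (s - t) ≤ n ^ (s - t) := by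
        have h4 : (s - 13).factorial ≤ (s - t).factorial := Nat.factorial_le (by omega)
        have h5 := Nat.descFactorial_le_pow n (s - t)
        rw [Nat.descFactorial_eq_factorial_mul_choose] at h5
        exact (Nat.mul_le_mul_right _ h4).trans h5
      calc (s - 13).factorial * 𝒮t.card
          ≤ (s - 13).factorial * (𝒯.card * n.choose (s - t)) := Nat.mul_le_mul_left _ h2
        _ = 𝒯.card * ((s - 13).factorial * n.choose (s - t)) := by ring
        _ ≤ (K t * n ^ (t - 4)) * n ^ (s - t) := Nat.mul_le_mul h1 h3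
        _ = K t * n ^ (s - 4) := by
            rw [mul_assoc, ← pow_add]
            congr 2
            omega
  · intro S hS
    rw [mem_coe, mem_range]
    have := (h𝒮 S hS).2.2.2
    simp only
    omega

theorem upper_b : ∃ K : ℕ, ∀ s : ℕ, 20 ≤ s → ∃ K' : ℕ, ∀ n : ℕ, 1 ≤ n →
    (s - 13).factorial * N n (s.choose 2 - 11) ≤ K * n ^ (s - 4) + K' * n ^ (s - 5) := by
  classical
  obtain ⟨K, hK⟩ := famB_le
  refine ⟨K, ?_⟩
  intro s hs
  obtain ⟨K', hK'⟩ := card_rank_le' (s.choose 2) (s - 5)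
  refine ⟨(s - 13).factorial * K', ?_⟩
  intro n hn
  have hch : 190 ≤ s.choose 2 := by
    have h1 := Nat.choose_le_choose 2 hs
    have h2 : Nat.choose 20 2 = 190 := by decide
    omega
  set 𝒮 := (Ico (0 : ℤ) n).powerset.filter (fun S => (Dp S).card = s.choose 2 - 11) with h𝒮
  set 𝒮1 := 𝒮.filter (fun S => S.card = s ∧ rho S = 4) with h𝒮1
  set 𝒮2 := 𝒮.filter (fun S => ¬ (S.card = s ∧ rho S = 4)) with h𝒮2
  have h1 : 𝒮1.card + 𝒮2.card = 𝒮.card := card_filter_add_card_filter_not _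
  have h2 : (s - 13).factorial * 𝒮1.card ≤ K * n ^ (s - 4) := by
    apply hK s n (by omega) hn
    intro S hS
    rw [h𝒮1, mem_filter, h𝒮, mem_filter, mem_powerset] at hS
    refine ⟨hS.1.1, hS.2.1, hS.2.2, supp_le hS.2.2 ?_⟩
    rw [hS.2.1, hS.1.2]
    omega
  have h3 : 𝒮2.card ≤ K' * n ^ (s - 5) := by
    apply hK' n hn
    intro S hS
    rw [h𝒮2, mem_filter, h𝒮, mem_filter, mem_powerset] at hS
    have h4 := card_le_Dp S
    refine ⟨hS.1.1, by omega, ?_⟩
    rcases key_b (S := S) hs (by omega) with h5 | h5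
    · have h6 : rho S ≠ 4 := fun h => hS.2 ⟨h5.1, h⟩
      omega
    · omega
  have h4 : N n (s.choose 2 - 11) = 𝒮.card := rfl
  rw [h4, ← h1, mul_add, mul_assoc]
  exact Nat.add_le_add h2 (Nat.mul_le_mul_left _ h3)

lemma Dp_Ico (m : ℕ) : (Dp (Ico (0 : ℤ) (m + 1))).card = m := by
  have h1 : Dp (Ico (0 : ℤ) (m + 1)) = Ico (1 : ℤ) (m + 1) := by
    ext d
    rw [mem_Dp, mem_Ico]
    constructor
    · rintro ⟨a, ha, b, hb, h, hd⟩
      rw [mem_Ico] at ha hb
      omega
    · intro h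
      exact ⟨d, by rw [mem_Ico]; omega, 0, by rw [mem_Ico]; omega, by ring, by omega⟩
  rw [h1, Int.card_Ico]
  simp

lemma N_pos {n D : ℕ} (h : D + 1 ≤ n) : 0 < N n D := by
  rw [N, card_pos]
  refine ⟨Ico (0 : ℤ) (D + 1), ?_⟩
  rw [mem_filter, mem_powerset]
  refine ⟨?_, Dp_Ico D⟩
  intro x hx
  rw [mem_Ico] at hx ⊢
  omega

theorem b_main : ∃ s0 : ℕ, ∀ s ≥ s0, 20 ≤ s ∧ ∃ n0 : ℕ, ∀ n ≥ n0,
    0 < N n (s.choose 2 - 11) ∧ N n (s.choose 2 - 11) < N n (s.choose 2 - 12) ∧
    N n (s.choose 2 - 11) < N n (s.choose 2 - 10) := by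
  obtain ⟨K, hK⟩ := upper_b
  obtain ⟨Q, hQ, hQ'⟩ := cls_lower config14 (by norm_num)
  obtain ⟨Q8, hQ8, hQ8'⟩ := cls_lower config8 (by norm_num)
  refine ⟨20 + Q * K, ?_⟩
  intro s hs
  refine ⟨by omega, ?_⟩
  have hs20 : 20 ≤ s := by omega
  obtain ⟨K', hK'⟩ := hK s hs20
  obtain ⟨n1, hn1⟩ := hQ' (s - 14)
  obtain ⟨n2, hn2⟩ := hQ8' (s - 8)
  refine ⟨n1 + n2 + s.choose 2 + Q * K' + Q8 * (s - 8).factorial * (K + K') + 1, ?_⟩
  intro n hn
  have hch : 190 ≤ s.choose 2 := by
    have h1 := Nat.choose_le_choose 2 hs20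
    have h2 : Nat.choose 20 2 = 190 := by decide
    omega
  have u := hK' n (by omega)
  have l1 := hn1 n (by omega)
  have l2 := hn2 n (by omega)
  rw [show 10 + (s - 14) = s - 4 by omega, show 14 + (s - 14) = s by omega] at l1
  rw [show 5 + (s - 8) = s - 3 by omega, show 8 + (s - 8) = s by omega] at l2
  have c1 : (cls n s 10).card ≤ N n (s.choose 2 - 10) := cls_le_N (by omega)
  have c2 : (cls n s 12).card ≤ N n (s.choose 2 - 12) := cls_le_N (by omega)
  have hn0 : 0 < n := by omega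
  have e4 : n ^ (s - 4) = n * n ^ (s - 5) := by
    rw [show s - 4 = (s - 5) + 1 by omega, pow_succ]
    ring
  have e3 : n ^ (s - 3) = n * n ^ (s - 4) := by
    rw [show s - 3 = (s - 4) + 1 by omega, pow_succ]
    ring
  have f13 : (s - 13).factorial = (s - 13) * (s - 14).factorial := by
    rw [show s - 13 = (s - 14) + 1 by omega, Nat.factorial_succ]
  refine ⟨N_pos (by omega), ?_, ?_⟩
  · by_contra hcon
    push Not at hcon
    have h1 : N n (s.choose 2 - 11) ≤ (K + K') * n ^ (s - 4) := by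
      have h2 : 1 ≤ (s - 13).factorial := Nat.factorial_pos _
      have h3 : n ^ (s - 5) ≤ n ^ (s - 4) := Nat.pow_le_pow_right (by omega) (by omega)
      calc N n (s.choose 2 - 11) ≤ (s - 13).factorial * N n (s.choose 2 - 11) :=
            Nat.le_mul_of_pos_left _ h2
        _ ≤ K * n ^ (s - 4) + K' * n ^ (s - 5) := u
        _ ≤ K * n ^ (s - 4) + K' * n ^ (s - 4) :=
            Nat.add_le_add_left (Nat.mul_le_mul_left _ h3) _
        _ = (K + K') * n ^ (s - 4) := by ring
    have h4 : n * n ^ (s - 4) ≤ (Q8 * (s - 8).factorial * (K + K')) * n ^ (s - 4) := by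
      calc n * n ^ (s - 4) = n ^ (s - 3) := e3.symm
        _ ≤ Q8 * (s - 8).factorial * (cls n s 12).card := l2
        _ ≤ Q8 * (s - 8).factorial * ((K + K') * n ^ (s - 4)) :=
            Nat.mul_le_mul_left _ (c2.trans (hcon.trans h1))
        _ = (Q8 * (s - 8).factorial * (K + K')) * n ^ (s - 4) := by ring
    have h5 := Nat.le_of_mul_le_mul_right h4 (Nat.pow_pos hn0)
    omega
  · by_contra hcon
    push Not at hcon
    have h1 : (s - 13) * n ^ (s - 4) ≤ Q * (K * n ^ (s - 4) + K' * n ^ (s - 5)) := by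
      calc (s - 13) * n ^ (s - 4)
          ≤ (s - 13) * (Q * (s - 14).factorial * (cls n s 10).card) := Nat.mul_le_mul_left _ l1
        _ ≤ (s - 13) * (Q * (s - 14).factorial * N n (s.choose 2 - 11)) :=
            Nat.mul_le_mul_left _ (Nat.mul_le_mul_left _ (c1.trans hcon))
        _ = Q * ((s - 13).factorial * N n (s.choose 2 - 11)) := by
            rw [f13]
            ring
        _ ≤ Q * (K * n ^ (s - 4) + K' * n ^ (s - 5)) := Nat.mul_le_mul_left _ u
    have h2 : (Q * K + 1) * n ^ (s - 4) ≤ (s - 13) * n ^ (s - 4) :=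
      Nat.mul_le_mul_right _ (by omega)
    have h3 : n * n ^ (s - 5) ≤ (Q * K') * n ^ (s - 5) := by
      have h4 := h2.trans h1
      rw [← e4]
      nlinarith
    have h5 := Nat.le_of_mul_le_mul_right h3 (Nat.pow_pos hn0)
    omega

end Pool.Agent.V11180.DiffRel
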