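import Mathlib

/-!
# Random transversals, and blocks of a set without three-term progressions
-/

set_option autoImplicit false

open Finset

namespace Pool.Agent.V11180.Chg

section Transversal

variable {ι : Type*} [Fintype ι] [DecidableEq ι] (M : ι → ℕ) (e : (x : ι) → Fin (M x) → ℤ)

/-- the transversal of a choice -/
def tr (ω : (x : ι) → Fin (M x)) : Finset ℤ := univ.image (fun x => e x (ω x))

/-- number of choices whose transversal contains `T` -/
def cnt (T : Finset ℤ) : ℕ :=
  (univ.filter (fun ω : (x : ι) → Fin (M x) => T ⊆ tr M e ω)).card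

variable {M e}

lemma cnt_insert (he : ∀ x t x' t', e x t = e x' t' → (⟨x, t⟩ : (x : ι) × Fin (M x)) = ⟨x', t'⟩)
    {w : ℤ → ℝ} (hw : ∀ x t, 1 ≤ w (e x t) * M x) (hw0 : ∀ y, 0 ≤ w y) {y : ℤ} {T : Finset ℤ}
    (hy : y ∉ T) : (cnt M e (insert y T) : ℝ) ≤ w y * cnt M e T := by
  by_cases h : ∃ x t, e x t = y
  · obtain ⟨x, t, hxt⟩ := h
    have key : cnt M e (insert y T) * M x ≤ cnt M e T := by
      have h1 : (univ.filter (fun ω : (x : ι) → Fin (M x) => insert y T ⊆ tr M e ω) ×ˢ
          (univ : Finset (Fin (M x)))).card ≤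
          (univ.filter (fun ω : (x : ι) → Fin (M x) => T ⊆ tr M e ω)).card := by
        apply card_le_card_of_injOn (fun p => Function.update p.1 x p.2)
        · rintro ⟨ω, t'⟩ hp
          rw [mem_coe, mem_product, mem_filter] at hp
          rw [mem_coe, mem_filter]
          refine ⟨mem_univ _, ?_⟩
          intro z hz
          have h2 := hp.1.2 (mem_insert_of_mem hz)
          rw [tr, mem_image] at h2
          obtain ⟨x', -, hx'⟩ := h2
          have h3 := hp.1.2 (mem_insert_self y T)
          rw [tr, mem_image] at h3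
          obtain ⟨x'', -, hx''⟩ := h3
          have h4 : x'' = x := by
            have := he x'' (ω x'') x t (by rw [hx'', hxt])
            exact congrArg Sigma.fst this
          subst h4
          have h5 : x' ≠ x'' := by
            rintro rfl
            simp only at hx' hx''
            rw [hx'] at hx''
            exact hy (hx'' ▸ hz)
          rw [tr, mem_image]
          refine ⟨x', mem_univ _, ?_⟩
          simp only [Function.update_of_ne h5]
          exact hx'
        · rintro ⟨ω, t'⟩ hp ⟨ω', t''⟩ hp' heq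
          rw [mem_coe, mem_product, mem_filter] at hp hp'
          simp only at heq hp hp'
          have hval : ∀ ω : (x : ι) → Fin (M x), insert y T ⊆ tr M e ω → ω x = t := by
            intro ω hω
            have h3 := hω (mem_insert_self y T)
            rw [tr, mem_image] at h3
            obtain ⟨x'', -, hx''⟩ := h3
            have := he x'' (ω x'') x t (by rw [hx'', hxt])
            cases this
            rfl
          have e1 := hval ω hp.1.2
          have e2 := hval ω' hp'.1.2
          have ht : t' = t'' := by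
            have := congrFun heq x
            simpa using this
          subst ht
          have : ω = ω' := by
            funext z
            by_cases hz : z = x
            · subst hz
              rw [e1, e2]
            · have := congrFun heq z
              rwa [Function.update_of_ne hz, Function.update_of_ne hz] at this
          rw [this]
      rw [card_product, card_univ, Fintype.card_fin] at h1
      exact h1
    have h2 := hw x t
    rw [hxt] at h2
    have h3 : (cnt M e (insert y T) : ℝ) * M x ≤ cnt M e T := by exact_mod_cast key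
    calc (cnt M e (insert y T) : ℝ) = 1 * cnt M e (insert y T) := by ring
      _ ≤ (w y * M x) * cnt M e (insert y T) := mul_le_mul_of_nonneg_right h2 (by positivity)
      _ = w y * ((cnt M e (insert y T) : ℝ) * M x) := by ring
      _ ≤ w y * cnt M e T := mul_le_mul_of_nonneg_left h3 (hw0 y)
  · have h1 : cnt M e (insert y T) = 0 := by
      rw [cnt, card_eq_zero, filter_eq_empty_iff]
      intro ω _ hω
      have h3 := hω (mem_insert_self y T)
      rw [tr, mem_image] at h3
      obtain ⟨x'', -, hx''⟩ := h3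
      exact h ⟨x'', _, hx''⟩
    rw [h1]
    push_cast
    exact mul_nonneg (hw0 y) (Nat.cast_nonneg _)

lemma cnt_le (he : ∀ x t x' t', e x t = e x' t' → (⟨x, t⟩ : (x : ι) × Fin (M x)) = ⟨x', t'⟩)
    {w : ℤ → ℝ} (hw : ∀ x t, 1 ≤ w (e x t) * M x) (hw0 : ∀ y, 0 ≤ w y) (T : Finset ℤ) :
    (cnt M e T : ℝ) ≤ (∏ y ∈ T, w y) * Fintype.card ((x : ι) → Fin (M x)) := by
  induction T using Finset.induction_on with
  | empty =>
    rw [prod_empty, one_mul, cnt]
    simp
  | insert y T hy ih =>
    rw [prod_insert hy, mul_assoc]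
    exact (cnt_insert he hw hw0 hy).trans (mul_le_mul_of_nonneg_left ih (hw0 y))

end Transversal

/-! ### The blocks -/

/-- a set without three-term progressions in `[2·4^j, 3·4^j)` -/
noncomputable def S (j : ℕ) : Finset ℤ :=
  (rothNumberNat_spec (4 ^ j)).choose.image (fun x : ℕ => (2 * 4 ^ j + x : ℤ))

lemma S_card (j : ℕ) : (S j).card = rothNumberNat (4 ^ j) := by
  rw [S, card_image_of_injective, (rothNumberNat_spec (4 ^ j)).choose_spec.2.1]
  intro x y h
  simpa using h

lemma S_bounds {j : ℕ} {y : ℤ} (hy : y ∈ S j) : 2 * 4 ^ j ≤ y ∧ y < 3 * 4 ^ j := by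
  rw [S, mem_image] at hy
  obtain ⟨x, hx, rfl⟩ := hy
  have h1 := (rothNumberNat_spec (4 ^ j)).choose_spec.1 hx
  rw [mem_range] at h1
  have h2 : (x : ℤ) < 4 ^ j := by exact_mod_cast h1
  constructor <;> omega

lemma S_free {j : ℕ} {x y z : ℤ} (hx : x ∈ S j) (hy : y ∈ S j) (hz : z ∈ S j)
    (h : x + z = 2 * y) : x = y := by
  rw [S, mem_image] at hx hy hz
  obtain ⟨a, ha, rfl⟩ := hx
  obtain ⟨b, hb, rfl⟩ := hy
  obtain ⟨c, hc, rfl⟩ := hz
  have h1 := (rothNumberNat_spec (4 ^ j)).choose_spec.2.2 ha hb hc (by omega)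
  rw [h1]

/-- index of the block -/
def β (y : ℤ) : ℕ := Nat.log 4 y.toNat

lemma β_eq {j : ℕ} {y : ℤ} (hy : y ∈ S j) : β y = j := by
  obtain ⟨h1, h2⟩ := S_bounds hy
  have h3 : (0 : ℤ) < 4 ^ j := by positivity
  rw [β, Nat.log_eq_iff (Or.inr ⟨by norm_num, by omega⟩)]
  have h4 : ((y.toNat : ℕ) : ℤ) = y := Int.toNat_of_nonneg (by omega)
  constructor
  · have : ((4 ^ j : ℕ) : ℤ) ≤ y.toNat := by
      rw [h4]
      push_cast
      omega
    exact_mod_cast this
  · have : (y.toNat : ℤ) < ((4 ^ (j + 1) : ℕ) : ℤ) := by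
      rw [h4]
      push_cast
      rw [pow_succ]
      omega
    exact_mod_cast this

lemma β_mono {x y : ℤ} (h : x ≤ y) : β x ≤ β y :=
  Nat.log_mono_right (Int.toNat_le_toNat h)

lemma S_le_card (j : ℕ) : (S j).card ≤ 4 ^ j := by
  rw [S_card]
  exact rothNumberNat_le _

/-- no three-term progressions across blocks -/
lemma free_aux {j k l : ℕ} {x y z : ℤ} (hx : x ∈ S j) (hy : y ∈ S k) (hz : z ∈ S l)
    (hxy : x ≤ y) (h : x + z = 2 * y) : x = y := by
  obtain ⟨hx1, hx2⟩ := S_bounds hx
  obtain ⟨hy1, hy2⟩ := S_bounds hy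
  obtain ⟨hz1, hz2⟩ := S_bounds hz
  have hlk : l = k := by
    rcases lt_trichotomy l k with h1 | h1 | h1
    · exfalso
      have h2 : (4 : ℤ) ^ (l + 1) ≤ 4 ^ k := pow_le_pow_right₀ (by norm_num) h1
      rw [pow_succ] at h2
      have h3 : (0 : ℤ) < 4 ^ l := by positivity
      omega
    · exact h1
    · exfalso
      have h2 : (4 : ℤ) ^ (k + 1) ≤ 4 ^ l := pow_le_pow_right₀ (by norm_num) h1
      rw [pow_succ] at h2
      have h3 : (0 : ℤ) < 4 ^ k := by positivity
      have h4 : (0 : ℤ) < 4 ^ j := by positivity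
      omega
  subst hlk
  have hjl : j = l := by
    rcases lt_trichotomy j l with h1 | h1 | h1
    · exfalso
      have h2 : (4 : ℤ) ^ (j + 1) ≤ 4 ^ l := pow_le_pow_right₀ (by norm_num) h1
      rw [pow_succ] at h2
      have h3 : (0 : ℤ) < 4 ^ j := by positivity
      omega
    · exact h1
    · exfalso
      have h2 : (4 : ℤ) ^ (l + 1) ≤ 4 ^ j := pow_le_pow_right₀ (by norm_num) h1
      rw [pow_succ] at h2
      have h3 : (0 : ℤ) < 4 ^ l := by positivity
      omega
  subst hjl
  exact S_free hx hy hz h

lemma free {j k l : ℕ} {x y z : ℤ} (hx : x ∈ S j) (hy : y ∈ S k) (hz : z ∈ S l)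
    (h : x + z = 2 * y) : x = y := by
  rcases le_total x y with h1 | h1
  · exact free_aux hx hy hz h1 h
  · have := free_aux hz hy hx (by omega) (by omega)
    omega

end Pool.Agent.V11180.Chg
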