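import Mathlib
import Pool.Agent.V11180.Chg1

/-!
# Configurations and their weights
-/

set_option autoImplicit false

open Finset Real

namespace Pool.Agent.V11180.Chg

section Config

variable {h g : ℕ}

/-- a configuration: a base point and two families -/
abbrev Cfg (h g : ℕ) := ℤ × (Fin h → ℤ) × (Fin g → ℤ)

/-- first family with the base point -/
def U (c : Cfg h g) : Fin (h + 1) → ℤ := Fin.cons c.1 c.2.1

/-- second family with the base point -/
def V (c : Cfg h g) : Fin (g + 1) → ℤ := Fin.cons c.1 c.2.2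

/-- the elements of the configuration -/
def Y (c : Cfg h g) (p : Fin (h + 1) × Fin (g + 1)) : ℤ := U c p.1 + V c p.2 - c.1

/-- the set of elements of the configuration -/
def els (c : Cfg h g) : Finset ℤ := univ.image (Y c)

/-- the largest element of the configuration -/
def top (c : Cfg h g) : ℤ := Y c (Fin.last h, Fin.last g)

/-- ordered configurations -/
def Valid (c : Cfg h g) : Prop := StrictMono (U c) ∧ StrictMono (V c)

@[simp] lemma U_zero (c : Cfg h g) : U c 0 = c.1 := rfl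
@[simp] lemma V_zero (c : Cfg h g) : V c 0 = c.1 := rfl
@[simp] lemma U_succ (c : Cfg h g) (a : Fin h) : U c a.succ = c.2.1 a := rfl
@[simp] lemma V_succ (c : Cfg h g) (b : Fin g) : V c b.succ = c.2.2 b := rfl

lemma Y_00 (c : Cfg h g) : Y c (0, 0) = c.1 := by simp [Y]
lemma Y_s0 (c : Cfg h g) (a : Fin h) : Y c (a.succ, 0) = c.2.1 a := by simp [Y]
lemma Y_0s (c : Cfg h g) (b : Fin g) : Y c (0, b.succ) = c.2.2 b := by simp [Y]

lemma le_U {c : Cfg h g} (hc : Valid c) (a : Fin (h + 1)) : c.1 ≤ U c a := by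
  rw [← U_zero c]
  exact hc.1.monotone (Fin.zero_le a)

lemma le_V {c : Cfg h g} (hc : Valid c) (b : Fin (g + 1)) : c.1 ≤ V c b := by
  rw [← V_zero c]
  exact hc.2.monotone (Fin.zero_le b)

lemma le_Y {c : Cfg h g} (hc : Valid c) (p : Fin (h + 1) × Fin (g + 1)) :
    c.1 ≤ Y c p ∧ U c p.1 ≤ Y c p ∧ V c p.2 ≤ Y c p := by
  have h1 := le_U hc p.1
  have h2 := le_V hc p.2
  unfold Y
  omega

lemma Y_le_top {c : Cfg h g} (hc : Valid c) (p : Fin (h + 1) × Fin (g + 1)) : Y c p ≤ top c := by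
  have h1 := hc.1.monotone (Fin.le_last p.1)
  have h2 := hc.2.monotone (Fin.le_last p.2)
  unfold top Y
  simp only
  omega

lemma Y_inj {c : Cfg h g} (hc : Valid c) (hS : ∀ p, ∃ j, Y c p ∈ S j) :
    Function.Injective (Y c) := by
  rintro ⟨a, b⟩ ⟨a', b'⟩ heq
  obtain ⟨j1, h1⟩ := hS (a, b')
  obtain ⟨j2, h2⟩ := hS (a, b)
  obtain ⟨j3, h3⟩ := hS (a', b)
  have h4 : Y c (a, b') = Y c (a, b) := by
    apply free h1 h2 h3
    unfold Y at heq ⊢
    simp only at heq ⊢
    omega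
  have h5 : V c b' = V c b := by
    unfold Y at h4
    simp only at h4
    omega
  have h6 : b' = b := hc.2.injective h5
  subst h6
  have h7 : U c a = U c a' := by
    unfold Y at heq
    simp only at heq
    omega
  rw [hc.1.injective h7]

/-- the exponent attached to an element -/
noncomputable def ex (κ : ℝ) (y : ℤ) : ℝ := κ * β y + 2 * √(β y)

lemma exponent_bound (hh : 1 ≤ h) (hg : 1 ≤ g) {c : Cfg h g} (hc : Valid c) {τ κ : ℝ}
    (hτ : 0 ≤ τ) (hκ : κ * (h * g + h + g) = τ * (h + g)) :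
    κ * β c.1 + τ * ∑ a, (β (c.2.1 a) : ℝ) + τ * ∑ b, (β (c.2.2 b) : ℝ) + 2 * √(β (top c)) +
      2 * (h * g + h + g : ℝ) * √(β c.1) ≤ ∑ p, ex κ (Y c p) := by
  have hh0 : (0 : ℝ) < h := by exact_mod_cast hh
  have hg0 : (0 : ℝ) < g := by exact_mod_cast hg
  have hκ0 : 0 ≤ κ := by
    by_contra hcon
    push Not at hcon
    have h1 : κ * (h * g + h + g) < 0 := mul_neg_of_neg_of_pos hcon (by positivity)
    have h2 : 0 ≤ τ * (h + g) := by positivity
    linarith
  have e1 : ∑ p, ex κ (Y c p) = κ * ∑ p, (β (Y c p) : ℝ) + 2 * ∑ p, √(β (Y c p)) := by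
    rw [mul_sum, mul_sum, ← sum_add_distrib]
    rfl
  -- the square roots
  have s1 : √(β (top c)) + (h * g + h + g : ℝ) * √(β c.1) ≤ ∑ p, √(β (Y c p)) := by
    rw [← add_sum_erase univ _ (mem_univ (Fin.last h, Fin.last g))]
    apply add_le_add le_rfl
    have h1 : ∀ p ∈ (univ : Finset (Fin (h + 1) × Fin (g + 1))).erase (Fin.last h, Fin.last g),
        √(β c.1) ≤ √(β (Y c p)) := by
      intro p _
      apply Real.sqrt_le_sqrt
      exact_mod_cast β_mono (le_Y hc p).1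
    refine le_trans (le_of_eq ?_) (card_nsmul_le_sum _ _ _ h1)
    rw [card_erase_of_mem (mem_univ _), card_univ, Fintype.card_prod, Fintype.card_fin,
      Fintype.card_fin, nsmul_eq_mul]
    congr 1
    rw [Nat.cast_sub (by nlinarith)]
    push_cast
    ring
  -- the linear part
  have s2 : κ * β c.1 + τ * ∑ a, (β (c.2.1 a) : ℝ) + τ * ∑ b, (β (c.2.2 b) : ℝ) ≤
      κ * ∑ p, (β (Y c p) : ℝ) := by
    rw [Fintype.sum_prod_type, Fin.sum_univ_succ, Fin.sum_univ_succ]
    simp_rw [Fin.sum_univ_succ (n := g)]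
    rw [Y_00]
    simp_rw [Y_s0, Y_0s]
    rw [sum_add_distrib]
    have h1 : ∀ a : Fin h, ∀ b : Fin g,
        (h : ℝ) / (h + g) * β (c.2.1 a) + (g : ℝ) / (h + g) * β (c.2.2 b) ≤
        (β (Y c (a.succ, b.succ)) : ℝ) := by
      intro a b
      have h2 : (β (c.2.1 a) : ℝ) ≤ β (Y c (a.succ, b.succ)) := by
        exact_mod_cast β_mono (le_Y hc (a.succ, b.succ)).2.1
      have h3 : (β (c.2.2 b) : ℝ) ≤ β (Y c (a.succ, b.succ)) := by
        exact_mod_cast β_mono (le_Y hc (a.succ, b.succ)).2.2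
      calc (h : ℝ) / (h + g) * β (c.2.1 a) + (g : ℝ) / (h + g) * β (c.2.2 b)
          ≤ (h : ℝ) / (h + g) * β (Y c (a.succ, b.succ)) +
            (g : ℝ) / (h + g) * β (Y c (a.succ, b.succ)) := by gcongr
        _ = β (Y c (a.succ, b.succ)) := by field_simp
    have h4 : ∑ a : Fin h, ∑ b : Fin g, ((h : ℝ) / (h + g) * β (c.2.1 a) +
        (g : ℝ) / (h + g) * β (c.2.2 b)) ≤
        ∑ a : Fin h, ∑ b : Fin g, (β (Y c (a.succ, b.succ)) : ℝ) :=
      sum_le_sum fun a _ => sum_le_sum fun b _ => h1 a b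
    have h5 : ∑ a : Fin h, ∑ b : Fin g, ((h : ℝ) / (h + g) * β (c.2.1 a) +
        (g : ℝ) / (h + g) * β (c.2.2 b)) =
        (h * g : ℝ) / (h + g) * (∑ a, (β (c.2.1 a) : ℝ) + ∑ b, (β (c.2.2 b) : ℝ)) := by
      simp only [sum_add_distrib, sum_const, card_univ, Fintype.card_fin, nsmul_eq_mul,
        ← mul_sum]
      ring
    rw [h5] at h4
    set Su := ∑ a, (β (c.2.1 a) : ℝ) with hSu
    set Sv := ∑ b, (β (c.2.2 b) : ℝ) with hSv
    set Suv := ∑ a : Fin h, ∑ b : Fin g, (β (Y c (a.succ, b.succ)) : ℝ) with hSuv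
    have h6 : τ = κ * (1 + (h * g : ℝ) / (h + g)) := by
      field_simp
      linarith
    have h7 : κ * ((h * g : ℝ) / (h + g) * (Su + Sv)) ≤ κ * Suv :=
      mul_le_mul_of_nonneg_left h4 hκ0
    rw [h6]
    linarith
  rw [e1]
  linarith

end Config

end Pool.Agent.V11180.Chg
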