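import Mathlib
import Pool.Agent.V11180.Chg2

/-!
# The expected number of configurations
-/

set_option autoImplicit false

open Finset Real

namespace Pool.Agent.V11180.Chg

section Sum

variable {h g : ℕ}

/-- the elements of the first blocks -/
def low (E : Finset ℤ) (i : ℕ) : Finset ℤ := E.filter (fun y => β y ≤ i)

open Classical in
/-- the configurations with elements in `E` whose top is in block `i` -/
noncomputable def cfgs (h g : ℕ) (E : Finset ℤ) (i : ℕ) : Finset (Cfg h g) :=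
  (low E i ×ˢ ((Fintype.piFinset fun _ : Fin h => low E i) ×ˢ
    (Fintype.piFinset fun _ : Fin g => low E i))).filter
      (fun c => Valid c ∧ (∀ p, Y c p ∈ E) ∧ β (top c) = i)

lemma mem_cfgs {E : Finset ℤ} {c : Cfg h g} (hc : Valid c) (hE : ∀ p, Y c p ∈ E) :
    c ∈ cfgs h g E (β (top c)) := by
  classical
  have h1 : ∀ p, Y c p ∈ low E (β (top c)) := fun p =>
    mem_filter.2 ⟨hE p, β_mono (Y_le_top hc p)⟩
  rw [cfgs, mem_filter, mem_product, mem_product, Fintype.mem_piFinset, Fintype.mem_piFinset]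
  refine ⟨⟨?_, ?_, ?_⟩, hc, hE, rfl⟩
  · rw [← Y_00 c]
    exact h1 _
  · intro a
    rw [← Y_s0 c a]
    exact h1 _
  · intro b
    rw [← Y_0s c b]
    exact h1 _

lemma prod_w (hh : 1 ≤ h) (hg : 1 ≤ g) {E : Finset ℤ} (hE : ∀ y ∈ E, ∃ j, y ∈ S j) {i : ℕ}
    {c : Cfg h g} (hc : c ∈ cfgs h g E i) {τ κ : ℝ}
    (hτ : 0 ≤ τ) (hκ : κ * (h * g + h + g) = τ * (h + g)) :
    ∏ y ∈ els c, exp (-ex κ y) ≤ exp (-(2 * √i)) *
      (exp (-(κ * β c.1 + 2 * (h * g + h + g : ℝ) * √(β c.1))) *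
        ((∏ a, exp (-(τ * β (c.2.1 a)))) * (∏ b, exp (-(τ * β (c.2.2 b)))))) := by
  classical
  rw [cfgs, mem_filter] at hc
  obtain ⟨-, hv, hY, ht⟩ := hc
  rw [els, prod_image (fun p _ p' _ hp => Y_inj hv (fun p => hE _ (hY p)) hp), ← exp_sum,
    ← exp_sum, ← exp_sum, ← exp_add, ← exp_add, ← exp_add, exp_le_exp, sum_neg_distrib,
    sum_neg_distrib, sum_neg_distrib, ← mul_sum, ← mul_sum]
  have := exponent_bound hh hg hv hτ hκ
  rw [ht] at this
  linarith

lemma sum_low {E : Finset ℤ} (hE : ∀ y ∈ E, ∃ j, y ∈ S j) (i : ℕ) {f : ℕ → ℝ}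
    (hf : ∀ j, 0 ≤ f j) : ∑ y ∈ low E i, f (β y) ≤ ∑ j ∈ range (i + 1), 4 ^ j * f j := by
  rw [← sum_fiberwise_of_maps_to (s := low E i) (t := range (i + 1)) (g := β)
    (fun y hy => mem_range.2 (Nat.lt_succ_of_le (mem_filter.1 hy).2))]
  apply sum_le_sum
  intro j _
  have h1 : ∑ y ∈ (low E i).filter (fun y => β y = j), f (β y) =
      ∑ y ∈ (low E i).filter (fun y => β y = j), f j := by
    apply sum_congr rfl
    intro y hy
    rw [(mem_filter.1 hy).2]
  rw [h1, sum_const, nsmul_eq_mul]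
  apply mul_le_mul_of_nonneg_right _ (hf j)
  have h2 : ((low E i).filter (fun y => β y = j)).card ≤ 4 ^ j := by
    refine le_trans (card_le_card ?_) (S_le_card j)
    intro y hy
    rw [mem_filter, low, mem_filter] at hy
    obtain ⟨j', hj'⟩ := hE y hy.1.1
    have := β_eq hj'
    rw [hy.2] at this
    rw [this]
    exact hj'
  exact_mod_cast h2

lemma sum_cfgs (hh : 1 ≤ h) (hg : 1 ≤ g) {E : Finset ℤ} (hE : ∀ y ∈ E, ∃ j, y ∈ S j) {i : ℕ}
    {κ : ℝ} (hκ : κ * (h * g + h + g) = log 4 * (h + g)) :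
    ∑ c ∈ cfgs h g E i, ∏ y ∈ els c, exp (-ex κ y) ≤ exp (-(2 * √i)) *
      ((∑ j ∈ range (i + 1), exp ((log 4 - κ) * j - 2 * (h * g + h + g : ℝ) * √j)) *
        ((i : ℝ) + 1) ^ (h + g)) := by
  classical
  have hτ : 0 ≤ log 4 := log_nonneg (by norm_num)
  have h4 : ∀ j : ℕ, (4 : ℝ) ^ j = exp (log 4 * j) := by
    intro j
    rw [mul_comm, exp_nat_mul, exp_log (by norm_num)]
  have hF : ∑ z ∈ low E i, exp (-(κ * β z + 2 * (h * g + h + g : ℝ) * √(β z))) ≤
      ∑ j ∈ range (i + 1), exp ((log 4 - κ) * j - 2 * (h * g + h + g : ℝ) * √j) := by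
    refine (sum_low hE i (f := fun j => exp (-(κ * j + 2 * (h * g + h + g : ℝ) * √j)))
      (fun j => (exp_pos _).le)).trans (le_of_eq ?_)
    apply sum_congr rfl
    intro j _
    rw [h4, ← exp_add]
    congr 1
    ring
  have hG : ∑ y ∈ low E i, exp (-(log 4 * β y)) ≤ (i : ℝ) + 1 := by
    refine (sum_low hE i (f := fun j => exp (-(log 4 * j))) (fun j => (exp_pos _).le)).trans
      (le_of_eq ?_)
    have : ∀ j ∈ range (i + 1), (4 : ℝ) ^ j * exp (-(log 4 * j)) = 1 := by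
      intro j _
      rw [h4, ← exp_add, add_neg_cancel, exp_zero]
    rw [sum_congr rfl this, sum_const, card_range]
    simp
  have hP : ∀ n : ℕ, ∑ f ∈ Fintype.piFinset (fun _ : Fin n => low E i),
      ∏ x, exp (-(log 4 * β (f x))) = (∑ y ∈ low E i, exp (-(log 4 * β y))) ^ n := by
    intro n
    have h1 := Finset.prod_univ_sum (fun _ : Fin n => low E i)
      (fun _ y => exp (-(log 4 * β y)))
    rw [← h1, prod_const, card_univ, Fintype.card_fin]
  calc ∑ c ∈ cfgs h g E i, ∏ y ∈ els c, exp (-ex κ y)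
      ≤ ∑ c ∈ cfgs h g E i, exp (-(2 * √i)) *
      (exp (-(κ * β c.1 + 2 * (h * g + h + g : ℝ) * √(β c.1))) *
        ((∏ a, exp (-(log 4 * β (c.2.1 a)))) * (∏ b, exp (-(log 4 * β (c.2.2 b)))))) :=
        sum_le_sum fun c hc => prod_w hh hg hE hc hτ hκ
    _ ≤ ∑ c ∈ low E i ×ˢ ((Fintype.piFinset fun _ : Fin h => low E i) ×ˢ
          (Fintype.piFinset fun _ : Fin g => low E i)), exp (-(2 * √i)) *
      (exp (-(κ * β c.1 + 2 * (h * g + h + g : ℝ) * √(β c.1))) *
        ((∏ a, exp (-(log 4 * β (c.2.1 a)))) * (∏ b, exp (-(log 4 * β (c.2.2 b)))))) := by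
        apply sum_le_sum_of_subset_of_nonneg (filter_subset _ _)
        intro c _ _
        positivity
    _ = exp (-(2 * √i)) * ((∑ z ∈ low E i,
          exp (-(κ * β z + 2 * (h * g + h + g : ℝ) * √(β z)))) *
          ((∑ y ∈ low E i, exp (-(log 4 * β y))) ^ h *
            (∑ y ∈ low E i, exp (-(log 4 * β y))) ^ g)) := by
        rw [← mul_sum, sum_product]
        congr 1
        simp only
        simp_rw [← mul_sum]
        rw [← sum_mul, sum_product]
        congr 1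
        simp only
        simp_rw [← mul_sum]
        rw [← sum_mul, hP, hP]
    _ ≤ _ := by
        rw [pow_add]
        have h0 : 0 ≤ ∑ y ∈ low E i, exp (-(log 4 * β y)) :=
          sum_nonneg fun y _ => (exp_pos _).le
        gcongr

end Sum

end Pool.Agent.V11180.Chg
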