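import Mathlib
import Pool.Agent.V11180.Chg3

/-!
# Finite sets without configurations, large in each block
-/

set_option autoImplicit false

open Finset Real

namespace Pool.Agent.V11180.Chg

lemma fin_arith {a b c d m u : ℕ} (h1 : m ≤ a) (h3 : a ≤ u) (h4 : u ≤ b + c) (h5 : c ≤ d)
    (h6 : 2 * d < m) : m ≤ 2 * b := by omega

theorem finite_sets {h g : ℕ} {κ : ℝ} {M mm : ℕ → ℕ} {i₀ L : ℕ}
    (hM : ∀ j : ℕ, exp (κ * j + 2 * √j) ≤ M j) (hmm : ∀ j, mm j * M j ≤ (S j).card)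
    (hcost : ∀ E : Finset ℤ, (∀ y ∈ E, ∃ j, y ∈ S j) →
      ∑ i ∈ Icc i₀ L, (2 / mm i : ℝ) * ∑ c ∈ cfgs h g E i, ∏ y ∈ els c, exp (-ex κ y) < 1)
    (hpos : ∀ i ∈ Icc i₀ L, 0 < mm i) :
    ∃ A : Finset ℤ, (∀ y ∈ A, ∃ j ∈ Icc i₀ L, y ∈ S j) ∧
      (∀ c : Cfg h g, Valid c → ¬ ∀ p, Y c p ∈ A) ∧
      ∀ i ∈ Icc i₀ L, mm i ≤ 2 * (A.filter (fun y => β y = i)).card := by
  classical
  -- the groups
  set mm' : ℕ → ℕ := fun i => if i₀ ≤ i then mm i else 0 with hmm'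
  have hmm'2 : ∀ j, mm' j * M j ≤ (S j).card := by
    intro j
    rw [hmm']
    simp only
    split_ifs
    · exact hmm j
    · simp
  have hmm0 : ∀ j, ¬ i₀ ≤ j → mm' j = 0 := fun j hj => if_neg hj
  have hmm1 : ∀ j, i₀ ≤ j → mm' j = mm j := fun j hj => if_pos hj
  clear_value mm'
  have hMpos : ∀ j, 0 < M j := by
    intro j
    have h1 := (exp_pos _).trans_le (hM j)
    exact_mod_cast h1
  have hemb : ∀ j, Nonempty (Fin (mm' j) × Fin (M j) ↪ {y // y ∈ S j}) := by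
    intro j
    apply Function.Embedding.nonempty_of_card_le
    rw [Fintype.card_prod, Fintype.card_fin, Fintype.card_fin, Fintype.card_coe]
    exact hmm'2 j
  have emb : ∀ j, (Fin (mm' j) × Fin (M j) ↪ {y // y ∈ S j}) := fun j => (hemb j).some
  let ι := (i : Fin (L + 1)) × Fin (mm' i)
  let MM : ι → ℕ := fun x => M x.1
  let e : (x : ι) → Fin (MM x) → ℤ := fun x t => (emb x.1 (x.2, t)).1
  have heS : ∀ x t, e x t ∈ S x.1 := fun x t => (emb x.1 (x.2, t)).2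
  have he : ∀ x t x' t', e x t = e x' t' →
      (⟨x, t⟩ : (x : ι) × Fin (MM x)) = ⟨x', t'⟩ := by
    rintro ⟨i, j⟩ t ⟨i', j'⟩ t' heq
    have h1 := heS ⟨i, j⟩ t
    have h2 := heS ⟨i', j'⟩ t'
    have h3 : (i : ℕ) = i' := by
      rw [← β_eq h1, heq, β_eq h2]
    have h4 : i = i' := Fin.ext h3
    subst h4
    have h5 : emb i (j, t) = emb i (j', t') := Subtype.ext heq
    have h6 := (emb i).injective h5
    cases h6
    rfl
  have hw : ∀ x t, 1 ≤ exp (-ex κ (e x t)) * MM x := by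
    intro x t
    have h1 : ex κ (e x t) = κ * (x.1 : ℕ) + 2 * √((x.1 : ℕ) : ℝ) := by
      rw [ex, β_eq (heS x t)]
    rw [h1]
    have h2 := hM x.1
    calc (1 : ℝ) = exp (-(κ * (x.1 : ℕ) + 2 * √((x.1 : ℕ) : ℝ))) *
          exp (κ * (x.1 : ℕ) + 2 * √((x.1 : ℕ) : ℝ)) := by
          rw [← exp_add, neg_add_cancel, exp_zero]
      _ ≤ _ := mul_le_mul_of_nonneg_left h2 (exp_pos _).le
  set E : Finset ℤ := (Icc i₀ L).biUnion S with hE
  have hES : ∀ y ∈ E, ∃ j, y ∈ S j := by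
    intro y hy
    rw [hE, mem_biUnion] at hy
    obtain ⟨j, -, hj⟩ := hy
    exact ⟨j, hj⟩
  have htrE : ∀ ω, tr MM e ω ⊆ E := by
    intro ω y hy
    rw [tr, mem_image] at hy
    obtain ⟨x, -, rfl⟩ := hy
    rw [hE, mem_biUnion]
    refine ⟨x.1, ?_, heS _ _⟩
    rw [mem_Icc]
    refine ⟨?_, Nat.le_of_lt_succ x.1.2⟩
    by_contra hcon
    have h1 : mm' x.1 = 0 := hmm0 _ hcon
    have h2 := x.2.isLt
    exact absurd h1 (Nat.ne_of_gt (Nat.lt_of_le_of_lt (Nat.zero_le _) h2))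
  -- averaging
  let D : ((x : ι) → Fin (MM x)) → ℕ → Finset (Cfg h g) := fun ω i =>
    (cfgs h g E i).filter (fun c => els c ⊆ tr MM e ω)
  have havg : ∑ ω : ((x : ι) → Fin (MM x)), ∑ i ∈ Icc i₀ L, (2 / mm i : ℝ) * (D ω i).card <
      ∑ ω : ((x : ι) → Fin (MM x)), (1 : ℝ) := by
    rw [sum_const, card_univ, nsmul_eq_mul, mul_one, sum_comm]
    have hΩ : (0 : ℝ) < Fintype.card ((x : ι) → Fin (MM x)) := by
      have : Nonempty ((x : ι) → Fin (MM x)) := ⟨fun x => ⟨0, hMpos _⟩⟩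
      exact_mod_cast Fintype.card_pos
    have h1 : ∀ i ∈ Icc i₀ L, ∑ ω : ((x : ι) → Fin (MM x)), (2 / mm i : ℝ) * (D ω i).card ≤
        ((2 / mm i : ℝ) * ∑ c ∈ cfgs h g E i, ∏ y ∈ els c, exp (-ex κ y)) *
          Fintype.card ((x : ι) → Fin (MM x)) := by
      intro i _
      rw [← mul_sum, mul_assoc]
      apply mul_le_mul_of_nonneg_left _ (by positivity)
      have h2 : ∑ ω : ((x : ι) → Fin (MM x)), ((D ω i).card : ℝ) =
          ∑ c ∈ cfgs h g E i, (cnt MM e (els c) : ℝ) := by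
        simp only [D, cnt, card_filter]
        push_cast
        rw [sum_comm]
      rw [h2, sum_mul]
      exact sum_le_sum fun c _ => cnt_le he hw (fun y => (exp_pos _).le) (els c)
    refine (sum_le_sum h1).trans_lt ?_
    rw [← sum_mul]
    calc _ < 1 * (Fintype.card ((x : ι) → Fin (MM x)) : ℝ) :=
          mul_lt_mul_of_pos_right (hcost E hES) hΩ
      _ = _ := one_mul _
  obtain ⟨ω, -, hω⟩ := exists_lt_of_sum_lt havg
  have hD : ∀ i ∈ Icc i₀ L, 2 * (D ω i).card < mm i := by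
    intro i hi
    have h1 : (2 / mm i : ℝ) * (D ω i).card ≤
        ∑ i ∈ Icc i₀ L, (2 / mm i : ℝ) * (D ω i).card :=
      single_le_sum (f := fun i => (2 / mm i : ℝ) * (D ω i).card)
        (fun i _ => by positivity) hi
    have h2 := h1.trans_lt hω
    have h3 : (0 : ℝ) < mm i := by exact_mod_cast hpos i hi
    rw [div_mul_eq_mul_div, div_lt_one h3] at h2
    exact_mod_cast h2
  -- the set
  set R : Finset ℤ := (Icc i₀ L).biUnion (fun i => (D ω i).image top) with hR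
  refine ⟨tr MM e ω \ R, ?_, ?_, ?_⟩
  · intro y hy
    have := htrE ω (mem_sdiff.1 hy).1
    rw [hE, mem_biUnion] at this
    exact this
  · intro c hc hA
    have h1 : ∀ p, Y c p ∈ tr MM e ω := fun p => (mem_sdiff.1 (hA p)).1
    have h2 : ∀ p, Y c p ∈ E := fun p => htrE ω (h1 p)
    have h3 := mem_cfgs hc h2
    have h4 : top c ∈ E := h2 _
    rw [hE, mem_biUnion] at h4
    obtain ⟨j, hj, hjS⟩ := h4
    have h5 : β (top c) = j := β_eq hjS
    have h6 : top c ∈ tr MM e ω \ R := hA _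
    apply (mem_sdiff.1 h6).2
    rw [hR, mem_biUnion]
    refine ⟨j, hj, mem_image.2 ⟨c, ?_, rfl⟩⟩
    rw [mem_filter, ← h5]
    refine ⟨h3, ?_⟩
    intro y hy
    rw [els, mem_image] at hy
    obtain ⟨p, -, rfl⟩ := hy
    exact h1 p
  · intro i hi
    have h1 : mm i ≤ ((tr MM e ω).filter (fun y => β y = i)).card := by
      have hiL : i < L + 1 := Nat.lt_succ_of_le (mem_Icc.1 hi).2
      have h2 : mm' i = mm i := hmm1 i (mem_Icc.1 hi).1
      have h3 : (univ : Finset (Fin (mm' i))).card ≤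
          ((tr MM e ω).filter (fun y => β y = i)).card := by
        apply card_le_card_of_injOn
          (fun j => e (⟨⟨i, hiL⟩, j⟩ : ι) (ω ⟨⟨i, hiL⟩, j⟩))
        · intro j _
          rw [mem_coe, mem_filter]
          have h4 : e ⟨⟨i, hiL⟩, j⟩ (ω ⟨⟨i, hiL⟩, j⟩) ∈ S i := heS ⟨⟨i, hiL⟩, j⟩ (ω ⟨⟨i, hiL⟩, j⟩)
          refine ⟨?_, β_eq h4⟩
          rw [tr, mem_image]
          exact ⟨⟨⟨i, hiL⟩, j⟩, mem_univ _, rfl⟩
        · intro j _ j' _ heq
          have h4 := he ⟨⟨i, hiL⟩, j⟩ (ω ⟨⟨i, hiL⟩, j⟩) ⟨⟨i, hiL⟩, j'⟩ (ω ⟨⟨i, hiL⟩, j'⟩) heq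
          have h5 : (⟨⟨i, hiL⟩, j⟩ : ι) = ⟨⟨i, hiL⟩, j'⟩ := congrArg Sigma.fst h4
          exact eq_of_heq (Sigma.mk.inj h5).2
      rw [card_univ, Fintype.card_fin, h2] at h3
      exact h3
    have h2 : ((tr MM e ω).filter (fun y => β y = i)) ⊆
        ((tr MM e ω \ R).filter (fun y => β y = i)) ∪ (D ω i).image top := by
      intro y hy
      rw [mem_filter] at hy
      rw [mem_union]
      by_cases hyR : y ∈ R
      · right
        rw [hR, mem_biUnion] at hyR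
        obtain ⟨i', hi', hy'⟩ := hyR
        have h3 : i' = i := by
          rw [mem_image] at hy'
          obtain ⟨c, hc, hcy⟩ := hy'
          have h4 := (mem_filter.1 (mem_filter.1 hc).1).2.2.2
          rw [← h4, hcy, hy.2]
        rw [← h3]
        exact hy'
      · left
        exact mem_filter.2 ⟨mem_sdiff.2 ⟨hy.1, hyR⟩, hy.2⟩
    have h3 := card_le_card h2
    have h4 := card_union_le ((tr MM e ω \ R).filter (fun y => β y = i)) ((D ω i).image top)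
    have h5 : ((D ω i).image top).card ≤ (D ω i).card := card_image_le
    exact fin_arith h1 h3 h4 h5 (hD i hi)

end Pool.Agent.V11180.Chg
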