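import Mathlib
import Pool.Agent.V11180.Chg4

/-!
# Parameters and asymptotics; infinite sequences
-/

set_option autoImplicit false

open Finset Real Filter

namespace Pool.Agent.V11180.Chg

lemma tendsto_sqrt_nat : Tendsto (fun i : ℕ => √(i : ℝ)) atTop atTop :=
  Real.tendsto_sqrt_atTop.comp tendsto_natCast_atTop_atTop

lemma ev_lin {a : ℝ} (ha : 0 < a) (b c : ℝ) : ∀ᶠ i : ℕ in atTop, c + b * √(i : ℝ) ≤ a * i := by
  filter_upwards [tendsto_sqrt_nat.eventually_ge_atTop (max 1 ((|b| + |c|) / a))] with i hi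
  have h1 : 1 ≤ √(i : ℝ) := (le_max_left _ _).trans hi
  have h2 : (|b| + |c|) / a ≤ √(i : ℝ) := (le_max_right _ _).trans hi
  rw [div_le_iff₀ ha] at h2
  have h3 : √(i : ℝ) * √(i : ℝ) = i := Real.mul_self_sqrt (Nat.cast_nonneg i)
  have h4 := mul_le_mul_of_nonneg_right h2 (Real.sqrt_nonneg (i : ℝ))
  have h5 : b * √(i : ℝ) ≤ |b| * √(i : ℝ) :=
    mul_le_mul_of_nonneg_right (le_abs_self b) (Real.sqrt_nonneg _)
  have h6 : c ≤ |c| * √(i : ℝ) := (le_abs_self c).trans (le_mul_of_one_le_right (abs_nonneg c) h1)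
  nlinarith

lemma ev_pow (K : ℕ) : ∀ᶠ i : ℕ in atTop, 8 * ((i : ℝ) + 2) ^ K * exp (-√(i : ℝ)) ≤ 1 := by
  have h1 : Tendsto (fun i : ℕ => √(i : ℝ) + 2) atTop atTop :=
    tendsto_atTop_add_const_right _ _ tendsto_sqrt_nat
  have h2 := (Real.tendsto_pow_mul_exp_neg_atTop_nhds_zero (2 * K)).comp h1
  have h3 : (0 : ℝ) < 1 / (8 * exp 2) := by positivity
  filter_upwards [h2.eventually (gt_mem_nhds h3)] with i hi
  simp only [Function.comp] at hi
  have h4 : ((i : ℝ) + 2) ^ K ≤ (√(i : ℝ) + 2) ^ (2 * K) := by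
    rw [pow_mul]
    apply pow_le_pow_left₀ (by positivity)
    have h5 : √(i : ℝ) * √(i : ℝ) = i := Real.mul_self_sqrt (Nat.cast_nonneg i)
    nlinarith [Real.sqrt_nonneg (i : ℝ)]
  rw [lt_div_iff₀ (by positivity)] at hi
  have h6 : exp (-(√(i : ℝ) + 2)) * exp 2 = exp (-√(i : ℝ)) := by
    rw [← exp_add]
    congr 1
    ring
  calc 8 * ((i : ℝ) + 2) ^ K * exp (-√(i : ℝ))
      ≤ 8 * (√(i : ℝ) + 2) ^ (2 * K) * exp (-√(i : ℝ)) := by gcongr
    _ = (√(i : ℝ) + 2) ^ (2 * K) * exp (-(√(i : ℝ) + 2)) * (8 * exp 2) := by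
        rw [← h6]
        ring
    _ ≤ 1 := hi.le

lemma log4_bounds : 1 < log 4 ∧ log 4 ≤ 25 / 16 := by
  have h1 : log 4 = 2 * log 2 := by
    rw [show (4 : ℝ) = 2 ^ 2 by norm_num, Real.log_pow]
    norm_num
  have h2 := Real.log_two_gt_d9
  have h3 := Real.log_two_lt_d9
  constructor <;> linarith

/-- group sizes -/
noncomputable def MJ (κ : ℝ) (j : ℕ) : ℕ := ⌈exp (κ * j + 2 * √(j : ℝ))⌉₊

/-- numbers of groups -/
noncomputable def mJ (κ : ℝ) (j : ℕ) : ℕ := (S j).card / MJ κ j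

lemma mJ_ge {κ : ℝ} (hκ0 : 0 ≤ κ) (hκ : κ < log 4) : ∀ᶠ j : ℕ in atTop,
    (1 / 4) * exp ((log 4 - κ) * j - 7 * √(j : ℝ)) ≤ mJ κ j := by
  filter_upwards [ev_lin (sub_pos.2 hκ) 7 (log 4)] with j hj
  have hτ := log4_bounds
  have h1 : exp (log 4 * j - 5 * √(j : ℝ)) ≤ (S j).card := by
    rw [S_card]
    refine le_trans ?_ (Behrend.roth_lower_bound)
    push_cast
    have h2 : ((4 : ℝ) ^ j) = exp (log 4 * j) := by
      rw [mul_comm, exp_nat_mul, exp_log (by norm_num)]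
    rw [h2, ← exp_add, exp_le_exp, log_exp]
    have h3 : √(log 4 * j) ≤ 5 / 4 * √(j : ℝ) := by
      rw [Real.sqrt_mul (by linarith)]
      apply mul_le_mul_of_nonneg_right _ (Real.sqrt_nonneg _)
      rw [Real.sqrt_le_left (by norm_num)]
      norm_num
      linarith
    linarith
  have h4 : (MJ κ j : ℝ) ≤ 2 * exp (κ * j + 2 * √(j : ℝ)) := by
    have h5 : (1 : ℝ) ≤ exp (κ * j + 2 * √(j : ℝ)) := by
      apply Real.one_le_exp
      positivity
    have h6 := (Nat.ceil_lt_add_one (exp_pos (κ * j + 2 * √(j : ℝ))).le).le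
    unfold MJ
    linarith
  have hMpos : (0 : ℝ) < MJ κ j := by
    have h6 := Nat.le_ceil (exp (κ * j + 2 * √(j : ℝ)))
    have h7 := exp_pos (κ * j + 2 * √(j : ℝ))
    unfold MJ
    linarith
  set x := exp ((log 4 - κ) * j - 7 * √(j : ℝ)) with hx
  have h7 : (1 / 2) * x ≤ ((S j).card : ℝ) / MJ κ j := by
    rw [le_div_iff₀ hMpos]
    calc (1 / 2) * x * MJ κ j ≤ (1 / 2) * x * (2 * exp (κ * j + 2 * √(j : ℝ))) := by
          apply mul_le_mul_of_nonneg_left h4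
          positivity
      _ = exp (log 4 * j - 5 * √(j : ℝ)) := by
          rw [show (1 / 2) * x * (2 * exp (κ * j + 2 * √(j : ℝ))) =
            x * exp (κ * j + 2 * √(j : ℝ)) by ring, hx, ← exp_add]
          congr 1
          ring
      _ ≤ _ := h1
  have h8 : 4 ≤ x := by
    rw [hx, ← Real.log_le_iff_le_exp (by norm_num)]
    linarith
  have h9 := Nat.sub_one_lt_floor (((S j).card : ℝ) / MJ κ j)
  rw [Nat.floor_div_eq_div] at h9
  unfold mJ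
  linarith

lemma sum_telescope (i₀ L : ℕ) :
    ∑ i ∈ Icc i₀ L, (1 : ℝ) / (((i : ℝ) + 1) * ((i : ℝ) + 2)) < 1 := by
  have h1 : ∑ i ∈ Icc i₀ L, (1 : ℝ) / (((i : ℝ) + 1) * ((i : ℝ) + 2)) ≤
      ∑ i ∈ range (L + 1), (1 : ℝ) / (((i : ℝ) + 1) * ((i : ℝ) + 2)) := by
    apply sum_le_sum_of_subset_of_nonneg
    · intro i hi
      rw [mem_range]
      have := (mem_Icc.1 hi).2
      omega
    · intro i _ _
      positivity
  have h2 : ∀ n : ℕ, ∑ i ∈ range n, (1 : ℝ) / (((i : ℝ) + 1) * ((i : ℝ) + 2)) =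
      1 - 1 / (n + 1) := by
    intro n
    induction n with
    | zero => simp
    | succ n ih =>
      rw [sum_range_succ, ih]
      push_cast
      field_simp
      ring
  rw [h2] at h1
  have h3 : (0 : ℝ) < 1 / (((L + 1 : ℕ) : ℝ) + 1) := by positivity
  linarith

/-- the cost of block `i` -/
lemma cost_le {h g : ℕ} (hh : 1 ≤ h) (hg : 1 ≤ g) {κ : ℝ}
    (hκ0 : 0 ≤ κ) (hκ : κ * (h * g + h + g) = log 4 * (h + g)) : ∀ᶠ i : ℕ in atTop,
    0 < mJ κ i ∧ ∀ E : Finset ℤ, (∀ y ∈ E, ∃ j, y ∈ S j) →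
      (2 / mJ κ i : ℝ) * ∑ c ∈ cfgs h g E i, ∏ y ∈ els c, exp (-ex κ y) ≤
        1 / (((i : ℝ) + 1) * ((i : ℝ) + 2)) := by
  have hτ := log4_bounds
  have hh0 : (1 : ℝ) ≤ h := by exact_mod_cast hh
  have hg0 : (1 : ℝ) ≤ g := by exact_mod_cast hg
  have hN : (0 : ℝ) < h * g + h + g := by positivity
  have hκ1 : κ < log 4 := by
    by_contra hcon
    push Not at hcon
    have h1 : log 4 * (h * g + h + g) ≤ κ * (h * g + h + g) :=
      mul_le_mul_of_nonneg_right hcon hN.le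
    rw [hκ] at h1
    nlinarith [mul_pos (lt_of_lt_of_le zero_lt_one hh0) (lt_of_lt_of_le zero_lt_one hg0)]
  set N : ℝ := h * g + h + g with hNdef
  have hN3 : 3 ≤ N := by nlinarith
  filter_upwards [mJ_ge hκ0 hκ1, ev_pow (h + g + 3),
    tendsto_sqrt_nat.eventually_ge_atTop (2 * N / (log 4 - κ))] with i h1 h2 h3
  have hδ : 0 < log 4 - κ := sub_pos.2 hκ1
  set δ := log 4 - κ with hδdef
  rw [div_le_iff₀ hδ] at h3
  have hm : (0 : ℝ) < mJ κ i := lt_of_lt_of_le (by positivity) h1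
  refine ⟨by exact_mod_cast hm, ?_⟩
  intro E hE
  have h4 := sum_cfgs (i := i) hh hg hE hκ
  rw [← hNdef, ← hδdef] at h4
  -- the inner sum
  have h5 : ∑ j ∈ range (i + 1), exp (δ * j - 2 * N * √(j : ℝ)) ≤
      ((i : ℝ) + 1) * exp (δ * i - 2 * N * √(i : ℝ)) := by
    have h6 : ∀ j ∈ range (i + 1), exp (δ * j - 2 * N * √(j : ℝ)) ≤
        exp (δ * i - 2 * N * √(i : ℝ)) := by
      intro j hj
      rw [exp_le_exp]
      have hji : (j : ℝ) ≤ i := by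
        have := mem_range.1 hj
        exact_mod_cast (show j ≤ i by omega)
      have h7 : √(j : ℝ) ≤ √(i : ℝ) := Real.sqrt_le_sqrt hji
      have h8 : √(i : ℝ) * √(i : ℝ) = i := Real.mul_self_sqrt (Nat.cast_nonneg i)
      have h9 : √(j : ℝ) * √(j : ℝ) = j := Real.mul_self_sqrt (Nat.cast_nonneg j)
      have h10 : 0 ≤ √(j : ℝ) := Real.sqrt_nonneg _
      have h11 : 2 * N * (√(i : ℝ) - √(j : ℝ)) ≤ √(i : ℝ) * δ * (√(i : ℝ) - √(j : ℝ)) :=
        mul_le_mul_of_nonneg_right h3 (sub_nonneg.2 h7)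
      have h12 : √(i : ℝ) * δ * (√(i : ℝ) - √(j : ℝ)) ≤
          (√(i : ℝ) + √(j : ℝ)) * δ * (√(i : ℝ) - √(j : ℝ)) := by
        apply mul_le_mul_of_nonneg_right _ (sub_nonneg.2 h7)
        apply mul_le_mul_of_nonneg_right _ hδ.le
        linarith
      have h13 : (√(i : ℝ) + √(j : ℝ)) * δ * (√(i : ℝ) - √(j : ℝ)) = δ * (i - j) := by
        linear_combination δ * h8 - δ * h9
      linarith
    refine (sum_le_sum h6).trans (le_of_eq ?_)
    rw [sum_const, card_range, nsmul_eq_mul]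
    push_cast
    ring
  have h6 : 2 / (mJ κ i : ℝ) ≤ 8 * exp (-(δ * i) + 7 * √(i : ℝ)) := by
    rw [div_le_iff₀ hm]
    have h7 : exp (-(δ * i) + 7 * √(i : ℝ)) * exp (δ * i - 7 * √(i : ℝ)) = 1 := by
      rw [← exp_add]
      rw [show -(δ * i) + 7 * √(i : ℝ) + (δ * i - 7 * √(i : ℝ)) = 0 by ring, exp_zero]
    calc (2 : ℝ) = 8 * exp (-(δ * i) + 7 * √(i : ℝ)) *
          ((1 / 4) * exp (δ * i - 7 * √(i : ℝ))) := by
          rw [show 8 * exp (-(δ * i) + 7 * √(i : ℝ)) * ((1 / 4) * exp (δ * i - 7 * √(i : ℝ))) =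
            2 * (exp (-(δ * i) + 7 * √(i : ℝ)) * exp (δ * i - 7 * √(i : ℝ))) by ring, h7]
          ring
      _ ≤ _ := mul_le_mul_of_nonneg_left h1 (by positivity)
  have hS0 : 0 ≤ ∑ c ∈ cfgs h g E i, ∏ y ∈ els c, exp (-ex κ y) :=
    sum_nonneg fun c _ => prod_nonneg fun y _ => (exp_pos _).le
  calc (2 / mJ κ i : ℝ) * ∑ c ∈ cfgs h g E i, ∏ y ∈ els c, exp (-ex κ y)
      ≤ 8 * exp (-(δ * i) + 7 * √(i : ℝ)) * (exp (-(2 * √(i : ℝ))) *
        ((((i : ℝ) + 1) * exp (δ * i - 2 * N * √(i : ℝ))) * ((i : ℝ) + 1) ^ (h + g))) := by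
        apply mul_le_mul h6 _ hS0 (by positivity)
        refine h4.trans ?_
        gcongr
    _ = 8 * ((i : ℝ) + 1) ^ (h + g + 1) * exp ((5 - 2 * N) * √(i : ℝ)) := by
        have h7 : exp ((5 - 2 * N) * √(i : ℝ)) = exp (-(δ * i) + 7 * √(i : ℝ)) *
            (exp (-(2 * √(i : ℝ))) * exp (δ * i - 2 * N * √(i : ℝ))) := by
          rw [← exp_add, ← exp_add]
          congr 1
          ring
        rw [h7]
        ring
    _ ≤ 8 * ((i : ℝ) + 1) ^ (h + g + 1) * exp (-√(i : ℝ)) := by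
        apply mul_le_mul_of_nonneg_left _ (by positivity)
        rw [exp_le_exp]
        nlinarith [Real.sqrt_nonneg (i : ℝ)]
    _ ≤ 1 / (((i : ℝ) + 1) * ((i : ℝ) + 2)) := by
        rw [le_div_iff₀ (by positivity)]
        have h8 : ((i : ℝ) + 1) ^ (h + g + 1) * (((i : ℝ) + 1) * ((i : ℝ) + 2)) ≤
            ((i : ℝ) + 2) ^ (h + g + 3) := by
          have h9 : ((i : ℝ) + 1) ^ (h + g + 1) ≤ ((i : ℝ) + 2) ^ (h + g + 1) := by
            gcongr
            norm_num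
          calc ((i : ℝ) + 1) ^ (h + g + 1) * (((i : ℝ) + 1) * ((i : ℝ) + 2))
              ≤ ((i : ℝ) + 2) ^ (h + g + 1) * (((i : ℝ) + 2) * ((i : ℝ) + 2)) := by
                gcongr
                norm_num
            _ = _ := by ring
        calc 8 * ((i : ℝ) + 1) ^ (h + g + 1) * exp (-√(i : ℝ)) *
              (((i : ℝ) + 1) * ((i : ℝ) + 2)) =
              8 * (((i : ℝ) + 1) ^ (h + g + 1) * (((i : ℝ) + 1) * ((i : ℝ) + 2))) *
                exp (-√(i : ℝ)) := by ring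
          _ ≤ 8 * ((i : ℝ) + 2) ^ (h + g + 3) * exp (-√(i : ℝ)) := by gcongr
          _ ≤ 1 := h2

/-- finite sets in the first blocks, for all sufficiently late first blocks -/
theorem exists_finite {h g : ℕ} (hh : 1 ≤ h) (hg : 1 ≤ g) {κ : ℝ}
    (hκ0 : 0 ≤ κ) (hκ : κ * (h * g + h + g) = log 4 * (h + g)) :
    ∃ i₀ : ℕ, (∀ i, i₀ ≤ i → 0 < mJ κ i) ∧ ∀ L, ∃ A : Finset ℤ,
      (∀ y ∈ A, ∃ j ∈ Icc i₀ L, y ∈ S j) ∧
      (∀ c : Cfg h g, Valid c → ¬ ∀ p, Y c p ∈ A) ∧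
      ∀ i ∈ Icc i₀ L, mJ κ i ≤ 2 * (A.filter (fun y => β y = i)).card := by
  have h1 := cost_le hh hg hκ0 hκ
  rw [eventually_atTop] at h1
  obtain ⟨i₀, hi₀⟩ := h1
  refine ⟨i₀, fun i hi => (hi₀ i hi).1, fun L => ?_⟩
  apply finite_sets (M := MJ κ) (κ := κ)
  · intro j
    exact Nat.le_ceil _
  · intro j
    exact Nat.div_mul_le_self _ _
  · intro E hE
    refine lt_of_le_of_lt (sum_le_sum fun i hi => ?_) (sum_telescope i₀ L)
    exact (hi₀ i (mem_Icc.1 hi).1).2 E hE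
  · intro i hi
    exact (hi₀ i (mem_Icc.1 hi).1).1

/-- the infinite set, by compactness -/
theorem exists_infinite {h g : ℕ} (hh : 1 ≤ h) (hg : 1 ≤ g) {κ : ℝ}
    (hκ0 : 0 ≤ κ) (hκ : κ * (h * g + h + g) = log 4 * (h + g)) :
    ∃ (i₀ : ℕ) (A : Set ℤ), (∀ y ∈ A, 1 ≤ y) ∧
      (∀ c : Cfg h g, Valid c → ¬ ∀ p, Y c p ∈ A) ∧
      ∀ i, i₀ ≤ i → ∃ F : Finset ℤ, (F : Set ℤ) ⊆ A ∧ F ⊆ S i ∧ 0 < mJ κ i ∧
        mJ κ i ≤ 2 * F.card := by
  classical
  obtain ⟨i₀, hpos, hfin⟩ := exists_finite hh hg hκ0 hκ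
  choose A hA1 hA2 hA3 using hfin
  refine ⟨i₀, {y | ∀ᶠ L in (hyperfilter ℕ : Filter ℕ), y ∈ A L}, ?_, ?_, ?_⟩
  · intro y hy
    obtain ⟨L, hL⟩ := Eventually.exists (f := (hyperfilter ℕ : Filter ℕ)) hy
    obtain ⟨j, -, hj⟩ := hA1 L y hL
    have h1 := (S_bounds hj).1
    have h2 : (0 : ℤ) < 4 ^ j := by positivity
    omega
  · intro c hc hY
    have h1 : ∀ᶠ L in (hyperfilter ℕ : Filter ℕ), ∀ p, Y c p ∈ A L := by
      rw [eventually_all]
      exact hY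
    obtain ⟨L, hL⟩ := h1.exists
    exact hA2 L c hc hL
  · intro i hi
    have h1 : ∀ᶠ L in (hyperfilter ℕ : Filter ℕ), ∀ y ∈ S i,
        (y ∈ A L → ∀ᶠ L in (hyperfilter ℕ : Filter ℕ), y ∈ A L) := by
      rw [Filter.eventually_all_finset]
      intro y _
      by_cases hy : ∀ᶠ L in (hyperfilter ℕ : Filter ℕ), y ∈ A L
      · exact Eventually.of_forall fun L _ => hy
      · have h2 : ∀ᶠ L in (hyperfilter ℕ : Filter ℕ), ¬ y ∈ A L :=
          Ultrafilter.eventually_not.2 hy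
        exact h2.mono fun L hL hL' => absurd hL' hL
    have h2 : ∀ᶠ L in (hyperfilter ℕ : Filter ℕ), i ≤ L :=
      Nat.hyperfilter_le_atTop (eventually_ge_atTop i)
    obtain ⟨L, hL1, hL2⟩ := (h1.and h2).exists
    refine ⟨(A L).filter (fun y => β y = i), ?_, ?_, hpos i hi, hA3 L i (mem_Icc.2 ⟨hi, hL2⟩)⟩
    · intro y hy
      rw [mem_coe, mem_filter] at hy
      obtain ⟨j, -, hj⟩ := hA1 L y hy.1
      have h3 := β_eq hj
      rw [hy.2] at h3
      exact hL1 y (h3 ▸ hj) hy.1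
    · intro y hy
      rw [mem_filter] at hy
      obtain ⟨j, -, hj⟩ := hA1 L y hy.1
      have h3 := β_eq hj
      rw [hy.2] at h3
      exact h3 ▸ hj

end Pool.Agent.V11180.Chg
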