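import Pool.Agent.V11180.HamPC

set_option autoImplicit false

/-!
# Closed listings of finite abelian groups with symmetric generating sets
-/

namespace Pool.Agent.V11180.HamS

open Subgroup (closure mem_top mem_bot)

universe u

lemma closed_of_list {G : Type*} [Group G] [Finite G] (A : Set G) (L : List G)
    (hlen : L.length = Nat.card G) (hmem : ∀ g, g ∈ L)
    (hch : L.IsChain (fun x y => x⁻¹ * y ∈ A))
    (hcl : ∀ x ∈ L.getLast?, ∀ y ∈ L.head?, x⁻¹ * y ∈ A) : Closed A := by
  have hpos : 0 < Nat.card G := Nat.card_pos
  refine ⟨fun j => L.getD (j % Nat.card G) 1, ?_, ?_, ?_⟩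
  · intro j
    show L.getD ((j + Nat.card G) % Nat.card G) 1 = L.getD (j % Nat.card G) 1
    rw [Nat.add_mod_right]
  · intro j
    show (L.getD (j % Nat.card G) 1)⁻¹ * L.getD ((j + 1) % Nat.card G) 1 ∈ A
    have hlt := Nat.mod_lt j hpos
    have hj := Nat.div_add_mod j (Nat.card G)
    by_cases hc : j % Nat.card G + 1 < Nat.card G
    · have e : j + 1 = (j % Nat.card G + 1) + Nat.card G * (j / Nat.card G) := by omega
      have e2 : (j + 1) % Nat.card G = j % Nat.card G + 1 := by
        rw [e, Nat.add_mul_mod_self_left, Nat.mod_eq_of_lt hc]
      rw [e2, List.getD_eq_getElem _ _ (by omega), List.getD_eq_getElem _ _ (by omega)]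
      exact (List.isChain_iff_getElem.1 hch) _ _
    · have e0 : j % Nat.card G = Nat.card G - 1 := by omega
      have e : j + 1 = Nat.card G * (j / Nat.card G + 1) := by
        rw [mul_add, mul_one]
        omega
      have e2 : (j + 1) % Nat.card G = 0 := by
        rw [e]
        exact Nat.mul_mod_right _ _
      rw [e2, e0, List.getD_eq_getElem _ _ (by omega), List.getD_eq_getElem _ _ (by omega)]
      have h1 : L.getLast? = some (L[Nat.card G - 1]'(by omega)) := by
        rw [List.getLast?_eq_getElem?, List.getElem?_eq_getElem (by omega)]
        simp [hlen]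
      have h2 : L.head? = some (L[0]'(by omega)) := by
        rw [List.head?_eq_getElem?, List.getElem?_eq_getElem (by omega)]
      exact hcl _ h1 _ h2
  · intro g
    obtain ⟨i, hi, hig⟩ := List.getElem_of_mem (hmem g)
    refine ⟨i, by omega, ?_⟩
    show L.getD (i % Nat.card G) 1 = g
    rw [Nat.mod_eq_of_lt (by omega), List.getD_eq_getElem _ _ hi, hig]

section snake

variable {G : Type u} [CommGroup G] (x : ℕ → G) (a : G) (n : ℕ)

def up (i : ℕ) : List G := (List.range (n - 1)).map (fun j => x i * a ^ (j + 1))

def snake : ℕ → List G
  | 0 => []
  | k + 1 => up x a n (2 * k + 1) ++ ((up x a n (2 * k)).reverse ++ snake k)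

lemma up_length (i : ℕ) : (up x a n i).length = n - 1 := by simp [up]

lemma snake_length (k : ℕ) : (snake x a n k).length = 2 * k * (n - 1) := by
  induction k with
  | zero => simp [snake]
  | succ k ih =>
    rw [snake, List.length_append, List.length_append, List.length_reverse, up_length, up_length,
      ih]
    ring

lemma mem_up (i j : ℕ) (h1 : 1 ≤ j) (h2 : j < n) : x i * a ^ j ∈ up x a n i := by
  rw [up, List.mem_map]
  refine ⟨j - 1, List.mem_range.2 (by omega), ?_⟩
  have : j - 1 + 1 = j := by omega
  rw [this]

lemma mem_snake (k i j : ℕ) (hi : i < 2 * k) (h1 : 1 ≤ j) (h2 : j < n) :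
    x i * a ^ j ∈ snake x a n k := by
  induction k with
  | zero => omega
  | succ k ih =>
    rw [snake, List.mem_append, List.mem_append, List.mem_reverse]
    by_cases h3 : i = 2 * k + 1
    · left
      rw [h3]
      exact mem_up x a n _ j h1 h2
    · by_cases h4 : i = 2 * k
      · right
        left
        rw [h4]
        exact mem_up x a n _ j h1 h2
      · right
        right
        exact ih (by omega)

lemma up_head (i : ℕ) (hn : 2 ≤ n) : (up x a n i).head? = some (x i * a) := by
  obtain ⟨n', rfl⟩ : ∃ n', n = n' + 2 := ⟨n - 2, by omega⟩
  rw [up, List.head?_map]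
  have : n' + 2 - 1 = n' + 1 := by omega
  rw [this, List.head?_range]
  simp

lemma up_last (i : ℕ) (hn : 2 ≤ n) : (up x a n i).getLast? = some (x i * a ^ (n - 1)) := by
  obtain ⟨n', rfl⟩ : ∃ n', n = n' + 2 := ⟨n - 2, by omega⟩
  rw [up, List.getLast?_map]
  have : n' + 2 - 1 = n' + 1 := by omega
  rw [this, List.getLast?_range]
  simp

lemma snake_head (k : ℕ) (hn : 2 ≤ n) :
    (snake x a n (k + 1)).head? = some (x (2 * k + 1) * a) := by
  rw [snake, List.head?_append, up_head x a n _ hn]
  rfl

lemma snake_last (k : ℕ) (hn : 2 ≤ n) : (snake x a n (k + 1)).getLast? = some (x 0 * a) := by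
  induction k with
  | zero =>
    rw [snake, snake, List.append_nil, List.getLast?_append, List.getLast?_reverse,
      up_head x a n _ hn]
    rfl
  | succ k ih =>
    rw [snake, List.getLast?_append, List.getLast?_append, ih]
    rfl

variable {x a n}

lemma up_chain {A : Set G} (ha : a ∈ A) (i : ℕ) :
    (up x a n i).IsChain (fun u v => u⁻¹ * v ∈ A) := by
  rw [List.isChain_iff_getElem]
  intro j hj
  simp only [up, List.getElem_map, List.getElem_range]
  have : (x i * a ^ (j + 1))⁻¹ * (x i * a ^ (j + 1 + 1)) = a := by
    rw [pow_succ a (j + 1)]
    group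
  rw [this]
  exact ha

lemma up_rev_chain {A : Set G} (ha : a⁻¹ ∈ A) (i : ℕ) :
    (up x a n i).reverse.IsChain (fun u v => u⁻¹ * v ∈ A) := by
  rw [List.isChain_reverse, List.isChain_iff_getElem]
  intro j hj
  simp only [up, List.getElem_map, List.getElem_range]
  have : (x i * a ^ (j + 1 + 1))⁻¹ * (x i * a ^ (j + 1)) = a⁻¹ := by
    rw [pow_succ a (j + 1)]
    group
  show (x i * a ^ (j + 1 + 1))⁻¹ * (x i * a ^ (j + 1)) ∈ A
  rw [this]
  exact ha

lemma snake_chain {A : Set G} (ha : a ∈ A) (hinv : ∀ c ∈ A, c⁻¹ ∈ A)
    (hx : ∀ i, (x i)⁻¹ * x (i + 1) ∈ A) (hn : 2 ≤ n) (k : ℕ) :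
    (snake x a n k).IsChain (fun u v => u⁻¹ * v ∈ A) := by
  have hback : ∀ i j : ℕ, (x (i + 1) * a ^ j)⁻¹ * (x i * a ^ j) ∈ A := by
    intro i j
    have e : (x (i + 1) * a ^ j)⁻¹ * (x i * a ^ j) = ((x i)⁻¹ * x (i + 1))⁻¹ := by
      rw [mul_inv, mul_inv, inv_inv]
      rw [mul_comm (x i) (a ^ j), ← mul_assoc, mul_assoc (x (i + 1))⁻¹, inv_mul_cancel, mul_one,
        mul_comm]
    rw [e]
    exact hinv _ (hx i)
  induction k with
  | zero => simp [snake]
  | succ k ih =>
    rw [snake, List.isChain_append, List.isChain_append]
    refine ⟨up_chain ha _, ⟨up_rev_chain (hinv a ha) _, ih, ?_⟩, ?_⟩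
    · intro u hu v hv
      cases k with
      | zero => simp [snake] at hv
      | succ k =>
        rw [List.getLast?_reverse, up_head x a n _ hn] at hu
        rw [snake_head x a n _ hn] at hv
        simp only [Option.mem_def, Option.some.injEq] at hu hv
        rw [← hu, ← hv]
        have h1 := hback (2 * k + 1) 1
        rw [pow_one] at h1
        exact h1
    · intro u hu v hv
      rw [up_last x a n _ hn] at hu
      rw [List.head?_append, List.head?_reverse, up_last x a n _ hn] at hv
      simp only [Option.mem_def, Option.some.injEq, Option.some_or] at hu hv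
      rw [← hu, ← hv]
      exact hback (2 * k) (n - 1)

end snake

/-- Finite abelian groups. -/
theorem closed_abelian : ∀ (N : ℕ) (G : Type u) [CommGroup G] [Finite G], Nat.card G = N →
    ∀ A : Set G, A.Nonempty → (∀ c ∈ A, c⁻¹ ∈ A) → closure A = ⊤ → Closed A := by
  classical
  intro N
  induction N using Nat.strong_induction_on with
  | _ N ih =>
    intro G _ _ hcard A hA hinv hgen
    by_cases htriv : ∀ c ∈ A, c = 1
    · have hG1 : ∀ g : G, g = 1 := by
        intro g
        have h1 : closure A ≤ ⊥ := by
          rw [Subgroup.closure_le]
          intro c hc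
          exact htriv c hc
        rw [hgen] at h1
        exact h1 (mem_top g)
      obtain ⟨c, hc⟩ := hA
      refine closed_of_zpowers c ?_ A hc
      intro g
      rw [hG1 g]
      exact one_mem _
    · push Not at htriv
      obtain ⟨a, haA, ha1⟩ := htriv
      set Z := Subgroup.zpowers a with hZ
      have hZn : Z.Normal := inferInstance
      set n := orderOf a with hn
      have hn2 : 2 ≤ n := by
        have h1 : 0 < n := orderOf_pos a
        have h2 : n ≠ 1 := by
          intro h
          exact ha1 (orderOf_eq_one_iff.1 h)
        omega
      have hcardZ : Nat.card Z = n := Nat.card_zpowers a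
      have hcardG : Nat.card G = Nat.card (G ⧸ Z) * n := by
        rw [← hcardZ]
        exact Subgroup.card_eq_card_quotient_mul_card_subgroup Z
      have hQpos : 0 < Nat.card (G ⧸ Z) := Nat.card_pos
      obtain ⟨t, ht1, ht2, ht3⟩ := ih (Nat.card (G ⧸ Z)) (by
        rw [← hcard, hcardG]
        exact lt_mul_of_one_lt_right hQpos (by omega)) (G ⧸ Z) rfl
        ((QuotientGroup.mk' Z) '' A) (hA.image _) (by
          rintro _ ⟨c, hc, rfl⟩
          exact ⟨c⁻¹, hinv c hc, by simp⟩) (by
          rw [← MonoidHom.map_closure, hgen]
          exact Subgroup.map_top_of_surjective _ (QuotientGroup.mk'_surjective Z))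
      choose b hbA hb using ht2
      obtain ⟨x0, hx0⟩ := QuotientGroup.mk'_surjective Z (t 0)
      obtain ⟨x, hx00, hxs⟩ : ∃ x : ℕ → G, x 0 = x0 ∧ ∀ j, x (j + 1) = x j * b j :=
        ⟨fun j => Nat.rec x0 (fun j y => y * b j) j, rfl, fun j => rfl⟩
      have hxt : ∀ j, QuotientGroup.mk' Z (x j) = t j := by
        intro j
        induction j with
        | zero =>
          rw [hx00]
          exact hx0
        | succ j ih =>
          rw [hxs, map_mul, ih, hb]
          group
      have hxA : ∀ i, (x i)⁻¹ * x (i + 1) ∈ A := by
        intro i
        rw [hxs, inv_mul_cancel_left]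
        exact hbA i
      set m := Nat.card (G ⧸ Z) with hm
      -- every element is `x i * a ^ j`
      have hrep : ∀ g : G, ∃ i < m, ∃ j < n, g = x i * a ^ j := by
        intro g
        obtain ⟨i, hi, hig⟩ := ht3 (QuotientGroup.mk' Z g)
        have h1 : (x i)⁻¹ * g ∈ Z := by
          rw [← hxt] at hig
          exact QuotientGroup.eq.1 hig
        obtain ⟨j, hj, hjg⟩ := (mem_powers_iff_mem_range_orderOf (x := a)
          (y := (x i)⁻¹ * g)).1 (mem_powers_iff_mem_zpowers.2 h1) |> Finset.mem_image.1
        rw [Finset.mem_range] at hj
        refine ⟨i, hi, j, hj, ?_⟩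
        rw [hjg]
        group
      have hrow : ∀ l : ℕ, ((List.range l).map x).IsChain (fun u v => u⁻¹ * v ∈ A) := by
        intro l
        rw [List.isChain_iff_getElem]
        intro j hj
        simp only [List.getElem_map, List.getElem_range]
        exact hxA j
      rcases Nat.even_or_odd' m with ⟨k, hk | hk⟩
      · -- even
        obtain ⟨k, rfl⟩ : ∃ k', k = k' + 1 := ⟨k - 1, by omega⟩
        refine closed_of_list A ((List.range (2 * (k + 1))).map x ++ snake x a n (k + 1))
          ?_ ?_ ?_ ?_
        · rw [List.length_append, List.length_map, List.length_range, snake_length, hcardG, hk]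
          obtain ⟨n', hn'⟩ : ∃ n', n = n' + 1 := ⟨n - 1, by omega⟩
          rw [hn']
          simp only [Nat.add_sub_cancel]
          ring
        · intro g
          obtain ⟨i, hi, j, hj, rfl⟩ := hrep g
          rw [List.mem_append]
          by_cases hj0 : j = 0
          · left
            rw [List.mem_map]
            refine ⟨i, List.mem_range.2 (by omega), ?_⟩
            rw [hj0, pow_zero, mul_one]
          · right
            exact mem_snake x a n _ i j (by omega) (by omega) hj
        · rw [List.isChain_append]
          refine ⟨hrow _, snake_chain haA hinv hxA hn2 _, ?_⟩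
          intro u hu v hv
          rw [List.getLast?_map, List.getLast?_range] at hu
          rw [snake_head x a n _ hn2] at hv
          have h0 : 2 * (k + 1) ≠ 0 := by omega
          simp only [h0, if_false, Option.map_some, Option.mem_def, Option.some.injEq] at hu hv
          have e : 2 * (k + 1) - 1 = 2 * k + 1 := by omega
          rw [← hu, ← hv, e, inv_mul_cancel_left]
          exact haA
        · intro u hu v hv
          rw [List.getLast?_append, snake_last x a n _ hn2] at hu
          rw [List.head?_append, List.head?_map, List.head?_range] at hv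
          have h0 : 2 * (k + 1) ≠ 0 := by omega
          simp only [h0, if_false, Option.map_some, Option.mem_def, Option.some.injEq,
            Option.some_or] at hu hv
          rw [← hu, ← hv]
          have e : (x 0 * a)⁻¹ * x 0 = a⁻¹ := by
            rw [mul_inv, mul_comm (x 0)⁻¹, mul_assoc, inv_mul_cancel, mul_one]
          rw [e]
          exact hinv a haA
      · -- odd
        cases k with
        | zero =>
          refine closed_of_zpowers a ?_ A haA
          intro g
          obtain ⟨i, hi, j, hj, hg⟩ := hrep g
          obtain ⟨i', hi', j', hj', hg'⟩ := hrep 1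
          have e1 : i = 0 := by omega
          have e2 : i' = 0 := by omega
          subst e1
          subst e2
          have hx0 : x 0 ∈ Z := by
            have : x 0 = (a ^ j')⁻¹ := eq_inv_of_mul_eq_one_left hg'.symm
            rw [this]
            exact inv_mem (pow_mem (Subgroup.mem_zpowers a) _)
          rw [hg]
          exact mul_mem hx0 (pow_mem (Subgroup.mem_zpowers a) _)
        | succ k =>
          have han : a ^ n = 1 := pow_orderOf_eq_one a
          have hcolA : ((List.range n).map (fun j => x (2 * (k + 1)) * a⁻¹ ^ j)).IsChain
              (fun u v => u⁻¹ * v ∈ A) := by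
            rw [List.isChain_iff_getElem]
            intro j hj
            simp only [List.getElem_map, List.getElem_range]
            have e : (x (2 * (k + 1)) * a⁻¹ ^ j)⁻¹ * (x (2 * (k + 1)) * a⁻¹ ^ (j + 1)) = a⁻¹ := by
              rw [pow_succ]
              group
            rw [e]
            exact hinv a haA
          have hlastcol : x (2 * (k + 1)) * a⁻¹ ^ (n - 1) = x (2 * (k + 1)) * a := by
            congr 1
            rw [inv_pow, inv_eq_iff_mul_eq_one, ← pow_succ]
            have : n - 1 + 1 = n := by omega
            rw [this]
            exact han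
          have hn0 : n ≠ 0 := by omega
          have h20 : 2 * (k + 1) ≠ 0 := by omega
          refine closed_of_list A ((List.range (2 * (k + 1))).map x ++
            ((List.range n).map (fun j => x (2 * (k + 1)) * a⁻¹ ^ j) ++ snake x a n (k + 1)))
            ?_ ?_ ?_ ?_
          · rw [List.length_append, List.length_append, List.length_map, List.length_range,
              List.length_map, List.length_range, snake_length, hcardG, hk]
            obtain ⟨n', hn'⟩ : ∃ n', n = n' + 1 := ⟨n - 1, by omega⟩
            rw [hn']
            simp only [Nat.add_sub_cancel]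
            ring
          · intro g
            obtain ⟨i, hi, j, hj, rfl⟩ := hrep g
            rw [List.mem_append, List.mem_append]
            by_cases hi2 : i = 2 * (k + 1)
            · right
              left
              rw [List.mem_map]
              by_cases hj0 : j = 0
              · refine ⟨0, List.mem_range.2 (by omega), ?_⟩
                rw [hj0, hi2]
                simp
              · refine ⟨n - j, List.mem_range.2 (by omega), ?_⟩
                rw [hi2]
                congr 1
                rw [inv_pow, inv_eq_iff_mul_eq_one, ← pow_add]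
                have : n - j + j = n := by omega
                rw [this]
                exact han
            · by_cases hj0 : j = 0
              · left
                rw [List.mem_map]
                refine ⟨i, List.mem_range.2 (by omega), ?_⟩
                rw [hj0, pow_zero, mul_one]
              · right
                right
                exact mem_snake x a n _ i j (by omega) (by omega) hj
          · rw [List.isChain_append, List.isChain_append]
            refine ⟨hrow _, ⟨hcolA, snake_chain haA hinv hxA hn2 _, ?_⟩, ?_⟩
            · intro u hu v hv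
              rw [List.getLast?_map, List.getLast?_range] at hu
              rw [snake_head x a n _ hn2] at hv
              simp only [hn0, if_false, Option.map_some, Option.mem_def, Option.some.injEq]
                at hu hv
              rw [← hu, ← hv, hlastcol]
              have e2 : 2 * (k + 1) = 2 * k + 1 + 1 := by ring
              rw [e2]
              have e : (x (2 * k + 1 + 1) * a)⁻¹ * (x (2 * k + 1) * a) =
                  ((x (2 * k + 1))⁻¹ * x (2 * k + 1 + 1))⁻¹ := by
                rw [mul_inv, mul_inv, inv_inv, mul_comm (x (2 * k + 1)) a, ← mul_assoc,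
                  mul_assoc (x (2 * k + 1 + 1))⁻¹, inv_mul_cancel, mul_one, mul_comm]
              rw [e]
              exact hinv _ (hxA _)
            · intro u hu v hv
              rw [List.getLast?_map, List.getLast?_range] at hu
              rw [List.head?_append, List.head?_map, List.head?_range] at hv
              simp only [hn0, h20, if_false, Option.map_some, Option.mem_def, Option.some.injEq,
                Option.some_or, pow_zero, mul_one] at hu hv
              rw [← hu, ← hv]
              have e2 : 2 * (k + 1) = 2 * (k + 1) - 1 + 1 := by omega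
              nth_rewrite 2 [e2]
              exact hxA _
          · intro u hu v hv
            rw [List.getLast?_append, List.getLast?_append, snake_last x a n _ hn2] at hu
            rw [List.head?_append, List.head?_map, List.head?_range] at hv
            simp only [h20, if_false, Option.map_some, Option.mem_def, Option.some.injEq,
              Option.some_or] at hu hv
            rw [← hu, ← hv]
            have e : (x 0 * a)⁻¹ * x 0 = a⁻¹ := by
              rw [mul_inv, mul_comm (x 0)⁻¹, mul_assoc, inv_mul_cancel, mul_one]
            rw [e]
            exact hinv a haA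

end Pool.Agent.V11180.HamS
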