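import Mathlib

set_option autoImplicit false

/-!
# Series of groups, and the composition of Hamiltonian paths
-/

namespace Pool.Agent.V11180.HamS

open Subgroup (normalClosure center centralizer commutator_mono commutator_le map_commutator mem_center_iff mem_centralizer_iff normalClosure_le_normal subset_normalClosure mem_top mem_bot center_le_centralizer commutator_comm commutator_mem_commutator commutator_commutator_eq_bot_of_rotate top_lowerCentralSeries_one)

section basic

variable {G : Type*} [Group G]

/-- The three subgroups lemma modulo a normal subgroup. -/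
lemma three {A B C K : Subgroup G} [K.Normal] (h1 : ⁅⁅B, C⁆, A⁆ ≤ K) (h2 : ⁅⁅C, A⁆, B⁆ ≤ K) :
    ⁅⁅A, B⁆, C⁆ ≤ K := by
  have key : ∀ X : Subgroup G, X ≤ K ↔ X.map (QuotientGroup.mk' K) = ⊥ := by
    intro X
    rw [Subgroup.map_eq_bot_iff, QuotientGroup.ker_mk']
  rw [key] at h1 h2 ⊢
  rw [map_commutator, map_commutator] at h1 h2 ⊢
  exact commutator_commutator_eq_bot_of_rotate h1 h2

lemma comm_ucs_top (n : ℕ) :
    ⁅Subgroup.upperCentralSeries G (n + 1), (⊤ : Subgroup G)⁆ ≤ Subgroup.upperCentralSeries G n := by
  rw [commutator_le]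
  intro x hx y _
  exact (Subgroup.mem_upperCentralSeries_succ_iff.1 hx) y

/-- The upper and the lower central series. -/
lemma comm_lcs_ucs (m : ℕ) : ∀ n : ℕ,
    ⁅(⊤ : Subgroup G).lowerCentralSeries m, Subgroup.upperCentralSeries G (n + m + 1)⁆ ≤
      Subgroup.upperCentralSeries G n := by
  induction m with
  | zero =>
    intro n
    rw [Subgroup.lowerCentralSeries_zero, commutator_comm]
    exact comm_ucs_top n
  | succ m ih =>
    intro n
    rw [Subgroup.lowerCentralSeries_succ]
    apply three
    · -- `[[⊤, Z], γ]`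
      have h1 : ⁅(⊤ : Subgroup G), Subgroup.upperCentralSeries G (n + (m + 1) + 1)⁆ ≤
          Subgroup.upperCentralSeries G (n + m + 1) := by
        rw [commutator_comm]
        exact comm_ucs_top (n + m + 1)
      refine (commutator_mono h1 le_rfl).trans ?_
      rw [commutator_comm]
      exact ih n
    · have h1 : ⁅Subgroup.upperCentralSeries G (n + (m + 1) + 1),
          (⊤ : Subgroup G).lowerCentralSeries m⁆ ≤ Subgroup.upperCentralSeries G (n + 1) := by
        rw [commutator_comm]
        have := ih (n + 1)
        have e : n + 1 + m + 1 = n + (m + 1) + 1 := by ring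
        rwa [e] at this
      exact (commutator_mono h1 le_rfl).trans (comm_ucs_top n)

lemma comm_of_central_derived (b : G) (hb : normalClosure {b} = ⊤)
    (hc : commutator G ≤ center G) (x y : G) : x * y = y * x := by
  have h1 : centralizer {b} = ⊤ := by
    have hn : (centralizer {b} : Subgroup G).Normal := by
      constructor
      intro n hn g
      have h2 : g * n * g⁻¹ * n⁻¹ ∈ commutator G := by
        exact commutator_mem_commutator (mem_top g) (mem_top n)
      have h3 : g * n * g⁻¹ * n⁻¹ ∈ centralizer ({b} : Set G) :=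
        (hc.trans (center_le_centralizer _)) h2
      have e : g * n * g⁻¹ = (g * n * g⁻¹ * n⁻¹) * n := by group
      rw [e]
      exact mul_mem h3 hn
    apply top_le_iff.1
    rw [← hb]
    apply normalClosure_le_normal
    intro z hz
    rw [Set.mem_singleton_iff] at hz
    subst hz
    simp [mem_centralizer_iff]
  have h2 : b ∈ center G := by
    rw [mem_center_iff]
    intro g
    have : g ∈ (centralizer {b} : Subgroup G) := by
      rw [h1]
      trivial
    rw [mem_centralizer_iff] at this
    exact (this b rfl).symm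
  have h3 : center G = ⊤ := by
    apply top_le_iff.1
    rw [← hb]
    apply normalClosure_le_normal
    intro z hz
    rw [Set.mem_singleton_iff] at hz
    subst hz
    exact h2
  have : x ∈ center G := by
    rw [h3]
    trivial
  rw [mem_center_iff] at this
  exact (this y).symm

lemma normalClosure_map {H : Type*} [Group H] (f : G →* H) (hf : Function.Surjective f) (a : G)
    (ha : normalClosure {a} = (⊤ : Subgroup G)) : normalClosure {f a} = (⊤ : Subgroup H) := by
  have h1 : (normalClosure {f a}).comap f = ⊤ := by
    apply top_le_iff.1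
    rw [← ha]
    have : ((normalClosure {f a} : Subgroup H).comap f).Normal := Subgroup.Normal.comap inferInstance f
    apply normalClosure_le_normal
    intro z hz
    rw [Set.mem_singleton_iff] at hz
    subst hz
    exact subset_normalClosure rfl
  apply top_le_iff.1
  intro y _
  obtain ⟨x, rfl⟩ := hf y
  have : x ∈ (normalClosure {f a} : Subgroup H).comap f := by
    rw [h1]
    trivial
  exact this

lemma comm_of_nilpotent (hG : Group.IsNilpotent G) (a : G) (ha : normalClosure {a} = ⊤)
    (x y : G) : x * y = y * x := by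
  -- the second and the third term of the lower central series agree
  set K := (⊤ : Subgroup G).lowerCentralSeries 2 with hK
  have hKn : K.Normal := inferInstance
  have h12 : (⊤ : Subgroup G).lowerCentralSeries 1 ≤ K := by
    have h1 : commutator (G ⧸ K) ≤ center (G ⧸ K) := by
      intro z hz
      have e : commutator (G ⧸ K) = (commutator G).map (QuotientGroup.mk' K) := by
        rw [commutator_def, commutator_def, map_commutator,
          Subgroup.map_top_of_surjective _ (QuotientGroup.mk'_surjective K)]
      rw [e] at hz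
      obtain ⟨w, hw, rfl⟩ := hz
      rw [mem_center_iff]
      intro g
      obtain ⟨g, rfl⟩ := QuotientGroup.mk'_surjective K g
      rw [← map_mul, ← map_mul]
      have hmem : (g * w)⁻¹ * (w * g) ∈ K := by
        have h2 : w⁻¹ * g⁻¹ * w⁻¹⁻¹ * g⁻¹⁻¹ ∈ K := by
          rw [hK]
          have e2 : (⊤ : Subgroup G).lowerCentralSeries 2 =
              ⁅(⊤ : Subgroup G).lowerCentralSeries 1, (⊤ : Subgroup G)⁆ := rfl
          rw [e2, top_lowerCentralSeries_one]
          exact commutator_mem_commutator (inv_mem hw) (mem_top _)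
        have e3 : (g * w)⁻¹ * (w * g) = w⁻¹ * g⁻¹ * w⁻¹⁻¹ * g⁻¹⁻¹ := by
          group
        rw [e3]
        exact h2
      exact QuotientGroup.eq.2 hmem
    have h2 := comm_of_central_derived (G := G ⧸ K) (QuotientGroup.mk' K a)
      (normalClosure_map _ (QuotientGroup.mk'_surjective K) a ha) h1
    rw [top_lowerCentralSeries_one, commutator_def, commutator_le]
    intro g _ h _
    have h3 : QuotientGroup.mk' K (h * g) = QuotientGroup.mk' K (g * h) := by
      rw [map_mul, map_mul]
      exact h2 _ _
    have h4 : (h * g)⁻¹ * (g * h) ∈ K := QuotientGroup.eq.1 h3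
    have h5 := hKn.conj_mem _ h4 (h * g)
    have e : (h * g) * ((h * g)⁻¹ * (g * h)) * (h * g)⁻¹ = g * h * g⁻¹ * h⁻¹ := by
      group
    rw [e] at h5
    exact h5
  have hall : ∀ n, (⊤ : Subgroup G).lowerCentralSeries 1 ≤
      (⊤ : Subgroup G).lowerCentralSeries (n + 1) := by
    intro n
    induction n with
    | zero => exact le_rfl
    | succ n ih =>
      refine h12.trans ?_
      have e2 : (⊤ : Subgroup G).lowerCentralSeries 2 =
          ⁅(⊤ : Subgroup G).lowerCentralSeries 1, (⊤ : Subgroup G)⁆ := rfl
      have e3 : (⊤ : Subgroup G).lowerCentralSeries (n + 1 + 1) =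
          ⁅(⊤ : Subgroup G).lowerCentralSeries (n + 1), (⊤ : Subgroup G)⁆ := rfl
      rw [hK, e2, e3]
      exact commutator_mono ih le_rfl
  obtain ⟨n, hn⟩ := Subgroup.nilpotent_iff_lowerCentralSeries.1 hG
  have h1 : (⊤ : Subgroup G).lowerCentralSeries 1 = ⊥ := by
    apply le_bot_iff.1
    refine (hall n).trans ?_
    refine (Subgroup.lowerCentralSeries_antitone _ (Nat.le_succ n)).trans ?_
    rw [hn]
  rw [top_lowerCentralSeries_one, commutator_def] at h1
  have h2 : x * y * x⁻¹ * y⁻¹ ∈ ⁅(⊤ : Subgroup G), (⊤ : Subgroup G)⁆ :=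
    commutator_mem_commutator (mem_top _) (mem_top _)
  rw [h1, mem_bot] at h2
  have e : x * y = (x * y * x⁻¹ * y⁻¹) * (y * x) := by group
  rw [e, h2, one_mul]

end basic

/-- A Hamiltonian path. -/
def HasPath {G : Type*} [Group G] (A : Set G) : Prop :=
  ∃ l : List G, l.Nodup ∧ (∀ g, g ∈ l) ∧ l.IsChain (fun x y => x⁻¹ * y ∈ A)


/-- Extension of paths: the blocks. -/
lemma combine_aux {G : Type*} [Group G] (N : Subgroup G) [N.Normal] (A : Set G) (L0 : List G)
    (hL0 : L0.Nodup) (hmem : ∀ g, g ∈ L0 ↔ g ∈ N) (hch : L0.IsChain (fun x y => x⁻¹ * y ∈ A))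
    (hhead : L0.head? = some 1) :
    ∀ (t : List (G ⧸ N)) (q : G ⧸ N), (q :: t).Nodup →
      (q :: t).IsChain (fun x y => x⁻¹ * y ∈ (QuotientGroup.mk' N) '' A) →
      ∀ x : G, (x : G ⧸ N) = q → ∃ L : List G, L.head? = some x ∧ L.Nodup ∧
        (∀ g : G, g ∈ L ↔ (g : G ⧸ N) ∈ q :: t) ∧ L.IsChain (fun x y => x⁻¹ * y ∈ A) := by
  have hblock : ∀ x : G, (L0.map (fun u => x * u)).head? = some x ∧
      (L0.map (fun u => x * u)).Nodup ∧
      (∀ g : G, g ∈ L0.map (fun u => x * u) ↔ (g : G ⧸ N) = (x : G ⧸ N)) ∧
      (L0.map (fun u => x * u)).IsChain (fun x y => x⁻¹ * y ∈ A) := by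
    intro x
    refine ⟨?_, ?_, ?_, ?_⟩
    · rw [List.head?_map, hhead]
      simp
    · exact hL0.map (mul_right_injective x)
    · intro g
      rw [List.mem_map]
      constructor
      · rintro ⟨u, hu, rfl⟩
        rw [eq_comm, QuotientGroup.eq]
        simpa using (hmem u).1 hu
      · intro h
        rw [eq_comm, QuotientGroup.eq] at h
        exact ⟨x⁻¹ * g, (hmem _).2 h, by group⟩
    · rw [List.isChain_map]
      refine hch.imp ?_
      intro u v huv
      have : (x * u)⁻¹ * (x * v) = u⁻¹ * v := by group
      rw [this]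
      exact huv
  intro t
  induction t with
  | nil =>
    intro q _ _ x hx
    obtain ⟨h1, h2, h3, h4⟩ := hblock x
    refine ⟨_, h1, h2, ?_, h4⟩
    intro g
    rw [h3, hx, List.mem_singleton]
  | cons q' t ih =>
    intro q hnd hchain x hx
    obtain ⟨h1, h2, h3, h4⟩ := hblock x
    rw [List.isChain_cons_cons] at hchain
    obtain ⟨⟨b, hbA, hb⟩, hchain'⟩ := hchain
    rw [List.nodup_cons] at hnd
    -- the last element of the block
    have hne : L0 ≠ [] := by
      rintro rfl
      simp at hhead
    set e := L0.getLast hne with he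
    have heN : e ∈ N := (hmem e).1 (List.getLast_mem hne)
    have hx' : ((x * e * b : G) : G ⧸ N) = q' := by
      have e1 : ((x * e : G) : G ⧸ N) = (x : G ⧸ N) := by
        rw [eq_comm, QuotientGroup.eq]
        simpa using heN
      rw [QuotientGroup.mk_mul, e1, hx]
      have : (b : G ⧸ N) = q⁻¹ * q' := hb
      rw [this]
      group
    obtain ⟨L, k1, k2, k3, k4⟩ := ih q' hnd.2 hchain' (x * e * b) hx'
    refine ⟨L0.map (fun u => x * u) ++ L, ?_, ?_, ?_, ?_⟩
    · rw [List.head?_append, h1]
      rfl
    · rw [List.nodup_append']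
      refine ⟨h2, k2, ?_⟩
      intro g hg hg'
      rw [h3, hx] at hg
      rw [k3, hg] at hg'
      exact hnd.1 hg'
    · intro g
      rw [List.mem_append, h3, k3, hx, List.mem_cons (a := (g : G ⧸ N)) (b := q)]
    · rw [List.isChain_append]
      refine ⟨h4, k4, ?_⟩
      intro y hy z hz
      rw [List.getLast?_map, List.getLast?_eq_some_getLast hne] at hy
      rw [k1] at hz
      simp only [Option.map_some, Option.mem_def, Option.some.injEq] at hy hz
      rw [← hy, ← hz, ← he]
      have : (x * e)⁻¹ * (x * e * b) = b := by group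
      rw [this]
      exact hbA

lemma combine {G : Type*} [Group G] (N : Subgroup G) [N.Normal] (A : Set G)
    (h1 : HasPath {x : N | (x : G) ∈ A}) (h2 : HasPath ((QuotientGroup.mk' N) '' A)) :
    HasPath A := by
  obtain ⟨l, hl1, hl2, hl3⟩ := h1
  obtain ⟨m, hm1, hm2, hm3⟩ := h2
  cases m with
  | nil => exact absurd (hm2 1) (by simp)
  | cons q t =>
    cases l with
    | nil => exact absurd (hl2 1) (by simp)
    | cons y l =>
      obtain ⟨x, hx⟩ := QuotientGroup.mk_surjective q
      obtain ⟨L, _, k2, k3, k4⟩ := combine_aux N A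
        ((y :: l).map (fun u : N => ((y⁻¹ * u : N) : G))) (hl1.map (by
          intro u v huv
          exact mul_right_injective y⁻¹ (Subtype.ext huv))) (by
          intro g
          rw [List.mem_map]
          constructor
          · rintro ⟨u, _, rfl⟩
            exact (y⁻¹ * u).2
          · intro hg
            exact ⟨y * ⟨g, hg⟩, hl2 _, by simp⟩) (by
          rw [List.isChain_map]
          refine hl3.imp ?_
          intro u v huv
          have : ((y⁻¹ * u : N) : G)⁻¹ * ((y⁻¹ * v : N) : G) = ((u⁻¹ * v : N) : G) := by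
            push_cast
            group
          rw [this]
          exact huv) (by simp) t q hm1 hm3 x hx
      exact ⟨L, k2, fun g => (k3 g).2 (hm2 _), k4⟩


/-- From a path to a listing sequence. -/
theorem listing_of_path {G : Type*} [Group G] [Finite G] (A : Set G) (hA : A.Nonempty)
    (h : HasPath A) :
    ∃ l : List G, l.length = Nat.card G ∧ (∀ x ∈ l, x ∈ A) ∧
      Set.InjOn (fun k => (l.take k).prod) (Set.Icc 1 (Nat.card G)) := by
  classical
  obtain ⟨m, hm1, hm2, hm3⟩ := h
  obtain ⟨α, hα⟩ := hA
  have hlen : m.length = Nat.card G := by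
    have := Fintype.ofFinite G
    have h1 : m.toFinset = Finset.univ := by
      ext g
      simp [hm2 g]
    rw [Nat.card_eq_fintype_card, ← Finset.card_univ, ← h1, List.toFinset_card_of_nodup hm1]
  set n := Nat.card G with hn
  have hpos : 0 < n := Nat.card_pos
  set c : ℕ → G := fun k => if k = 0 then α else (m.getD (k - 1) 1)⁻¹ * m.getD k 1 with hc
  have hprod : ∀ k, ((List.range (k + 1)).map c).prod = α * (m.getD 0 1)⁻¹ * m.getD k 1 := by
    intro k
    induction k with
    | zero => simp [hc]
    | succ k ih =>
      rw [List.range_succ, List.map_append, List.prod_append, ih]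
      simp [hc, mul_assoc]
  refine ⟨(List.range n).map c, by simp, ?_, ?_⟩
  · intro x hx
    rw [List.mem_map] at hx
    obtain ⟨k, hk, rfl⟩ := hx
    rw [List.mem_range] at hk
    by_cases h0 : k = 0
    · simp [hc, h0, hα]
    · have h1 := (List.isChain_iff_getElem.1 hm3) (k - 1) (by omega)
      simp only [hc, h0, if_false]
      rw [List.getD_eq_getElem _ _ (by omega), List.getD_eq_getElem _ _ (by omega)]
      have e : k - 1 + 1 = k := by omega
      simp only [e] at h1
      exact h1
  · intro i hi j hj hij
    simp only at hij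
    obtain ⟨i, rfl⟩ : ∃ i', i = i' + 1 := ⟨i - 1, by have := hi.1; omega⟩
    obtain ⟨j, rfl⟩ : ∃ j', j = j' + 1 := ⟨j - 1, by have := hj.1; omega⟩
    have hi2 := hi.2
    have hj2 := hj.2
    have htake : ∀ k, k + 1 ≤ n → ((List.range n).map c).take (k + 1) =
        (List.range (k + 1)).map c := by
      intro k hk
      rw [← List.map_take, List.take_range, min_eq_left hk]
    rw [htake i hi2, htake j hj2, hprod, hprod] at hij
    have h1 : m.getD i 1 = m.getD j 1 := mul_left_cancel hij
    rw [List.getD_eq_getElem _ _ (by omega), List.getD_eq_getElem _ _ (by omega)] at h1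
    have := (List.Nodup.getElem_inj_iff hm1).1 h1
    omega


end Pool.Agent.V11180.HamS
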