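import Pool.Agent.V11180.HamAb

set_option autoImplicit false

/-!
# Generating sets closed under conjugation by a normal subgroup `K`: lifting from `G / [K, G]`
-/

namespace Pool.Agent.V11180.HamS

open Subgroup (closure mem_top mem_bot commutator_mono commutator_le map_commutator commutator_mem_commutator)

universe u

lemma closed_of_bot {G : Type*} [Group G] [Finite G] (S : Subgroup G) [S.Normal] (hS : S = ⊥)
    (C : Set G) (h : Closed ((QuotientGroup.mk' S) '' C)) : Closed C := by
  subst hS
  exact closed_of_equiv (QuotientGroup.quotientBot (G := G)).symm C h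

lemma closed_congr {G : Type*} [Group G] (S S' : Subgroup G) [S.Normal] [S'.Normal]
    (hS : S = S') (C : Set G) (h : Closed ((QuotientGroup.mk' S) '' C)) :
    Closed ((QuotientGroup.mk' S') '' C) := by
  subst hS
  exact h

/-- The levels which come from a closed listing of a quotient. -/
lemma levels {G : Type*} [Group G] [Finite G] (N : Subgroup G) [hNn : N.Normal] (C : Set G)
    (hcl : Closed ((QuotientGroup.mk' N) '' C)) :
    ∃ (m : ℕ) (s : ℕ → G) (h : G) (c : ℕ → G), 0 < m ∧ h ∈ N ∧ (∀ j, s (j + m) = h * s j) ∧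
      (∀ j, c j ∈ C ∧ s (j + 1) = s j * c j) ∧ (∀ g, ∃ j < m, g * (s j)⁻¹ ∈ N) ∧
      m * Nat.card N = Nat.card G := by
  classical
  obtain ⟨t, ht1, ht2, ht3⟩ := hcl
  choose c hcC hc using ht2
  obtain ⟨x0, hx0⟩ := QuotientGroup.mk'_surjective N (t 0)
  set m := Nat.card (G ⧸ N) with hm
  have hmpos : 0 < m := Nat.card_pos
  obtain ⟨u, hu0, hus⟩ : ∃ u : ℕ → G, u 0 = x0 ∧ ∀ j, u (j + 1) = u j * c j :=
    ⟨fun j => Nat.rec x0 (fun j x => x * c j) j, rfl, fun j => rfl⟩
  have hut : ∀ j, QuotientGroup.mk' N (u j) = t j := by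
    intro j
    induction j with
    | zero =>
      rw [hu0]
      exact hx0
    | succ j ih =>
      rw [hus, map_mul, ih, hc]
      group
  set h := u m * (u 0)⁻¹ with hh
  have hhN : h ∈ N := by
    have h1 : QuotientGroup.mk' N h = 1 := by
      rw [hh, map_mul, map_inv, hut, hut]
      have := ht1 0
      rw [zero_add] at this
      rw [this, mul_inv_cancel]
    exact (QuotientGroup.eq_one_iff h).1 h1
  have hum : u m = h * u 0 := by
    rw [hh]
    group
  refine ⟨m, ext u h m, h, fun j => c (j % m), hmpos, hhN, ext_per u h m hmpos, ?_, ?_,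
    (Subgroup.card_eq_card_quotient_mul_card_subgroup N).symm⟩
  · intro j
    refine ⟨hcC _, ?_⟩
    rw [ext_succ u h m hmpos hum, hus]
    unfold ext
    rw [mul_assoc]
  · intro g
    obtain ⟨j, hj, hjg⟩ := ht3 (QuotientGroup.mk' N g)
    refine ⟨j, hj, ?_⟩
    rw [ext_lt _ _ _ _ hj]
    have h1 : QuotientGroup.mk' N (g * (u j)⁻¹) = 1 := by
      rw [map_mul, map_inv, hut, hjg, mul_inv_cancel]
    exact (QuotientGroup.eq_one_iff _).1 h1

/-- The central step. -/
theorem central_step : ∀ (n : ℕ) (G : Type u) [Group G] [Finite G], Nat.card G = n →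
    ∀ (K : Subgroup G) [K.Normal], ⁅⁅K, (⊤ : Subgroup G)⁆, (⊤ : Subgroup G)⁆ = ⊥ →
      ∀ A : Set G, (∀ x ∈ K, ∀ c ∈ A, x * c * x⁻¹ ∈ A) →
        Closed ((QuotientGroup.mk' ⁅K, (⊤ : Subgroup G)⁆) '' A) → Closed A := by
  classical
  intro n
  induction n using Nat.strong_induction_on with
  | _ n ih =>
    intro G _ _ hcard K hKn hcen A hA hcl
    set T := ⁅K, (⊤ : Subgroup G)⁆ with hT
    have hTn : T.Normal := inferInstance
    by_cases hT0 : T = ⊥
    · exact closed_of_bot T hT0 A hcl
    · have hTc : ∀ t ∈ T, ∀ g : G, t * g = g * t := by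
        intro t ht g
        have h1 : t * g * t⁻¹ * g⁻¹ ∈ (⊥ : Subgroup G) := by
          rw [← hcen]
          exact commutator_mem_commutator ht (mem_top g)
        rw [mem_bot] at h1
        have e : t * g = (t * g * t⁻¹ * g⁻¹) * (g * t) := by group
        rw [e, h1, one_mul]
      have hT1 : Nat.card T ≠ 1 := by
        intro h
        exact hT0 (Subgroup.card_eq_one.1 h)
      obtain ⟨p, hp, hpd⟩ := Nat.exists_prime_and_dvd hT1
      have hpf : Fact p.Prime := ⟨hp⟩
      obtain ⟨P⟩ : Nonempty (Sylow p T) := inferInstance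
      have hPn : (P : Subgroup T).Normal := by
        constructor
        intro x hx g
        have h1 : g * x * g⁻¹ = x := by
          apply Subtype.ext
          push_cast
          rw [← hTc x x.2 g, mul_inv_cancel_right]
        rw [h1]
        exact hx
      set e := (P : Subgroup T).index with he
      have hpe : ¬ p ∣ e := P.not_dvd_index
      have hTe : ∀ t : T, t ^ e ∈ (P : Subgroup T) := fun t => (P : Subgroup T).pow_index_mem t
      set N := (P : Subgroup T).map T.subtype with hN
      have hNT : N ≤ T := Subgroup.map_subtype_le _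
      have hNn : N.Normal := by
        constructor
        intro x hx g
        have h1 : g * x * g⁻¹ = x := by
          rw [← hTc x (hNT hx) g, mul_inv_cancel_right]
        rw [h1]
        exact hx
      have hNp : IsPGroup p N := P.isPGroup'.map _
      have hNbot : N ≠ ⊥ := by
        intro h
        have h1 : (P : Subgroup T) = ⊥ := by
          apply (Subgroup.eq_bot_iff_forall _).2
          intro x hx
          have h2 : (x : G) ∈ N := ⟨x, hx, rfl⟩
          rw [h, mem_bot] at h2
          exact Subtype.ext h2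
        have h2 : e = Nat.card T := by
          rw [he, h1, Subgroup.index_bot]
        exact hpe (h2 ▸ hpd)
      have hlt : Nat.card (G ⧸ N) < n := by
        have h1 : Nat.card G = Nat.card (G ⧸ N) * Nat.card N :=
          Subgroup.card_eq_card_quotient_mul_card_subgroup N
        have h2 : 1 < Nat.card N := (Subgroup.one_lt_card_iff_ne_bot N).2 hNbot
        have h3 : 0 < Nat.card (G ⧸ N) := Nat.card_pos
        rw [← hcard, h1]
        exact lt_mul_of_one_lt_right h3 h2
      -- the quotient by `N`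
      have hfs : Function.Surjective (QuotientGroup.mk' N) := QuotientGroup.mk'_surjective N
      have hK1n : (K.map (QuotientGroup.mk' N)).Normal := Subgroup.Normal.map hKn _ hfs
      have hcomm : ⁅K.map (QuotientGroup.mk' N), (⊤ : Subgroup (G ⧸ N))⁆ =
          T.map (QuotientGroup.mk' N) := by
        rw [← Subgroup.map_top_of_surjective _ hfs, ← map_commutator]
      have hT1n : (T.map (QuotientGroup.mk' N)).Normal := Subgroup.Normal.map hTn _ hfs
      have hcl1 : Closed ((QuotientGroup.mk' N) '' A) := by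
        refine ih _ hlt (G ⧸ N) rfl (K.map (QuotientGroup.mk' N)) ?_ _ ?_ ?_
        · rw [hcomm, ← Subgroup.map_top_of_surjective _ hfs, ← map_commutator, hcen,
            Subgroup.map_bot]
        · rintro _ ⟨x, hx, rfl⟩ _ ⟨c, hc, rfl⟩
          exact ⟨x * c * x⁻¹, hA x hx c hc, by simp⟩
        · refine closed_congr (T.map (QuotientGroup.mk' N)) _ hcomm.symm _ ?_
          refine closed_of_equiv (QuotientGroup.quotientQuotientEquivQuotient N T hNT) _ ?_
          have e : (QuotientGroup.quotientQuotientEquivQuotient N T hNT) ''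
              ((QuotientGroup.mk' (T.map (QuotientGroup.mk' N))) ''
                ((QuotientGroup.mk' N) '' A)) = (QuotientGroup.mk' T) '' A := by
            ext y
            constructor
            · rintro ⟨_, ⟨_, ⟨c, hc, rfl⟩, rfl⟩, rfl⟩
              exact ⟨c, hc, rfl⟩
            · rintro ⟨c, hc, rfl⟩
              exact ⟨_, ⟨_, ⟨c, hc, rfl⟩, rfl⟩, rfl⟩
          rw [e]
          exact hcl
      obtain ⟨m, s, h, c, hmpos, hhN, hper, hstep, hcov, hcardm⟩ := levels N A hcl1
      refine lev_closed A p _ N m s h rfl hNp ⟨hmpos, hhN, hper, ?_, hcov, hcardm, ?_⟩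
      · intro j
        rw [(hstep j).2, inv_mul_cancel_left]
        exact (hstep j).1
      · set L := closure (Lab A N s ∪ {h}) with hL
        have hKc : ∀ k ∈ K, ∀ g : G, k * g * k⁻¹ * g⁻¹ ∈ T := fun k hk g =>
          commutator_mem_commutator hk (mem_top g)
        have hpowc : ∀ k ∈ K, ∀ g : G, ∀ i : ℕ,
            k ^ i * g * (k ^ i)⁻¹ * g⁻¹ = (k * g * k⁻¹ * g⁻¹) ^ i := by
          intro k hk g i
          induction i with
          | zero => simp
          | succ i ih =>
            have h1 : k ^ (i + 1) * g * (k ^ (i + 1))⁻¹ * g⁻¹ =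
                k ^ i * (k * g * k⁻¹ * g⁻¹) * (g * (k ^ i)⁻¹ * g⁻¹) := by
              rw [pow_succ]
              group
            have h2 : k ^ i * (k * g * k⁻¹ * g⁻¹) = (k * g * k⁻¹ * g⁻¹) * k ^ i :=
              (hTc _ (hKc k hk g) _).symm
            have h3 : (k * g * k⁻¹ * g⁻¹) * k ^ i * (g * (k ^ i)⁻¹ * g⁻¹) =
                (k * g * k⁻¹ * g⁻¹) * (k ^ i * g * (k ^ i)⁻¹ * g⁻¹) := by group
            rw [h1, h2, h3, ih, pow_succ']
        have hTeN : ∀ t ∈ T, t ^ e ∈ N := by
          intro t ht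
          exact ⟨⟨t, ht⟩ ^ e, hTe ⟨t, ht⟩, rfl⟩
        -- the elements of the listing
        have hQ1 : ∀ j, ∀ k ∈ K, (k * (s (j + 1) * (s j)⁻¹) * k⁻¹ *
            (s (j + 1) * (s j)⁻¹)⁻¹) ^ e ∈ L := by
          intro j k hk
          apply Subgroup.subset_closure
          left
          refine ⟨hTeN _ (hKc k hk _), j, ?_⟩
          rw [← hpowc k hk]
          rw [(hstep j).2]
          have e1 : (s j)⁻¹ * (k ^ e * (s j * c j * (s j)⁻¹) * (k ^ e)⁻¹ *
              (s j * c j * (s j)⁻¹)⁻¹) * (s j * c j) =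
              ((s j)⁻¹ * k ^ e * s j) * c j * ((s j)⁻¹ * k ^ e * s j)⁻¹ := by group
          rw [e1]
          apply hA _ _ _ (hstep j).1
          have := hKn.conj_mem (k ^ e) (pow_mem hk e) (s j)⁻¹
          rwa [inv_inv] at this
        have hmul : ∀ g g' : G, (∀ k ∈ K, (k * g * k⁻¹ * g⁻¹) ^ e ∈ L) →
            (∀ k ∈ K, (k * g' * k⁻¹ * g'⁻¹) ^ e ∈ L) →
            ∀ k ∈ K, (k * (g * g') * k⁻¹ * (g * g')⁻¹) ^ e ∈ L := by
          intro g g' hg hg' k hk
          have e1 : k * (g * g') * k⁻¹ * (g * g')⁻¹ =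
              (k * g * k⁻¹ * g⁻¹) * (k * g' * k⁻¹ * g'⁻¹) := by
            have h1 : k * (g * g') * k⁻¹ * (g * g')⁻¹ =
                (k * g * k⁻¹ * g⁻¹) * (g * (k * g' * k⁻¹ * g'⁻¹) * g⁻¹) := by group
            rw [h1, ← hTc _ (hKc k hk g') g, mul_inv_cancel_right]
          have hcom : Commute (k * g * k⁻¹ * g⁻¹) (k * g' * k⁻¹ * g'⁻¹) :=
            hTc _ (hKc k hk g) _
          rw [e1, hcom.mul_pow]
          exact mul_mem (hg k hk) (hg' k hk)
        have hQN : ∀ g ∈ N, ∀ k ∈ K, (k * g * k⁻¹ * g⁻¹) ^ e ∈ L := by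
          intro g hg k _
          have e1 : k * g * k⁻¹ * g⁻¹ = 1 := by
            rw [← hTc g (hNT hg) k]
            group
          rw [e1, one_pow]
          exact one_mem L
        have hQs : ∀ j, ∀ k ∈ K, (k * (s j * (s 0)⁻¹) * k⁻¹ * (s j * (s 0)⁻¹)⁻¹) ^ e ∈ L := by
          intro j
          induction j with
          | zero =>
            intro k _
            have e1 : k * (s 0 * (s 0)⁻¹) * k⁻¹ * (s 0 * (s 0)⁻¹)⁻¹ = 1 := by group
            rw [e1, one_pow]
            exact one_mem L
          | succ j ih =>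
            have e1 : s (j + 1) * (s 0)⁻¹ = (s (j + 1) * (s j)⁻¹) * (s j * (s 0)⁻¹) := by group
            rw [e1]
            exact hmul _ _ (hQ1 j) ih
        have hall : ∀ g : G, ∀ k ∈ K, (k * g * k⁻¹ * g⁻¹) ^ e ∈ L := by
          intro g
          obtain ⟨j, _, hj⟩ := hcov (g * s 0)
          have e1 : g = (g * s 0 * (s j)⁻¹) * (s j * (s 0)⁻¹) := by group
          rw [e1]
          exact hmul _ _ (hQN _ hj) (hQs j)
        have hTL : ∀ t ∈ T, t ∈ T ∧ t ^ e ∈ L := by
          intro t ht
          rw [hT, Subgroup.commutator_def] at ht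
          induction ht using Subgroup.closure_induction with
          | mem x hx =>
            obtain ⟨k, hk, g, _, rfl⟩ := hx
            exact ⟨hKc k hk g, hall g k hk⟩
          | one => exact ⟨one_mem T, by rw [one_pow]; exact one_mem L⟩
          | mul x y _ _ hx hy =>
            refine ⟨mul_mem hx.1 hy.1, ?_⟩
            have hcom : Commute x y := hTc x hx.1 y
            rw [hcom.mul_pow]
            exact mul_mem hx.2 hy.2
          | inv x _ hx =>
            refine ⟨inv_mem hx.1, ?_⟩
            rw [inv_pow]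
            exact inv_mem hx.2
        intro x hx
        have hxe := (hTL x (hNT hx)).2
        obtain ⟨r, hr⟩ := hNp ⟨x, hx⟩
        have hr' : x ^ p ^ r = 1 := by
          have := congrArg Subtype.val hr
          simpa using this
        have hcop : IsCoprime (e : ℤ) ((p ^ r : ℕ) : ℤ) := by
          rw [Nat.isCoprime_iff_coprime]
          exact (Nat.Coprime.pow_left r ((Nat.Prime.coprime_iff_not_dvd hp).2 hpe)).symm
        obtain ⟨a, b, hab⟩ := hcop
        have e1 : x = (x ^ e) ^ a := by
          have h1 : x = x ^ (a * e + b * ((p ^ r : ℕ) : ℤ)) := by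
            rw [hab, zpow_one]
          have h2 : x ^ (b * ((p ^ r : ℕ) : ℤ)) = 1 := by
            rw [mul_comm, zpow_mul, zpow_natCast, hr', one_zpow]
          rw [zpow_add, h2, mul_one, mul_comm, zpow_mul, zpow_natCast] at h1
          exact h1
        rw [e1]
        exact Subgroup.zpow_mem _ hxe a

/-- The lifting theorem. -/
theorem thmK : ∀ (n : ℕ) (G : Type u) [Group G] [Finite G] (K : Subgroup G) [K.Normal],
    Nat.card K = n → Group.IsSolvable (⁅K, (⊤ : Subgroup G)⁆ : Subgroup G) →
      ∀ A : Set G, (∀ x ∈ K, ∀ c ∈ A, x * c * x⁻¹ ∈ A) →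
        Closed ((QuotientGroup.mk' ⁅K, (⊤ : Subgroup G)⁆) '' A) → Closed A := by
  intro n
  induction n using Nat.strong_induction_on with
  | _ n ih =>
    intro G _ _ K hKn hcard hsolv A hA hcl
    set T := ⁅K, (⊤ : Subgroup G)⁆ with hT
    have hTn : T.Normal := inferInstance
    have hTK : T ≤ K := Subgroup.commutator_le_left K ⊤
    set M := ⁅T, (⊤ : Subgroup G)⁆ with hM
    have hMn : M.Normal := inferInstance
    have hMT : M ≤ T := Subgroup.commutator_le_left T ⊤
    by_cases hMeq : M = T
    · exact reduction _ G rfl T hsolv (by rw [← hM, hMeq]) A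
        (fun x hx c hc => hA x (hTK hx) c hc) hcl
    · have hTne : T ≠ K := by
        intro h
        apply hMeq
        rw [hM, h, ← hT, h]
      have hlt : Nat.card T < n := by
        rw [← hcard]
        refine lt_of_le_of_ne (Subgroup.card_le_of_le hTK) ?_
        intro h
        exact hTne (Subgroup.eq_of_le_of_card_ge hTK h.ge)
      refine ih _ hlt G T rfl ?_ A (fun x hx c hc => hA x (hTK hx) c hc) ?_
      · exact Group.isSolvable_of_isSolvable_injective (Subgroup.inclusion_injective hMT)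
      · have hfs : Function.Surjective (QuotientGroup.mk' M) := QuotientGroup.mk'_surjective M
        have hK1n : (K.map (QuotientGroup.mk' M)).Normal := Subgroup.Normal.map hKn _ hfs
        have hcomm : ⁅K.map (QuotientGroup.mk' M), (⊤ : Subgroup (G ⧸ M))⁆ =
            T.map (QuotientGroup.mk' M) := by
          rw [← Subgroup.map_top_of_surjective _ hfs, ← map_commutator]
        have hT1n : (T.map (QuotientGroup.mk' M)).Normal := Subgroup.Normal.map hTn _ hfs
        refine central_step _ (G ⧸ M) rfl (K.map (QuotientGroup.mk' M)) ?_ _ ?_ ?_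
        · rw [hcomm, ← Subgroup.map_top_of_surjective _ hfs, ← map_commutator, ← hM]
          rw [Subgroup.map_eq_bot_iff, QuotientGroup.ker_mk']
        · rintro _ ⟨x, hx, rfl⟩ _ ⟨c, hc, rfl⟩
          exact ⟨x * c * x⁻¹, hA x hx c hc, by rw [map_mul, map_mul, map_inv]⟩
        · refine closed_congr (T.map (QuotientGroup.mk' M)) _ hcomm.symm _ ?_
          refine closed_of_equiv (QuotientGroup.quotientQuotientEquivQuotient M T hMT) _ ?_
          have e : (QuotientGroup.quotientQuotientEquivQuotient M T hMT) ''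
              ((QuotientGroup.mk' (T.map (QuotientGroup.mk' M))) ''
                ((QuotientGroup.mk' M) '' A)) = (QuotientGroup.mk' T) '' A := by
            ext y
            constructor
            · rintro ⟨_, ⟨_, ⟨c, hc, rfl⟩, rfl⟩, rfl⟩
              exact ⟨c, hc, rfl⟩
            · rintro ⟨c, hc, rfl⟩
              exact ⟨_, ⟨_, ⟨c, hc, rfl⟩, rfl⟩, rfl⟩
          rw [e]
          exact hcl

/-- The main theorem on symmetric sets. -/
theorem closed_symmetric {G : Type u} [Group G] [Finite G] (K : Subgroup G) [hKn : K.Normal]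
    (hsolv : Group.IsSolvable (⁅K, (⊤ : Subgroup G)⁆ : Subgroup G)) (A : Set G)
    (hne : A.Nonempty)
    (hgen : closure A = ⊤) (hA : ∀ x ∈ K, ∀ c ∈ A, x * c * x⁻¹ ∈ A)
    (hq : (∃ p : ℕ, p.Prime ∧ ∀ g : G, ∃ n : ℕ, g ^ (p ^ n) ∈ ⁅K, (⊤ : Subgroup G)⁆) ∨
      ((∀ a ∈ A, a⁻¹ ∈ A) ∧ ⁅(⊤ : Subgroup G), (⊤ : Subgroup G)⁆ ≤ ⁅K, (⊤ : Subgroup G)⁆)) :
    Closed A := by
  refine thmK _ G K rfl hsolv A hA ?_
  set T := ⁅K, (⊤ : Subgroup G)⁆ with hT
  have hTn : T.Normal := inferInstance
  have hfs : Function.Surjective (QuotientGroup.mk' T) := QuotientGroup.mk'_surjective T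
  have hgen' : closure ((QuotientGroup.mk' T) '' A) = ⊤ := by
    rw [← MonoidHom.map_closure, hgen]
    exact Subgroup.map_top_of_surjective _ hfs
  rcases hq with ⟨p, hp, hpg⟩ | ⟨hinv, hab⟩
  · have hpf : Fact p.Prime := ⟨hp⟩
    obtain ⟨a, ha⟩ := hne
    refine closed_pc p (⊤ : Subgroup (G ⧸ T)) ?_ _ (QuotientGroup.mk' T a) ⟨a, ha, rfl⟩ ?_ ?_
    · rintro ⟨x, _⟩
      obtain ⟨g, rfl⟩ := hfs x
      obtain ⟨n, hn⟩ := hpg g
      refine ⟨n, Subtype.ext ?_⟩
      show (QuotientGroup.mk' T g) ^ (p ^ n) = 1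
      rw [← map_pow]
      exact (QuotientGroup.eq_one_iff _).2 hn
    · intro g
      exact ⟨0, mem_top _⟩
    · have e : {b | b ∈ (QuotientGroup.mk' T) '' A ∧ b * (QuotientGroup.mk' T a)⁻¹ ∈
          (⊤ : Subgroup (G ⧸ T))} = (QuotientGroup.mk' T) '' A := by
        ext b
        exact ⟨fun h => h.1, fun h => ⟨h, mem_top _⟩⟩
      rw [e]
      exact hgen'
  · have hcomm : ∀ x y : G ⧸ T, x * y = y * x := by
      intro x y
      obtain ⟨x, rfl⟩ := hfs x
      obtain ⟨y, rfl⟩ := hfs y
      rw [← map_mul, ← map_mul]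
      apply QuotientGroup.eq.2
      have h1 : y⁻¹ * x⁻¹ * y⁻¹⁻¹ * x⁻¹⁻¹ ∈ T :=
        hab (commutator_mem_commutator (mem_top _) (mem_top _))
      have e : (x * y)⁻¹ * (y * x) = y⁻¹ * x⁻¹ * y⁻¹⁻¹ * x⁻¹⁻¹ := by group
      rw [e]
      exact h1
    let inst : CommGroup (G ⧸ T) := { (inferInstance : Group (G ⧸ T)) with mul_comm := hcomm }
    refine @closed_abelian _ (G ⧸ T) inst _ rfl _ (hne.image _) ?_ hgen'
    rintro _ ⟨c, hc, rfl⟩
    exact ⟨c⁻¹, hinv c hc, by simp⟩

end Pool.Agent.V11180.HamS
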