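import Pool.Agent.V11180.HamRed

set_option autoImplicit false

/-!
# Closed listings for `p`-by-cyclic quotients
-/

namespace Pool.Agent.V11180.HamS

open Subgroup (closure mem_top mem_bot)

universe u

/-- `G` is `p`-by-cyclic and the elements of `A` in one coset generate `G`. -/
theorem closed_pc {G : Type*} [Group G] [Finite G] (p : ℕ) [hp : Fact p.Prime] (N : Subgroup G)
    [hNn : N.Normal] (hNp : IsPGroup p N) (A : Set G) (a : G) (ha : a ∈ A)
    (hcyc : ∀ g : G, ∃ n : ℤ, g * a ^ n ∈ N)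
    (hgen : closure {b | b ∈ A ∧ b * a⁻¹ ∈ N} = ⊤) : Closed A := by
  classical
  set m := Nat.card (G ⧸ N) with hm
  have hmpos : 0 < m := Nat.card_pos
  have hzp : ∀ x : G ⧸ N, x ∈ Subgroup.zpowers (a : G ⧸ N) := by
    intro x
    obtain ⟨g, rfl⟩ := QuotientGroup.mk_surjective x
    obtain ⟨n, hn⟩ := hcyc g
    refine Subgroup.mem_zpowers_iff.2 ⟨-n, ?_⟩
    have h1 : ((g * a ^ n : G) : G ⧸ N) = 1 := (QuotientGroup.eq_one_iff _).2 hn
    rw [QuotientGroup.mk_mul, QuotientGroup.mk_zpow] at h1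
    rw [zpow_neg]
    exact (eq_inv_of_mul_eq_one_left h1).symm
  have hord : orderOf (a : G ⧸ N) = m := orderOf_eq_card_of_forall_mem_zpowers hzp
  have hmN : a ^ m ∈ N := by
    rw [← QuotientGroup.eq_one_iff, QuotientGroup.mk_pow, ← hord, pow_orderOf_eq_one]
  have hdvd : ∀ k : ℕ, a ^ k ∈ N → m ∣ k := by
    intro k hk
    rw [← hord]
    apply orderOf_dvd_of_pow_eq_one
    rw [← QuotientGroup.mk_pow]
    exact (QuotientGroup.eq_one_iff _).2 hk
  have hcov : ∀ g : G, ∃ j < m, g * (a ^ j)⁻¹ ∈ N := by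
    intro g
    obtain ⟨k, hk, hkg⟩ := (mem_powers_iff_mem_range_orderOf (x := (a : G ⧸ N))
      (y := (g : G ⧸ N))).1 (mem_powers_iff_mem_zpowers.2 (hzp g)) |> Finset.mem_image.1
    rw [Finset.mem_range, hord] at hk
    refine ⟨k, hk, ?_⟩
    have h1 : ((g * (a ^ k)⁻¹ : G) : G ⧸ N) = 1 := by
      rw [QuotientGroup.mk_mul, QuotientGroup.mk_inv, QuotientGroup.mk_pow, hkg, mul_inv_cancel]
    exact (QuotientGroup.eq_one_iff _).1 h1
  refine lev_closed A p _ N m (fun j => a ^ j) (a ^ m) rfl hNp ⟨hmpos, hmN, ?_, ?_, hcov,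
    (Subgroup.card_eq_card_quotient_mul_card_subgroup N).symm, ?_⟩
  · intro j
    show a ^ (j + m) = a ^ m * a ^ j
    rw [← pow_add, add_comm]
  · intro j
    show (a ^ j)⁻¹ * a ^ (j + 1) ∈ A
    rw [pow_succ, inv_mul_cancel_left]
    exact ha
  · set L := closure (Lab A N (fun j => a ^ j) ∪ {a ^ m}) with hL
    have hLN : L ≤ N := by
      rw [hL, Subgroup.closure_le]
      rintro d (hd | hd)
      · exact hd.1
      · rw [Set.mem_singleton_iff] at hd
        rw [hd]
        exact hmN
    have hamL : a ^ m ∈ L := Subgroup.subset_closure (Or.inr rfl)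
    have hconj : ∀ x ∈ L, a * x * a⁻¹ ∈ L := by
      intro x hx
      induction hx using Subgroup.closure_induction with
      | mem x hx =>
        rcases hx with ⟨hxN, j, hj⟩ | hx
        · apply Subgroup.subset_closure
          left
          refine ⟨hNn.conj_mem x hxN a, j + 1, ?_⟩
          have e : (a ^ (j + 1))⁻¹ * (a * x * a⁻¹) * a ^ (j + 1 + 1) =
              (a ^ j)⁻¹ * x * a ^ (j + 1) := by
            rw [pow_succ' a j, pow_succ' a (j + 1)]
            group
          show (a ^ (j + 1))⁻¹ * (a * x * a⁻¹) * a ^ (j + 1 + 1) ∈ A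
          rw [e]
          exact hj
        · rw [Set.mem_singleton_iff] at hx
          have e : a * x * a⁻¹ = a ^ m := by
            rw [hx, ← pow_succ', pow_succ, mul_inv_cancel_right]
          rw [e]
          exact hamL
      | one => simp
      | mul x y _ _ hx hy =>
        have e : a * (x * y) * a⁻¹ = (a * x * a⁻¹) * (a * y * a⁻¹) := by group
        rw [e]
        exact mul_mem hx hy
      | inv x _ hx =>
        have e : a * x⁻¹ * a⁻¹ = (a * x * a⁻¹)⁻¹ := by group
        rw [e]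
        exact inv_mem hx
    have hconjk : ∀ k : ℕ, ∀ x ∈ L, a ^ k * x * (a ^ k)⁻¹ ∈ L := by
      intro k
      induction k with
      | zero =>
        intro x hx
        simpa using hx
      | succ k ih =>
        intro x hx
        have e : a ^ (k + 1) * x * (a ^ (k + 1))⁻¹ = a * (a ^ k * x * (a ^ k)⁻¹) * a⁻¹ := by
          rw [pow_succ']
          group
        rw [e]
        exact hconj _ (ih x hx)
    have hform : ∀ x : G, ∃ c ∈ L, ∃ k : ℕ, x = c * a ^ k := by
      intro x
      have hx : x ∈ closure {b | b ∈ A ∧ b * a⁻¹ ∈ N} := by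
        rw [hgen]
        trivial
      induction hx using Subgroup.closure_induction with
      | mem x hx =>
        refine ⟨x * a⁻¹, Subgroup.subset_closure (Or.inl ⟨hx.2, 0, ?_⟩), 1, by group⟩
        show (a ^ 0)⁻¹ * (x * a⁻¹) * a ^ (0 + 1) ∈ A
        have e : (a ^ 0)⁻¹ * (x * a⁻¹) * a ^ (0 + 1) = x := by
          simp
        rw [e]
        exact hx.1
      | one => exact ⟨1, one_mem L, 0, by simp⟩
      | mul x y _ _ hx hy =>
        obtain ⟨c, hc, k, hk⟩ := hx
        obtain ⟨c', hc', k', hk'⟩ := hy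
        refine ⟨c * (a ^ k * c' * (a ^ k)⁻¹), mul_mem hc (hconjk k c' hc'), k + k', ?_⟩
        rw [hk, hk', pow_add]
        group
      | inv x _ hx =>
        obtain ⟨c, hc, k, hk⟩ := hx
        obtain ⟨l, hl⟩ : ∃ l : ℕ, a ^ l = (a ^ k)⁻¹ := by
          refine ⟨k * (orderOf a - 1), ?_⟩
          rw [eq_inv_iff_mul_eq_one, ← pow_add]
          have h1 : 0 < orderOf a := orderOf_pos a
          have e : k * (orderOf a - 1) + k = orderOf a * k := by
            obtain ⟨o, ho⟩ : ∃ o, orderOf a = o + 1 := ⟨orderOf a - 1, by omega⟩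
            rw [ho]
            simp only [Nat.add_sub_cancel]
            ring
          rw [e, pow_mul, pow_orderOf_eq_one, one_pow]
        refine ⟨a ^ l * c⁻¹ * (a ^ l)⁻¹, hconjk l _ (inv_mem hc), l, ?_⟩
        rw [hk, hl]
        group
    intro r hr
    obtain ⟨c, hc, k, hk⟩ := hform r
    have hkN : a ^ k ∈ N := by
      have : a ^ k = c⁻¹ * r := by
        rw [hk]
        group
      rw [this]
      exact mul_mem (inv_mem (hLN hc)) hr
    obtain ⟨q, rfl⟩ := hdvd k hkN
    rw [hk, pow_mul]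
    exact mul_mem hc (pow_mem hamL q)

/-- The general statement. -/
theorem closed_general {G : Type u} [Group G] [Finite G] (S K : Subgroup G) [hS : S.Normal]
    [hK : K.Normal] (hSsolv : Group.IsSolvable S)
    (hSG : S ≤ ⁅S, (⊤ : Subgroup G)⁆) (p : ℕ) (hp : p.Prime)
    (hKp : ∀ k ∈ K, ∃ n : ℕ, k ^ (p ^ n) ∈ S) (A : Set G)
    (hA : ∀ x ∈ S, ∀ c ∈ A, x * c * x⁻¹ ∈ A) (a : G) (ha : a ∈ A)
    (hcyc : ∀ g : G, ∃ n : ℤ, g * a ^ n ∈ K)
    (hgen : closure {b | b ∈ A ∧ b * a⁻¹ ∈ K} = ⊤) : Closed A := by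
  have hpf : Fact p.Prime := ⟨hp⟩
  refine reduction _ G rfl S hSsolv hSG A hA ?_
  set f := QuotientGroup.mk' S with hf
  have hfs : Function.Surjective f := QuotientGroup.mk'_surjective S
  have hKn : (K.map f).Normal := Subgroup.Normal.map hK f hfs
  refine closed_pc p (K.map f) ?_ (f '' A) (f a) ⟨a, ha, rfl⟩ ?_ ?_
  · rintro ⟨_, k, hk, rfl⟩
    obtain ⟨n, hn⟩ := hKp k hk
    refine ⟨n, Subtype.ext ?_⟩
    show (f k) ^ (p ^ n) = 1
    rw [← map_pow]
    exact (QuotientGroup.eq_one_iff _).2 hn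
  · intro g
    obtain ⟨g, rfl⟩ := hfs g
    obtain ⟨n, hn⟩ := hcyc g
    exact ⟨n, g * a ^ n, hn, by simp⟩
  · apply top_le_iff.1
    have h1 : (closure {b | b ∈ A ∧ b * a⁻¹ ∈ K}).map f ≤
        closure {b | b ∈ f '' A ∧ b * (f a)⁻¹ ∈ K.map f} := by
      rw [MonoidHom.map_closure]
      apply Subgroup.closure_mono
      rintro _ ⟨b, ⟨hb1, hb2⟩, rfl⟩
      exact ⟨⟨b, hb1, rfl⟩, b * a⁻¹, hb2, by simp⟩
    rw [hgen, Subgroup.map_top_of_surjective f hfs] at h1
    exact h1

/-- A closed listing as a list with trivial product. -/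
theorem list_of_closed {G : Type*} [Group G] [Finite G] (A : Set G) (h : Closed A) :
    ∃ l : List G, l.length = Nat.card G ∧ (∀ x ∈ l, x ∈ A) ∧
      Set.InjOn (fun k : ℕ => (l.take k).prod) (Set.Icc 1 (Nat.card G)) ∧ l.prod = 1 := by
  classical
  obtain ⟨s, h1, h2, h3⟩ := h
  have hprod : ∀ k, ((List.range k).map (fun j => (s j)⁻¹ * s (j + 1))).prod =
      (s 0)⁻¹ * s k := by
    intro k
    induction k with
    | zero => simp
    | succ k ih =>
      rw [List.range_succ, List.map_append, List.prod_append, ih]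
      simp [mul_assoc]
  have hinj : Set.InjOn s (Finset.range (Nat.card G) : Set ℕ) := by
    have := Fintype.ofFinite G
    have hsurj : Set.SurjOn s (Finset.range (Nat.card G) : Set ℕ) (Finset.univ : Finset G) := by
      intro g _
      obtain ⟨j, hj, hjg⟩ := h3 g
      exact ⟨j, by simpa using hj, hjg⟩
    apply Finset.injOn_of_surjOn_of_card_le s (fun _ _ => Finset.mem_univ _) hsurj
    rw [Finset.card_range, Finset.card_univ, Nat.card_eq_fintype_card]
  have hpos : 0 < Nat.card G := Nat.card_pos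
  have hs0 : s (Nat.card G) = s 0 := by
    have := h1 0
    rwa [zero_add] at this
  refine ⟨(List.range (Nat.card G)).map (fun j => (s j)⁻¹ * s (j + 1)), by simp, ?_, ?_, ?_⟩
  · intro x hx
    rw [List.mem_map] at hx
    obtain ⟨k, _, rfl⟩ := hx
    exact h2 k
  · intro i hi j hj hij
    have htake : ∀ k, k ≤ Nat.card G →
        (((List.range (Nat.card G)).map (fun j => (s j)⁻¹ * s (j + 1))).take k).prod =
        (s 0)⁻¹ * s k := by
      intro k hk
      rw [← List.map_take, List.take_range, min_eq_left hk, hprod]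
    have hij' : (s 0)⁻¹ * s i = (s 0)⁻¹ * s j := by
      rw [← htake i hi.2, ← htake j hj.2]
      exact hij
    have h4 : s i = s j := mul_left_cancel hij'
    -- reduce the index `n` to `0`
    have hred : ∀ k, 1 ≤ k → k ≤ Nat.card G → s k = s (k % Nat.card G) := by
      intro k hk1 hk2
      rcases Nat.lt_or_ge k (Nat.card G) with h | h
      · rw [Nat.mod_eq_of_lt h]
      · have : k = Nat.card G := le_antisymm hk2 h
        rw [this, Nat.mod_self, hs0]
    rw [hred i hi.1 hi.2, hred j hj.1 hj.2] at h4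
    have h5 := hinj (by simpa using Nat.mod_lt i hpos) (by simpa using Nat.mod_lt j hpos) h4
    have hi1 := hi.1
    have hi2 := hi.2
    have hj1 := hj.1
    have hj2 := hj.2
    rcases Nat.lt_or_ge i (Nat.card G) with hlt | hge
    · rw [Nat.mod_eq_of_lt hlt] at h5
      rcases Nat.lt_or_ge j (Nat.card G) with hlt' | hge'
      · rwa [Nat.mod_eq_of_lt hlt'] at h5
      · have : j = Nat.card G := le_antisymm hj2 hge'
        rw [this, Nat.mod_self] at h5
        omega
    · have hie : i = Nat.card G := le_antisymm hi2 hge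
      rw [hie, Nat.mod_self] at h5
      rcases Nat.lt_or_ge j (Nat.card G) with hlt' | hge'
      · rw [Nat.mod_eq_of_lt hlt'] at h5
        omega
      · omega
  · rw [hprod, hs0, inv_mul_cancel]

end Pool.Agent.V11180.HamS
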