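import Mathlib

set_option autoImplicit false

/-!
# Maximal subgroups of finite `p`-groups: the selection lemma
-/

namespace Pool.Agent.V11180.HamS

open Subgroup (closure mem_top mem_bot)

section sel

variable {P : Type*} [Group P] [Finite P] {p : ℕ}

/-- A maximal subgroup of a `p`-group is normal of index `p`. -/
lemma coatom_facts [hp : Fact p.Prime] (hP : IsPGroup p P) (M : Subgroup P) (hM : IsCoatom M) :
    M.Normal ∧ (∀ x : P, x ^ p ∈ M) ∧ (∀ x y : P, x * y * x⁻¹ * y⁻¹ ∈ M) := by
  have hnil : Group.IsNilpotent P := hP.isNilpotent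
  have hMn : M.Normal := Subgroup.NormalizerCondition.normal_of_coatom M
    Group.normalizerCondition_of_isNilpotent hM
  obtain ⟨k, hk⟩ := IsPGroup.iff_card.1 hP
  obtain ⟨n, hn⟩ := IsPGroup.iff_card.1 (hP.to_subgroup M)
  have hlt : n < k := by
    by_contra hcon
    push Not at hcon
    apply hM.1
    apply Subgroup.eq_top_of_card_eq
    apply le_antisymm
    · exact Subgroup.card_le_card_group M
    · rw [hk, hn]
      exact Nat.pow_le_pow_right hp.out.pos hcon
  have hidx : M.index = p := by
    obtain ⟨K, hK1, hK2⟩ := Sylow.exists_subgroup_card_pow_succ (G := P) (p := p) (n := n)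
      (by rw [hk]; exact pow_dvd_pow p (by omega)) hn
    have hKtop : K = ⊤ := by
      apply hM.2 K
      refine lt_of_le_of_ne hK2 ?_
      intro h
      rw [← h, hn] at hK1
      have := Nat.pow_right_injective hp.out.two_le hK1
      omega
    have h1 : Nat.card M * M.index = Nat.card P := Subgroup.card_mul_index M
    rw [hKtop, Subgroup.card_top] at hK1
    rw [hK1, hn, pow_succ] at h1
    exact Nat.eq_of_mul_eq_mul_left (Nat.pow_pos hp.out.pos) h1
  refine ⟨hMn, ?_, ?_⟩
  · intro x
    rw [← hidx]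
    exact M.pow_index_mem x
  · intro x y
    have hcard : Nat.card (P ⧸ M) = p := hidx
    have hcyc : IsCyclic (P ⧸ M) := isCyclic_of_prime_card hcard
    have h1 : (x : P ⧸ M) * y = y * x :=
      (IsCyclic.isMulCommutative (α := P ⧸ M)).is_comm.comm _ _
    have h2 : ((x * y * x⁻¹ * y⁻¹ : P) : P ⧸ M) = 1 := by
      rw [QuotientGroup.mk_mul, QuotientGroup.mk_mul, QuotientGroup.mk_mul, h1]
      simp
    exact (QuotientGroup.eq_one_iff _).1 h2

lemma frattini_facts [hp : Fact p.Prime] (hP : IsPGroup p P) :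
    (∀ x : P, x ^ p ∈ frattini P) ∧ (∀ x y : P, x * y * x⁻¹ * y⁻¹ ∈ frattini P) := by
  have key : ∀ z : P, (∀ M : Subgroup P, IsCoatom M → z ∈ M) → z ∈ frattini P := by
    intro z hz
    rw [frattini, Order.radical, Subgroup.mem_iInf]
    intro M
    rw [Subgroup.mem_iInf]
    intro hM
    exact hz M hM
  exact ⟨fun x => key _ fun M hM => (coatom_facts hP M hM).2.1 x,
    fun x y => key _ fun M hM => (coatom_facts hP M hM).2.2 x y⟩

/-- The selection lemma. -/
lemma sel [hp : Fact p.Prime] (hP : IsPGroup p P) (S : Set P) (h : P) (hh : h ∉ frattini P)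
    (hgen : closure (S ∪ {h}) = ⊤) :
    ∃ R : Subgroup P, R.Normal ∧ h ^ p ∈ R ∧ h ∉ R ∧ (∀ x : P, ∃ k < p, x * (h ^ k)⁻¹ ∈ R) ∧
      Nat.card P = p * Nat.card R ∧ closure ((S ∩ R) ∪ {h}) = ⊤ := by
  classical
  obtain ⟨F1, F2⟩ := frattini_facts hP
  set F := frattini P with hF
  obtain ⟨Q, ⟨hFQ, hhQ, hQS⟩, hmax⟩ := WellFounded.has_min
    (wellFounded_gt : WellFounded ((· > ·) : Subgroup P → Subgroup P → Prop))
    {Q : Subgroup P | F ≤ Q ∧ h ∉ Q ∧ Q ≤ closure (S ∩ Q) ⊔ F} ⟨F, le_rfl, hh, le_sup_right⟩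
  have hQn : Q.Normal := by
    constructor
    intro n hn g
    have e : g * n * g⁻¹ = (g * n * g⁻¹ * n⁻¹) * n := by group
    rw [e]
    exact mul_mem (hFQ (F2 g n)) hn
  have hStop : ∀ s ∈ S, s ∈ Q ⊔ Subgroup.zpowers h := by
    intro s hs
    by_contra hcon
    have hsQ : s ∉ Q := fun hx => hcon (Subgroup.mem_sup_left hx)
    apply hmax (Q ⊔ Subgroup.zpowers s)
    · refine ⟨hFQ.trans le_sup_left, ?_, ?_⟩
      · intro hmem
        rw [Subgroup.mem_sup_of_normal_left] at hmem
        obtain ⟨q, hq, z, hz, hqz⟩ := hmem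
        obtain ⟨k, rfl⟩ := Subgroup.mem_zpowers_iff.1 hz
        have hsp : s ^ p ∈ Q := hFQ (F1 s)
        by_cases hk : (p : ℤ) ∣ k
        · obtain ⟨c, rfl⟩ := hk
          apply hhQ
          rw [← hqz]
          refine mul_mem hq ?_
          rw [zpow_mul, zpow_natCast]
          exact Subgroup.zpow_mem _ hsp c
        · have hcop : IsCoprime (k : ℤ) (p : ℤ) := by
            rw [isCoprime_comm]
            exact (Nat.prime_iff_prime_int.1 hp.out).irreducible.coprime_iff_not_dvd.2 hk
          obtain ⟨a, b, hab⟩ := hcop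
          apply hcon
          have e : s = (s ^ k) ^ a * (s ^ p) ^ b := by
            rw [← zpow_mul, ← zpow_natCast s p, ← zpow_mul, ← zpow_add]
            have : k * a + (p : ℤ) * b = 1 := by linarith
            rw [this, zpow_one]
          rw [e]
          refine mul_mem (Subgroup.zpow_mem _ ?_ a)
            (Subgroup.zpow_mem _ (Subgroup.mem_sup_left hsp) b)
          have e2 : s ^ k = q⁻¹ * h := by
            rw [← hqz]
            group
          rw [e2]
          exact mul_mem (Subgroup.mem_sup_left (inv_mem hq))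
            (Subgroup.mem_sup_right (Subgroup.mem_zpowers h))
      · refine sup_le ?_ ?_
        · refine hQS.trans (sup_le_sup_right (Subgroup.closure_mono ?_) F)
          intro x hx
          exact ⟨hx.1, Subgroup.mem_sup_left hx.2⟩
        · rw [Subgroup.zpowers_le]
          exact Subgroup.mem_sup_left (Subgroup.subset_closure
            ⟨hs, Subgroup.mem_sup_right (Subgroup.mem_zpowers s)⟩)
    · refine lt_of_le_of_ne le_sup_left ?_
      intro heq
      apply hsQ
      rw [heq]
      exact Subgroup.mem_sup_right (Subgroup.mem_zpowers s)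
  have htop : Q ⊔ Subgroup.zpowers h = ⊤ := by
    apply top_le_iff.1
    rw [← hgen, Subgroup.closure_le]
    rintro x (hx | hx)
    · exact hStop x hx
    · rw [Set.mem_singleton_iff] at hx
      subst hx
      exact Subgroup.mem_sup_right (Subgroup.mem_zpowers _)
  have hhp : h ^ p ∈ Q := hFQ (F1 h)
  refine ⟨Q, hQn, hhp, hhQ, ?_, ?_, ?_⟩
  · intro x
    have hx : x ∈ Q ⊔ Subgroup.zpowers h := by
      rw [htop]
      trivial
    rw [Subgroup.mem_sup_of_normal_left] at hx
    obtain ⟨q, hq, z, hz, rfl⟩ := hx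
    obtain ⟨k, rfl⟩ := Subgroup.mem_zpowers_iff.1 hz
    have hp0 : (p : ℤ) ≠ 0 := by
      exact_mod_cast hp.out.ne_zero
    refine ⟨(k % p).toNat, ?_, ?_⟩
    · have h1 := Int.emod_lt_of_pos k (by exact_mod_cast hp.out.pos : (0 : ℤ) < p)
      have h2 := Int.emod_nonneg k hp0
      omega
    · have h2 := Int.emod_nonneg k hp0
      have e : (h ^ (k % p).toNat) = h ^ (k % p) := by
        rw [← zpow_natCast, Int.toNat_of_nonneg h2]
      rw [e]
      have e2 : q * h ^ k * (h ^ (k % p))⁻¹ = q * (h ^ p) ^ (k / p) := by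
        rw [mul_assoc, ← zpow_neg, ← zpow_add, ← zpow_natCast h p, ← zpow_mul]
        congr 2
        have := Int.emod_add_mul_ediv k p
        linarith
      rw [e2]
      exact mul_mem hq (Subgroup.zpow_mem _ hhp _)
  · have hord : orderOf (h : P ⧸ Q) = p := by
      apply orderOf_eq_prime
      · rw [← QuotientGroup.mk_pow]
        exact (QuotientGroup.eq_one_iff _).2 hhp
      · intro hcon
        exact hhQ ((QuotientGroup.eq_one_iff _).1 hcon)
    have hcard : orderOf (h : P ⧸ Q) = Nat.card (P ⧸ Q) := by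
      apply orderOf_eq_card_of_forall_mem_zpowers
      intro x
      obtain ⟨x, rfl⟩ := QuotientGroup.mk_surjective x
      have hx : x ∈ Q ⊔ Subgroup.zpowers h := by
        rw [htop]
        trivial
      rw [Subgroup.mem_sup_of_normal_left] at hx
      obtain ⟨q, hq, z, hz, rfl⟩ := hx
      obtain ⟨k, rfl⟩ := Subgroup.mem_zpowers_iff.1 hz
      refine Subgroup.mem_zpowers_iff.2 ⟨k, ?_⟩
      rw [QuotientGroup.mk_mul, (QuotientGroup.eq_one_iff q).2 hq, one_mul, QuotientGroup.mk_zpow]
    rw [Subgroup.card_eq_card_quotient_mul_card_subgroup Q, ← hcard, hord]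
  · apply frattini_nongenerating
    apply top_le_iff.1
    rw [← htop]
    refine sup_le ?_ ?_
    · refine hQS.trans (sup_le_sup_right (Subgroup.closure_mono ?_) F)
      exact Set.subset_union_left
    · rw [Subgroup.zpowers_le]
      exact Subgroup.mem_sup_left (Subgroup.subset_closure (Or.inr rfl))

end sel

end Pool.Agent.V11180.HamS
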